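import Pool.Agent.ES38.SE
open Set Real
open scoped ContDiff
namespace Pool.Agent.ES38

theorem cnt_SE (C k : ℕ) (hk : 2 ≤ k) {M ν : ℕ → ℝ} (hM : ∀ N, 1 ≤ M N) (hν : ∀ N, 0 < ν N)
    (hν1 : ∀ N, ν N ≤ 1) {X e : ℝ} (hX : 0 ≤ X) (he : 0 < e) (h : SE X (fun N => M N / ν N)) :
    SE (X / (k - 1) + e) (fun N => (cnt C k (M N) (ν N) : ℝ)) := by
  have hk' : (0 : ℝ) < (k : ℝ) - 1 := by
    have : (2 : ℝ) ≤ k := by exact_mod_cast hk
    linarith
  have h1 : ∀ N, 1 ≤ M N / ν N := fun N => by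
    rw [le_div_iff₀ (hν N)]
    have := hM N
    have := hν1 N
    linarith
  have h0 : ∀ N, 0 < M N / ν N := fun N => lt_of_lt_of_le one_pos (h1 N)
  have hθ : (0 : ℝ) ≤ 1 / ((k : ℝ) - 1) := by positivity
  have a1 := h.rpow (fun N => (h0 N).le) hθ
  have a2 : SE (0 + 1 / ((k : ℝ) - 1) * X) (fun N => (C : ℝ) * (M N / ν N) ^ (1 / ((k : ℝ) - 1))) :=
    (SE.const (C : ℝ) le_rfl).mul a1 (fun N => Real.rpow_nonneg (h0 N).le _)
  have a3 := h.log h0 he
  have a4 := a2.mul a3 (fun N => by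
    have := Real.log_nonneg (h1 N)
    positivity)
  have a5 := a4.ceil (fun N => by
    have := Real.log_nonneg (h1 N)
    have := Real.rpow_nonneg (h0 N).le (1 / ((k : ℝ) - 1))
    positivity) (by positivity)
  refine a5.mono (le_of_eq ?_)
  ring

/-- Parameters as functions of the number `N` of blocks. -/
structure Par (e a l E : ℝ) (r U Mq ρ : ℕ → ℝ) : Prop where
  he : 0 < e
  ha : 0 ≤ a
  hl : 0 ≤ l
  hE : E = Real.exp l
  r0 : ∀ N, 0 < r N
  U0 : ∀ N, 0 ≤ U N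
  M1 : ∀ N, 1 ≤ Mq N
  ρ0 : ∀ N, 0 < ρ N
  ρ1 : ∀ N, ρ N ≤ 1
  hr : SE e (fun N => 1 / r N)
  hU : SE e U
  hM : SE e Mq
  hρ : SE a (fun N => 1 / ρ N)

variable {e a l E : ℝ} {r U Mq ρ : ℕ → ℝ}

theorem Par.E1 (h : Par e a l E r U Mq ρ) : 1 ≤ E := by
  rw [h.hE]
  exact Real.one_le_exp h.hl

theorem Par.EN (h : Par e a l E r U Mq ρ) : SE l (fun N => E ^ N) := by
  refine ⟨1, one_pos, fun N => ?_⟩
  beta_reduce
  rw [h.hE, ← Real.exp_nat_mul, one_mul, mul_comm]

theorem Par.sNum_SE (h : Par e a l E r U Mq ρ) (CD Cl k l0 : ℕ) (hk : 2 ≤ k) (hCl : 1 ≤ Cl) :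
    SE (4 * e + (e + a + l * (l0 + 1)) / (k - 1))
      (fun N => (sNum CD Cl k l0 N E (r N) (U N) (Mq N) (ρ N) : ℝ)) := by
  have hk' : (0 : ℝ) < (k : ℝ) - 1 := by
    have : (2 : ℝ) ≤ k := by exact_mod_cast hk
    linarith
  have he := h.he
  have hE1 := h.E1
  have hCl' : (1 : ℝ) ≤ Cl := by exact_mod_cast hCl
  -- floor part
  have b1 : SE e (fun N => U N + 1) := h.hU.add (SE.const 1 he.le)
  have b2 : SE (0 + e) (fun N => ((CD : ℝ) * Cl) * (U N + 1)) :=
    (SE.const _ le_rfl).mul b1 (fun N => by linarith [h.U0 N])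
  have b3 := b2.mul h.hr (fun N => by
    have := h.r0 N
    positivity)
  have b4 := b3.mul h.hr (fun N => by
    have := h.r0 N
    positivity)
  have b5 : SE (3 * e) (fun N => (⌊CD * (U N + 1) / (r N * (r N / Cl))⌋₊ : ℝ)) := by
    refine SE.floor ?_ (fun N => ?_)
    · refine (b4.mono (by linarith)).of_le (fun N => le_of_eq ?_)
      have := h.r0 N
      field_simp
    · have := h.r0 N
      have := h.U0 N
      positivity
  -- counting part
  have c1 : SE (e + a + l + l0 * (0 + l)) (fun N => Mq N * (1 / ρ N) * E ^ N * (5 * E ^ N) ^ l0) := by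
    have d1 := h.hM.mul h.hρ (fun N => by
      have := h.ρ0 N
      positivity)
    have d2 := d1.mul h.EN (fun N => by positivity)
    have d3 : SE (0 + l) (fun N => 5 * E ^ N) :=
      (SE.const 5 le_rfl).mul h.EN (fun N => by positivity)
    have d4 := d3.pow (fun N => by positivity) l0
    exact d2.mul d4 (fun N => by positivity)
  have c2 : SE (e + a + l * (l0 + 1)) (fun N => Mq N / (ρ N / E ^ N / (5 * E ^ N) ^ l0)) := by
    refine (c1.mono (by linarith)).of_le (fun N => le_of_eq ?_)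
    have := h.ρ0 N
    field_simp
  have c3 := cnt_SE Cl k hk h.M1 (ν := fun N => ρ N / E ^ N / (5 * E ^ N) ^ l0)
    (fun N => by
      have := h.ρ0 N
      positivity)
    (fun N => by
      have h1 := h.ρ0 N
      have h2 := h.ρ1 N
      have h3 : 1 ≤ E ^ N := one_le_pow₀ hE1
      have h4 : 1 ≤ (5 * E ^ N) ^ l0 := one_le_pow₀ (by linarith)
      have h5 : ρ N / E ^ N ≤ ρ N := div_le_self h1.le h3
      have h6 : ρ N / E ^ N / (5 * E ^ N) ^ l0 ≤ ρ N / E ^ N :=
        div_le_self (by positivity) h4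
      linarith)
    (by
      have := h.ha
      have := h.hl
      positivity) he c2
  have f1 := b5.mul c3 (fun N => by positivity)
  refine (f1.mono ?_).of_le (fun N => le_of_eq ?_)
  · linarith
  · simp only [sNum]
    push_cast
    ring

theorem c0_le (k : ℕ) (hk : 2 ≤ k) (hE : 1 ≤ E) :
    (⌈(2 * E) ^ ((1 : ℝ) / k)⌉₊ : ℝ) ≤ 4 * E ^ ((1 : ℝ) / k) := by
  have hk' : (0 : ℝ) < (k : ℝ) := by positivity
  have h1 : (1 : ℝ) ≤ (2 * E) ^ ((1 : ℝ) / k) := Real.one_le_rpow (by linarith) (by positivity)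
  have h2 : (2 * E) ^ ((1 : ℝ) / k) ≤ 2 * E ^ ((1 : ℝ) / k) := by
    rw [Real.mul_rpow (by norm_num) (by linarith)]
    have h3 : (2 : ℝ) ^ ((1 : ℝ) / k) ≤ 2 ^ (1 : ℝ) := by
      apply Real.rpow_le_rpow_of_exponent_le (by norm_num)
      rw [div_le_one hk']
      exact_mod_cast (by omega : 1 ≤ k)
    rw [Real.rpow_one] at h3
    exact mul_le_mul_of_nonneg_right h3 (Real.rpow_nonneg (by linarith) _)
  have h4 := (Nat.ceil_lt_add_one (by linarith : (0 : ℝ) ≤ (2 * E) ^ ((1 : ℝ) / k))).le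
  linarith

theorem Par.Rfac_SE (h : Par e a l E r U Mq ρ) (CD Cl CL k l0 : ℕ) (hk : 2 ≤ k)
    (hCl : 1 ≤ Cl) (hCL : 1 ≤ CL) :
    SE (11 * e + Real.log (4 * CL) + 2 * (l / k) + 2 * ((e + a + l * (l0 + 1)) / (k - 1)))
      (fun N => Rfac N ⌈2 * U N / r N + 7⌉₊ CL ⌈(2 * E) ^ ((1 : ℝ) / k)⌉₊
        (sNum CD Cl k l0 N E (r N) (U N) (Mq N) (ρ N))
        ⌈(33 * E ^ N) ^ ((1 : ℝ) / k)⌉₊ k) := by
  have hk' : (0 : ℝ) < (k : ℝ) - 1 := by
    have : (2 : ℝ) ≤ k := by exact_mod_cast hk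
    linarith
  have hk0 : (0 : ℝ) < (k : ℝ) := by linarith
  have he := h.he
  have hE1 := h.E1
  have hE0 : 0 < E := by linarith
  have hCL' : (1 : ℝ) ≤ CL := by exact_mod_cast hCL
  have ha := h.ha
  have hl := h.hl
  set X : ℝ := (e + a + l * (l0 + 1)) / (k - 1) with hX
  have hX0 : 0 ≤ X := by positivity
  have hlog : 0 ≤ Real.log (4 * CL) := Real.log_nonneg (by linarith)
  -- factors
  have f1 : SE e (fun N : ℕ => ((N : ℝ) + 1)) := (SE.natCast he).add (SE.const 1 he.le)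
  have f2 : SE (2 * e) (fun N => ((⌈2 * U N / r N + 7⌉₊ : ℝ) + 1)) := by
    have g1 : SE (0 + e) (fun N => 2 * U N) := (SE.const 2 le_rfl).mul h.hU h.U0
    have g2 := g1.mul h.hr (fun N => by
      have := h.r0 N
      positivity)
    have g3 : SE (2 * e) (fun N => 2 * U N / r N + 7) :=
      ((g2.mono (by linarith)).of_le (fun N => le_of_eq (by rw [mul_one_div]))).add
        (SE.const 7 (by positivity))
    exact (g3.ceil (fun N => by
      have := h.r0 N
      have := h.U0 N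
      positivity) (by positivity)).add (SE.const 1 (by positivity))
  have f3 : SE (Real.log (4 * CL) + l / k)
      (fun N => ((((CL * ⌈(2 * E) ^ ((1 : ℝ) / k)⌉₊) ^ N + 1 : ℕ) : ℝ))) := by
    have g1 : SE (Real.log (4 * CL) + l / k)
        (fun N => ((CL : ℝ) * (⌈(2 * E) ^ ((1 : ℝ) / k)⌉₊ : ℝ)) ^ N) := by
      refine ⟨1, one_pos, fun N => ?_⟩
      have g2 : (CL : ℝ) * (⌈(2 * E) ^ ((1 : ℝ) / k)⌉₊ : ℝ) ≤
          Real.exp (Real.log (4 * CL) + l / k) := by
        rw [Real.exp_add, Real.exp_log (by linarith)]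
        have g3 := c0_le k hk hE1
        have g4 : E ^ ((1 : ℝ) / k) = Real.exp (l / k) := by
          rw [h.hE, ← Real.exp_mul]
          congr 1
          ring
        rw [g4] at g3
        calc (CL : ℝ) * (⌈(2 * E) ^ ((1 : ℝ) / k)⌉₊ : ℝ) ≤ CL * (4 * Real.exp (l / k)) :=
              mul_le_mul_of_nonneg_left g3 (by linarith)
          _ = _ := by ring
      have g5 := pow_le_pow_left₀ (by positivity) g2 N
      refine g5.trans (le_of_eq ?_)
      rw [← Real.exp_nat_mul, one_mul, mul_comm]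
    have g6 := g1.add (SE.const 1 (by positivity : (0 : ℝ) ≤ Real.log (4 * CL) + l / k))
    refine g6.of_le (fun N => le_of_eq ?_)
    push_cast
    ring
  have hs := h.sNum_SE CD Cl k l0 hk hCl
  rw [← hX] at hs
  have f4 : SE (4 * e + X) (fun N => (sNum CD Cl k l0 N E (r N) (U N) (Mq N) (ρ N) : ℝ) + 1) :=
    hs.add (SE.const 1 (by positivity))
  have f5 : SE (l / k) (fun N => ((⌈(33 * E ^ N) ^ ((1 : ℝ) / k)⌉₊ : ℝ) + 1)) := by
    have g1 : SE (0 + l) (fun N => 33 * E ^ N) :=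
      (SE.const 33 le_rfl).mul h.EN (fun N => by positivity)
    have g2 := g1.rpow (fun N => by positivity) (by positivity : (0 : ℝ) ≤ (1 : ℝ) / k)
    have g3 : SE (l / k) (fun N => (33 * E ^ N) ^ ((1 : ℝ) / k)) := g2.mono (by
      apply le_of_eq
      ring)
    exact (g3.ceil (fun N => Real.rpow_nonneg (by positivity) _) (by positivity)).add
      (SE.const 1 (by positivity))
  have f6 : SE (4 * e + X) (fun N => 1 + (k : ℝ) *
      (sNum CD Cl k l0 N E (r N) (U N) (Mq N) (ρ N) : ℝ)) := by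
    have g1 := (SE.const (k : ℝ) le_rfl).mul hs (fun N => Nat.cast_nonneg _)
    have g2 := (SE.const 1 (by positivity : (0 : ℝ) ≤ 4 * e + X)).add (g1.mono (by linarith))
    exact g2
  have g1 := (SE.const 2 (le_refl (0 : ℝ))).mul f1 (fun N => by positivity)
  have g2 := g1.mul f2 (fun N => by positivity)
  have g3 := g2.mul f3 (fun N => by positivity)
  have g4 := g3.mul f4 (fun N => by positivity)
  have g5 := g4.mul f5 (fun N => by positivity)
  have g6 := g5.mul f6 (fun N => by positivity)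
  refine (g6.mono ?_).of_le (fun N => le_of_eq ?_)
  · linarith
  · simp only [Rfac]

theorem Par.bNum_SE (h : Par e a l E r U Mq ρ) (CD Cl CL k l0 : ℕ) (hk : 2 ≤ k)
    (hCl : 1 ≤ Cl) (hCL : 1 ≤ CL) :
    SE ((l0 + 1) * (11 * e + Real.log (4 * CL) + 2 * (l / k) +
        2 * ((e + a + l * (l0 + 1)) / (k - 1))) + l / 2 ^ l0)
      (fun N => bNum CD Cl CL k l0 N E (r N) (U N) (Mq N) (ρ N)) := by
  have hE1 := h.E1
  have hl := h.hl
  have he := h.he
  have ha := h.ha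
  have hk' : (0 : ℝ) < (k : ℝ) - 1 := by
    have : (2 : ℝ) ≤ k := by exact_mod_cast hk
    linarith
  have hk0 : (0 : ℝ) < (k : ℝ) := by linarith
  have hCL' : (1 : ℝ) ≤ CL := by exact_mod_cast hCL
  have hlog : 0 ≤ Real.log (4 * CL) := Real.log_nonneg (by linarith)
  have h1 := h.Rfac_SE CD Cl CL k l0 hk hCl hCL
  have h2 := h1.add (SE.const 1 (by positivity))
  have h3 := h2.pow (fun N => by
    simp only [Rfac]
    positivity) (l0 + 1)
  have h4 : SE (l / 2 ^ l0) (fun N => E ^ (N / 2 ^ l0 + 1)) := by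
    refine ⟨Real.exp l, Real.exp_pos _, fun N => ?_⟩
    beta_reduce
    rw [h.hE, ← Real.exp_nat_mul, ← Real.exp_add]
    apply Real.exp_le_exp.mpr
    push_cast
    have : ((N / 2 ^ l0 : ℕ) : ℝ) ≤ (N : ℝ) / 2 ^ l0 := by
      have := Nat.cast_div_le (α := ℝ) (m := N) (n := 2 ^ l0)
      simpa using this
    have h5 := mul_le_mul_of_nonneg_right this hl
    have h6 : (N : ℝ) / 2 ^ l0 * l = l / 2 ^ l0 * N := by ring
    linarith
  have h5 := ((SE.const 7 (le_refl (0 : ℝ))).mul h3 (fun N => by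
    simp only [Rfac]
    positivity)).mul h4 (fun N => by positivity)
  refine (h5.mono (le_of_eq ?_)).of_le (fun N => le_of_eq ?_)
  · push_cast
    ring
  · simp only [bNum]

/-- Rate of the final bound. -/
theorem Par.final_SE (h : Par e a l E r U Mq ρ) (CD Cl Cg CL k l0 : ℕ) (hk : 2 ≤ k)
    (hCl : 1 ≤ Cl) (hCL : 1 ≤ CL) (η : ℕ → ℝ) (hη : SE (-l) η) (hη0 : ∀ N, 0 ≤ η N) :
    SE ((l0 + 1) * (11 * e + Real.log (4 * CL) + 2 * (l / k) +
        2 * ((e + a + l * (l0 + 1)) / (k - 1))) + l / 2 ^ l0 +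
        (e + a + l * (l0 + 1)) / (k - 1) + 2 * e)
      (fun N => 2 * E ^ N * η N + (cnt Cg k (Mq N) (ρ N)) * (⌈(Cg : ℝ) / r N⌉₊ + 2) *
        (bNum CD Cl CL k l0 N E (r N) (U N) (Mq N) (ρ N) + 5)) := by
  have hE1 := h.E1
  have hl := h.hl
  have he := h.he
  have ha := h.ha
  have hk' : (0 : ℝ) < (k : ℝ) - 1 := by
    have : (2 : ℝ) ≤ k := by exact_mod_cast hk
    linarith
  have hk0 : (0 : ℝ) < (k : ℝ) := by linarith
  have hCL' : (1 : ℝ) ≤ CL := by exact_mod_cast hCL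
  have hlog : 0 ≤ Real.log (4 * CL) := Real.log_nonneg (by linarith)
  have h1 := h.bNum_SE CD Cl CL k l0 hk hCl hCL
  have h2 := h1.add (SE.const 5 (by positivity))
  have h3 : SE ((e + a) / (k - 1) + e) (fun N => (cnt Cg k (Mq N) (ρ N) : ℝ)) := by
    refine cnt_SE Cg k hk h.M1 h.ρ0 h.ρ1 (by positivity) he ?_
    exact (h.hM.mul h.hρ (fun N => by
      have := h.ρ0 N
      positivity)).of_le (fun N => le_of_eq (by rw [mul_one_div]))
  have h4 : SE e (fun N => ((⌈(Cg : ℝ) / r N⌉₊ : ℝ) + 2)) := by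
    have g1 : SE (0 + e) (fun N => (Cg : ℝ) * (1 / r N)) :=
      (SE.const (Cg : ℝ) le_rfl).mul h.hr (fun N => by
        have := h.r0 N
        positivity)
    have g2 : SE e (fun N => (Cg : ℝ) / r N) :=
      (g1.mono (by linarith)).of_le (fun N => le_of_eq (by rw [mul_one_div]))
    exact (g2.ceil (fun N => by
      have := h.r0 N
      positivity) he.le).add (SE.const 2 he.le)
  have h5 := (h3.mul h4 (fun N => by positivity)).mul h2 (fun N => by
    have : 0 ≤ bNum CD Cl CL k l0 N E (r N) (U N) (Mq N) (ρ N) := by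
      simp only [bNum, Rfac]
      positivity
    linarith)
  have h6 : SE 0 (fun N => 2 * E ^ N * η N) := by
    have g1 := ((SE.const 2 (le_refl (0 : ℝ))).mul h.EN (fun N => by positivity)).mul hη hη0
    exact g1.mono (by linarith)
  have hle : (e + a) / ((k : ℝ) - 1) ≤ (e + a + l * (l0 + 1)) / (k - 1) := by
    apply div_le_div_of_nonneg_right _ hk'.le
    have : 0 ≤ l * ((l0 : ℝ) + 1) := by positivity
    linarith
  have h7 := h5.mono (show (e + a) / ((k : ℝ) - 1) + e + e +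
    ((l0 + 1) * (11 * e + Real.log (4 * CL) + 2 * (l / k) +
        2 * ((e + a + l * (l0 + 1)) / (k - 1))) + l / 2 ^ l0) ≤
    (l0 + 1) * (11 * e + Real.log (4 * CL) + 2 * (l / k) +
        2 * ((e + a + l * (l0 + 1)) / (k - 1))) + l / 2 ^ l0 +
        (e + a + l * (l0 + 1)) / (k - 1) + 2 * e by linarith)
  exact (h6.mono (by positivity)).add h7

end Pool.Agent.ES38
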