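import Mathlib

/-!
# Planar Euler flows: the definitions used in the statements

The plane is `ℂ` with its real structure. Velocity fields are maps `u : ℝ → ℂ → ℂ` (time, point).
-/

open Set Real
open scoped ContDiff

namespace Pool.Agent.ES38

/-- `Φ t s x` is the position at time `t` of the particle which is at `x` at time `s`,
for the time-dependent field `u`; only non-negative times matter. -/
structure IsFlow (u : ℝ → ℂ → ℂ) (Φ : ℝ → ℝ → ℂ → ℂ) : Prop where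
  smooth_u : ContDiff ℝ ∞ (fun p : ℝ × ℂ => u p.1 p.2)
  smooth : ContDiff ℝ ∞ (fun p : ℝ × ℝ × ℂ => Φ p.1 p.2.1 p.2.2)
  init : ∀ s, 0 ≤ s → ∀ x, Φ s s x = x
  ode : ∀ s t, 0 ≤ s → 0 ≤ t → ∀ x, HasDerivAt (fun τ => Φ τ s x) (u t (Φ t s x)) t

/-- Scalar vorticity of a planar field, `∂₁ v₂ - ∂₂ v₁`. -/
noncomputable def curl (v : ℂ → ℂ) (z : ℂ) : ℝ :=
  (fderiv ℝ v z 1).im - (fderiv ℝ v z Complex.I).re

/-- Divergence of a planar field. -/
noncomputable def div2 (v : ℂ → ℂ) (z : ℂ) : ℝ :=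
  (fderiv ℝ v z 1).re + (fderiv ℝ v z Complex.I).im

/-- Gradient of a real function, as a complex number. -/
noncomputable def grad (p : ℂ → ℝ) (z : ℂ) : ℂ :=
  (fderiv ℝ p z 1 : ℝ) + (fderiv ℝ p z Complex.I : ℝ) * Complex.I

/-- `u` solves the incompressible Euler equations on `D` for times `t ≥ 0`. -/
structure IsEuler (D : Set ℂ) (u : ℝ → ℂ → ℂ) : Prop where
  isOpen : IsOpen D
  smooth_u : ContDiff ℝ ∞ (fun p : ℝ × ℂ => u p.1 p.2)
  euler : ∃ p : ℝ → ℂ → ℝ, ContDiff ℝ ∞ (fun q : ℝ × ℂ => p q.1 q.2) ∧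
    ∀ t, 0 ≤ t → ∀ x ∈ D,
      deriv (fun τ => u τ x) t + fderiv ℝ (u t) x (u t x) + grad (p t) x = 0
  div_free : ∀ t, 0 ≤ t → ∀ x ∈ D, div2 (u t) x = 0

/-- The frontier is covered by finitely many smooth curves. This holds for the plane and for
every bounded domain with smooth boundary. -/
def SmoothFrontier (D : Set ℂ) : Prop :=
  ∃ (n : ℕ) (c : ℕ → ℝ → ℂ), (∀ i, i < n → ContDiff ℝ ∞ (c i)) ∧
    frontier D ⊆ ⋃ i ∈ Finset.range n, c i '' Icc (0 : ℝ) 1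

/-- `z` is not a flat point of `w`: some directional derivative of some order `≥ 1` is
non-zero. -/
def NonFlat (w : ℂ → ℝ) (z : ℂ) : Prop :=
  ∃ e : ℂ, ∃ j : ℕ, 1 ≤ j ∧ iteratedDeriv j (fun τ : ℝ => w (z + τ * e)) 0 ≠ 0

/-- Length at time `t` of the image of the segment `{A + x B : 0 ≤ x ≤ 1}`. -/
noncomputable def len (Φ : ℝ → ℝ → ℂ → ℂ) (A B : ℂ) (t : ℝ) : ℝ :=
  ∫ x in (0 : ℝ)..1, ‖deriv (fun x : ℝ => Φ t 0 (A + x * B)) x‖

end Pool.Agent.ES38
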