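import Mathlib

/-!
# Exponential stretching: discrete set-up

Common definitions for the proof that material segments on which the vorticity is nowhere flat
have subexponential length in sufficiently smooth two-dimensional Euler flows.
-/

open Set Real
open scoped ContDiff

namespace Pool.Agent.ES38

/-- Coordinate functions: `coord false = re`, `coord true = im`. -/
noncomputable def coord (p : Bool) (z : ℂ) : ℝ := if p then z.im else z.re

/-- `Nice k r σ a b`: on `[a,b]` the derivatives of order `1..k` of `σ`, normalised to the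
length of the interval, are at most `r`. -/
def Nice (k : ℕ) (r : ℝ) (σ : ℝ → ℂ) (a b : ℝ) : Prop :=
  ∀ j, 1 ≤ j → j ≤ k → ∀ c ∈ Icc a b, (b - a) ^ j * ‖iteratedDeriv j σ c‖ ≤ r

/-- No point of `Z` lies strictly between `x` and `y`. -/
def Free (Z : Finset ℝ) (x y : ℝ) : Prop := ∀ z ∈ Z, ¬ (x < z ∧ z < y)

/-- A discrete planar system with a transported scalar `q`.
`F i j` is the map from time `i` to time `j`, `0 ≤ i, j ≤ N`. -/
structure DSys where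
  k : ℕ
  N : ℕ
  E : ℝ
  r : ℝ
  U : ℝ
  F : ℕ → ℕ → ℂ → ℂ
  q : ℕ → ℂ → ℝ
  D : Set ℂ
  hk : 2 ≤ k
  hE : 1 ≤ E
  hr : 0 < r
  hr1 : r ≤ 1
  hU : 0 ≤ U
  smoothF : ∀ i j, i ≤ N → j ≤ N → ContDiff ℝ ∞ (F i j)
  F_self : ∀ i, i ≤ N → ∀ z, F i i z = z
  F_comp : ∀ i j l, i ≤ N → j ≤ N → l ≤ N → ∀ z, F j l (F i j z) = F i l z
  lip : ∀ i j, i ≤ N → j ≤ N → ∀ z w, ‖F i j z - F i j w‖ ≤ E ^ (Nat.dist i j) * ‖z - w‖
  disp : ∀ i j, i ≤ N → j ≤ N → ∀ z, ‖F i j z - z‖ ≤ U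
  step : ∀ i j, i ≤ N → j ≤ N → Nat.dist i j = 1 → ∀ σ : ℝ → ℂ, ContDiff ℝ ∞ σ →
    ∀ c l ρ : ℝ, 0 < l → 0 < ρ → ρ ≤ r →
    (∀ a, 1 ≤ a → a ≤ k → l ^ a * ‖iteratedDeriv a σ c‖ ≤ ρ) →
    ∀ a, 1 ≤ a → a ≤ k → l ^ a * ‖iteratedDeriv a (fun x => F i j (σ x)) c‖ ≤ 2 * E * ρ
  D_inv : ∀ i j, i ≤ N → j ≤ N → ∀ z ∈ D, F i j z ∈ D
  q_cons : ∀ i j, i ≤ N → j ≤ N → ∀ z ∈ D, q j (F i j z) = q i z

/-- A curve at time `i` inside `D`, parametrised by the value of the scalar `q i`, and nice. -/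
def CSeg (S : DSys) (i : ℕ) (σ : ℝ → ℂ) (a b : ℝ) : Prop :=
  ContDiff ℝ ∞ σ ∧ a < b ∧ Nice S.k S.r σ a b ∧ ∀ c ∈ Icc a b, σ c ∈ S.D ∧ S.q i (σ c) = c

/-- Grid lines: coordinate `p`, level `o p + l * r`. -/
noncomputable def lev (S : DSys) (o : Bool → ℝ) (p : Bool) (l : ℤ) : ℝ := o p + l * S.r

/-- `P n ν b`: over windows of at most `n` steps every `CSeg` of parameter length at least `ν`
can be cut at `b` points so that between cuts the image does not pass from one side of a given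
grid line to the other (with tolerance `r/8`). -/
def PSep (S : DSys) (o : Bool → ℝ) (n : ℕ) (ν : ℝ) (b : ℕ) : Prop :=
  ∀ i j, i ≤ S.N → j ≤ S.N → Nat.dist i j ≤ n → ∀ σ a a', CSeg S i σ a a' → ν ≤ a' - a →
    ∀ p l, ∃ Z : Finset ℝ, Z.card ≤ b ∧ ∀ x y, a ≤ x → x < y → y ≤ a' → Free Z x y →
      (∀ c ∈ Icc x y, coord p (S.F i j (σ c)) < lev S o p l + S.r / 8) ∨
      (∀ c ∈ Icc x y, lev S o p l - S.r / 8 < coord p (S.F i j (σ c)))

/-- `PNice n ν b`: over windows of at most `n` steps every `CSeg` of parameter length at least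
`ν` can be cut at `b` points so that the image is nice between cuts. -/
def PNice (S : DSys) (n : ℕ) (ν : ℝ) (b : ℕ) : Prop :=
  ∀ i j, i ≤ S.N → j ≤ S.N → Nat.dist i j ≤ n → ∀ σ a a', CSeg S i σ a a' → ν ≤ a' - a →
    ∃ Z : Finset ℝ, Z.card ≤ b ∧ ∀ x y, a ≤ x → x < y → y ≤ a' → Free Z x y →
      Nice S.k S.r (fun c => S.F i j (σ c)) x y

/-- Decomposition of the part of a grid line inside `D` (near `z0`) into at most `s` pieces:
either `q`-parametrised nice curves, or pieces whose `q`-range has length at most `ν`. -/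
def LineDec (S : DSys) (o : Bool → ℝ) (ν : ℝ) (s : ℕ) : Prop :=
  ∀ j, j ≤ S.N → ∀ p l, ∀ z0 : ℂ, ∃ n : ℕ, n ≤ s ∧ ∃ (σ : ℕ → ℝ → ℂ) (a b : ℕ → ℝ)
    (good : ℕ → Prop),
    (∀ m, m < n → a m ≤ b m) ∧
    (∀ m, m < n → ¬ good m → b m - a m ≤ ν) ∧
    (∀ m, m < n → good m → CSeg S j (σ m) (a m) (b m) ∧ ν ≤ b m - a m ∧
      ∀ c ∈ Icc (a m) (b m), coord p (σ m c) = lev S o p l) ∧
    (∀ z ∈ S.D, coord p z = lev S o p l → ‖z - z0‖ ≤ S.U + 1 →
      ∃ m, m < n ∧ S.q j z ∈ Icc (a m) (b m) ∧ (good m → σ m (S.q j z) = z))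

end Pool.Agent.ES38
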