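import Pool.Agent.ES38.Basic
import Pool.Agent.ES38.Defs
open Set Real
open scoped ContDiff
namespace Pool.Agent.ES38

/-- the point of the line `coord p = y` with other coordinate `t` -/
private noncomputable def dlPt (p : Bool) (y t : ℝ) : ℂ :=
  if p then (t : ℂ) + y * Complex.I else (y : ℂ) + t * Complex.I

private theorem coord_dlPt (p : Bool) (y t : ℝ) : coord p (dlPt p y t) = y := by
  cases p <;> simp [coord, dlPt]

private theorem ot_dlPt (p : Bool) (y t : ℝ) : coord (!p) (dlPt p y t) = t := by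
  cases p <;> simp [coord, dlPt]

private theorem dlPt_coord (p : Bool) (z : ℂ) : dlPt p (coord p z) (coord (!p) z) = z := by
  cases p <;> apply Complex.ext <;> simp [coord, dlPt]

private theorem dlPt_line (p : Bool) (y b b' x : ℝ) :
    dlPt p y b + (x : ℂ) * (dlPt p y b' - dlPt p y b) = dlPt p y (b + x * (b' - b)) := by
  cases p <;> simp [dlPt] <;> ring

private theorem dlPt_norm (p : Bool) (y b b' : ℝ) : ‖dlPt p y b' - dlPt p y b‖ = |b' - b| := by
  cases p
  · have : dlPt false y b' - dlPt false y b = ((b' - b : ℝ) : ℂ) * Complex.I := by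
      simp [dlPt]; ring
    rw [this, norm_mul, Complex.norm_I, mul_one, Complex.norm_real, Real.norm_eq_abs]
  · have : dlPt true y b' - dlPt true y b = ((b' - b : ℝ) : ℂ) := by
      simp [dlPt]
    rw [this, Complex.norm_real, Real.norm_eq_abs]

private theorem dlPt_cont (p : Bool) (y : ℝ) : Continuous (dlPt p y) := by
  cases p
  · have : dlPt false y = fun t : ℝ => (y : ℂ) + t * Complex.I := by
      funext t; simp [dlPt]
    rw [this]; fun_prop
  · have : dlPt true y = fun t : ℝ => (t : ℂ) + y * Complex.I := by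
      funext t; simp [dlPt]
    rw [this]; fun_prop

private theorem coord_sub_le (p : Bool) (z w : ℂ) : |coord p z - coord p w| ≤ ‖z - w‖ := by
  cases p
  · simpa [coord] using Complex.abs_re_le_norm (z - w)
  · simpa [coord] using Complex.abs_im_le_norm (z - w)

private theorem coord_contDiff (p : Bool) {c : ℝ → ℂ} (hc : ContDiff ℝ ∞ c) :
    ContDiff ℝ ∞ (fun x => coord p (c x)) := by
  cases p
  · have : (fun x => coord false (c x)) = Complex.reCLM ∘ c := by
      funext x; simp [coord]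
    rw [this]; exact Complex.reCLM.contDiff.comp hc
  · have : (fun x => coord true (c x)) = Complex.imCLM ∘ c := by
      funext x; simp [coord]
    rw [this]; exact Complex.imCLM.contDiff.comp hc

/-- a value taken twice in a window is close to all values in the window -/
private theorem dl_window {f : ℝ → ℝ} (hf : ContDiff ℝ ∞ f) {M s t x1 x2 : ℝ} (hM0 : 0 ≤ M)
    (hM : ∀ x ∈ Icc s t, |deriv (deriv f) x| ≤ M) (h1 : x1 ∈ Icc s t) (h2 : x2 ∈ Icc s t)
    (h12 : x1 < x2) (he : f x1 = f x2) : |f x1 - f s| ≤ M * (t - s) ^ 2 := by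
  have hd1 : Differentiable ℝ f := hf.differentiable (by simp)
  have hd2 : Differentiable ℝ (deriv f) :=
    (contDiff_infty_iff_deriv.1 hf).2.differentiable (by simp)
  obtain ⟨ξ, hξ, hξ0⟩ := exists_deriv_eq_zero h12 hd1.continuous.continuousOn he
  have hξs : ξ ∈ Icc s t := ⟨h1.1.trans hξ.1.le, hξ.2.le.trans h2.2⟩
  have hst : s ≤ t := h1.1.trans h1.2
  have hb : ∀ u ∈ Icc s t, ‖deriv f u‖ ≤ M * (t - s) := by
    intro u hu
    have h4 := (convex_Icc s t).norm_image_sub_le_of_norm_deriv_le (f := deriv f)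
      (fun x _ => hd2 x) (C := M) (fun x hx => by rw [Real.norm_eq_abs]; exact hM x hx) hξs hu
    rw [hξ0, sub_zero] at h4
    refine h4.trans (mul_le_mul_of_nonneg_left ?_ hM0)
    rw [Real.norm_eq_abs, abs_le]
    constructor <;> linarith [hu.1, hu.2, hξs.1, hξs.2]
  have h5 := (convex_Icc s t).norm_image_sub_le_of_norm_deriv_le (f := f)
      (fun x _ => hd1 x) hb ⟨le_refl s, hst⟩ h1
  rw [Real.norm_eq_abs] at h5
  refine h5.trans ?_
  have h6 : ‖x1 - s‖ ≤ t - s := by
    rw [Real.norm_eq_abs, abs_of_nonneg (by linarith [h1.1])]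
    linarith [h1.2]
  calc M * (t - s) * ‖x1 - s‖ ≤ M * (t - s) * (t - s) :=
        mul_le_mul_of_nonneg_left h6 (mul_nonneg hM0 (by linarith))
    _ = M * (t - s) ^ 2 := by ring

/-- an offset whose levels avoid finitely many short intervals -/
private theorem dl_offset {ι : Type} [DecidableEq ι] {r : ℝ} (hr : 0 < r) (T : Finset ι)
    (α : ι → ℝ) {lam : ℝ} (hlam : 0 ≤ lam) {K : ℕ}
    (hK : (T.card : ℝ) * (lam * K / r + 1) < K) :
    ∃ o : ℝ, ∀ l : ℤ, ∀ i ∈ T, ¬ (α i ≤ o + l * r ∧ o + l * r ≤ α i + lam) := by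
  have hK0 : (0 : ℝ) < K := by
    refine lt_of_le_of_lt ?_ hK
    positivity
  have hKn : 0 < K := by exact_mod_cast hK0
  let Bad : ι → Finset ℤ := fun i =>
    (Finset.Icc ⌈α i * K / r⌉ ⌊(α i + lam) * K / r⌋).image (fun m => m % (K : ℤ))
  have hbad : ∀ i, ((Bad i).card : ℝ) ≤ lam * K / r + 1 := by
    intro i
    have h1 : ((Bad i).card : ℝ) ≤ ((Finset.Icc ⌈α i * K / r⌉ ⌊(α i + lam) * K / r⌋).card : ℝ) := by
      exact_mod_cast Finset.card_image_le
    refine h1.trans ?_
    rw [Int.card_Icc]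
    have h2 : (((⌊(α i + lam) * K / r⌋ + 1 - ⌈α i * K / r⌉).toNat : ℕ) : ℝ) =
        ((max (⌊(α i + lam) * K / r⌋ + 1 - ⌈α i * K / r⌉) 0 : ℤ) : ℝ) := by
      rw [← Int.toNat_eq_max]
      norm_cast
    rw [h2]
    push_cast
    apply max_le
    · have h3 := Int.floor_le ((α i + lam) * K / r)
      have h4 := Int.le_ceil (α i * K / r)
      have h5 : (α i + lam) * K / r = α i * K / r + lam * K / r := by ring
      linarith
    · positivity
  have hcard : (T.biUnion Bad).card < (Finset.Ico (0 : ℤ) K).card := by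
    rw [Int.card_Ico]
    have h1 : ((T.biUnion Bad).card : ℝ) ≤ T.card * (lam * K / r + 1) := by
      calc ((T.biUnion Bad).card : ℝ) ≤ ((∑ i ∈ T, (Bad i).card : ℕ) : ℝ) := by
            exact_mod_cast Finset.card_biUnion_le
        _ = ∑ i ∈ T, ((Bad i).card : ℝ) := by push_cast; rfl
        _ ≤ ∑ i ∈ T, (lam * K / r + 1) := Finset.sum_le_sum (fun i _ => hbad i)
        _ = T.card * (lam * K / r + 1) := by rw [Finset.sum_const, nsmul_eq_mul]
    have h2 : ((T.biUnion Bad).card : ℝ) < K := lt_of_le_of_lt h1 hK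
    have h3 : (T.biUnion Bad).card < K := by exact_mod_cast h2
    simpa using h3
  obtain ⟨j, hj, hjn⟩ := Finset.exists_mem_notMem_of_card_lt_card hcard
  rw [Finset.mem_Ico] at hj
  refine ⟨j * (r / K), fun l i hi hh => hjn ?_⟩
  have he : (j : ℝ) * (r / K) + l * r = ((j + l * K : ℤ) : ℝ) * (r / K) := by
    push_cast
    field_simp
  rw [he] at hh
  rw [Finset.mem_biUnion]
  refine ⟨i, hi, ?_⟩
  rw [Finset.mem_image]
  refine ⟨j + l * K, ?_, ?_⟩
  · rw [Finset.mem_Icc]
    constructor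
    · rw [Int.ceil_le, div_le_iff₀ hr]
      have h7 := mul_le_mul_of_nonneg_right hh.1 hK0.le
      calc α i * K ≤ ((j + l * K : ℤ) : ℝ) * (r / K) * K := h7
        _ = ((j + l * K : ℤ) : ℝ) * r := by field_simp
    · rw [Int.le_floor, le_div_iff₀ hr]
      have h7 := mul_le_mul_of_nonneg_right hh.2 hK0.le
      calc ((j + l * K : ℤ) : ℝ) * r = ((j + l * K : ℤ) : ℝ) * (r / K) * K := by field_simp
        _ ≤ (α i + lam) * K := h7
  · rw [Int.add_mul_emod_self_right]
    exact Int.emod_eq_of_lt hj.1 hj.2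

open scoped Classical in
/-- lines of a good offset meet the frontier in few points -/
private theorem dl_card (D : Set ℂ) (hS : SmoothFrontier D) : ∃ C0 : ℝ, 0 ≤ C0 ∧
    ∀ r : ℝ, 0 < r → r ≤ 1 → ∀ p : Bool, ∃ o : ℝ, ∀ l : ℤ, ∃ Φ : Finset ℝ,
      (Φ.card : ℝ) ≤ C0 / r ∧ ∀ t, dlPt p (o + l * r) t ∈ frontier D → t ∈ Φ := by
  obtain ⟨n, c, hc, hcov⟩ := hS
  have hm : ∀ i : ℕ, ∀ p : Bool, ∃ m : ℝ, 0 ≤ m ∧ (i < n → ∀ x ∈ Icc (0 : ℝ) 1,
      |deriv (deriv (fun x => coord p (c i x))) x| ≤ m) := by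
    intro i p
    by_cases hi : i < n
    · have h1 := coord_contDiff p (hc i hi)
      have h2 : Continuous (deriv (deriv (fun x => coord p (c i x)))) :=
        (contDiff_infty_iff_deriv.1 (contDiff_infty_iff_deriv.1 h1).2).2.continuous
      obtain ⟨m, hm⟩ := (isCompact_Icc (a := (0 : ℝ)) (b := 1)).exists_bound_of_continuousOn
        h2.continuousOn
      exact ⟨max m 0, le_max_right _ _, fun _ x hx =>
        (by simpa using hm x hx : |_| ≤ m).trans (le_max_left _ _)⟩
    · exact ⟨0, le_refl _, fun h => absurd h hi⟩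
  choose m hm0 hm using hm
  set M : ℝ := ∑ i ∈ Finset.range n, (m i true + m i false) with hMdef
  have hM0 : 0 ≤ M := Finset.sum_nonneg (fun i _ => add_nonneg (hm0 i true) (hm0 i false))
  have hMb : ∀ i, i < n → ∀ p, ∀ x ∈ Icc (0 : ℝ) 1,
      |deriv (deriv (fun x => coord p (c i x))) x| ≤ M := by
    intro i hi p x hx
    have h1 := hm i p hi x hx
    have h2 : m i true + m i false ≤ M :=
      Finset.single_le_sum (f := fun i => m i true + m i false)
        (fun i _ => add_nonneg (hm0 i true) (hm0 i false)) (Finset.mem_range.2 hi)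
    have h3 := hm0 i true
    have h4 := hm0 i false
    cases p <;> linarith
  refine ⟨4 * n ^ 2 * M + 2 * n, by positivity, ?_⟩
  intro r hr hr1 p
  set Nw : ℕ := ⌈4 * n * M / r⌉₊ + 1 with hNw
  have hNw0 : (0 : ℝ) < Nw := by rw [hNw]; positivity
  have hNwn : 0 < Nw := by rw [hNw]; omega
  have hNw1 : 4 * n * M / r ≤ Nw := by
    rw [hNw]; push_cast
    linarith [Nat.le_ceil (4 * n * M / r)]
  have hNw2 : (Nw : ℝ) ≤ 4 * n * M / r + 2 := by
    rw [hNw]; push_cast
    linarith [Nat.ceil_lt_add_one (show 0 ≤ 4 * n * M / r by positivity)]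
  set T := Finset.range n ×ˢ Finset.range Nw with hT
  have hTc : (T.card : ℝ) = n * Nw := by
    rw [hT, Finset.card_product, Finset.card_range, Finset.card_range]; push_cast; rfl
  obtain ⟨o, ho⟩ := dl_offset (ι := ℕ × ℕ) hr T
    (fun v => coord p (c v.1 (v.2 / Nw)) - M * (1 / Nw) ^ 2) (lam := 2 * M * (1 / Nw) ^ 2)
    (by positivity) (K := 2 * n * Nw + 1) (by
      rw [hTc]
      push_cast
      have h1 : (n : ℝ) * Nw * (2 * M * (1 / Nw) ^ 2 * (2 * n * Nw + 1) / r + 1) =
          (2 * n * M / (r * Nw)) * (2 * n * Nw + 1) + n * Nw := by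
        field_simp
      rw [h1]
      have h2 : 2 * n * M / (r * Nw) ≤ 1 / 2 := by
        rw [div_le_iff₀ (by positivity)]
        rw [div_le_iff₀ hr] at hNw1
        linarith
      have h3 : (2 * n * M / (r * Nw)) * (2 * n * Nw + 1) ≤ 1 / 2 * (2 * n * Nw + 1) :=
        mul_le_mul_of_nonneg_right h2 (by positivity)
      linarith)
  refine ⟨o, fun l => ?_⟩
  set y := o + l * r with hy
  have huniq : ∀ i, i < n → ∀ a, a < Nw → ∀ x1 ∈ Icc ((a : ℝ) / Nw) ((a + 1) / Nw),
      ∀ x2 ∈ Icc ((a : ℝ) / Nw) ((a + 1) / Nw), coord p (c i x1) = y → coord p (c i x2) = y →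
      ¬ x1 < x2 := by
    intro i hi a ha x1 h1 x2 h2 e1 e2 h12
    have hsub : Icc ((a : ℝ) / Nw) ((a + 1) / Nw) ⊆ Icc 0 1 := by
      intro x hx
      refine ⟨le_trans (by positivity) hx.1, hx.2.trans ?_⟩
      rw [div_le_one hNw0]
      exact_mod_cast ha
    have h3 := dl_window (f := fun x => coord p (c i x)) (coord_contDiff p (hc i hi)) hM0
      (fun x hx => hMb i hi p x (hsub hx)) h1 h2 h12 (by simp only [e1, e2])
    simp only [e1] at h3
    have h4 : ((a : ℝ) + 1) / Nw - a / Nw = 1 / Nw := by ring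
    rw [h4] at h3
    rw [abs_le] at h3
    refine ho l (i, a) (by
      rw [hT, Finset.mem_product, Finset.mem_range, Finset.mem_range]; exact ⟨hi, ha⟩) ?_
    simp only
    rw [← hy]
    constructor <;> linarith [h3.1, h3.2]
  let g : ℕ × ℕ → ℝ := fun v =>
    if h : ∃ x ∈ Icc ((v.2 : ℝ) / Nw) ((v.2 + 1) / Nw), coord p (c v.1 x) = y then
      coord (!p) (c v.1 h.choose) else 0
  refine ⟨T.image g, ?_, ?_⟩
  · have h1 : ((T.image g).card : ℝ) ≤ T.card := by exact_mod_cast Finset.card_image_le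
    refine h1.trans ?_
    rw [hTc, le_div_iff₀ hr]
    have h2 : (n : ℝ) * Nw ≤ n * (4 * n * M / r + 2) :=
      mul_le_mul_of_nonneg_left hNw2 (by positivity)
    calc (n : ℝ) * Nw * r ≤ n * (4 * n * M / r + 2) * r := mul_le_mul_of_nonneg_right h2 hr.le
      _ = 4 * n ^ 2 * M + 2 * n * r := by field_simp
      _ ≤ 4 * n ^ 2 * M + 2 * n := by
        have : 2 * (n : ℝ) * r ≤ 2 * n * 1 := mul_le_mul_of_nonneg_left hr1 (by positivity)
        linarith
  · intro t ht
    have h1 := hcov ht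
    simp only [Finset.mem_range, mem_iUnion, mem_image, exists_prop] at h1
    obtain ⟨i, hi, x, hx, hxe⟩ := h1
    have hfx : coord p (c i x) = y := by rw [hxe, coord_dlPt]
    set a : ℕ := min ⌊x * Nw⌋₊ (Nw - 1) with ha
    have haN : a < Nw := by
      have : a ≤ Nw - 1 := min_le_right _ _
      omega
    have hxw : x ∈ Icc ((a : ℝ) / Nw) ((a + 1) / Nw) := by
      constructor
      · rw [div_le_iff₀ hNw0]
        have h2 : (a : ℝ) ≤ ⌊x * Nw⌋₊ := by
          exact_mod_cast min_le_left _ _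
        exact h2.trans (Nat.floor_le (mul_nonneg hx.1 hNw0.le))
      · rw [le_div_iff₀ hNw0]
        by_cases h2 : ⌊x * Nw⌋₊ ≤ Nw - 1
        · rw [ha, min_eq_left h2]
          exact (Nat.lt_floor_add_one _).le
        · rw [ha, min_eq_right (by omega)]
          have h3 : ((Nw - 1 : ℕ) : ℝ) + 1 = Nw := by
            have : Nw - 1 + 1 = Nw := by omega
            exact_mod_cast this
          rw [h3]
          have := mul_le_mul_of_nonneg_right hx.2 hNw0.le
          linarith
    have hex : ∃ x ∈ Icc ((a : ℝ) / Nw) ((a + 1) / Nw), coord p (c i x) = y := ⟨x, hxw, hfx⟩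
    rw [Finset.mem_image]
    refine ⟨(i, a), ?_, ?_⟩
    · rw [hT, Finset.mem_product, Finset.mem_range, Finset.mem_range]; exact ⟨hi, haN⟩
    · have hg : g (i, a) = coord (!p) (c i hex.choose) := by
        simp only [g]
        rw [dif_pos hex]
      rw [hg]
      have hsp := hex.choose_spec
      have heq : hex.choose = x := by
        rcases lt_trichotomy hex.choose x with h2 | h2 | h2
        · exact absurd h2 (huniq i hi a haN _ hsp.1 _ hxw hsp.2 hfx)
        · exact h2
        · exact absurd h2 (huniq i hi a haN _ hxw _ hsp.1 hfx hsp.2)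
      rw [heq, hxe, ot_dlPt]

open scoped Classical in
/-- decomposition of a window of a line -/
private theorem dl_line (D : Set ℂ) (hD : IsOpen D) (p : Bool) (y : ℝ) (Φ : Finset ℝ)
    (hΦ : ∀ t, dlPt p y t ∈ frontier D → t ∈ Φ) (t0 R ls : ℝ) (hR : 1 ≤ R) (hls : 0 < ls) :
    ∃ T : Finset (ℂ × ℂ), (T.card : ℝ) ≤ 2 * (Φ.card + (2 * R / ls + 2)) ∧
      (∀ v ∈ T, ‖v.2‖ ≤ ls ∧ ∀ x ∈ Icc (0 : ℝ) 1, v.1 + x * v.2 ∈ closure D ∧
        coord p (v.1 + x * v.2) = y) ∧
      ∀ t, |t - t0| ≤ R → dlPt p y t ∈ closure D →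
        ∃ v ∈ T, ∃ x ∈ Icc (0 : ℝ) 1, dlPt p y t = v.1 + x * v.2 := by
  set G : ℕ := ⌈2 * R / ls⌉₊ with hG
  have hG1 : 2 * R / ls ≤ G := Nat.le_ceil _
  have hG0 : (0 : ℝ) < G := lt_of_lt_of_le (by positivity) hG1
  have hG2 : (G : ℝ) ≤ 2 * R / ls + 1 := (Nat.ceil_lt_add_one (by positivity)).le
  set h : ℝ := 2 * R / G with hh
  have hh0 : 0 < h := by positivity
  have hhls : h ≤ ls := by
    rw [hh, div_le_iff₀ hG0]
    rw [div_le_iff₀ hls] at hG1
    linarith
  have hGh : (G : ℝ) * h = 2 * R := by rw [hh]; field_simp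
  let B : Finset ℝ := Φ ∪ (Finset.range (G + 1)).image (fun k : ℕ => t0 - R + (k : ℝ) * h)
  have hgrid : ∀ k : ℕ, k ≤ G → t0 - R + k * h ∈ B := by
    intro k hk
    apply Finset.mem_union_right
    exact Finset.mem_image.2 ⟨k, Finset.mem_range.2 (by omega), rfl⟩
  have hBc : (B.card : ℝ) ≤ Φ.card + (2 * R / ls + 2) := by
    have h1 : B.card ≤ Φ.card + (G + 1) := by
      refine (Finset.card_union_le _ _).trans (Nat.add_le_add_left ?_ _)
      exact Finset.card_image_le.trans (by simp)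
    have h2 : (B.card : ℝ) ≤ Φ.card + (G + 1) := by exact_mod_cast h1
    linarith
  let Q : ℝ → ℝ → Prop := fun b b' => b' ∈ B ∧ b < b' ∧ (∀ x ∈ B, ¬ (b < x ∧ x < b')) ∧
    b' - b ≤ ls ∧ ∀ s ∈ Icc b b', dlPt p y s ∈ closure D
  have hQu : ∀ b b' b'', Q b b' → Q b b'' → b' = b'' := by
    intro b b' b'' h1 h2
    rcases lt_trichotomy b' b'' with h3 | h3 | h3
    · exact absurd ⟨h1.2.1, h3⟩ (h2.2.2.1 b' h1.1)
    · exact h3
    · exact absurd ⟨h2.2.1, h3⟩ (h1.2.2.1 b'' h2.1)
  let g : ℝ → ℝ := fun b => if h : ∃ b', Q b b' then h.choose else b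
  have hg : ∀ b b', Q b b' → g b = b' := by
    intro b b' h1
    have h2 : ∃ b', Q b b' := ⟨b', h1⟩
    have h3 : g b = h2.choose := by simp only [g]; rw [dif_pos h2]
    rw [h3]
    exact hQu b _ _ h2.choose_spec h1
  let T1 := (B.filter (fun b => dlPt p y b ∈ closure D)).image (fun b => (dlPt p y b, (0 : ℂ)))
  let T2 := (B.filter (fun b => ∃ b', Q b b')).image
    (fun b => (dlPt p y b, dlPt p y (g b) - dlPt p y b))
  refine ⟨T1 ∪ T2, ?_, ?_, ?_⟩
  · have h1 : (T1 ∪ T2).card ≤ B.card + B.card := by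
      refine (Finset.card_union_le _ _).trans (Nat.add_le_add ?_ ?_)
      · exact Finset.card_image_le.trans (Finset.card_filter_le _ _)
      · exact Finset.card_image_le.trans (Finset.card_filter_le _ _)
    have h2 : ((T1 ∪ T2).card : ℝ) ≤ B.card + B.card := by exact_mod_cast h1
    linarith
  · intro v hv
    rcases Finset.mem_union.1 hv with hv | hv
    · obtain ⟨b, hb, rfl⟩ := Finset.mem_image.1 hv
      rw [Finset.mem_filter] at hb
      refine ⟨by simpa using hls.le, fun x _ => ?_⟩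
      simp only [mul_zero, add_zero]
      exact ⟨hb.2, coord_dlPt p y b⟩
    · obtain ⟨b, hb, rfl⟩ := Finset.mem_image.1 hv
      rw [Finset.mem_filter] at hb
      obtain ⟨b', hb'⟩ := hb.2
      simp only
      rw [hg b b' hb', dlPt_norm, abs_of_pos (by linarith [hb'.2.1])]
      refine ⟨hb'.2.2.2.1, fun x hx => ?_⟩
      rw [dlPt_line]
      refine ⟨hb'.2.2.2.2 _ ⟨?_, ?_⟩, coord_dlPt p y _⟩
      · have := mul_nonneg hx.1 (show 0 ≤ b' - b by linarith [hb'.2.1])
        linarith
      · have := mul_le_mul_of_nonneg_right hx.2 (show 0 ≤ b' - b by linarith [hb'.2.1])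
        linarith
  · intro t ht htD
    rw [abs_le] at ht
    by_cases htB : t ∈ B
    · refine ⟨(dlPt p y t, 0), ?_, 0, ⟨le_refl _, zero_le_one⟩, by simp⟩
      apply Finset.mem_union_left
      exact Finset.mem_image.2 ⟨t, Finset.mem_filter.2 ⟨htB, htD⟩, rfl⟩
    · -- the grid cell of `t`
      set k : ℕ := ⌊(t - (t0 - R)) / h⌋₊ with hk
      have hk1 : t0 - R + k * h ≤ t := by
        have h1 := Nat.floor_le (show 0 ≤ (t - (t0 - R)) / h from
          div_nonneg (by linarith [ht.1]) hh0.le)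
        rw [← hk, le_div_iff₀ hh0] at h1
        linarith
      have hk2 : t < t0 - R + (k + 1 : ℕ) * h := by
        have h1 := Nat.lt_floor_add_one ((t - (t0 - R)) / h)
        rw [← hk, div_lt_iff₀ hh0] at h1
        push_cast
        linarith
      have hkG : k ≤ G := by
        by_contra hc
        have h1 : ((G + 1 : ℕ) : ℝ) ≤ k := by exact_mod_cast Nat.succ_le_of_lt (not_le.1 hc)
        have h2 := mul_le_mul_of_nonneg_right h1 hh0.le
        push_cast at h2
        linarith [ht.2]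
      have hkG1 : k + 1 ≤ G := by
        rcases Nat.lt_or_ge k G with h1 | h1
        · exact h1
        · exfalso
          have h2 : k = G := le_antisymm hkG h1
          have h3 : t = t0 - R + k * h := by
            rw [h2] at hk1 ⊢
            linarith [ht.2]
          exact htB (h3 ▸ hgrid k hkG)
      have hkb := hgrid k hkG
      have hkb' := hgrid (k + 1) hkG1
      have hne : (B.filter (fun x => x ≤ t)).Nonempty := ⟨_, Finset.mem_filter.2 ⟨hkb, hk1⟩⟩
      have hne' : (B.filter (fun x => t ≤ x)).Nonempty :=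
        ⟨_, Finset.mem_filter.2 ⟨hkb', hk2.le⟩⟩
      set b := (B.filter (fun x => x ≤ t)).max' hne with hb
      set b' := (B.filter (fun x => t ≤ x)).min' hne' with hb'
      have hbm := Finset.mem_filter.1 (Finset.max'_mem _ hne)
      have hbm' := Finset.mem_filter.1 (Finset.min'_mem _ hne')
      rw [← hb] at hbm
      rw [← hb'] at hbm'
      have hbt : b < t := lt_of_le_of_ne hbm.2 (fun e => htB (e ▸ hbm.1))
      have hbt' : t < b' := lt_of_le_of_ne hbm'.2 (fun e => htB (e ▸ hbm'.1))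
      have hfree : ∀ x ∈ B, ¬ (b < x ∧ x < b') := by
        intro x hx hh
        rcases le_total x t with h1 | h1
        · exact absurd (Finset.le_max' _ x (Finset.mem_filter.2 ⟨hx, h1⟩)) (not_le.2 hh.1)
        · exact absurd (Finset.min'_le _ x (Finset.mem_filter.2 ⟨hx, h1⟩)) (not_le.2 hh.2)
      have hlen : b' - b ≤ ls := by
        have h1 : t0 - R + k * h ≤ b := Finset.le_max' _ _ (Finset.mem_filter.2 ⟨hkb, hk1⟩)
        have h2 : b' ≤ t0 - R + (k + 1 : ℕ) * h :=
          Finset.min'_le _ _ (Finset.mem_filter.2 ⟨hkb', hk2.le⟩)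
        push_cast at h2
        linarith
      have hsub : dlPt p y '' Ioo b b' ⊆ D := by
        have hcon : IsPreconnected (dlPt p y '' Ioo b b') :=
          isPreconnected_Ioo.image _ (dlPt_cont p y).continuousOn
        by_contra hns
        rw [Set.not_subset] at hns
        obtain ⟨z, hz, hzD⟩ := hns
        have htfr : dlPt p y t ∉ frontier D := fun hf =>
          htB (Finset.mem_union_left _ (hΦ t hf))
        have htDD : dlPt p y t ∈ D := by
          by_contra hn
          apply htfr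
          rw [frontier, hD.interior_eq]
          exact ⟨htD, hn⟩
        have hnf : ∀ w ∈ dlPt p y '' Ioo b b', w ∉ frontier D := by
          rintro w ⟨s, hs, rfl⟩ hw
          exact hfree s (Finset.mem_union_left _ (hΦ s hw)) hs
        have hdich : ∀ w ∈ dlPt p y '' Ioo b b', w ∉ D → w ∈ (closure D)ᶜ := by
          intro w hw hwD hwc
          apply hnf w hw
          rw [frontier, hD.interior_eq]
          exact ⟨hwc, hwD⟩
        obtain ⟨w, -, hw1, hw2⟩ := hcon D (closure D)ᶜ hD isClosed_closure.isOpen_compl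
          (fun w hw => by
            by_cases h1 : w ∈ D
            · exact Or.inl h1
            · exact Or.inr (hdich w hw h1))
          ⟨dlPt p y t, ⟨t, ⟨hbt, hbt'⟩, rfl⟩, htDD⟩ ⟨z, hz, hdich z hz hzD⟩
        exact hw2 (subset_closure hw1)
      have hcl : ∀ s ∈ Icc b b', dlPt p y s ∈ closure D := by
        intro s hs
        have h1 : s ∈ closure (Ioo b b') := by
          rw [closure_Ioo (hbt.trans hbt').ne]; exact hs
        have h2 := image_closure_subset_closure_image (dlPt_cont p y) (mem_image_of_mem _ h1)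
        exact closure_mono hsub h2
      have hQ : Q b b' := ⟨hbm'.1, hbt.trans hbt', hfree, hlen, hcl⟩
      refine ⟨(dlPt p y b, dlPt p y (g b) - dlPt p y b), ?_, (t - b) / (b' - b), ⟨?_, ?_⟩, ?_⟩
      · apply Finset.mem_union_right
        exact Finset.mem_image.2 ⟨b, Finset.mem_filter.2 ⟨hbm.1, b', hQ⟩, rfl⟩
      · exact div_nonneg (by linarith) (by linarith)
      · rw [div_le_one (by linarith)]; linarith
      · simp only
        rw [hg b b' hQ, dlPt_line]
        congr 1
        have : b' - b ≠ 0 := by linarith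
        field_simp
        ring

/-- T11. Grid lines for a good offset meet `closure D` in few segments. -/
theorem domain_lines (D : Set ℂ) (hD : IsOpen D) (hS : SmoothFrontier D) : ∃ C : ℕ, 1 ≤ C ∧
    ∀ r : ℝ, 0 < r → r ≤ 1 → ∃ o : Bool → ℝ, ∀ (p : Bool) (l : ℤ) (z0 : ℂ) (R ls : ℝ),
      1 ≤ R → 0 < ls → ls ≤ 1 →
      ∃ n : ℕ, (n : ℝ) ≤ C * R / (r * ls) ∧ ∃ P V : ℕ → ℂ,
        (∀ m, m < n → ‖V m‖ ≤ ls ∧ ∀ x ∈ Icc (0 : ℝ) 1, P m + x * V m ∈ closure D ∧
          coord p (P m + x * V m) = o p + l * r) ∧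
        (∀ z ∈ closure D, coord p z = o p + l * r → ‖z - z0‖ ≤ R →
          ∃ m, m < n ∧ ∃ x ∈ Icc (0 : ℝ) 1, z = P m + x * V m) := by
  obtain ⟨C0, hC0, hcard⟩ := dl_card D hS
  refine ⟨⌈2 * C0 + 8⌉₊, ?_, ?_⟩
  · apply Nat.one_le_iff_ne_zero.2
    intro h0
    have := Nat.le_ceil (2 * C0 + 8)
    rw [h0] at this
    norm_num at this
    linarith
  intro r hr hr1
  choose o ho using hcard r hr hr1
  refine ⟨o, fun p l z0 R ls hR hls hls1 => ?_⟩
  obtain ⟨Φ, hΦc, hΦ⟩ := ho p l
  obtain ⟨T, hTc, hT1, hT2⟩ := dl_line D hD p (o p + l * r) Φ hΦ (coord (!p) z0) R ls hR hls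
  refine ⟨T.toList.length, ?_, fun m => (T.toList.getD m (0, 0)).1,
    fun m => (T.toList.getD m (0, 0)).2, ?_, ?_⟩
  · rw [Finset.length_toList]
    refine hTc.trans ?_
    have h1 : (Φ.card : ℝ) ≤ C0 * R / (r * ls) := by
      refine hΦc.trans ?_
      rw [div_le_div_iff₀ hr (by positivity)]
      have : ls ≤ R := hls1.trans hR
      calc C0 * (r * ls) = C0 * r * ls := by ring
        _ ≤ C0 * r * R := mul_le_mul_of_nonneg_left this (by positivity)
        _ = C0 * R * r := by ring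
    have h2 : 2 * R / ls ≤ 2 * R / (r * ls) := by
      apply div_le_div_of_nonneg_left (by positivity) (by positivity)
      calc r * ls ≤ 1 * ls := mul_le_mul_of_nonneg_right hr1 hls.le
        _ = ls := one_mul _
    have h3 : 2 ≤ 2 * R / (r * ls) := by
      rw [le_div_iff₀ (by positivity)]
      have : r * ls ≤ 1 * 1 := mul_le_mul hr1 hls1 hls.le (by norm_num)
      linarith
    have h4 : (2 * C0 + 8) ≤ (⌈2 * C0 + 8⌉₊ : ℝ) := Nat.le_ceil _
    calc 2 * ((Φ.card : ℝ) + (2 * R / ls + 2)) ≤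
        2 * (C0 * R / (r * ls) + (2 * R / (r * ls) + 2 * R / (r * ls))) := by linarith
      _ = (2 * C0 + 8) * (R / (r * ls)) := by ring
      _ ≤ (⌈2 * C0 + 8⌉₊ : ℝ) * (R / (r * ls)) :=
        mul_le_mul_of_nonneg_right h4 (by positivity)
      _ = (⌈2 * C0 + 8⌉₊ : ℝ) * R / (r * ls) := by ring
  · intro m hm
    have hmem : T.toList.getD m (0, 0) ∈ T := by
      rw [List.getD_eq_getElem _ _ hm]
      exact Finset.mem_toList.1 (List.getElem_mem hm)
    exact hT1 _ hmem
  · intro z hz hzc hzR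
    have hzp : dlPt p (o p + l * r) (coord (!p) z) = z := by
      rw [← hzc]; exact dlPt_coord p z
    obtain ⟨v, hv, x, hx, hxe⟩ := hT2 (coord (!p) z)
      ((coord_sub_le (!p) z z0).trans hzR) (by rw [hzp]; exact hz)
    rw [hzp] at hxe
    obtain ⟨m, hm, hmv⟩ := List.mem_iff_getElem.1 (Finset.mem_toList.2 hv)
    refine ⟨m, hm, x, hx, ?_⟩
    simp only
    rw [List.getD_eq_getElem _ _ hm, hmv]
    exact hxe

end Pool.Agent.ES38
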