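import Pool.Agent.ES38.FlowBasic
open Set Real
open scoped ContDiff
namespace Pool.Agent.ES38

/-- The functional `A ↦ (A 1).im - (A I).re`. -/
noncomputable def curlFun : (ℂ →L[ℝ] ℂ) →L[ℝ] ℝ :=
  Complex.imCLM.comp (ContinuousLinearMap.apply ℝ ℂ (1 : ℂ)) -
    Complex.reCLM.comp (ContinuousLinearMap.apply ℝ ℂ Complex.I)

theorem curlFun_apply (A : ℂ →L[ℝ] ℂ) : curlFun A = (A 1).im - (A Complex.I).re := rfl

theorem norm_curlFun : ‖curlFun‖ ≤ 2 := by
  refine ContinuousLinearMap.opNorm_le_bound _ (by norm_num) fun A => ?_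
  rw [curlFun_apply, Real.norm_eq_abs]
  have h1 : |(A 1).im| ≤ ‖A‖ := by
    refine (Complex.abs_im_le_norm _).trans ?_
    have := A.le_opNorm 1
    rwa [norm_one, mul_one] at this
  have h2 : |(A Complex.I).re| ≤ ‖A‖ := by
    refine (Complex.abs_re_le_norm _).trans ?_
    have := A.le_opNorm Complex.I
    rwa [Complex.norm_I, mul_one] at this
  have h3 := abs_sub (A 1).im (A Complex.I).re
  linarith

theorem curl_eq (v : ℂ → ℂ) (z : ℂ) : curl v z = curlFun (fderiv ℝ v z) := rfl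

/-- The two-variable form of a field. -/
def ecJoint (u : ℝ → ℂ → ℂ) (q : ℝ × ℂ) : ℂ := u q.1 q.2

theorem ec_fderiv_slice {E : Type*} [NormedAddCommGroup E] [NormedSpace ℝ E] {f : ℝ × ℂ → E}
    (hf : Differentiable ℝ f) (t : ℝ) (z v : ℂ) :
    fderiv ℝ (fun y => f (t, y)) z v = fderiv ℝ f (t, z) (0, v) := by
  have h1 : HasFDerivAt (fun y : ℂ => (t, y)) (ContinuousLinearMap.inr ℝ ℝ ℂ) z := by
    exact hasFDerivAt_prodMk_right t z
  have h2 := (hf (t, z)).hasFDerivAt.comp z h1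
  have h3 : HasFDerivAt (fun y => f (t, y))
      ((fderiv ℝ f (t, z)).comp (ContinuousLinearMap.inr ℝ ℝ ℂ)) z := h2
  rw [h3.fderiv]
  rfl

theorem ec_deriv_slice {E : Type*} [NormedAddCommGroup E] [NormedSpace ℝ E] {f : ℝ × ℂ → E}
    (hf : Differentiable ℝ f) (t : ℝ) (z : ℂ) :
    deriv (fun τ => f (τ, z)) t = fderiv ℝ f (t, z) (1, 0) := by
  have h1 : HasDerivAt (fun τ : ℝ => (τ, z)) ((1 : ℝ), (0 : ℂ)) t :=
    (hasDerivAt_id t).prodMk (hasDerivAt_const t z)
  exact ((hf (t, z)).hasFDerivAt.comp_hasDerivAt t h1).deriv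

/-- A function vanishing on the slice `{t} × D` has vanishing derivatives along the slice. -/
theorem ec_slice_zero {E : Type*} [NormedAddCommGroup E] [NormedSpace ℝ E] {f : ℝ × ℂ → E}
    (hf : Differentiable ℝ f) {D : Set ℂ} (hD : IsOpen D) {t : ℝ} (h : ∀ z ∈ D, f (t, z) = 0)
    {z : ℂ} (hz : z ∈ D) (v : ℂ) : fderiv ℝ f (t, z) (0, v) = 0 := by
  rw [← ec_fderiv_slice hf]
  have h1 : (fun y => f (t, y)) =ᶠ[nhds z] fun _ => 0 := by
    filter_upwards [hD.mem_nhds hz] with y hy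
    exact h y hy
  rw [h1.fderiv_eq]
  simp

/-- T10. Vorticity is transported. -/
theorem curl_conserved {D : Set ℂ} {u : ℝ → ℂ → ℂ} {Φ : ℝ → ℝ → ℂ → ℂ} (hE : IsEuler D u)
    (hF : IsFlow u Φ) (hD : ∀ s t, 0 ≤ s → 0 ≤ t → ∀ x ∈ D, Φ t s x ∈ D)
    (s t : ℝ) (hs : 0 ≤ s) (ht : 0 ≤ t) (x : ℂ) (hx : x ∈ closure D) :
    curl (u t) (Φ t s x) = curl (u s) x := by
  obtain ⟨p, hp, heq⟩ := hE.euler
  set f : ℝ × ℂ → ℂ := fun q => u q.1 q.2 with hfdef
  have hf : ContDiff ℝ ∞ f := hE.smooth_u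
  have hfd : Differentiable ℝ f := hf.differentiable (by simp)
  set G : ℝ × ℂ → (ℝ × ℂ →L[ℝ] ℂ) := fderiv ℝ f with hG
  have hGc : ContDiff ℝ ∞ G := hf.fderiv_right (m := ∞) (by simp)
  have hGd : Differentiable ℝ G := hGc.differentiable (by simp)
  set P : ℝ × ℂ → ℝ := fun q => p q.1 q.2 with hPdef
  have hPd : Differentiable ℝ P := hp.differentiable (by simp)
  set Q : ℝ × ℂ → (ℝ × ℂ →L[ℝ] ℝ) := fderiv ℝ P with hQ
  have hQc : ContDiff ℝ ∞ Q := hp.fderiv_right (m := ∞) (by simp)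
  have hQd : Differentiable ℝ Q := hQc.differentiable (by simp)
  -- symmetry
  have symG : ∀ q a b, (fderiv ℝ G q a) b = (fderiv ℝ G q b) a := by
    intro q a b
    have h1 : IsSymmSndFDerivAt ℝ f q := by
      refine hf.contDiffAt.isSymmSndFDerivAt ?_
      rw [minSmoothness_of_isRCLikeNormedField]
      exact ENat.LEInfty.out
    exact h1 a b
  have symQ : ∀ q a b, (fderiv ℝ Q q a) b = (fderiv ℝ Q q b) a := by
    intro q a b
    have h1 : IsSymmSndFDerivAt ℝ P q := by
      refine hp.contDiffAt.isSymmSndFDerivAt ?_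
      rw [minSmoothness_of_isRCLikeNormedField]
      exact ENat.LEInfty.out
    exact h1 a b
  -- the vorticity in the two variables
  have hcurl : ∀ τ z, curl (u τ) z = (G (τ, z) (0, 1)).im - (G (τ, z) (0, Complex.I)).re := by
    intro τ z
    unfold curl
    have h1 : ∀ v, fderiv ℝ (u τ) z v = G (τ, z) (0, v) := fun v =>
      ec_fderiv_slice (f := f) hfd τ z v
    rw [h1, h1]
  -- the Euler equation in the two variables
  set W : ℝ × ℂ → ℂ := fun q => G q (1, 0) + G q (0, f q) +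
    ((Q q (0, 1) : ℝ) + (Q q (0, Complex.I) : ℝ) * Complex.I) with hW
  have hWzero : ∀ τ, 0 ≤ τ → ∀ z ∈ D, W (τ, z) = 0 := by
    intro τ hτ z hz
    have h1 := heq τ hτ z hz
    have h2 : deriv (fun τ' => u τ' z) τ = G (τ, z) (1, 0) := ec_deriv_slice (f := f) hfd τ z
    have h3 : fderiv ℝ (u τ) z (u τ z) = G (τ, z) (0, u τ z) :=
      ec_fderiv_slice (f := f) hfd τ z _
    have h4 : ∀ v, fderiv ℝ (p τ) z v = Q (τ, z) (0, v) := fun v =>
      ec_fderiv_slice (f := P) hPd τ z v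
    unfold grad at h1
    rw [h2, h3, h4, h4] at h1
    exact h1
  have hWder : ∀ q v, HasFDerivAt W (fderiv ℝ W q) q ∧ fderiv ℝ W q (0, v) =
      (fderiv ℝ G q (0, v)) (1, 0) + ((fderiv ℝ G q (0, v)) (0, f q) + G q (0, G q (0, v))) +
      (((fderiv ℝ Q q (0, v)) (0, 1) : ℝ) + ((fderiv ℝ Q q (0, v)) (0, Complex.I) : ℝ) *
        Complex.I) := by
    intro q v
    have g1 : HasFDerivAt (fun q => G q (1, 0))
        ((ContinuousLinearMap.apply ℝ ℂ ((1 : ℝ), (0 : ℂ))).comp (fderiv ℝ G q)) q :=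
      (ContinuousLinearMap.apply ℝ ℂ ((1 : ℝ), (0 : ℂ))).hasFDerivAt.comp q
        (hGd q).hasFDerivAt
    have g2' : HasFDerivAt (fun q => ((0 : ℝ), f q)) ((0 : ℝ × ℂ →L[ℝ] ℝ).prod (G q)) q :=
      (hasFDerivAt_const (0 : ℝ) q).prodMk (hfd q).hasFDerivAt
    have g2 := (hGd q).hasFDerivAt.clm_apply g2'
    have g3 : HasFDerivAt (fun q => Q q (0, 1))
        ((ContinuousLinearMap.apply ℝ ℝ ((0 : ℝ), (1 : ℂ))).comp (fderiv ℝ Q q)) q :=
      (ContinuousLinearMap.apply ℝ ℝ ((0 : ℝ), (1 : ℂ))).hasFDerivAt.comp q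
        (hQd q).hasFDerivAt
    have g4 : HasFDerivAt (fun q => Q q (0, Complex.I))
        ((ContinuousLinearMap.apply ℝ ℝ ((0 : ℝ), Complex.I)).comp (fderiv ℝ Q q)) q :=
      (ContinuousLinearMap.apply ℝ ℝ ((0 : ℝ), Complex.I)).hasFDerivAt.comp q
        (hQd q).hasFDerivAt
    have g3' := Complex.ofRealCLM.hasFDerivAt.comp q g3
    have g4' := (Complex.ofRealCLM.hasFDerivAt.comp q g4).mul_const Complex.I
    have g5 := (g1.add g2).add (g3'.add g4')
    refine ⟨?_, ?_⟩
    · have : DifferentiableAt ℝ W q := g5.differentiableAt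
      exact this.hasFDerivAt
    · have h1 : fderiv ℝ W q = _ := g5.fderiv
      rw [h1]
      simp only [add_apply, ContinuousLinearMap.comp_apply,
        ContinuousLinearMap.apply_apply, 
        ContinuousLinearMap.flip_apply, ContinuousLinearMap.prod_apply,
        zero_apply, Complex.ofRealCLM_apply, smul_apply, smul_eq_mul]
      ring
  -- the derivative of the vorticity along trajectories
  have hder : ∀ y ∈ D, ∀ τ, 0 ≤ τ → HasDerivAt (fun τ => curl (u τ) (Φ τ s y)) 0 τ := by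
    intro y hy τ hτ
    have hyD : Φ τ s y ∈ D := hD s τ hs hτ y hy
    set z := Φ τ s y with hz
    set q : ℝ × ℂ := (τ, z) with hq
    have c1 : HasDerivAt (fun τ => (τ, Φ τ s y)) ((1 : ℝ), f q) τ :=
      (hasDerivAt_id τ).prodMk (hF.ode s τ hs hτ y)
    have c2 : HasDerivAt (fun τ => G (τ, Φ τ s y)) ((fderiv ℝ G q) (1, f q)) τ :=
      (hGd q).hasFDerivAt.comp_hasDerivAt τ c1
    have c3 : ∀ v : ℝ × ℂ, HasDerivAt (fun τ => G (τ, Φ τ s y) v)
        ((fderiv ℝ G q) (1, f q) v) τ := fun v => by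
      have := (ContinuousLinearMap.apply ℝ ℂ v).hasFDerivAt.comp_hasDerivAt τ c2
      exact this
    have c4 := (Complex.imCLM.hasFDerivAt.comp_hasDerivAt τ (c3 (0, 1))).sub
      (Complex.reCLM.hasFDerivAt.comp_hasDerivAt τ (c3 (0, Complex.I)))
    have c5 : (fun τ => curl (u τ) (Φ τ s y)) = fun τ => (G (τ, Φ τ s y) (0, 1)).im -
        (G (τ, Φ τ s y) (0, Complex.I)).re := by
      ext τ'
      exact hcurl _ _
    rw [c5]
    have hdiv := hE.div_free τ hτ z hyD
    unfold div2 at hdiv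
    have h1 : ∀ v, fderiv ℝ (u τ) z v = G q (0, v) := fun v =>
      ec_fderiv_slice (f := f) hfd τ z v
    rw [h1, h1] at hdiv
    have hWd : Differentiable ℝ W := fun q => (hWder q 0).1.differentiableAt
    have w1 := ec_slice_zero hWd hE.isOpen (hWzero τ hτ) hyD 1
    have w2 := ec_slice_zero hWd hE.isOpen (hWzero τ hτ) hyD Complex.I
    rw [← hq, (hWder q _).2] at w1 w2
    -- the second derivatives
    have s1 : (fderiv ℝ G q) (1, f q) (0, 1) = (fderiv ℝ G q) (0, 1) (1, 0) +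
        (fderiv ℝ G q) (0, 1) (0, f q) := by
      rw [symG, ← map_add]
      simp
    have s2 : (fderiv ℝ G q) (1, f q) (0, Complex.I) =
        (fderiv ℝ G q) (0, Complex.I) (1, 0) + (fderiv ℝ G q) (0, Complex.I) (0, f q) := by
      rw [symG, ← map_add]
      simp
    have s3 := symQ q (0, 1) (0, Complex.I)
    -- linearity of `G q`
    have lin : ∀ w : ℂ, G q (0, w) = (w.re : ℂ) * G q (0, 1) + (w.im : ℂ) * G q (0, Complex.I) := by
      intro w
      have e1 : ((0 : ℝ), w) = w.re • ((0 : ℝ), (1 : ℂ)) + w.im • ((0 : ℝ), Complex.I) := by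
        ext
        · simp
        · simp
      conv_lhs => rw [e1]
      rw [map_add, map_smul, map_smul, Complex.real_smul, Complex.real_smul]
    have fin : ((fderiv ℝ G q) (1, f q) (0, 1)).im - ((fderiv ℝ G q) (1, f q) (0, Complex.I)).re
        = 0 := by
      rw [s1, s2]
      have i1 := congrArg Complex.im w1
      have r2 := congrArg Complex.re w2
      rw [lin (G q (0, 1))] at i1
      rw [lin (G q (0, Complex.I))] at r2
      simp only [Complex.add_im, Complex.add_re, Complex.mul_im, Complex.mul_re,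
        Complex.ofReal_re, Complex.ofReal_im, Complex.I_re, Complex.I_im, zero_mul, mul_zero,
        mul_one, zero_add, add_zero, sub_zero, Complex.zero_im, Complex.zero_re] at i1 r2
      simp only [Complex.add_im, Complex.add_re]
      linear_combination i1 - r2 - s3 - ((G q (0, 1)).im - (G q (0, Complex.I)).re) * hdiv
    have c6 := c4
    rw [show Complex.imCLM ((fderiv ℝ G q) (1, f q) (0, 1)) -
      Complex.reCLM ((fderiv ℝ G q) (1, f q) (0, Complex.I)) = 0 from fin] at c6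
    exact c6
  -- constancy
  have hconst : ∀ y ∈ D, curl (u t) (Φ t s y) = curl (u s) y := by
    intro y hy
    have h0 : curl (u s) y = curl (u s) (Φ s s y) := by rw [hF.init s hs]
    rw [h0]
    have hconv : Convex ℝ (Set.Ici (0 : ℝ)) := convex_Ici 0
    exact hconv.is_const_of_fderivWithin_eq_zero (𝕜 := ℝ)
      (f := fun τ => curl (u τ) (Φ τ s y))
      (fun τ hτ => ((hder y hy τ hτ).differentiableAt).differentiableWithinAt)
      (fun τ hτ => by
        have h1 := (hder y hy τ hτ).hasFDerivAt.hasFDerivWithinAt (s := Set.Ici (0 : ℝ))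
        have h2 := h1.fderivWithin (uniqueDiffOn_Ici 0 τ hτ)
        rw [h2]
        ext
        simp)
      ht hs
  -- the closure
  have hcl : Set.EqOn (fun y => curl (u t) (Φ t s y)) (fun y => curl (u s) y) (closure D) := by
    apply Set.EqOn.closure
    · exact hconst
    · have : (fun y => curl (u t) (Φ t s y)) = fun y => (G (t, Φ t s y) (0, 1)).im -
          (G (t, Φ t s y) (0, Complex.I)).re := by
        ext y
        exact hcurl _ _
      rw [this]
      have k1 : Continuous fun y => Φ t s y := by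
        have := hF.smooth.continuous
        exact this.comp (by fun_prop : Continuous fun y : ℂ => (t, s, y))
      have k2 : Continuous fun y => G (t, Φ t s y) := hGc.continuous.comp (by fun_prop)
      have k3 : ∀ v, Continuous fun y => G (t, Φ t s y) v := fun v => k2.clm_apply continuous_const
      exact (Complex.continuous_im.comp (k3 _)).sub (Complex.continuous_re.comp (k3 _))
    · have : (fun y => curl (u s) y) = fun y => (G (s, y) (0, 1)).im -
          (G (s, y) (0, Complex.I)).re := by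
        ext y
        exact hcurl _ _
      rw [this]
      have k2 : Continuous fun y => G (s, y) := hGc.continuous.comp (by fun_prop)
      have k3 : ∀ v, Continuous fun y => G (s, y) v := fun v => k2.clm_apply continuous_const
      exact (Complex.continuous_im.comp (k3 _)).sub (Complex.continuous_re.comp (k3 _))
  exact hcl hx

/-- T10b. Derivative bounds of the vorticity along straight lines. -/
theorem curl_line_bound (k : ℕ) (v : ℂ → ℂ) (hv : ContDiff ℝ ∞ v) (M : ℝ)
    (hM : ∀ a, a ≤ k + 1 → ∀ x, ‖iteratedFDeriv ℝ a v x‖ ≤ M) (P V : ℂ) (hV : ‖V‖ ≤ 2) :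
    ContDiff ℝ ∞ (fun x : ℝ => curl v (P + x * V)) ∧
    ∀ a, 1 ≤ a → a ≤ k → ∀ x : ℝ,
      |iteratedDeriv a (fun x : ℝ => curl v (P + x * V)) x| ≤ 2 ^ (k + 1) * M := by
  have hM0 : 0 ≤ M := (norm_nonneg _).trans (hM 0 (Nat.zero_le _) 0)
  have hdv : ContDiff ℝ ∞ (fderiv ℝ v) := hv.fderiv_right (m := ∞) (by simp)
  let ℓ : ℝ →L[ℝ] ℂ := (ContinuousLinearMap.id ℝ ℝ).smulRight V
  have hℓ : ‖ℓ‖ ≤ 2 := by
    refine ContinuousLinearMap.opNorm_le_bound _ (by norm_num) fun x => ?_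
    change ‖x • V‖ ≤ 2 * ‖x‖
    rw [norm_smul, mul_comm]
    exact mul_le_mul_of_nonneg_right hV (norm_nonneg _)
  -- the field along the line
  set w : ℂ → (ℂ →L[ℝ] ℂ) := fun z => fderiv ℝ v (P + z) with hw
  have hwc : ContDiff ℝ ∞ w := hdv.comp (contDiff_const.add contDiff_id)
  have hfun : (fun x : ℝ => curl v (P + x * V)) = fun x => curlFun ((w ∘ ℓ) x) := by
    ext x
    rw [curl_eq]
    rfl
  have hwl : ContDiff ℝ ∞ (w ∘ ℓ) := hwc.comp ℓ.contDiff
  refine ⟨?_, ?_⟩
  · rw [hfun]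
    exact curlFun.contDiff.comp hwl
  · intro a ha1 hak x
    rw [← Real.norm_eq_abs, ← norm_iteratedFDeriv_eq_norm_iteratedDeriv, hfun]
    have h1 : ‖iteratedFDeriv ℝ a (fun x => curlFun ((w ∘ ℓ) x)) x‖ ≤
        ‖curlFun‖ * ‖iteratedFDeriv ℝ a (w ∘ ℓ) x‖ := by
      exact curlFun.norm_iteratedFDeriv_comp_left (hwl.contDiffAt.of_le (by exact_mod_cast le_top)) le_rfl
    have h2 : ‖iteratedFDeriv ℝ a (w ∘ ℓ) x‖ ≤ ‖iteratedFDeriv ℝ a w (ℓ x)‖ * ‖ℓ‖ ^ a := by
      rw [ContinuousLinearMap.iteratedFDeriv_comp_right ℓ hwc x (by exact_mod_cast le_top)]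
      refine (ContinuousMultilinearMap.norm_compContinuousLinearMap_le _ _).trans ?_
      rw [Finset.prod_const, Finset.card_univ, Fintype.card_fin]
    have h3 : ‖iteratedFDeriv ℝ a w (ℓ x)‖ ≤ M := by
      rw [hw, iteratedFDeriv_comp_add_left, norm_iteratedFDeriv_fderiv]
      exact hM _ (by omega) _
    have h4 : ‖ℓ‖ ^ a ≤ 2 ^ a := pow_le_pow_left₀ (norm_nonneg _) hℓ _
    have h5 : (2 : ℝ) ^ a ≤ 2 ^ k := pow_le_pow_right₀ (by norm_num) hak
    calc _ ≤ ‖curlFun‖ * ‖iteratedFDeriv ℝ a (w ∘ ℓ) x‖ := h1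
      _ ≤ 2 * (M * 2 ^ k) := by
        refine mul_le_mul norm_curlFun ?_ (norm_nonneg _) (by norm_num)
        refine h2.trans (mul_le_mul h3 (h4.trans h5) (by positivity) hM0)
      _ = 2 ^ (k + 1) * M := by ring

end Pool.Agent.ES38
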