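import Pool.Agent.ES38.Defs

open Set Real
open scoped ContDiff

namespace Pool.Agent.ES38

/-- `m` zeros in increasing order -/
private def HZ (g : ℝ → ℝ) (a b : ℝ) (m : ℕ) : Prop :=
  ∃ z : ℕ → ℝ, (∀ i, i + 1 < m → z i < z (i + 1)) ∧ ∀ i, i < m → z i ∈ Icc a b ∧ g (z i) = 0

private theorem hz_deriv {g : ℝ → ℝ} (hg : ContDiff ℝ ∞ g) {a b : ℝ} {m : ℕ}
    (H : HZ g a b (m + 1)) : HZ (deriv g) a b m := by
  obtain ⟨z, hz, hz0⟩ := H
  have hd : Differentiable ℝ g := hg.differentiable (by simp)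
  have key : ∀ i, i < m → ∃ ξ, z i < ξ ∧ ξ < z (i + 1) ∧ deriv g ξ = 0 := by
    intro i hi
    have h1 := hz i (by omega)
    have h2 : g (z i) = g (z (i + 1)) := by
      rw [(hz0 i (by omega)).2, (hz0 (i + 1) (by omega)).2]
    obtain ⟨ξ, hξ, h3⟩ := exists_deriv_eq_zero h1 hd.continuous.continuousOn h2
    exact ⟨ξ, hξ.1, hξ.2, h3⟩
  choose! ξ h1 h2 h3 using key
  refine ⟨ξ, fun i hi => ?_, fun i hi => ⟨⟨?_, ?_⟩, h3 i hi⟩⟩
  · exact (h2 i (by omega)).trans (h1 (i + 1) hi)
  · exact (hz0 i (by omega)).1.1.trans (h1 i hi).le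
  · exact (h2 i hi).le.trans (hz0 (i + 1) (by omega)).1.2

private theorem hz_bound (n : ℕ) : ∀ (g : ℝ → ℝ), ContDiff ℝ ∞ g → ∀ (a b : ℝ), a < b →
    HZ g a b n → ∀ B : ℝ, (∀ x ∈ Icc a b, |iteratedDeriv n g x| ≤ B) →
    ∀ x ∈ Icc a b, |g x| ≤ (b - a) ^ n * B := by
  induction n with
  | zero =>
    intro g _ a b _ _ B hB x hx
    simpa using hB x hx
  | succ n ih =>
    intro g hg a b hab H B hB x hx
    have hd : Differentiable ℝ g := hg.differentiable (by simp)
    have hg' : ContDiff ℝ ∞ (deriv g) := by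
      have := (contDiff_infty_iff_deriv).mp hg
      exact this.2
    have h1 := ih (deriv g) hg' a b hab (hz_deriv hg H) B (by
      intro y hy
      rw [← iteratedDeriv_succ']
      exact hB y hy)
    obtain ⟨z, _, hz0⟩ := H
    have hz := hz0 0 (by omega)
    have hB0 : 0 ≤ (b - a) ^ n * B := (abs_nonneg _).trans (h1 x hx)
    have h2 := (convex_Icc a b).norm_image_sub_le_of_norm_deriv_le (f := g)
      (C := (b - a) ^ n * B) (fun y _ => hd y) (fun y hy => h1 y hy) hz.1 hx
    rw [hz.2, sub_zero, Real.norm_eq_abs, Real.norm_eq_abs] at h2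
    have h3 : |x - z 0| ≤ b - a := by
      rw [abs_le]
      constructor <;> linarith [hx.1, hx.2, hz.1.1, hz.1.2]
    calc |g x| ≤ (b - a) ^ n * B * |x - z 0| := h2
      _ ≤ (b - a) ^ n * B * (b - a) := by gcongr
      _ = _ := by ring

private theorem iter_re (n : ℕ) : ∀ f : ℝ → ℂ, ContDiff ℝ ∞ f → ∀ x,
    iteratedDeriv n (fun x => (f x).re) x = (iteratedDeriv n f x).re := by
  induction n with
  | zero => intro f _ x; simp
  | succ n ih =>
    intro f hf x
    have hf' : ContDiff ℝ ∞ (deriv f) := ((contDiff_infty_iff_deriv).mp hf).2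
    have hd : Differentiable ℝ f := hf.differentiable (by simp)
    rw [iteratedDeriv_succ', iteratedDeriv_succ', ← ih _ hf']
    congr 1
    funext y
    exact ((Complex.reCLM.hasFDerivAt (x := f y)).comp_hasDerivAt y (hd y).hasDerivAt).deriv

private theorem iter_im (n : ℕ) : ∀ f : ℝ → ℂ, ContDiff ℝ ∞ f → ∀ x,
    iteratedDeriv n (fun x => (f x).im) x = (iteratedDeriv n f x).im := by
  induction n with
  | zero => intro f _ x; simp
  | succ n ih =>
    intro f hf x
    have hf' : ContDiff ℝ ∞ (deriv f) := ((contDiff_infty_iff_deriv).mp hf).2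
    have hd : Differentiable ℝ f := hf.differentiable (by simp)
    rw [iteratedDeriv_succ', iteratedDeriv_succ', ← ih _ hf']
    congr 1
    funext y
    exact ((Complex.imCLM.hasFDerivAt (x := f y)).comp_hasDerivAt y (hd y).hasDerivAt).deriv

/-- T2. A function with `k` zeros on an interval is small. -/
theorem many_zeros (k : ℕ) (hk : 1 ≤ k) (f : ℝ → ℂ) (hf : ContDiff ℝ ∞ f) (a b : ℝ)
    (hab : a < b) (Z : Finset ℝ) (hZ : k ≤ Z.card) (h0 : ∀ z ∈ Z, z ∈ Icc a b ∧ f z = 0)
    (B : ℝ) (hB : ∀ x ∈ Icc a b, ‖iteratedDeriv k f x‖ ≤ B) :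
    ∀ x ∈ Icc a b, ‖f x‖ ≤ 2 * (b - a) ^ k * B := by
  intro x hx
  have hre : ContDiff ℝ ∞ (fun x => (f x).re) := Complex.reCLM.contDiff.comp hf
  have him : ContDiff ℝ ∞ (fun x => (f x).im) := Complex.imCLM.contDiff.comp hf
  set e := Z.orderEmbOfFin rfl with he
  have hz : ∀ G : ℂ → ℝ, G 0 = 0 → HZ (fun x => G (f x)) a b k := by
    intro G hG
    refine ⟨fun i => if h : i < Z.card then e ⟨i, h⟩ else 0, ?_, ?_⟩
    · intro i hi
      have h1 : i < Z.card := by omega
      have h2 : i + 1 < Z.card := by omega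
      simp only [dif_pos h1, dif_pos h2]
      apply e.strictMono
      exact Fin.mk_lt_mk.mpr (by omega)
    · intro i hi
      have h1 : i < Z.card := by omega
      simp only [dif_pos h1]
      have h2 : e ⟨i, h1⟩ ∈ Z := Finset.orderEmbOfFin_mem Z rfl _
      refine ⟨(h0 _ h2).1, ?_⟩
      rw [(h0 _ h2).2, hG]
  have h1 := hz_bound k _ hre a b hab (hz Complex.re Complex.zero_re) B (by
    intro y hy
    rw [iter_re k f hf]
    exact (Complex.abs_re_le_norm _).trans (hB y hy)) x hx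
  have h2 := hz_bound k _ him a b hab (hz Complex.im Complex.zero_im) B (by
    intro y hy
    rw [iter_im k f hf]
    exact (Complex.abs_im_le_norm _).trans (hB y hy)) x hx
  have h3 := Complex.norm_le_abs_re_add_abs_im (f x)
  linarith

private theorem pts_claim (j : ℕ) : ∀ (h : ℝ → ℝ), ContDiff ℝ ∞ h → ∀ (a b d δ : ℝ), 0 < d →
    ∀ x : ℕ → ℝ, (∀ i, i + 1 < 2 ^ j → x i + d ≤ x (i + 1)) →
    (∀ i, i < 2 ^ j → x i ∈ Icc a b ∧ |h (x i)| ≤ δ) →
    ∃ ξ ∈ Icc a b, |iteratedDeriv j h ξ| ≤ (2 / d) ^ j * δ := by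
  induction j with
  | zero =>
    intro h _ a b d δ _ x _ hx
    refine ⟨x 0, (hx 0 (by norm_num)).1, ?_⟩
    simpa using (hx 0 (by norm_num)).2
  | succ j ih =>
    intro h hh a b d δ hd x hgap hx
    have hdiff : Differentiable ℝ h := hh.differentiable (by simp)
    have hh' : ContDiff ℝ ∞ (deriv h) := ((contDiff_infty_iff_deriv).mp hh).2
    have h2j : 2 ^ (j + 1) = 2 * 2 ^ j := by rw [pow_succ, mul_comm]
    have key : ∀ i, i < 2 ^ j → ∃ y, x (2 * i) < y ∧ y < x (2 * i + 1) ∧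
        |deriv h y| ≤ 2 * δ / d := by
      intro i hi
      have hg := hgap (2 * i) (by omega)
      have hlt : x (2 * i) < x (2 * i + 1) := by linarith
      obtain ⟨y, hy, h3⟩ := exists_deriv_eq_slope h hlt hdiff.continuous.continuousOn
        hdiff.differentiableOn
      refine ⟨y, hy.1, hy.2, ?_⟩
      rw [h3, abs_div, abs_of_pos (by linarith : 0 < x (2 * i + 1) - x (2 * i))]
      have h4 := (hx (2 * i) (by omega)).2
      have h5 := (hx (2 * i + 1) (by omega)).2
      have h6 : |h (x (2 * i + 1)) - h (x (2 * i))| ≤ 2 * δ := by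
        refine (abs_sub _ _).trans ?_
        linarith
      have hδ : 0 ≤ 2 * δ := (abs_nonneg _).trans h6
      calc |h (x (2 * i + 1)) - h (x (2 * i))| / (x (2 * i + 1) - x (2 * i))
          ≤ 2 * δ / (x (2 * i + 1) - x (2 * i)) := by
            apply div_le_div_of_nonneg_right h6
            linarith
        _ ≤ 2 * δ / d := by
            apply div_le_div_of_nonneg_left hδ hd
            linarith
    choose! y h1 h2 h3 using key
    obtain ⟨ξ, hξ, h4⟩ := ih (deriv h) hh' a b d (2 * δ / d) hd y (by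
      intro i hi
      have hg := hgap (2 * i + 1) (by omega)
      have e1 := h2 i (by omega)
      have e2 := h1 (i + 1) (by omega)
      have e3 : 2 * (i + 1) = 2 * i + 1 + 1 := by ring
      rw [e3] at e2
      linarith) (by
      intro i hi
      refine ⟨⟨?_, ?_⟩, h3 i hi⟩
      · exact (hx (2 * i) (by omega)).1.1.trans (h1 i hi).le
      · exact (h2 i hi).le.trans (hx (2 * i + 1) (by omega)).1.2)
    refine ⟨ξ, hξ, ?_⟩
    rw [iteratedDeriv_succ']
    refine h4.trans (le_of_eq ?_)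
    rw [pow_succ]
    ring

private theorem greedy (d : ℝ) (hd : 0 < d) (n : ℕ) : ∀ E : Set ℝ, IsCompact E →
    ENNReal.ofReal (n * d) < MeasureTheory.volume E →
    ∃ x : ℕ → ℝ, (∀ i, i < n → x i + d ≤ x (i + 1)) ∧ ∀ i, i ≤ n → x i ∈ E := by
  induction n with
  | zero =>
    intro E hE hv
    have hne : E.Nonempty := by
      rw [Set.nonempty_iff_ne_empty]
      rintro rfl
      simp at hv
    obtain ⟨x, hx⟩ := hne
    refine ⟨fun _ => x, by simp, fun i _ => hx⟩
  | succ n ih =>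
    intro E hE hv
    have hne : E.Nonempty := by
      rw [Set.nonempty_iff_ne_empty]
      rintro rfl
      simp at hv
    obtain ⟨x0, hx0, hmin⟩ := hE.exists_isMinOn hne continuousOn_id
    have hE' : IsCompact (E ∩ Ici (x0 + d)) := hE.inter_right isClosed_Ici
    have hcov : E ⊆ Ico x0 (x0 + d) ∪ (E ∩ Ici (x0 + d)) := by
      intro y hy
      have h1 : x0 ≤ y := hmin hy
      rcases lt_or_ge y (x0 + d) with h2 | h2
      · exact Or.inl ⟨h1, h2⟩
      · exact Or.inr ⟨hy, h2⟩
    have h3 : MeasureTheory.volume E ≤ ENNReal.ofReal d +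
        MeasureTheory.volume (E ∩ Ici (x0 + d)) := by
      refine (MeasureTheory.measure_mono hcov).trans
        ((MeasureTheory.measure_union_le _ _).trans ?_)
      rw [Real.volume_Ico]
      apply le_of_eq
      congr 2
      ring
    have h4 : ENNReal.ofReal (n * d) < MeasureTheory.volume (E ∩ Ici (x0 + d)) := by
      have h5 : ENNReal.ofReal (((n + 1 : ℕ) : ℝ) * d) =
          ENNReal.ofReal d + ENNReal.ofReal (n * d) := by
        rw [← ENNReal.ofReal_add hd.le (by positivity)]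
        congr 1
        push_cast
        ring
      rw [h5] at hv
      have h6 := hv.trans_le h3
      exact lt_of_add_lt_add_left h6
    obtain ⟨x, hx1, hx2⟩ := ih _ hE' h4
    refine ⟨fun i => if i = 0 then x0 else x (i - 1), ?_, ?_⟩
    · intro i hi
      rcases Nat.eq_zero_or_pos i with rfl | hpos
      · simp only [if_pos, if_neg (Nat.succ_ne_zero 0)]
        exact (hx2 0 (Nat.zero_le _)).2
      · beta_reduce
        rw [if_neg hpos.ne', if_neg (Nat.succ_ne_zero i), Nat.add_sub_cancel]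
        have := hx1 (i - 1) (by omega)
        rwa [Nat.sub_add_cancel hpos] at this
    · intro i hi
      rcases Nat.eq_zero_or_pos i with rfl | hpos
      · simpa using hx0
      · beta_reduce
        rw [if_neg hpos.ne']
        exact (hx2 (i - 1) (by omega)).1

/-- Sublevel estimate in one variable (van der Corput type). -/
theorem sublevel (j : ℕ) (h : ℝ → ℝ) (hh : ContDiff ℝ ∞ h) (a b κ δ : ℝ) (hκ : 0 < κ)
    (hδ : 0 < δ) (hj : 1 ≤ j) (hlow : ∀ x ∈ Icc a b, κ ≤ |iteratedDeriv j h x|) :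
    (MeasureTheory.volume {x | x ∈ Icc a b ∧ |h x| ≤ δ}).toReal ≤
      2 ^ (j + 2) * (δ / κ) ^ ((1 : ℝ) / j) := by
  set E : Set ℝ := {x | x ∈ Icc a b ∧ |h x| ≤ δ} with hE
  have hEc : IsCompact E := by
    have h1 : E = Icc a b ∩ {x | |h x| ≤ δ} := rfl
    rw [h1]
    apply isCompact_Icc.inter_right
    exact isClosed_le (hh.continuous.abs) continuous_const
  set μ : ℝ := (MeasureTheory.volume E).toReal with hμ
  have hfin : MeasureTheory.volume E ≠ ⊤ := hEc.measure_lt_top.ne
  have hX : 0 ≤ (δ / κ) ^ ((1 : ℝ) / j) := by positivity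
  rcases le_or_gt μ 0 with hμ0 | hμ0
  · exact hμ0.trans (by positivity)
  have h2j : (0:ℝ) < 2 ^ j := by positivity
  set d : ℝ := μ / 2 ^ j with hd
  have hd0 : 0 < d := by positivity
  obtain ⟨n, hn⟩ : ∃ n : ℕ, 2 ^ j = n + 1 := ⟨2 ^ j - 1, by
    have : 0 < 2 ^ j := by positivity
    omega⟩
  have hnR : (2:ℝ) ^ j = n + 1 := by exact_mod_cast hn
  have hvol : ENNReal.ofReal (n * d) < MeasureTheory.volume E := by
    rw [← ENNReal.ofReal_toReal hfin, ← hμ]
    apply (ENNReal.ofReal_lt_ofReal_iff hμ0).mpr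
    have : (2:ℝ) ^ j * d = μ := by rw [hd]; field_simp
    rw [hnR] at this
    linarith
  obtain ⟨x, hx1, hx2⟩ := greedy d hd0 n E hEc hvol
  obtain ⟨ξ, hξ, h3⟩ := pts_claim j h hh a b d δ hd0 x (by
    intro i hi
    exact hx1 i (by omega)) (by
    intro i hi
    exact hx2 i (by omega))
  have h4 := (hlow ξ hξ).trans h3
  have h5 : (d / 2) ^ j ≤ δ / κ := by
    rw [le_div_iff₀ hκ]
    have h6 : (d / 2) ^ j * (2 / d) ^ j = 1 := by
      rw [← mul_pow]
      have : d / 2 * (2 / d) = 1 := by field_simp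
      rw [this, one_pow]
    calc (d / 2) ^ j * κ ≤ (d / 2) ^ j * ((2 / d) ^ j * δ) := by gcongr
      _ = ((d / 2) ^ j * (2 / d) ^ j) * δ := by ring
      _ = δ := by rw [h6, one_mul]
  have h7 : d / 2 ≤ (δ / κ) ^ ((1 : ℝ) / j) := by
    have hjR : (j : ℝ) ≠ 0 := by
      have : j ≠ 0 := by omega
      exact_mod_cast this
    have h8 : ((d / 2) ^ j) ^ ((1 : ℝ) / j) = d / 2 := by
      rw [one_div]
      exact Real.pow_rpow_inv_natCast (by positivity) (by omega)
    rw [← h8]
    exact Real.rpow_le_rpow (by positivity) h5 (by positivity)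
  have h9 : μ = 2 ^ j * 2 * (d / 2) := by rw [hd]; field_simp
  rw [h9]
  calc (2:ℝ) ^ j * 2 * (d / 2) ≤ 2 ^ j * 2 * (δ / κ) ^ ((1 : ℝ) / j) := by gcongr
    _ ≤ 2 ^ j * 4 * (δ / κ) ^ ((1 : ℝ) / j) := by gcongr; norm_num
    _ = _ := by rw [pow_add]; norm_num

end Pool.Agent.ES38
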