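import Pool.Agent.ES38.Defs
import Pool.Agent.ES38.Landau2

open Set Real
open scoped ContDiff

namespace Pool.Agent.ES38

/-- Part (a): a point with a small derivative of order `j` in every subinterval. -/
private theorem landau_pt (j : ℕ) : ∃ K : ℕ, ∀ f : ℝ → ℝ, ContDiff ℝ ∞ f →
    ∀ (p q r : ℝ), p < q → (∀ x ∈ Icc p q, |f x| ≤ r) →
    ∃ ξ ∈ Icc p q, (q - p) ^ j * |iteratedDeriv j f ξ| ≤ K * r := by
  induction j with
  | zero =>
    refine ⟨1, fun f _ p q r hpq hf => ⟨p, left_mem_Icc.mpr hpq.le, ?_⟩⟩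
    simpa using hf p (left_mem_Icc.mpr hpq.le)
  | succ j ih =>
    obtain ⟨K, hK⟩ := ih
    refine ⟨2 * 3 ^ (j + 1) * K, fun f hf p q r hpq hr => ?_⟩
    have hl : 0 < q - p := sub_pos.mpr hpq
    set l := q - p with hldef
    obtain ⟨ξ1, hξ1, h1⟩ := hK f hf p (p + l / 3) r (by linarith) (fun x hx => hr x
      ⟨hx.1, by linarith [hx.2]⟩)
    obtain ⟨ξ2, hξ2, h2⟩ := hK f hf (q - l / 3) q r (by linarith) (fun x hx => hr x
      ⟨by linarith [hx.1], hx.2⟩)
    have hgap : l / 3 ≤ ξ2 - ξ1 := by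
      have := hξ1.2
      have := hξ2.1
      linarith
    have hlt : ξ1 < ξ2 := by linarith
    have hdiff : Differentiable ℝ (iteratedDeriv j f) :=
      hf.differentiable_iteratedDeriv j (by exact_mod_cast WithTop.coe_lt_top _)
    obtain ⟨ξ, hξ, hξd⟩ := exists_deriv_eq_slope (iteratedDeriv j f) hlt
      hdiff.continuous.continuousOn (hdiff.differentiableOn)
    have hmem : ξ ∈ Icc p q := ⟨by linarith [hξ.1, hξ1.1], by linarith [hξ.2, hξ2.2]⟩
    refine ⟨ξ, hmem, ?_⟩
    rw [iteratedDeriv_succ, hξd, abs_div, abs_of_pos (sub_pos.mpr hlt)]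
    have e1 : p + l / 3 - p = l / 3 := by ring
    have e2 : q - (q - l / 3) = l / 3 := by ring
    rw [e1] at h1
    rw [e2] at h2
    set A := iteratedDeriv j f ξ1
    set B := iteratedDeriv j f ξ2
    have h3 : (l / 3) ^ j * |B - A| ≤ 2 * (K * r) := by
      calc (l / 3) ^ j * |B - A| ≤ (l / 3) ^ j * (|B| + |A|) := by
            gcongr
            exact abs_sub _ _
        _ = (l / 3) ^ j * |B| + (l / 3) ^ j * |A| := by ring
        _ ≤ 2 * (K * r) := by linarith
    have h4 : l ^ (j + 1) * (|B - A| / (ξ2 - ξ1)) ≤ l ^ (j + 1) * (|B - A| / (l / 3)) := by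
      gcongr
    have h5 : l ^ (j + 1) * (|B - A| / (l / 3)) = 3 ^ (j + 1) * ((l / 3) ^ j * |B - A|) := by
      rw [pow_succ, pow_succ, div_pow]
      field_simp
    calc l ^ (j + 1) * (|B - A| / (ξ2 - ξ1)) ≤ 3 ^ (j + 1) * ((l / 3) ^ j * |B - A|) := by
          rw [← h5]; exact h4
      _ ≤ 3 ^ (j + 1) * (2 * (K * r)) := by gcongr
      _ = ((2 * 3 ^ (j + 1) * K : ℕ) : ℝ) * r := by push_cast; ring

/-- Part (b): integrating down. -/
private theorem landau_down (k i : ℕ) (hi : i ≤ k) : ∃ C : ℕ, ∀ f : ℝ → ℝ, ContDiff ℝ ∞ f →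
    ∀ (a b r : ℝ), a < b → (∀ x ∈ Icc a b, |f x| ≤ r) →
    (∀ x ∈ Icc a b, (b - a) ^ k * |iteratedDeriv k f x| ≤ r) →
    ∀ x ∈ Icc a b, (b - a) ^ (k - i) * |iteratedDeriv (k - i) f x| ≤ C * r := by
  induction i with
  | zero =>
    exact ⟨1, fun f _ a b r _ _ hk x hx => by simpa using hk x hx⟩
  | succ i ih =>
    obtain ⟨C, hC⟩ := ih (by omega)
    obtain ⟨K, hK⟩ := landau_pt (k - (i + 1))
    refine ⟨K + C, fun f hf a b r hab h0 hk x hx => ?_⟩
    have hl : 0 < b - a := sub_pos.mpr hab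
    have hC' := hC f hf a b r hab h0 hk
    obtain ⟨ξ, hξ, h1⟩ := hK f hf a b r hab h0
    obtain ⟨j, hj⟩ : ∃ j, k - (i + 1) = j := ⟨_, rfl⟩
    have hj' : k - i = j + 1 := by omega
    rw [hj] at h1 ⊢
    rw [hj'] at hC'
    have hdiff : Differentiable ℝ (iteratedDeriv j f) :=
      hf.differentiable_iteratedDeriv j (by exact_mod_cast WithTop.coe_lt_top _)
    have h2 : ‖iteratedDeriv j f x - iteratedDeriv j f ξ‖ ≤
        (C * r / (b - a) ^ (j + 1)) * ‖x - ξ‖ := by
      refine (convex_Icc a b).norm_image_sub_le_of_norm_deriv_le (fun y _ => hdiff y)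
        (fun y hy => ?_) hξ hx
      rw [← iteratedDeriv_succ, Real.norm_eq_abs, le_div_iff₀ (by positivity)]
      linarith [hC' y hy, mul_comm (|iteratedDeriv (j + 1) f y|) ((b - a) ^ (j + 1))]
    have h3 : |x - ξ| ≤ b - a := by
      rw [abs_le]
      constructor <;> linarith [hx.1, hx.2, hξ.1, hξ.2]
    have hr0 : 0 ≤ (C : ℝ) * r := (by positivity : (0 : ℝ) ≤ _).trans (hC' x hx)
    rw [Real.norm_eq_abs, Real.norm_eq_abs] at h2
    have h4 : |iteratedDeriv j f x| ≤ |iteratedDeriv j f ξ| +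
        (C * r / (b - a) ^ (j + 1)) * (b - a) := by
      have h5 : |iteratedDeriv j f x| - |iteratedDeriv j f ξ| ≤
        |iteratedDeriv j f x - iteratedDeriv j f ξ| := abs_sub_abs_le_abs_sub _ _
      have h6 : (C * r / (b - a) ^ (j + 1)) * |x - ξ| ≤
        (C * r / (b - a) ^ (j + 1)) * (b - a) := by gcongr
      linarith
    calc (b - a) ^ j * |iteratedDeriv j f x| ≤ (b - a) ^ j * (|iteratedDeriv j f ξ| +
        (C * r / (b - a) ^ (j + 1)) * (b - a)) := by gcongr
      _ = (b - a) ^ j * |iteratedDeriv j f ξ| + C * r := by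
        rw [mul_add, pow_succ]
        congr 1
        field_simp
      _ ≤ K * r + C * r := by gcongr
      _ = ((K + C : ℕ) : ℝ) * r := by push_cast; ring

/-- T1'. Real-valued version, starting from a bound of the function itself. -/
theorem landau_real (k : ℕ) : ∃ C : ℕ, 1 ≤ C ∧ ∀ f : ℝ → ℝ, ContDiff ℝ ∞ f →
    ∀ (a b r : ℝ), a < b → (∀ x ∈ Icc a b, |f x| ≤ r) →
    (∀ x ∈ Icc a b, (b - a) ^ k * |iteratedDeriv k f x| ≤ r) →
    ∀ j, j ≤ k → ∀ x ∈ Icc a b, (b - a) ^ j * |iteratedDeriv j f x| ≤ C * r := by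
  choose! C hC using landau_down k
  refine ⟨(∑ i ∈ Finset.range (k + 1), C i) + 1, by omega, fun f hf a b r hab h0 hk j hj x hx => ?_⟩
  have h1 := hC (k - j) (by omega) f hf a b r hab h0 hk x hx
  rw [show k - (k - j) = j by omega] at h1
  have hr : 0 ≤ r := (abs_nonneg _).trans (h0 x hx)
  have h2 : C (k - j) ≤ (∑ i ∈ Finset.range (k + 1), C i) + 1 :=
    (Finset.single_le_sum (f := C) (fun _ _ => Nat.zero_le _)
      (Finset.mem_range.mpr (by omega : k - j < k + 1))).trans (Nat.le_succ _)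
  have h3 : (C (k - j) : ℝ) ≤ (((∑ i ∈ Finset.range (k + 1), C i) + 1 : ℕ) : ℝ) := by
    exact_mod_cast h2
  exact h1.trans (by gcongr)

private theorem landau_re (n : ℕ) : ∀ f : ℝ → ℂ, ContDiff ℝ ∞ f → ∀ x,
    iteratedDeriv n (fun x => (f x).re) x = (iteratedDeriv n f x).re := by
  induction n with
  | zero => intro f _ x; simp
  | succ n ih =>
    intro f hf x
    have hd : Differentiable ℝ f := hf.differentiable (by simp)
    have hf' : ContDiff ℝ ∞ (deriv f) := ((contDiff_infty_iff_deriv).mp hf).2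
    rw [iteratedDeriv_succ', iteratedDeriv_succ', ← ih _ hf']
    congr 1
    funext y
    exact ((Complex.reCLM.hasFDerivAt (x := f y)).comp_hasDerivAt y (hd y).hasDerivAt).deriv

private theorem landau_im (n : ℕ) : ∀ f : ℝ → ℂ, ContDiff ℝ ∞ f → ∀ x,
    iteratedDeriv n (fun x => (f x).im) x = (iteratedDeriv n f x).im := by
  induction n with
  | zero => intro f _ x; simp
  | succ n ih =>
    intro f hf x
    have hd : Differentiable ℝ f := hf.differentiable (by simp)
    have hf' : ContDiff ℝ ∞ (deriv f) := ((contDiff_infty_iff_deriv).mp hf).2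
    rw [iteratedDeriv_succ', iteratedDeriv_succ', ← ih _ hf']
    congr 1
    funext y
    exact ((Complex.imCLM.hasFDerivAt (x := f y)).comp_hasDerivAt y (hd y).hasDerivAt).deriv

/-- T1. Landau-Kolmogorov type inequality on an interval. -/
theorem landau (k : ℕ) : ∃ C : ℕ, 1 ≤ C ∧ ∀ f : ℝ → ℂ, ContDiff ℝ ∞ f →
    ∀ (a b r : ℝ) (z : ℂ), a < b → (∀ x ∈ Icc a b, ‖f x - z‖ ≤ r) →
    (∀ x ∈ Icc a b, (b - a) ^ k * ‖iteratedDeriv k f x‖ ≤ r) →
    ∀ j, 1 ≤ j → j ≤ k → ∀ x ∈ Icc a b, (b - a) ^ j * ‖iteratedDeriv j f x‖ ≤ C * r := by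
  obtain ⟨C, hC1, hC⟩ := landau_real k
  refine ⟨2 * C, by omega, fun f hf a b r z hab h0 hk j hj1 hjk x hx => ?_⟩
  have hl : 0 < b - a := sub_pos.mpr hab
  set g : ℝ → ℂ := fun x => f x - z with hg
  have hgs : ContDiff ℝ ∞ g := hf.sub contDiff_const
  have hgd : ∀ n, 1 ≤ n → ∀ y, iteratedDeriv n g y = iteratedDeriv n f y := by
    intro n hn y
    obtain ⟨m, rfl⟩ : ∃ m, n = m + 1 := ⟨n - 1, by omega⟩
    rw [iteratedDeriv_succ', iteratedDeriv_succ']
    congr 1
    funext w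
    rw [hg]
    exact deriv_sub_const _
  have hre : ContDiff ℝ ∞ (fun x => (g x).re) := Complex.reCLM.contDiff.comp hgs
  have him : ContDiff ℝ ∞ (fun x => (g x).im) := Complex.imCLM.contDiff.comp hgs
  have hk1 : 1 ≤ k := hj1.trans hjk
  have key1 := hC _ hre a b r hab (fun y hy => (Complex.abs_re_le_norm _).trans (h0 y hy))
    (fun y hy => by
      rw [landau_re k g hgs, hgd k hk1]
      exact le_trans (by gcongr; exact Complex.abs_re_le_norm _) (hk y hy)) j hjk x hx
  have key2 := hC _ him a b r hab (fun y hy => (Complex.abs_im_le_norm _).trans (h0 y hy))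
    (fun y hy => by
      rw [landau_im k g hgs, hgd k hk1]
      exact le_trans (by gcongr; exact Complex.abs_im_le_norm _) (hk y hy)) j hjk x hx
  rw [landau_re j g hgs, hgd j hj1] at key1
  rw [landau_im j g hgs, hgd j hj1] at key2
  calc (b - a) ^ j * ‖iteratedDeriv j f x‖
      ≤ (b - a) ^ j * (|(iteratedDeriv j f x).re| + |(iteratedDeriv j f x).im|) := by
        gcongr
        exact Complex.norm_le_abs_re_add_abs_im _
    _ ≤ ((2 * C : ℕ) : ℝ) * r := by push_cast; linarith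

end Pool.Agent.ES38
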