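import Pool.Agent.ES38.Basic
import Pool.Agent.ES38.Landau
open Set Real MeasureTheory
open scoped ContDiff
namespace Pool.Agent.ES38

/-- Directional derivative. -/
noncomputable def p12_dir {E : Type*} [NormedAddCommGroup E] [NormedSpace ℝ E] (ε : E)
    (F : E → ℝ) : E → ℝ := fun Y => fderiv ℝ F Y ε

theorem p12_dir_smooth {E : Type*} [NormedAddCommGroup E] [NormedSpace ℝ E] (ε : E)
    (F : E → ℝ) (hF : ContDiff ℝ ∞ F) : ContDiff ℝ ∞ (p12_dir ε F) := by
  unfold p12_dir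
  have h : ContDiff ℝ ∞ (fun Y => fderiv ℝ F Y) := hF.fderiv_right (by simp)
  exact h.clm_apply contDiff_const

theorem p12_iter {E : Type*} [NormedAddCommGroup E] [NormedSpace ℝ E] (ε : E)
    (F : E → ℝ) (hF : ContDiff ℝ ∞ F) (j : ℕ) : ContDiff ℝ ∞ ((p12_dir ε)^[j] F) ∧
    ∀ X : E, iteratedDeriv j (fun τ : ℝ => F (X + τ • ε)) =
      fun t : ℝ => ((p12_dir ε)^[j] F) (X + t • ε) := by
  induction j with
  | zero =>
    refine ⟨hF, fun X => ?_⟩
    rw [iteratedDeriv_zero]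
    rfl
  | succ j ih =>
    obtain ⟨h1, h2⟩ := ih
    rw [Function.iterate_succ_apply']
    refine ⟨p12_dir_smooth ε _ h1, fun X => ?_⟩
    rw [iteratedDeriv_succ, h2 X]
    funext t
    have hl : HasDerivAt (fun t : ℝ => X + t • ε) ε t := by
      have := ((hasDerivAt_id t).smul_const ε).const_add X
      simpa using this
    have h3 := (h1.differentiable (by simp) (X + t • ε)).hasFDerivAt.comp_hasDerivAt t hl
    exact h3.deriv

/-- The product measure. -/
noncomputable abbrev p12_mu : Measure (ℂ × ℂ) := (volume : Measure ℂ).prod (volume : Measure ℂ)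

theorem p12_local (G : ℂ × ℂ → ℝ) (hG : ContDiff ℝ ∞ G) (P ε : ℂ × ℂ) (j : ℕ) (hj : 1 ≤ j)
    (hne : iteratedDeriv j (fun τ : ℝ => G (P + τ • ε)) 0 ≠ 0) :
    ∃ r C : ℝ, 0 < r ∧ 0 ≤ C ∧ ∀ δ : ℝ, 0 < δ →
      p12_mu (Metric.ball P r ∩ {X | |G X| ≤ δ}) ≤ ENNReal.ofReal (C * δ ^ ((1 : ℝ) / j)) := by
  obtain ⟨hs, hi⟩ := p12_iter ε G hG j
  set Ψ := (p12_dir ε)^[j] G with hΨ
  rw [hi P] at hne
  simp only [zero_smul, add_zero] at hne
  set κ : ℝ := |Ψ P| / 2 with hκ
  have hκ0 : 0 < κ := by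
    have := abs_pos.2 hne
    positivity
  have hcont : Continuous Ψ := hs.continuous
  obtain ⟨R, hR, hRb⟩ : ∃ R > 0, ∀ Y ∈ Metric.ball P R, κ ≤ |Ψ Y| := by
    have h1 : ContinuousAt (fun Y => |Ψ Y|) P := (continuous_abs.comp hcont).continuousAt
    have h2 : ∀ᶠ Y in nhds P, κ < |Ψ Y| := by
      apply h1.eventually (lt_mem_nhds _)
      rw [hκ]
      have := abs_pos.2 hne
      linarith
    obtain ⟨R, hR, h3⟩ := Metric.eventually_nhds_iff_ball.1 h2
    exact ⟨R, hR, fun Y hY => (h3 Y hY).le⟩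
  set r : ℝ := R / 3 with hr
  have hr0 : 0 < r := by positivity
  set r1 : ℝ := r / (‖ε‖ + 1) with hr1
  have hr10 : 0 < r1 := by positivity
  have hr1e : r1 * ‖ε‖ ≤ r := by
    rw [hr1, div_mul_eq_mul_div, div_le_iff₀ (by positivity)]
    nlinarith [norm_nonneg ε]
  set V : ENNReal := p12_mu (Metric.ball P (2 * r)) with hV
  have hVfin : V ≠ ⊤ := measure_ball_lt_top.ne
  refine ⟨r, V.toReal * (2 ^ (j + 2) * (1 / κ) ^ ((1 : ℝ) / j)) / (2 * r1), hr0, by positivity, ?_⟩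
  intro δ hδ
  set K : ℝ := 2 ^ (j + 2) * (δ / κ) ^ ((1 : ℝ) / j) with hK
  have hK0 : 0 ≤ K := by positivity
  set S : Set (ℂ × ℂ) := Metric.ball P r ∩ {X | |G X| ≤ δ} with hS
  have hGm : Continuous G := hG.continuous
  set T : Set (ℝ × (ℂ × ℂ)) :=
    {y | y.1 ∈ Icc (-r1) r1 ∧ y.2 ∈ Metric.ball P (2 * r) ∧ |G (y.2 + y.1 • ε)| ≤ δ} with hT
  have hTm : MeasurableSet T := by
    have h1 : MeasurableSet {y : ℝ × (ℂ × ℂ) | y.1 ∈ Icc (-r1) r1} :=
      measurable_fst measurableSet_Icc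
    have h2 : MeasurableSet {y : ℝ × (ℂ × ℂ) | y.2 ∈ Metric.ball P (2 * r)} :=
      measurable_snd measurableSet_ball
    have h3 : IsClosed {y : ℝ × (ℂ × ℂ) | |G (y.2 + y.1 • ε)| ≤ δ} := by
      apply isClosed_le _ continuous_const
      exact continuous_abs.comp (hGm.comp (by fun_prop))
    exact h1.inter (h2.inter h3.measurableSet)
  have hlow : ENNReal.ofReal (2 * r1) * p12_mu S ≤
      ((volume : Measure ℝ).prod p12_mu) T := by
    rw [Measure.prod_apply hTm]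
    have h1 : ENNReal.ofReal (2 * r1) * p12_mu S =
        ∫⁻ _ in Icc (-r1) r1, p12_mu S ∂(volume : Measure ℝ) := by
      rw [setLIntegral_const, Real.volume_Icc, mul_comm]
      congr 2
      ring
    rw [h1, ← lintegral_indicator measurableSet_Icc]
    apply lintegral_mono
    intro τ
    by_cases hτ : τ ∈ Icc (-r1) r1
    · simp only [indicator_of_mem hτ]
      have h2 : p12_mu S = p12_mu ((fun X : ℂ × ℂ => X + τ • ε) ⁻¹' S) :=
        (measure_preimage_add_right p12_mu (τ • ε) S).symm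
      rw [h2]
      apply measure_mono
      intro X hX
      have hX1 : X + τ • ε ∈ Metric.ball P r := hX.1
      have hX2 : |G (X + τ • ε)| ≤ δ := hX.2
      refine ⟨hτ, ?_, hX2⟩
      show X ∈ Metric.ball P (2 * r)
      rw [Metric.mem_ball, dist_eq_norm] at hX1 ⊢
      have h3 : X - P = (X + τ • ε - P) - τ • ε := by abel
      have h4 : ‖τ • ε‖ ≤ r := by
        rw [norm_smul, Real.norm_eq_abs]
        have : |τ| ≤ r1 := abs_le.2 hτ
        exact (mul_le_mul_of_nonneg_right this (norm_nonneg _)).trans hr1e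
      calc ‖X - P‖ = ‖(X + τ • ε - P) - τ • ε‖ := by rw [h3]
        _ ≤ ‖X + τ • ε - P‖ + ‖τ • ε‖ := norm_sub_le _ _
        _ < 2 * r := by linarith
    · simp only [indicator_of_notMem hτ]
      exact bot_le
  have hup : ((volume : Measure ℝ).prod p12_mu) T ≤
      ENNReal.ofReal K * V := by
    rw [Measure.prod_apply_symm hTm]
    have h1 : ENNReal.ofReal K * V =
        ∫⁻ _ in Metric.ball P (2 * r), ENNReal.ofReal K ∂p12_mu := by
      rw [setLIntegral_const]
    rw [h1, ← lintegral_indicator measurableSet_ball]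
    apply lintegral_mono
    intro X
    by_cases hX : X ∈ Metric.ball P (2 * r)
    · simp only [indicator_of_mem hX]
      have h2 : (fun τ : ℝ => (τ, X)) ⁻¹' T ⊆
          {τ | τ ∈ Icc (-r1) r1 ∧ |(fun τ : ℝ => G (X + τ • ε)) τ| ≤ δ} := by
        intro τ hτ
        exact ⟨hτ.1, hτ.2.2⟩
      refine (measure_mono h2).trans ?_
      have hfin : volume {τ : ℝ | τ ∈ Icc (-r1) r1 ∧
          |(fun τ : ℝ => G (X + τ • ε)) τ| ≤ δ} ≠ ⊤ := by
        apply ne_top_of_le_ne_top (b := volume (Icc (-r1) r1))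
        · rw [Real.volume_Icc]; exact ENNReal.ofReal_ne_top
        · exact measure_mono fun τ hτ => hτ.1
      rw [← ENNReal.ofReal_toReal hfin]
      apply ENNReal.ofReal_le_ofReal
      apply sublevel j (fun τ : ℝ => G (X + τ • ε)) (hG.comp (by fun_prop)) (-r1) r1 κ δ hκ0 hδ hj
      intro τ hτ
      rw [hi X]
      apply hRb
      rw [Metric.mem_ball, dist_eq_norm] at hX ⊢
      have h3 : X + τ • ε - P = (X - P) + τ • ε := by abel
      have h4 : ‖τ • ε‖ ≤ r := by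
        rw [norm_smul, Real.norm_eq_abs]
        have : |τ| ≤ r1 := abs_le.2 hτ
        exact (mul_le_mul_of_nonneg_right this (norm_nonneg _)).trans hr1e
      calc ‖X + τ • ε - P‖ = ‖(X - P) + τ • ε‖ := by rw [h3]
        _ ≤ ‖X - P‖ + ‖τ • ε‖ := norm_add_le _ _
        _ < R := by rw [hr] at *; linarith
    · simp only [indicator_of_notMem hX]
      have h2 : (fun τ : ℝ => (τ, X)) ⁻¹' T = ∅ := by
        rw [eq_empty_iff_forall_notMem]
        intro τ hτ
        exact hX hτ.2.1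
      rw [h2, measure_empty]
  have hfin : ENNReal.ofReal (2 * r1) * p12_mu S ≤ ENNReal.ofReal K * V := hlow.trans hup
  have h2r : (0 : ℝ) < 2 * r1 := by positivity
  have h5 : p12_mu S ≤ ENNReal.ofReal K * V / ENNReal.ofReal (2 * r1) := by
    rw [ENNReal.le_div_iff_mul_le (Or.inl (by simpa using h2r)) (Or.inl ENNReal.ofReal_ne_top),
      mul_comm]
    exact hfin
  refine h5.trans (le_of_eq ?_)
  rw [← ENNReal.ofReal_toReal hVfin, ← ENNReal.ofReal_mul hK0,
    ← ENNReal.ofReal_div_of_pos h2r]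
  congr 1
  rw [ENNReal.toReal_ofReal ENNReal.toReal_nonneg, hK]
  have h6 : (δ / κ) ^ ((1 : ℝ) / j) = (1 / κ) ^ ((1 : ℝ) / j) * δ ^ ((1 : ℝ) / j) := by
    rw [← Real.mul_rpow (by positivity) hδ.le]
    congr 1
    ring
  rw [h6]
  ring

theorem p12_mul (f : ℝ → ℝ) (hf : ContDiff ℝ ∞ f) (m : ℕ) :
    iteratedDeriv m (fun τ => τ * f τ) =
      fun τ => τ * iteratedDeriv m f τ + m * iteratedDeriv (m - 1) f τ := by
  induction m with
  | zero =>
    funext τ
    simp [iteratedDeriv_zero]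
  | succ m ih =>
    rw [iteratedDeriv_succ, ih]
    funext τ
    have hd : ∀ n : ℕ, DifferentiableAt ℝ (iteratedDeriv n f) τ := fun n =>
      (hf.differentiable_iteratedDeriv n (by exact_mod_cast (WithTop.coe_lt_top _))) τ
    have h1 : HasDerivAt (fun τ : ℝ => τ * iteratedDeriv m f τ)
        (1 * iteratedDeriv m f τ + τ * deriv (iteratedDeriv m f) τ) τ :=
      (hasDerivAt_id τ).mul (hd m).hasDerivAt
    cases m with
    | zero =>
      have h2 : (fun τ : ℝ => τ * iteratedDeriv 0 f τ + (0 : ℕ) * iteratedDeriv (0 - 1) f τ) =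
          fun τ : ℝ => τ * iteratedDeriv 0 f τ := by
        funext τ; simp
      rw [h2, h1.deriv, iteratedDeriv_succ]
      simp
      ring
    | succ m =>
      have h2 : HasDerivAt (fun τ : ℝ => ((m + 1 : ℕ) : ℝ) * iteratedDeriv (m + 1 - 1) f τ)
          (((m + 1 : ℕ) : ℝ) * deriv (iteratedDeriv m f) τ) τ :=
        (hd m).hasDerivAt.const_mul _
      have h3 := (h1.add h2).deriv
      have h4 : deriv (fun τ : ℝ => τ * iteratedDeriv (m + 1) f τ +
          ((m + 1 : ℕ) : ℝ) * iteratedDeriv (m + 1 - 1) f τ) τ = _ := h3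
      rw [h4, ← iteratedDeriv_succ, ← iteratedDeriv_succ]
      simp only [Nat.add_sub_cancel]
      push_cast
      ring

/-- The derivative of `w` at the point `X.2` in the direction `B + X.1`. -/
noncomputable def p12_G (w : ℂ → ℝ) (B : ℂ) (X : ℂ × ℂ) : ℝ := fderiv ℝ w X.2 (B + X.1)

theorem p12_G_smooth (w : ℂ → ℝ) (hw : ContDiff ℝ ∞ w) (B : ℂ) :
    ContDiff ℝ ∞ (p12_G w B) := by
  unfold p12_G
  have h : ContDiff ℝ ∞ (fun Y => fderiv ℝ w Y) := hw.fderiv_right (by simp)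
  exact (h.comp contDiff_snd).clm_apply (contDiff_const.add contDiff_fst)

theorem p12_line (w : ℂ → ℝ) (hw : ContDiff ℝ ∞ w) (z e : ℂ) (τ : ℝ) :
    deriv (fun τ : ℝ => w (z + τ * e)) τ = fderiv ℝ w (z + τ * e) e := by
  have hl : HasDerivAt (fun t : ℝ => z + (t : ℂ) * e) e τ := by
    have := ((hasDerivAt_id τ).smul_const e).const_add z
    simp only [id_eq, one_smul, Complex.real_smul] at this
    exact this
  exact ((hw.differentiable (by simp) (z + τ * e)).hasFDerivAt.comp_hasDerivAt τ hl).deriv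

theorem p12_point (w : ℂ → ℝ) (hw : ContDiff ℝ ∞ w) (B z : ℂ) (hnf : NonFlat w z) :
    ∃ (ε : ℂ × ℂ) (j : ℕ), 1 ≤ j ∧
      iteratedDeriv j (fun τ : ℝ => p12_G w B (((0 : ℂ), z) + τ • ε)) 0 ≠ 0 := by
  obtain ⟨e, j, hj, hne⟩ := hnf
  have hfd : ContDiff ℝ ∞ (fun Y => fderiv ℝ w Y) := hw.fderiv_right (by simp)
  have hlin : ContDiff ℝ ∞ (fun τ : ℝ => z + (τ : ℂ) * e) := by
    have : (fun τ : ℝ => z + (τ : ℂ) * e) = fun τ : ℝ => z + τ • e := by
      funext τ; rw [Complex.real_smul]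
    rw [this]
    fun_prop
  by_cases hc : iteratedDeriv j (fun τ : ℝ => fderiv ℝ w (z + τ * e) B) 0 = 0
  · refine ⟨(e, e), j, hj, ?_⟩
    have hG : (fun τ : ℝ => p12_G w B (((0 : ℂ), z) + τ • ((e, e) : ℂ × ℂ))) =
        (fun τ : ℝ => fderiv ℝ w (z + τ * e) B) +
          fun τ : ℝ => τ * deriv (fun τ : ℝ => w (z + τ * e)) τ := by
      funext τ
      rw [Pi.add_apply, p12_line w hw z e τ]
      unfold p12_G
      simp only [Prod.smul_mk, Prod.mk_add_mk, zero_add, Complex.real_smul]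
      rw [map_add, ← Complex.real_smul, map_smul, smul_eq_mul]
    have hh : ContDiff ℝ ∞ (fun τ : ℝ => w (z + τ * e)) := hw.comp hlin
    have hdh : ContDiff ℝ ∞ (deriv (fun τ : ℝ => w (z + τ * e))) := by
      have : deriv (fun τ : ℝ => w (z + τ * e)) = fun τ : ℝ => fderiv ℝ w (z + τ * e) e := by
        funext τ; exact p12_line w hw z e τ
      rw [this]
      exact (hfd.comp hlin).clm_apply contDiff_const
    have h1 : ContDiff ℝ ∞ (fun τ : ℝ => fderiv ℝ w (z + τ * e) B) :=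
      (hfd.comp hlin).clm_apply contDiff_const
    have h2 : ContDiff ℝ ∞ (fun τ : ℝ => τ * deriv (fun τ : ℝ => w (z + τ * e)) τ) :=
      contDiff_id.mul hdh
    have hle : ((j : ℕ) : WithTop ℕ∞) ≤ ∞ := by exact_mod_cast le_top
    rw [hG, iteratedDeriv_add (h1.of_le hle).contDiffAt (h2.of_le hle).contDiffAt, hc,
      p12_mul _ hdh]
    obtain ⟨m, rfl⟩ : ∃ m, j = m + 1 := ⟨j - 1, by omega⟩
    simp only [Nat.add_sub_cancel, zero_mul, zero_add]
    rw [← iteratedDeriv_succ']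
    exact mul_ne_zero (by positivity) hne
  · refine ⟨(0, e), j, hj, ?_⟩
    have hG : (fun τ : ℝ => p12_G w B (((0 : ℂ), z) + τ • ((0, e) : ℂ × ℂ))) =
        (fun τ : ℝ => fderiv ℝ w (z + τ * e) B) := by
      funext τ
      unfold p12_G
      simp
    rw [hG]
    exact hc

theorem p12_cover (w : ℂ → ℝ) (hw : ContDiff ℝ ∞ w) (A B : ℂ)
    (hnf : ∀ x ∈ Icc (0 : ℝ) 1, NonFlat w (A + x * B)) :
    ∃ (J : ℕ) (r C : ℝ), 1 ≤ J ∧ 0 < r ∧ 0 < C ∧ ∀ δ : ℝ, 0 < δ → δ ≤ 1 →
      p12_mu (Metric.thickening r ((fun x : ℝ => ((0 : ℂ), A + x * B)) '' Icc (0 : ℝ) 1) ∩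
        {X | |p12_G w B X| ≤ δ}) ≤ ENNReal.ofReal (C * δ ^ ((1 : ℝ) / J)) := by
  set K : Set (ℂ × ℂ) := (fun x : ℝ => ((0 : ℂ), A + x * B)) '' Icc (0 : ℝ) 1 with hK
  have hKc : IsCompact K := isCompact_Icc.image (by fun_prop)
  have hpt : ∀ P ∈ K, ∃ (j : ℕ) (r C : ℝ), 1 ≤ j ∧ 0 < r ∧ 0 ≤ C ∧ ∀ δ : ℝ, 0 < δ →
      p12_mu (Metric.ball P r ∩ {X | |p12_G w B X| ≤ δ}) ≤
        ENNReal.ofReal (C * δ ^ ((1 : ℝ) / j)) := by
    rintro P ⟨x, hx, rfl⟩
    obtain ⟨ε, j, hj, hne⟩ := p12_point w hw B (A + x * B) (hnf x hx)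
    obtain ⟨r, C, hr, hC, h⟩ := p12_local _ (p12_G_smooth w hw B) _ ε j hj hne
    exact ⟨j, r, C, hj, hr, hC, h⟩
  choose! j r C hj hr hC hb using hpt
  obtain ⟨t, ht1, ht2⟩ := hKc.elim_nhds_subcover (fun P => Metric.ball P (r P))
    (fun P hP => Metric.ball_mem_nhds P (hr P hP))
  obtain ⟨r0, hr0, hr1⟩ := hKc.exists_thickening_subset_open
    (isOpen_biUnion fun P _ => Metric.isOpen_ball) ht2
  refine ⟨1 + ∑ P ∈ t, j P, r0, 1 + ∑ P ∈ t, C P, by omega, hr0, ?_, ?_⟩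
  · have : 0 ≤ ∑ P ∈ t, C P := Finset.sum_nonneg fun P hP => hC P (ht1 P hP)
    linarith
  intro δ hδ hδ1
  have hpow : ∀ P ∈ t, δ ^ ((1 : ℝ) / j P) ≤ δ ^ ((1 : ℝ) / ((1 + ∑ P ∈ t, j P : ℕ) : ℝ)) := by
    intro P hP
    apply Real.rpow_le_rpow_of_exponent_ge hδ hδ1
    have h1 : 1 ≤ j P := hj P (ht1 P hP)
    have h2 : j P ≤ 1 + ∑ P ∈ t, j P := by
      have := Finset.single_le_sum (f := j) (fun Q _ => Nat.zero_le _) hP
      omega
    apply one_div_le_one_div_of_le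
    · exact_mod_cast h1
    · exact_mod_cast h2
  calc p12_mu (Metric.thickening r0 K ∩ {X | |p12_G w B X| ≤ δ})
      ≤ p12_mu (⋃ P ∈ t, (Metric.ball P (r P) ∩ {X | |p12_G w B X| ≤ δ})) := by
        apply measure_mono
        rintro X ⟨hX1, hX2⟩
        have := hr1 hX1
        simp only [mem_iUnion] at this ⊢
        obtain ⟨P, hP, hX⟩ := this
        exact ⟨P, hP, hX, hX2⟩
    _ ≤ ∑ P ∈ t, p12_mu (Metric.ball P (r P) ∩ {X | |p12_G w B X| ≤ δ}) :=
        measure_biUnion_finset_le _ _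
    _ ≤ ∑ P ∈ t, ENNReal.ofReal (C P * δ ^ ((1 : ℝ) / ((1 + ∑ P ∈ t, j P : ℕ) : ℝ))) := by
        apply Finset.sum_le_sum
        intro P hP
        refine (hb P (ht1 P hP) δ hδ).trans ?_
        apply ENNReal.ofReal_le_ofReal
        exact mul_le_mul_of_nonneg_left (hpow P hP) (hC P (ht1 P hP))
    _ = ENNReal.ofReal (∑ P ∈ t, C P * δ ^ ((1 : ℝ) / ((1 + ∑ P ∈ t, j P : ℕ) : ℝ))) := by
        rw [ENNReal.ofReal_sum_of_nonneg]
        intro P hP
        exact mul_nonneg (hC P (ht1 P hP)) (Real.rpow_nonneg hδ.le _)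
    _ ≤ ENNReal.ofReal ((1 + ∑ P ∈ t, C P) *
          δ ^ ((1 : ℝ) / ((1 + ∑ P ∈ t, j P : ℕ) : ℝ))) := by
        apply ENNReal.ofReal_le_ofReal
        rw [← Finset.sum_mul]
        apply mul_le_mul_of_nonneg_right _ (Real.rpow_nonneg hδ.le _)
        linarith

theorem p12_shear (A B : ℂ) (x : ℝ) :
    MeasurePreserving (fun y : ℂ × ℂ => (y.1, (A + y.2) + x * (B + y.1))) p12_mu p12_mu := by
  have h := MeasurePreserving.skew_product (μa := (volume : Measure ℂ)) (μb := (volume : Measure ℂ))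
    (μc := (volume : Measure ℂ)) (μd := (volume : Measure ℂ)) (f := fun v : ℂ => v)
    (MeasurePreserving.id _) (g := fun v a => (A + a) + x * (B + v)) (by
      have : Continuous (Function.uncurry fun v a : ℂ => (A + a) + x * (B + v)) := by
        unfold Function.uncurry
        fun_prop
      exact this.measurable) (by
      refine Filter.Eventually.of_forall fun v => ?_
      have e : (fun a : ℂ => (A + a) + x * (B + v)) = fun a : ℂ => a + (A + x * (B + v)) := by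
        funext a; ring
      rw [e]
      exact map_add_right_eq_self volume _)
  exact h

/-- T12. Tiny perturbations of a segment without flat points along which the derivative of `w`
is rarely small. -/
theorem exists_perturb (w : ℂ → ℝ) (hw : ContDiff ℝ ∞ w) (A B : ℂ)
    (hnf : ∀ x ∈ Icc (0 : ℝ) 1, NonFlat w (A + x * B)) :
    ∃ p C ρ₀ : ℝ, 0 < p ∧ p ≤ 1 ∧ 0 < C ∧ 0 < ρ₀ ∧ ∀ ρ δ : ℝ, 0 < ρ → ρ ≤ ρ₀ → 0 < δ → δ ≤ 1 →
      ∃ a v : ℂ, ‖a‖ ≤ ρ ∧ ‖v‖ ≤ ρ ∧
        (MeasureTheory.volume {x : ℝ | x ∈ Icc (0 : ℝ) 1 ∧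
          |deriv (fun x : ℝ => w ((A + a) + x * (B + v))) x| ≤ δ}).toReal ≤
          C * δ ^ p / ρ ^ 4 := by
  obtain ⟨J, r, C, hJ, hr, hC, hcov⟩ := p12_cover w hw A B hnf
  have hJ' : (1 : ℝ) ≤ J := by exact_mod_cast hJ
  refine ⟨1 / J, C, r / 3, by positivity, ?_, hC, by positivity, ?_⟩
  · rw [div_le_one (by positivity)]; exact hJ'
  intro ρ δ hρ hρ0 hδ hδ1
  set p : ℝ := 1 / J with hp
  set G := p12_G w B with hG
  have hGc : Continuous G := (p12_G_smooth w hw B).continuous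
  set W : Set (ℂ × ℂ) :=
    Metric.thickening r ((fun x : ℝ => ((0 : ℂ), A + x * B)) '' Icc (0 : ℝ) 1) ∩
        {X | |G X| ≤ δ} with hW
  have hWm : MeasurableSet W := by
    apply Metric.isOpen_thickening.measurableSet.inter
    exact (isClosed_le (continuous_abs.comp hGc) continuous_const).measurableSet
  set T : Set (ℝ × (ℂ × ℂ)) := {y | y.1 ∈ Icc (0 : ℝ) 1 ∧ ‖y.2.1‖ ≤ ρ ∧ ‖y.2.2‖ ≤ ρ ∧
    |G (y.2.1, (A + y.2.2) + y.1 * (B + y.2.1))| ≤ δ} with hT
  have hTm : MeasurableSet T := by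
    have h1 : MeasurableSet {y : ℝ × (ℂ × ℂ) | y.1 ∈ Icc (0 : ℝ) 1} :=
      measurable_fst measurableSet_Icc
    have h2 : IsClosed {y : ℝ × (ℂ × ℂ) | ‖y.2.1‖ ≤ ρ} :=
      isClosed_le (by fun_prop) continuous_const
    have h3 : IsClosed {y : ℝ × (ℂ × ℂ) | ‖y.2.2‖ ≤ ρ} :=
      isClosed_le (by fun_prop) continuous_const
    have h4 : IsClosed {y : ℝ × (ℂ × ℂ) |
        |G (y.2.1, (A + y.2.2) + y.1 * (B + y.2.1))| ≤ δ} := by
      apply isClosed_le _ continuous_const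
      exact continuous_abs.comp (hGc.comp (by fun_prop))
    exact h1.inter (h2.measurableSet.inter (h3.measurableSet.inter h4.measurableSet))
  have hup : ((volume : Measure ℝ).prod p12_mu) T ≤ ENNReal.ofReal (C * δ ^ p) := by
    rw [Measure.prod_apply hTm]
    have h1 : ENNReal.ofReal (C * δ ^ p) =
        ∫⁻ _ in Icc (0 : ℝ) 1, ENNReal.ofReal (C * δ ^ p) ∂(volume : Measure ℝ) := by
      rw [setLIntegral_const, Real.volume_Icc]
      simp
    rw [h1, ← lintegral_indicator measurableSet_Icc]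
    apply lintegral_mono
    intro x
    by_cases hx : x ∈ Icc (0 : ℝ) 1
    · simp only [indicator_of_mem hx]
      refine le_trans ?_ (hcov δ hδ hδ1)
      rw [← (p12_shear A B x).measure_preimage hWm.nullMeasurableSet]
      apply measure_mono
      rintro ⟨v, a⟩ ⟨-, hv, ha, hg⟩
      simp only at hv ha hg
      refine ⟨?_, hg⟩
      rw [Metric.mem_thickening_iff]
      refine ⟨((0 : ℂ), A + x * B), ⟨x, hx, rfl⟩, ?_⟩
      show dist (v, (A + a) + x * (B + v)) ((0 : ℂ), A + x * B) < r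
      rw [Prod.dist_eq]
      simp only [dist_eq_norm, sub_zero]
      have h5 : (A + a) + x * (B + v) - (A + x * B) = a + x * v := by ring
      rw [h5]
      have h6 : ‖(x : ℂ) * v‖ ≤ ρ := by
        rw [norm_mul, Complex.norm_real, Real.norm_eq_abs, abs_of_nonneg hx.1]
        calc x * ‖v‖ ≤ 1 * ‖v‖ := mul_le_mul_of_nonneg_right hx.2 (norm_nonneg _)
          _ ≤ ρ := by linarith
      have h7 := norm_add_le a (x * v)
      rw [max_lt_iff]
      constructor <;> linarith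
    · simp only [indicator_of_notMem hx]
      have h2 : Prod.mk x ⁻¹' T = ∅ := by
        rw [eq_empty_iff_forall_notMem]
        intro y hy
        exact hx hy.1
      rw [h2, measure_empty]
  by_contra hcon
  push Not at hcon
  set c : ℝ := C * δ ^ p / ρ ^ 4 with hc
  have hδp : 0 < δ ^ p := Real.rpow_pos_of_pos hδ _
  have hc0 : 0 < c := by positivity
  have hlow : ENNReal.ofReal c * p12_mu (Metric.closedBall 0 ρ ×ˢ Metric.closedBall 0 ρ) ≤
      ((volume : Measure ℝ).prod p12_mu) T := by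
    rw [Measure.prod_apply_symm hTm]
    have hm : MeasurableSet ((Metric.closedBall (0 : ℂ) ρ) ×ˢ (Metric.closedBall (0 : ℂ) ρ)) :=
      measurableSet_closedBall.prod measurableSet_closedBall
    have h1 : ENNReal.ofReal c * p12_mu (Metric.closedBall 0 ρ ×ˢ Metric.closedBall 0 ρ) =
        ∫⁻ _ in (Metric.closedBall 0 ρ ×ˢ Metric.closedBall 0 ρ), ENNReal.ofReal c ∂p12_mu := by
      rw [setLIntegral_const]
    rw [h1, ← lintegral_indicator hm]
    apply lintegral_mono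
    rintro ⟨v, a⟩
    by_cases hva : (v, a) ∈ (Metric.closedBall (0 : ℂ) ρ) ×ˢ (Metric.closedBall (0 : ℂ) ρ)
    · simp only [indicator_of_mem hva]
      have hv : ‖v‖ ≤ ρ := by
        have := hva.1
        rwa [mem_closedBall_zero_iff] at this
      have ha : ‖a‖ ≤ ρ := by
        have := hva.2
        rwa [mem_closedBall_zero_iff] at this
      have h2 := hcon a v ha hv
      have h3 : {x : ℝ | x ∈ Icc (0 : ℝ) 1 ∧
          |deriv (fun x : ℝ => w ((A + a) + x * (B + v))) x| ≤ δ} ⊆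
          (fun x : ℝ => (x, (v, a))) ⁻¹' T := by
        rintro x ⟨hx, hd⟩
        refine ⟨hx, hv, ha, ?_⟩
        rw [p12_line w hw (A + a) (B + v) x] at hd
        exact hd
      refine le_trans ?_ (measure_mono h3)
      exact ENNReal.ofReal_le_of_le_toReal h2.le
    · simp only [indicator_of_notMem hva]
      exact bot_le
  have h1 : p12_mu (Metric.closedBall 0 ρ ×ˢ Metric.closedBall 0 ρ) =
      ENNReal.ofReal ((ρ ^ 2 * π) ^ 2) := by
    rw [Measure.prod_prod, Complex.volume_closedBall]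
    have e : ENNReal.ofReal ρ ^ 2 * (NNReal.pi : ENNReal) = ENNReal.ofReal (ρ ^ 2 * π) := by
      rw [ENNReal.ofReal_mul (by positivity), ENNReal.ofReal_pow hρ.le]
      congr 1
      rw [← NNReal.coe_real_pi, ENNReal.ofReal_coe_nnreal]
    rw [e, ← ENNReal.ofReal_mul (by positivity), sq (ρ ^ 2 * π)]
  rw [h1, ← ENNReal.ofReal_mul hc0.le] at hlow
  have h2 := (hlow.trans hup)
  rw [ENNReal.ofReal_le_ofReal_iff (by positivity)] at h2
  have h3 : c * (ρ ^ 2 * π) ^ 2 = C * δ ^ p * π ^ 2 := by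
    rw [hc]
    field_simp
  rw [h3] at h2
  have h4 : 0 < C * δ ^ p := by positivity
  have h5 : (1 : ℝ) < π ^ 2 := by
    have := Real.pi_gt_three
    nlinarith
  nlinarith

end Pool.Agent.ES38
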