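import Pool.Agent.ES38.Asym
import Pool.Agent.ES38.Perturb
open Set Real MeasureTheory
open scoped ContDiff
namespace Pool.Agent.ES38

theorem hasDerivAt_line (A B : ℂ) (x : ℝ) : HasDerivAt (fun x : ℝ => A + x * B) B x := by
  have h1 : HasDerivAt (fun x : ℝ => (x : ℂ)) 1 x := Complex.ofRealCLM.hasDerivAt
  simpa using (h1.mul_const B).const_add A

theorem contDiff_line (A B : ℂ) : ContDiff ℝ ∞ (fun x : ℝ => A + x * B) := by
  have : ContDiff ℝ ∞ (fun x : ℝ => (x : ℂ)) := Complex.ofRealCLM.contDiff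
  fun_prop

theorem deriv_comp_line {G : ℂ → ℂ} (hG : ContDiff ℝ ∞ G) (A B : ℂ) (x : ℝ) :
    deriv (fun x : ℝ => G (A + x * B)) x = fderiv ℝ G (A + x * B) B := by
  have h1 : HasFDerivAt G (fderiv ℝ G (A + x * B)) (A + x * B) :=
    (hG.differentiable (by simp) _).hasFDerivAt
  exact (h1.comp_hasDerivAt x (hasDerivAt_line A B x)).deriv

theorem continuous_deriv_comp_line {G : ℂ → ℂ} (hG : ContDiff ℝ ∞ G) (A B : ℂ) :
    Continuous (fun x : ℝ => ‖deriv (fun x : ℝ => G (A + x * B)) x‖) := by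
  have h1 : ContDiff ℝ ∞ (fun x : ℝ => G (A + x * B)) := hG.comp (contDiff_line A B)
  have h2 : Continuous (deriv (fun x : ℝ => G (A + x * B))) := h1.continuous_deriv (by simp)
  exact h2.norm

/-- Comparison of the lengths of the images of two nearby segments. -/
theorem perturb_diff (S : DSys) (A B a v : ℂ) :
    ∫ x in (0 : ℝ)..1, ‖deriv (fun x : ℝ => S.F 0 S.N (A + x * B)) x‖ ≤
      (∫ x in (0 : ℝ)..1, ‖deriv (fun x : ℝ => S.F 0 S.N ((A + a) + x * (B + v))) x‖) +
      (4 / S.r * (2 * S.E) ^ (2 * S.N) * (‖a‖ + ‖v‖) * ‖B‖ + S.E ^ S.N * ‖v‖) := by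
  have hG := S.smoothF 0 S.N (Nat.zero_le _) le_rfl
  set G := S.F 0 S.N with hGdef
  set K := 4 / S.r * (2 * S.E) ^ (2 * S.N) * (‖a‖ + ‖v‖) * ‖B‖ + S.E ^ S.N * ‖v‖ with hK
  have hint : ∀ A B : ℂ, IntervalIntegrable
      (fun x : ℝ => ‖deriv (fun x : ℝ => G (A + x * B)) x‖) volume 0 1 :=
    fun A B => (continuous_deriv_comp_line hG A B).intervalIntegrable _ _
  have h1 : ∫ x in (0 : ℝ)..1, ‖deriv (fun x : ℝ => G (A + x * B)) x‖ ≤
      ∫ x in (0 : ℝ)..1, (‖deriv (fun x : ℝ => G ((A + a) + x * (B + v))) x‖ + K) := by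
    apply intervalIntegral.integral_mono_on zero_le_one (hint A B)
      ((hint _ _).add intervalIntegrable_const)
    intro x hx
    rw [deriv_comp_line hG, deriv_comp_line hG]
    set z := A + x * B with hz
    set z' := (A + a) + x * (B + v) with hz'
    have e1 : fderiv ℝ G z B = fderiv ℝ G z' (B + v) +
        ((fderiv ℝ G z - fderiv ℝ G z') B - fderiv ℝ G z' v) := by
      simp only [map_add, _root_.sub_apply]
      ring
    have hzz : ‖z - z'‖ ≤ ‖a‖ + ‖v‖ := by
      have : z - z' = -(a + x * v) := by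
        rw [hz, hz']
        ring
      rw [this, norm_neg]
      refine (norm_add_le _ _).trans ?_
      have h2 : ‖(x : ℂ) * v‖ ≤ ‖v‖ := by
        rw [norm_mul, Complex.norm_real, Real.norm_eq_abs, abs_of_nonneg hx.1]
        exact mul_le_of_le_one_left (norm_nonneg _) hx.2
      linarith
    have e2 : ‖(fderiv ℝ G z - fderiv ℝ G z') B‖ ≤
        4 / S.r * (2 * S.E) ^ (2 * S.N) * (‖a‖ + ‖v‖) * ‖B‖ := by
      refine (ContinuousLinearMap.le_opNorm _ _).trans ?_
      apply mul_le_mul_of_nonneg_right _ (norm_nonneg _)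
      refine (fderiv_lip S z z').trans ?_
      apply mul_le_mul_of_nonneg_left hzz
      have := S.hr
      have := S.hE
      positivity
    have e3 : ‖fderiv ℝ G z' v‖ ≤ S.E ^ S.N * ‖v‖ :=
      (ContinuousLinearMap.le_opNorm _ _).trans
        (mul_le_mul_of_nonneg_right (fderiv_le S z') (norm_nonneg _))
    rw [e1]
    refine (norm_add_le _ _).trans ?_
    have := norm_sub_le ((fderiv ℝ G z - fderiv ℝ G z') B) (fderiv ℝ G z' v)
    rw [hK]
    linarith
  rw [intervalIntegral.integral_add (hint _ _) intervalIntegrable_const] at h1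
  simpa using h1

theorem len_step {u : ℝ → ℂ → ℂ} {Φ : ℝ → ℝ → ℂ → ℂ} (h : IsFlow u Φ) (L : ℝ)
    (hL : ∀ t, 0 ≤ t → ∀ x, ‖fderiv ℝ (u t) x‖ ≤ L) (A B : ℂ) (s t : ℝ) (hs : 0 ≤ s)
    (hst : s ≤ t) : len Φ A B t ≤ Real.exp (L * (t - s)) * len Φ A B s := by
  have ht : 0 ≤ t := hs.trans hst
  have hL0 : 0 ≤ L := (norm_nonneg _).trans (hL 0 le_rfl 0)
  unfold len
  rw [← intervalIntegral.integral_const_mul]
  have hint : ∀ t : ℝ, IntervalIntegrable
      (fun x : ℝ => ‖deriv (fun x : ℝ => Φ t 0 (A + x * B)) x‖) volume 0 1 :=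
    fun t => (continuous_deriv_comp_line (h.contDiff_map t 0) A B).intervalIntegrable _ _
  apply intervalIntegral.integral_mono_on zero_le_one (hint t) ((hint s).const_mul _)
  intro x hx
  have h1 : (fun x : ℝ => Φ t 0 (A + x * B)) =
      (fun x : ℝ => Φ t s (Φ s 0 (A + x * B))) := by
    funext y
    exact (h.group L hL 0 s t le_rfl hs ht _).symm
  have h2 : ContDiff ℝ ∞ (fun x : ℝ => Φ s 0 (A + x * B)) :=
    (h.contDiff_map s 0).comp (contDiff_line A B)
  have h3 : HasDerivAt (fun x : ℝ => Φ s 0 (A + x * B))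
      (deriv (fun x : ℝ => Φ s 0 (A + x * B)) x) x :=
    (h2.differentiable (by simp) x).hasDerivAt
  have h4 : HasFDerivAt (Φ t s) (fderiv ℝ (Φ t s) (Φ s 0 (A + x * B))) (Φ s 0 (A + x * B)) :=
    ((h.contDiff_map t s).differentiable (by simp) _).hasFDerivAt
  have h45 : deriv (fun x : ℝ => Φ t s (Φ s 0 (A + x * B))) x =
      fderiv ℝ (Φ t s) (Φ s 0 (A + x * B)) (deriv (fun x : ℝ => Φ s 0 (A + x * B)) x) :=
    (h4.comp_hasDerivAt x h3).deriv
  rw [h1, h45]
  refine (ContinuousLinearMap.le_opNorm _ _).trans ?_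
  apply mul_le_mul_of_nonneg_right _ (norm_nonneg _)
  have h5 : LipschitzWith (Real.exp (L * (t - s))).toNNReal (Φ t s) := by
    apply LipschitzWith.of_dist_le_mul
    intro y z
    rw [dist_eq_norm, dist_eq_norm, Real.coe_toNNReal _ (Real.exp_pos _).le]
    have := h.lip L hL s t hs ht y z
    rwa [abs_of_nonneg (by linarith)] at this
  have h6 := norm_fderiv_le_of_lipschitz ℝ h5 (x₀ := Φ s 0 (A + x * B))
  rwa [Real.coe_toNNReal _ (Real.exp_pos _).le] at h6

end Pool.Agent.ES38
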