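import Pool.Agent.ES38.Final1
open Set Real MeasureTheory
open scoped ContDiff
namespace Pool.Agent.ES38

theorem choose_params (ε L a' : ℝ) (hε : 0 < ε) (hε1 : ε ≤ 1) (hL : 1 ≤ L) (ha : 0 ≤ a') :
    ∃ (l0 k : ℕ) (e0 : ℝ), 2 ≤ k ∧ 0 < e0 ∧ e0 ≤ 1 ∧ ∀ CL : ℕ, 1 ≤ CL → ∃ m : ℕ, 1 ≤ m ∧
      ((l0 : ℝ) + 1) * (11 * (e0 * m) + Real.log (4 * CL) + 2 * (L * m / k) +
        2 * ((e0 * m + a' * m + L * m * (l0 + 1)) / (k - 1))) + L * m / 2 ^ l0 +
        (e0 * m + a' * m + L * m * (l0 + 1)) / (k - 1) + 2 * (e0 * m) ≤ ε * m := by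
  obtain ⟨l0, hl0⟩ := pow_unbounded_of_one_lt (8 * L / ε) (one_lt_two : (1 : ℝ) < 2)
  set X : ℝ := 1 + a' + L * (l0 + 1) with hX
  have hX0 : 0 < X := by positivity
  set K0 : ℝ := 8 * (((l0 : ℝ) + 1) * (2 * L + 2 * X) + X) / ε with hK0
  obtain ⟨k', hk'⟩ := exists_nat_gt K0
  have hK00 : 0 < K0 := by positivity
  have hk'0 : (0 : ℝ) < k' := lt_trans hK00 hk'
  have hk'1 : 1 ≤ k' := by
    have : (0 : ℕ) < k' := by exact_mod_cast hk'0
    omega
  set e0 : ℝ := ε / (8 * (11 * ((l0 : ℝ) + 1) + 2)) with he0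
  refine ⟨l0, k' + 1, e0, by omega, by positivity, ?_, ?_⟩
  · rw [he0, div_le_one (by positivity)]
    have : (0 : ℝ) ≤ l0 := Nat.cast_nonneg _
    linarith
  · intro CL hCL
    have hCL' : (1 : ℝ) ≤ CL := by exact_mod_cast hCL
    obtain ⟨m, hm⟩ := exists_nat_gt (max 1 (8 * ((l0 : ℝ) + 1) * Real.log (4 * CL) / ε))
    have hm1 : (1 : ℝ) < m := lt_of_le_of_lt (le_max_left _ _) hm
    have hm2 : 8 * ((l0 : ℝ) + 1) * Real.log (4 * CL) / ε < m :=
      lt_of_le_of_lt (le_max_right _ _) hm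
    refine ⟨m, by exact_mod_cast hm1.le, ?_⟩
    have hm0 : (0 : ℝ) < m := by linarith
    have hcast : ((k' + 1 : ℕ) : ℝ) - 1 = k' := by push_cast; ring
    rw [hcast]
    have hkk : (k' : ℝ) ≤ ((k' + 1 : ℕ) : ℝ) := by push_cast; linarith
    -- part 1
    have p1 : L * m / 2 ^ l0 ≤ ε / 8 * m := by
      rw [div_le_iff₀ (by positivity)]
      have : 8 * L < ε * 2 ^ l0 := by
        rw [div_lt_iff₀ hε] at hl0
        linarith
      nlinarith
    have p2 : ((l0 : ℝ) + 1) * Real.log (4 * CL) ≤ ε / 8 * m := by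
      rw [div_lt_iff₀ hε] at hm2
      linarith
    have p3 : L * m / ((k' + 1 : ℕ) : ℝ) ≤ L * m / k' :=
      div_le_div_of_nonneg_left (by positivity) hk'0 hkk
    have he1 : e0 ≤ 1 := by
      rw [he0, div_le_one (by positivity)]
      have : (0 : ℝ) ≤ l0 := Nat.cast_nonneg _
      linarith
    have p4 : (e0 * m + a' * m + L * m * (l0 + 1)) / k' ≤ X * m / k' := by
      apply div_le_div_of_nonneg_right _ hk'0.le
      rw [hX]
      nlinarith
    have p5 : ((l0 : ℝ) + 1) * (2 * (L * m / k') + 2 * (X * m / k')) + X * m / k' ≤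
        ε / 8 * m := by
      have h1 : ((l0 : ℝ) + 1) * (2 * (L * m / k') + 2 * (X * m / k')) + X * m / k' =
          (((l0 : ℝ) + 1) * (2 * L + 2 * X) + X) / k' * m := by
        field_simp
      rw [h1]
      apply mul_le_mul_of_nonneg_right _ hm0.le
      rw [div_le_iff₀ hk'0]
      rw [hK0, div_lt_iff₀ hε] at hk'
      linarith
    have p6 : ((l0 : ℝ) + 1) * (11 * (e0 * m)) + 2 * (e0 * m) = ε / 8 * m := by
      rw [he0]
      field_simp
    have hl0' : (0 : ℝ) ≤ (l0 : ℝ) + 1 := by positivity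
    have q1 := mul_le_mul_of_nonneg_left p3 hl0'
    have q2 := mul_le_mul_of_nonneg_left p4 hl0'
    have hεm : 0 < ε * m := by positivity
    nlinarith

theorem contDiff_curl {v : ℂ → ℂ} (hv : ContDiff ℝ ∞ v) : ContDiff ℝ ∞ (curl v) := by
  have h1 : ContDiff ℝ ∞ (fderiv ℝ v) := hv.fderiv_right (by simp)
  have h2 : ∀ w : ℂ, ContDiff ℝ ∞ (fun z => fderiv ℝ v z w) := fun w =>
    h1.clm_apply contDiff_const
  have h3 : ContDiff ℝ ∞ (fun z => (fderiv ℝ v z 1).im) := Complex.imCLM.contDiff.comp (h2 1)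
  have h4 : ContDiff ℝ ∞ (fun z => (fderiv ℝ v z Complex.I).re) :=
    Complex.reCLM.contDiff.comp (h2 Complex.I)
  exact h3.sub h4

theorem seg_margin {D : Set ℂ} (hD : IsOpen D) (A B : ℂ)
    (hseg : ∀ x ∈ Icc (0 : ℝ) 1, A + x * B ∈ D) :
    ∃ d : ℝ, 0 < d ∧ ∀ x ∈ Icc (0 : ℝ) 1, ∀ w : ℂ, ‖w‖ ≤ d → A + x * B + w ∈ D := by
  have hK : IsCompact ((fun x : ℝ => A + x * B) '' Icc (0 : ℝ) 1) :=
    isCompact_Icc.image (contDiff_line A B).continuous
  have hKD : ((fun x : ℝ => A + x * B) '' Icc (0 : ℝ) 1) ⊆ D := by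
    rintro _ ⟨x, hx, rfl⟩
    exact hseg x hx
  obtain ⟨d, hd, hsub⟩ := hK.exists_cthickening_subset_open hD hKD
  refine ⟨d, hd, fun x hx w hw => hsub ?_⟩
  refine Metric.mem_cthickening_of_dist_le (A + x * B + w) (A + x * B) d
    ((fun x : ℝ => A + x * B) '' Icc (0 : ℝ) 1) ⟨x, hx, rfl⟩ ?_
  rw [dist_eq_norm]
  simpa using hw

/-- Bound of the lengths at multiples of the block length. -/
theorem main_blocks (D : Set ℂ) (u : ℝ → ℂ → ℂ) (Φ : ℝ → ℝ → ℂ → ℂ) (hS : SmoothFrontier D)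
    (hE : IsEuler D u) (hF : IsFlow u Φ) (hD : ∀ s t, 0 ≤ s → 0 ≤ t → ∀ x ∈ D, Φ t s x ∈ D)
    (L : ℝ) (hL1 : 1 ≤ L) (hL : ∀ t, 0 ≤ t → ∀ x, ‖fderiv ℝ (u t) x‖ ≤ L)
    (hsub : ∀ a : ℕ, ∀ ε : ℝ, 0 < ε → ∃ C : ℝ, ∀ t, 0 ≤ t → ∀ x,
      ‖iteratedFDeriv ℝ a (u t) x‖ ≤ C * Real.exp (ε * t))
    (A B : ℂ) (hB : ‖B‖ ≤ 1) (hseg : ∀ x ∈ Icc (0 : ℝ) 1, A + x * B ∈ D)
    (hnf : ∀ x ∈ Icc (0 : ℝ) 1, NonFlat (curl (u 0)) (A + x * B)) (ε : ℝ) (hε : 0 < ε)
    (hε1 : ε ≤ 1) :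
    ∃ (m : ℕ) (C : ℝ), 1 ≤ m ∧ 0 < C ∧ ∀ N : ℕ, len Φ A B (N * m) ≤ C * Real.exp (ε * (N * m)) := by
  obtain ⟨p, Cp, ρ0, hp, hp1, hCp, hρ0, hpert⟩ := exists_perturb (curl (u 0))
    (contDiff_curl (contDiff_slice hE.smooth_u 0)) A B hnf
  obtain ⟨d, hd, hmargin⟩ := seg_margin hE.isOpen A B hseg
  set ρ1 : ℝ := min (min ρ0 (d / 2)) 1 with hρ1
  have hρ1pos : 0 < ρ1 := by
    rw [hρ1]
    exact lt_min (lt_min hρ0 (by linarith)) one_pos
  have hρ1a : ρ1 ≤ ρ0 := (min_le_left _ _).trans (min_le_left _ _)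
  have hρ1b : ρ1 ≤ d / 2 := (min_le_left _ _).trans (min_le_right _ _)
  have hρ1c : ρ1 ≤ 1 := min_le_right _ _
  set bp : ℝ := 2 * L + 3 with hbp
  set a' : ℝ := (4 * bp + L) / p with ha'
  have ha'0 : 0 ≤ a' := by positivity
  obtain ⟨l0, k, e0, hk, he0, he01, hch⟩ := choose_params ε L a' hε hε1 hL1 ha'0
  obtain ⟨Cl, Cg, CL, hCl, hCg, hCL, hbound⟩ := bound_N k hk
  obtain ⟨CD, hCD1, hDom⟩ := domain_lines D hE.isOpen hS
  obtain ⟨m, hm1, hrate⟩ := hch CL hCL
  have hm0 : (1 : ℝ) ≤ m := by exact_mod_cast hm1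
  -- bounds of derivatives
  obtain ⟨CM, hCM1, hCM⟩ : ∃ CM : ℝ, 1 ≤ CM ∧ ∀ a, a ≤ k + 1 → ∀ t, 0 ≤ t → ∀ x,
      ‖iteratedFDeriv ℝ a (u t) x‖ ≤ CM * Real.exp (e0 / 4 * t) := by
    choose Cf hCf using fun a : ℕ => hsub a (e0 / 4) (by positivity)
    refine ⟨1 + ∑ a ∈ Finset.range (k + 2), |Cf a|, ?_, fun a ha t ht x => ?_⟩
    · have : 0 ≤ ∑ a ∈ Finset.range (k + 2), |Cf a| :=
        Finset.sum_nonneg fun _ _ => abs_nonneg _
      linarith
    · refine (hCf a t ht x).trans ?_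
      apply mul_le_mul_of_nonneg_right _ (Real.exp_pos _).le
      have h1 : |Cf a| ≤ ∑ a ∈ Finset.range (k + 2), |Cf a| :=
        Finset.single_le_sum (f := fun a => |Cf a|) (fun _ _ => abs_nonneg _)
          (Finset.mem_range.mpr (by omega))
      have h2 := le_abs_self (Cf a)
      linarith
  set M : ℕ → ℝ := fun N => CM * Real.exp (e0 / 4 * m * N) with hM
  have hM1 : ∀ N, 1 ≤ M N := by
    intro N
    have h1 : 1 ≤ Real.exp (e0 / 4 * m * N) := Real.one_le_exp (by positivity)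
    simp only [hM]
    nlinarith
  have hyp : ∀ N, Hyp D u Φ L k m N (M N) := by
    intro N
    refine ⟨hE, hF, hD, hL, hL1, hk, hm1, hM1 N, fun t ht htT x a ha => ?_⟩
    refine (hCM a ha t ht x).trans ?_
    simp only [hM]
    apply mul_le_mul_of_nonneg_left _ (by linarith)
    apply Real.exp_le_exp.mpr
    have : e0 / 4 * t ≤ e0 / 4 * (m * N) := mul_le_mul_of_nonneg_left htT (by positivity)
    linarith
  have hmpos : (0 : ℝ) < m := by linarith
  have hL0 : (0 : ℝ) ≤ L := by linarith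
  set c : ℝ := cstep k m L hmpos hL0 with hc
  have hc0 : 0 < c := (flow_step k m L hmpos hL0).choose_spec.1
  -- parameters as functions of N
  set E : ℝ := Real.exp (L * m) with hEdef
  set r : ℕ → ℝ := fun N => c / M N with hr
  set U : ℕ → ℝ := fun N => M N * (m * N) with hU
  set Mq : ℕ → ℝ := fun N => 2 ^ (k + 1) * M N with hMq
  set ρ : ℕ → ℝ := fun N => Real.exp (-(a' * m * N)) / 2 with hρ
  have hSEM : SE (e0 / 4 * m) M := by
    have := (SE.const CM le_rfl).mul (SE.exp (e0 / 4 * m)) (fun N => (Real.exp_pos _).le)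
    refine (this.mono (by linarith)).of_le (fun N => le_of_eq ?_)
    simp only [hM]
  have hρpos : ∀ N, 0 < ρ N := fun N => by
    simp only [hρ]
    positivity
  have hρle : ∀ N, ρ N ≤ 1 := fun N => by
    simp only [hρ]
    have h1 : Real.exp (-(a' * m * N)) ≤ 1 := by
      rw [Real.exp_le_one_iff]
      have : 0 ≤ a' * m * N := by positivity
      linarith
    linarith
  have hMpos : ∀ N, 0 < M N := fun N => lt_of_lt_of_le one_pos (hM1 N)
  have hpar : Par (e0 * m) (a' * m) (L * m) E r U Mq ρ := by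
    refine ⟨by positivity, by positivity, by positivity, rfl, ?_, ?_, ?_, hρpos, hρle, ?_, ?_,
      ?_, ?_⟩
    · intro N
      exact div_pos hc0 (hMpos N)
    · intro N
      have := hMpos N
      simp only [hU]
      positivity
    · intro N
      have h1 : (1 : ℝ) ≤ 2 ^ (k + 1) := one_le_pow₀ (by norm_num)
      have h2 := hM1 N
      simp only [hMq]
      nlinarith
    · have h1 := (SE.const (1 / c) (le_refl (0 : ℝ))).mul hSEM (fun N => (hMpos N).le)
      refine (h1.mono ?_).of_le (fun N => le_of_eq ?_)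
      · nlinarith
      · simp only [hr]
        have := hMpos N
        field_simp
    · have h1 := hSEM.mul ((SE.const (m : ℝ) (le_refl (0 : ℝ))).mul
        (SE.natCast (by positivity : (0 : ℝ) < e0 / 4 * m)) (fun N => Nat.cast_nonneg N))
        (fun N => by positivity)
      refine h1.mono ?_
      nlinarith
    · have h1 := (SE.const ((2 : ℝ) ^ (k + 1)) (le_refl (0 : ℝ))).mul hSEM
        (fun N => (hMpos N).le)
      refine h1.mono ?_
      nlinarith
    · have h1 := (SE.const 2 (le_refl (0 : ℝ))).mul (SE.exp (a' * m)) (fun N => (Real.exp_pos _).le)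
      refine (h1.mono (by linarith)).of_le (fun N => le_of_eq ?_)
      simp only [hρ]
      rw [Real.exp_neg]
      have := Real.exp_pos (a' * m * N)
      field_simp
  -- measure bound
  set ρp : ℕ → ℝ := fun N => ρ1 * Real.exp (-(bp * m * N)) with hρp
  have hρppos : ∀ N, 0 < ρp N := fun N => by
    simp only [hρp]
    positivity
  have hρple : ∀ N, ρp N ≤ ρ1 := fun N => by
    simp only [hρp]
    apply mul_le_of_le_one_right hρ1pos.le
    rw [Real.exp_le_one_iff]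
    have : 0 ≤ bp * m * N := by positivity
    linarith
  set η : ℕ → ℝ := fun N => Cp * (2 * ρ N) ^ p / ρp N ^ 4 with hη
  have hη0 : ∀ N, 0 ≤ η N := fun N => by
    have := hρppos N
    have := hρpos N
    simp only [hη]
    positivity
  have hηSE : SE (-(L * m)) η := by
    refine ⟨Cp / ρ1 ^ 4, by positivity, fun N => le_of_eq ?_⟩
    simp only [hη, hρ, hρp]
    rw [mul_div_cancel₀ _ (two_ne_zero), ← Real.exp_mul, mul_pow, ← Real.exp_nat_mul]
    have h1 : -(a' * m * N) * p = (-(L * m) * N) + ((4 : ℕ) : ℝ) * (-(bp * m * N)) := by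
      rw [ha']
      push_cast
      field_simp
      ring
    rw [h1, Real.exp_add]
    field_simp
  have hfin := hpar.final_SE CD Cl Cg CL k l0 hk hCl hCL η hηSE hη0
  have hfin' := hfin.mono hrate
  -- perturbation error
  have hdiff : SE (ε * m) (fun N => 4 / r N * (2 * E) ^ (2 * N) * (2 * ρp N) * 1 +
      E ^ N * ρp N) := by
    have s1 : SE (e0 / 4 * m) (fun N => 4 / r N) := by
      have h1 := (SE.const (4 / c) (le_refl (0 : ℝ))).mul hSEM (fun N => (hMpos N).le)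
      refine (h1.mono (by linarith)).of_le (fun N => le_of_eq ?_)
      simp only [hr]
      have := hMpos N
      field_simp
    have s2 : SE (2 * m + 2 * (L * m)) (fun N => (2 * E) ^ (2 * N)) := by
      refine ⟨1, one_pos, fun N => ?_⟩
      have h2 : (2 * E) ≤ Real.exp (m + L * m) := by
        rw [Real.exp_add]
        apply mul_le_mul_of_nonneg_right _ (Real.exp_pos _).le
        have := Real.add_one_le_exp (m : ℝ)
        linarith
      have hE0 : 0 < E := Real.exp_pos _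
      have h3 := pow_le_pow_left₀ (by positivity) h2 (2 * N)
      rw [← Real.exp_nat_mul] at h3
      rw [one_mul]
      refine h3.trans (le_of_eq ?_)
      congr 1
      push_cast
      ring
    have s3 : SE (-(bp * m)) ρp := by
      refine ⟨ρ1, hρ1pos, fun N => le_of_eq ?_⟩
      simp only [hρp]
      congr 2
      ring
    have s4 := hpar.EN
    have s5 : SE (0 + -(bp * m)) (fun N => 2 * ρp N) :=
      (SE.const 2 (le_refl (0 : ℝ))).mul s3 (fun N => (hρppos N).le)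
    have hE0 : 0 < E := Real.exp_pos _
    have t1 := (s1.mul s2 (fun N => by positivity)).mul s5 (fun N => by
      have := hρppos N
      positivity)
    have t2 := s4.mul s3 (fun N => (hρppos N).le)
    have hεm : 0 < ε * m := by positivity
    have t1' := t1.mono (show e0 / 4 * m + (2 * m + 2 * (L * m)) + (0 + -(bp * m)) ≤ ε * m by
      rw [hbp]
      nlinarith)
    have t2' := t2.mono (show L * m + -(bp * m) ≤ ε * m by
      rw [hbp]
      nlinarith)
    refine (t1'.add t2').of_le (fun N => le_of_eq ?_)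
    ring
  obtain ⟨C1, hC1, hall⟩ := hfin'.add hdiff
  refine ⟨m, C1, hm1, hC1, fun N => ?_⟩
  have hallN := hall N
  simp only at hallN
  -- choose the perturbation
  obtain ⟨aa, v, haa, hv, hvol⟩ := hpert (ρp N) (2 * ρ N) (hρppos N) ((hρple N).trans hρ1a)
    (by linarith [hρpos N]) (by
      have : 2 * ρ N = Real.exp (-(a' * m * N)) := by
        simp only [hρ]
        ring
      rw [this, Real.exp_le_one_iff]
      have : 0 ≤ a' * m * N := by positivity
      linarith)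
  have hBv : ‖B + v‖ ≤ 2 := by
    refine (norm_add_le _ _).trans ?_
    have := (hρple N).trans hρ1c
    linarith
  have hseg' : ∀ x ∈ Icc (0 : ℝ) 1, (A + aa) + x * (B + v) ∈ closure D := by
    intro x hx
    apply subset_closure
    have h1 : (A + aa) + x * (B + v) = A + x * B + (aa + x * v) := by ring
    rw [h1]
    apply hmargin x hx
    refine (norm_add_le _ _).trans ?_
    have h2 : ‖(x : ℂ) * v‖ ≤ ‖v‖ := by
      rw [norm_mul, Complex.norm_real, Real.norm_eq_abs, abs_of_nonneg hx.1]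
      exact mul_le_of_le_one_left (norm_nonneg _) hx.2
    have := hρple N
    linarith
  have hb := hbound D CD hDom u Φ L m N (M N) (hyp N) l0 (ρ N) (η N) (A + aa) (B + v)
    (hρpos N) (hρle N) hBv hseg' hvol
  have hpd := perturb_diff (mkSys (hyp N)) A B aa v
  have e1 : ∀ z, (mkSys (hyp N)).F 0 (mkSys (hyp N)).N z = Φ (N * m) 0 z := by
    intro z
    change Φ (((N : ℕ) : ℝ) * m) (((0 : ℕ) : ℝ) * m) z = _
    simp
  simp only [e1] at hpd
  have e2 : (mkSys (hyp N)).E = E := rfl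
  have e3 : (mkSys (hyp N)).r = r N := rfl
  have e4 : (mkSys (hyp N)).U = U N := rfl
  have e5 : (mkSys (hyp N)).N = N := rfl
  rw [e2, e3, e4] at hb
  rw [e2, e3, e5] at hpd
  have hE0 : 0 < E := Real.exp_pos _
  have hrN : 0 < r N := hpar.r0 N
  have hd1 : 4 / r N * (2 * E) ^ (2 * N) * (‖aa‖ + ‖v‖) * ‖B‖ + E ^ N * ‖v‖ ≤
      4 / r N * (2 * E) ^ (2 * N) * (2 * ρp N) * 1 + E ^ N * ρp N := by
    have h1 : ‖aa‖ + ‖v‖ ≤ 2 * ρp N := by linarith
    have h2 := hρppos N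
    gcongr
  have hlen : len Φ A B (N * m) = ∫ x in (0 : ℝ)..1,
      ‖deriv (fun x : ℝ => Φ (N * m) 0 (A + x * B)) x‖ := rfl
  rw [hlen]
  have hex : Real.exp (ε * m * N) = Real.exp (ε * (N * m)) := by
    congr 1
    ring
  rw [← hex]
  linarith

/-- Subexponential growth of the length at all times. -/
theorem main_all (D : Set ℂ) (u : ℝ → ℂ → ℂ) (Φ : ℝ → ℝ → ℂ → ℂ) (hS : SmoothFrontier D)
    (hE : IsEuler D u) (hF : IsFlow u Φ) (hD : ∀ s t, 0 ≤ s → 0 ≤ t → ∀ x ∈ D, Φ t s x ∈ D)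
    (hgrad : ∃ L : ℝ, ∀ t, 0 ≤ t → ∀ x, ‖fderiv ℝ (u t) x‖ ≤ L)
    (hsub : ∀ a : ℕ, ∀ ε : ℝ, 0 < ε → ∃ C : ℝ, ∀ t, 0 ≤ t → ∀ x,
      ‖iteratedFDeriv ℝ a (u t) x‖ ≤ C * Real.exp (ε * t))
    (A B : ℂ) (hB : ‖B‖ ≤ 1) (hseg : ∀ x ∈ Icc (0 : ℝ) 1, A + x * B ∈ D)
    (hnf : ∀ x ∈ Icc (0 : ℝ) 1, NonFlat (curl (u 0)) (A + x * B)) (ε : ℝ) (hε : 0 < ε) :
    ∃ C : ℝ, ∀ t, 0 ≤ t → len Φ A B t ≤ C * Real.exp (ε * t) := by
  obtain ⟨L0, hL0⟩ := hgrad
  set L := max L0 1 with hLdef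
  have hL1 : 1 ≤ L := le_max_right _ _
  have hL : ∀ t, 0 ≤ t → ∀ x, ‖fderiv ℝ (u t) x‖ ≤ L :=
    fun t ht x => (hL0 t ht x).trans (le_max_left _ _)
  set ε' := min ε 1 with hε'
  have hε'0 : 0 < ε' := lt_min hε one_pos
  obtain ⟨m, C, hm, hC, hall⟩ := main_blocks D u Φ hS hE hF hD L hL1 hL hsub A B hB hseg hnf ε'
    hε'0 (min_le_right _ _)
  have hm0 : (1 : ℝ) ≤ m := by exact_mod_cast hm
  refine ⟨Real.exp (L * m) * C, fun t ht => ?_⟩
  set N := ⌊t / m⌋₊ with hN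
  have h1 : (N : ℝ) * m ≤ t := by
    have : (N : ℝ) ≤ t / m := Nat.floor_le (by positivity)
    rwa [le_div_iff₀ (by linarith)] at this
  have h2 : t < ((N : ℝ) + 1) * m := by
    have : t / m < N + 1 := Nat.lt_floor_add_one _
    rwa [div_lt_iff₀ (by linarith)] at this
  have h3 := len_step hF L hL A B (N * m) t (by positivity) h1
  have h4 := hall N
  have h5 : Real.exp (L * (t - N * m)) ≤ Real.exp (L * m) := by
    apply Real.exp_le_exp.mpr
    apply mul_le_mul_of_nonneg_left _ (by linarith)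
    linarith
  have h6 : Real.exp (ε' * (N * m)) ≤ Real.exp (ε * t) := by
    apply Real.exp_le_exp.mpr
    exact mul_le_mul (min_le_left _ _) h1 (by positivity) hε.le
  have h7 : (0 : ℝ) ≤ len Φ A B (N * m) := by
    unfold len
    exact intervalIntegral.integral_nonneg zero_le_one (fun x _ => norm_nonneg _)
  calc len Φ A B t ≤ Real.exp (L * (t - N * m)) * len Φ A B (N * m) := h3
    _ ≤ Real.exp (L * m) * (C * Real.exp (ε' * (N * m))) :=
        mul_le_mul h5 h4 h7 (Real.exp_pos _).le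
    _ ≤ Real.exp (L * m) * (C * Real.exp (ε * t)) := by
        apply mul_le_mul_of_nonneg_left _ (Real.exp_pos _).le
        exact mul_le_mul_of_nonneg_left h6 hC.le
    _ = Real.exp (L * m) * C * Real.exp (ε * t) := by ring

theorem no_exp (Φ : ℝ → ℝ → ℂ → ℂ) (A B : ℂ)
    (h : ∀ ε : ℝ, 0 < ε → ∃ C : ℝ, ∀ t, 0 ≤ t → len Φ A B t ≤ C * Real.exp (ε * t)) :
    ¬ ∃ c lam : ℝ, 0 < c ∧ 0 < lam ∧ ∀ t, 0 ≤ t → c * Real.exp (lam * t) ≤ len Φ A B t := by
  rintro ⟨c, lam, hc, hlam, hlow⟩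
  obtain ⟨C, hC⟩ := h (lam / 2) (by positivity)
  obtain ⟨n, hn⟩ := exists_nat_gt (max (C / c * (2 / lam)) 0)
  have hn0 : (0 : ℝ) ≤ n := Nat.cast_nonneg n
  have h1 := hlow n hn0
  have h2 := hC n hn0
  have h3 : c * Real.exp (lam * n) ≤ C * Real.exp (lam / 2 * n) := h1.trans h2
  have h4 : Real.exp (lam * n) = Real.exp (lam / 2 * n) * Real.exp (lam / 2 * n) := by
    rw [← Real.exp_add]
    congr 1
    ring
  rw [h4] at h3
  have h5 : c * Real.exp (lam / 2 * n) ≤ C := by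
    have hpos := Real.exp_pos (lam / 2 * n)
    by_contra hcon
    push Not at hcon
    nlinarith
  have h6 : lam / 2 * n + 1 ≤ Real.exp (lam / 2 * n) := Real.add_one_le_exp _
  have h7 : C / c * (2 / lam) < n := lt_of_le_of_lt (le_max_left _ _) hn
  have h8 : C < c * (lam / 2 * n) := by
    have h9 : C / c * (2 / lam) * (c * (lam / 2)) < n * (c * (lam / 2)) :=
      mul_lt_mul_of_pos_right h7 (by positivity)
    have h10 : C / c * (2 / lam) * (c * (lam / 2)) = C := by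
      field_simp
    linarith
  nlinarith

end Pool.Agent.ES38
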