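import Pool.Agent.ES38.MainBoundQ
import Pool.Agent.ES38.Final2
open Set Real MeasureTheory
open scoped ContDiff
namespace Pool.Agent.ES38

theorem choose_paramsQ (j : ℕ) (ε L a' α : ℝ) (hε : 0 < ε) (hL : 0 ≤ L)
    (ha : 0 ≤ a') (hα : 0 ≤ α) :
    ∃ (k : ℕ) (e0 : ℝ), 2 ≤ k ∧ 0 < e0 ∧ e0 ≤ 1 ∧ ∀ CL : ℕ, 1 ≤ CL → ∃ m : ℕ, 1 ≤ m ∧
      ((j : ℝ) + 1) * (11 * ((α + e0) * m) + Real.log (4 * CL) + 2 * (L * m / k) +
        2 * (((α + e0) * m + a' * m + L * m * (j + 1)) / (k - 1))) + L * m / 2 ^ j +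
        ((α + e0) * m + a' * m + L * m * (j + 1)) / (k - 1) + 2 * ((α + e0) * m) ≤
      (13 * ((j : ℝ) + 1) * α + L / 2 ^ j + ε) * m := by
  set X : ℝ := 1 + α + a' + L * (j + 1) with hX
  have hX0 : 0 < X := by positivity
  set K0 : ℝ := 8 * (((j : ℝ) + 1) * (2 * L + 2 * X) + X) / ε with hK0
  obtain ⟨k', hk'⟩ := exists_nat_gt K0
  have hK00 : 0 < K0 := by positivity
  have hk'0 : (0 : ℝ) < k' := lt_trans hK00 hk'
  have hk'1 : 1 ≤ k' := by
    have : (0 : ℕ) < k' := by exact_mod_cast hk'0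
    omega
  set e0 : ℝ := min 1 (ε / (8 * (11 * ((j : ℝ) + 1) + 2))) with he0
  have he0pos : 0 < e0 := lt_min one_pos (by positivity)
  refine ⟨k' + 1, e0, by omega, he0pos, min_le_left _ _, ?_⟩
  intro CL hCL
  have hCL' : (1 : ℝ) ≤ CL := by exact_mod_cast hCL
  obtain ⟨m, hm⟩ := exists_nat_gt (max 1 (8 * ((j : ℝ) + 1) * Real.log (4 * CL) / ε))
  have hm1 : (1 : ℝ) < m := lt_of_le_of_lt (le_max_left _ _) hm
  have hm2 : 8 * ((j : ℝ) + 1) * Real.log (4 * CL) / ε < m :=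
    lt_of_le_of_lt (le_max_right _ _) hm
  refine ⟨m, by exact_mod_cast hm1.le, ?_⟩
  have hm0 : (0 : ℝ) < m := by linarith
  have hcast : ((k' + 1 : ℕ) : ℝ) - 1 = k' := by push_cast; ring
  rw [hcast]
  have hkk : (k' : ℝ) ≤ ((k' + 1 : ℕ) : ℝ) := by push_cast; linarith
  have p2 : ((j : ℝ) + 1) * Real.log (4 * CL) ≤ ε / 8 * m := by
    rw [div_lt_iff₀ hε] at hm2
    linarith
  have p3 : L * m / ((k' + 1 : ℕ) : ℝ) ≤ L * m / k' :=
    div_le_div_of_nonneg_left (by positivity) hk'0 hkk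
  have he1 : e0 ≤ 1 := min_le_left _ _
  have p4 : ((α + e0) * m + a' * m + L * m * (j + 1)) / k' ≤ X * m / k' := by
    apply div_le_div_of_nonneg_right _ hk'0.le
    rw [hX]
    nlinarith
  have p5 : ((j : ℝ) + 1) * (2 * (L * m / k') + 2 * (X * m / k')) + X * m / k' ≤
      ε / 8 * m := by
    have h1 : ((j : ℝ) + 1) * (2 * (L * m / k') + 2 * (X * m / k')) + X * m / k' =
        (((j : ℝ) + 1) * (2 * L + 2 * X) + X) / k' * m := by
      field_simp
    rw [h1]
    apply mul_le_mul_of_nonneg_right _ hm0.le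
    rw [div_le_iff₀ hk'0]
    rw [hK0, div_lt_iff₀ hε] at hk'
    linarith
  have p6 : ((j : ℝ) + 1) * (11 * (e0 * m)) + 2 * (e0 * m) ≤ ε / 8 * m := by
    have h1 : e0 ≤ ε / (8 * (11 * ((j : ℝ) + 1) + 2)) := min_le_right _ _
    rw [le_div_iff₀ (by positivity)] at h1
    nlinarith
  have p7 : ((j : ℝ) + 1) * (11 * (α * m)) + 2 * (α * m) ≤ 13 * ((j : ℝ) + 1) * α * m := by
    have h1 : 0 ≤ (j : ℝ) * (α * m) := by positivity
    nlinarith
  have hj' : (0 : ℝ) ≤ (j : ℝ) + 1 := by positivity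
  have q1 := mul_le_mul_of_nonneg_left p3 hj'
  have q2 := mul_le_mul_of_nonneg_left p4 hj'
  have hεm : 0 < ε * m := by positivity
  have q3 : L * m / 2 ^ j = L / 2 ^ j * m := by ring
  nlinarith

/-- Bound of the lengths at multiples of the block length. -/
theorem main_blocksQ (D : Set ℂ) (u : ℝ → ℂ → ℂ) (Φ : ℝ → ℝ → ℂ → ℂ) (hS : SmoothFrontier D)
    (hE : IsEuler D u) (hF : IsFlow u Φ) (hD : ∀ s t, 0 ≤ s → 0 ≤ t → ∀ x ∈ D, Φ t s x ∈ D)
    (L : ℝ) (hL : ∀ t, 0 ≤ t → ∀ x, ‖fderiv ℝ (u t) x‖ ≤ L) (α : ℝ) (hα : 0 ≤ α)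
    (hder : ∀ a : ℕ, ∀ ε : ℝ, 0 < ε → ∃ C : ℝ, ∀ t, 0 ≤ t → ∀ x,
      ‖iteratedFDeriv ℝ a (u t) x‖ ≤ C * Real.exp ((α * ((a - 1 : ℕ) : ℝ) + ε) * t))
    (A B : ℂ) (hB : ‖B‖ ≤ 1) (hseg : ∀ x ∈ Icc (0 : ℝ) 1, A + x * B ∈ D)
    (hnf : ∀ x ∈ Icc (0 : ℝ) 1, NonFlat (curl (u 0)) (A + x * B)) (j : ℕ) (ε : ℝ) (hε : 0 < ε) :
    ∃ (m : ℕ) (C : ℝ), 1 ≤ m ∧ 0 < C ∧ ∀ N : ℕ, len Φ A B (N * m) ≤
      C * Real.exp ((13 * ((j : ℝ) + 1) * α + L / 2 ^ j + ε) * (N * m)) := by
  have hL0 : (0 : ℝ) ≤ L := (norm_nonneg _).trans (hL 0 le_rfl 0)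
  set Λ : ℝ := 13 * ((j : ℝ) + 1) * α + L / 2 ^ j + ε with hΛ
  have hΛ0 : 0 < Λ := by positivity
  obtain ⟨p, Cp, ρ0, hp, hp1, hCp, hρ0, hpert⟩ := exists_perturb (curl (u 0))
    (contDiff_curl (contDiff_slice hE.smooth_u 0)) A B hnf
  obtain ⟨d, hd, hmargin⟩ := seg_margin hE.isOpen A B hseg
  set ρ1 : ℝ := min (min ρ0 (d / 2)) 1 with hρ1
  have hρ1pos : 0 < ρ1 := by
    rw [hρ1]
    exact lt_min (lt_min hρ0 (by linarith)) one_pos
  have hρ1a : ρ1 ≤ ρ0 := (min_le_left _ _).trans (min_le_left _ _)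
  have hρ1b : ρ1 ≤ d / 2 := (min_le_left _ _).trans (min_le_right _ _)
  have hρ1c : ρ1 ≤ 1 := min_le_right _ _
  set bp : ℝ := 2 * L + 3 + α with hbp
  set a' : ℝ := (4 * bp + L) / p with ha'
  have ha'0 : 0 ≤ a' := by positivity
  obtain ⟨k, e0, hk, he0, he01, hch⟩ := choose_paramsQ j ε L a' α hε hL0 ha'0 hα
  obtain ⟨Cl, Cg, CL, hCl, hCg, hCL, hbound⟩ := bound_NQ k hk
  obtain ⟨CD, hCD1, hDom⟩ := domain_lines D hE.isOpen hS
  obtain ⟨m, hm1, hrate⟩ := hch CL hCL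
  have hm0 : (1 : ℝ) ≤ m := by exact_mod_cast hm1
  -- bounds of derivatives
  obtain ⟨CM, hCM1, hCM⟩ : ∃ CM : ℝ, 1 ≤ CM ∧ ∀ a, a ≤ k + 1 → ∀ t, 0 ≤ t → ∀ x,
      ‖iteratedFDeriv ℝ a (u t) x‖ ≤ CM * Real.exp ((α * ((a - 1 : ℕ) : ℝ) + e0 / 4) * t) := by
    choose Cf hCf using fun a : ℕ => hder a (e0 / 4) (by positivity)
    refine ⟨1 + ∑ a ∈ Finset.range (k + 2), |Cf a|, ?_, fun a ha t ht x => ?_⟩
    · have : 0 ≤ ∑ a ∈ Finset.range (k + 2), |Cf a| :=
        Finset.sum_nonneg fun _ _ => abs_nonneg _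
      linarith
    · refine (hCf a t ht x).trans ?_
      apply mul_le_mul_of_nonneg_right _ (Real.exp_pos _).le
      have h1 : |Cf a| ≤ ∑ a ∈ Finset.range (k + 2), |Cf a| :=
        Finset.single_le_sum (f := fun a => |Cf a|) (fun _ _ => abs_nonneg _)
          (Finset.mem_range.mpr (by omega))
      have h2 := le_abs_self (Cf a)
      linarith
  set M : ℕ → ℝ := fun N => CM * Real.exp ((α + e0 / 4) * m * N) with hM
  set V : ℕ → ℝ := fun N => CM * Real.exp (e0 / 4 * m * N) with hV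
  have hM1 : ∀ N, 1 ≤ M N := by
    intro N
    have h1 : 1 ≤ Real.exp ((α + e0 / 4) * m * N) := Real.one_le_exp (by positivity)
    simp only [hM]
    nlinarith
  have hV1 : ∀ N, 1 ≤ V N := by
    intro N
    have h1 : 1 ≤ Real.exp (e0 / 4 * m * N) := Real.one_le_exp (by positivity)
    simp only [hV]
    nlinarith
  have hyp : ∀ N, HypQ D u Φ L k m N (V N) (M N) CM := by
    intro N
    refine ⟨hE, hF, hD, hL, hL0, hk, hm1, hM1 N, hCM1, by linarith [hV1 N],
      fun t ht htT x => ?_, fun t ht htT x a ha2 ha => ?_, fun x a ha => ?_⟩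
    · have h1 := hCM 0 (by omega) t ht x
      simp only [norm_iteratedFDeriv_zero, Nat.zero_sub, Nat.cast_zero, mul_zero, zero_add] at h1
      refine h1.trans ?_
      simp only [hV]
      apply mul_le_mul_of_nonneg_left _ (by linarith)
      apply Real.exp_le_exp.mpr
      have : e0 / 4 * t ≤ e0 / 4 * (m * N) := mul_le_mul_of_nonneg_left htT (by positivity)
      linarith
    · refine (hCM a ha t ht x).trans ?_
      simp only [hM]
      obtain ⟨n, rfl⟩ : ∃ n, a = n + 1 := ⟨a - 1, by omega⟩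
      rw [Nat.add_sub_cancel, mul_pow, ← Real.exp_nat_mul]
      have hn1 : (1 : ℝ) ≤ n := by exact_mod_cast (by omega : 1 ≤ n)
      apply mul_le_mul _ _ (Real.exp_pos _).le (by positivity)
      · exact le_self_pow₀ hCM1 (by omega)
      · apply Real.exp_le_exp.mpr
        have h1 : (α * (n : ℝ) + e0 / 4) * t ≤ ((α + e0 / 4) * n) * t := by
          apply mul_le_mul_of_nonneg_right _ ht
          nlinarith
        have h2 : ((α + e0 / 4) * n) * t ≤ ((α + e0 / 4) * n) * (m * N) :=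
          mul_le_mul_of_nonneg_left htT (by positivity)
        linarith
    · have h1 := hCM a ha 0 le_rfl x
      simpa using h1
  have hmpos : (0 : ℝ) < m := by linarith
  set c : ℝ := cstepQ k m L hmpos hL0 with hc
  have hc0 : 0 < c := (flow_step_scaled k m L hmpos hL0).choose_spec.1
  -- parameters as functions of N
  set E : ℝ := Real.exp (L * m) with hEdef
  set r : ℕ → ℝ := fun N => c / M N with hr
  set U : ℕ → ℝ := fun N => V N * (m * N) with hU
  set Mq : ℕ → ℝ := fun _ => 2 ^ (k + 1) * CM with hMq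
  set ρ : ℕ → ℝ := fun N => Real.exp (-(a' * m * N)) / 2 with hρ
  have hSEM : SE ((α + e0 / 4) * m) M := by
    have := (SE.const CM le_rfl).mul (SE.exp ((α + e0 / 4) * m)) (fun N => (Real.exp_pos _).le)
    refine (this.mono (by linarith)).of_le (fun N => le_of_eq ?_)
    simp only [hM]
  have hSEV : SE (e0 / 4 * m) V := by
    have := (SE.const CM le_rfl).mul (SE.exp (e0 / 4 * m)) (fun N => (Real.exp_pos _).le)
    refine (this.mono (by linarith)).of_le (fun N => le_of_eq ?_)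
    simp only [hV]
  have hρpos : ∀ N, 0 < ρ N := fun N => by
    simp only [hρ]
    positivity
  have hρle : ∀ N, ρ N ≤ 1 := fun N => by
    simp only [hρ]
    have h1 : Real.exp (-(a' * m * N)) ≤ 1 := by
      rw [Real.exp_le_one_iff]
      have : 0 ≤ a' * m * N := by positivity
      linarith
    linarith
  have hMpos : ∀ N, 0 < M N := fun N => lt_of_lt_of_le one_pos (hM1 N)
  have hVpos : ∀ N, 0 < V N := fun N => lt_of_lt_of_le one_pos (hV1 N)
  have hαm : 0 ≤ α * m := by positivity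
  have he0m : 0 < e0 * m := by positivity
  have hpar : Par ((α + e0) * m) (a' * m) (L * m) E r U Mq ρ := by
    refine ⟨by positivity, by positivity, by positivity, rfl, ?_, ?_, ?_, hρpos, hρle, ?_, ?_,
      ?_, ?_⟩
    · intro N
      exact div_pos hc0 (hMpos N)
    · intro N
      have := hVpos N
      simp only [hU]
      positivity
    · intro N
      have h1 : (1 : ℝ) ≤ 2 ^ (k + 1) := one_le_pow₀ (by norm_num)
      simp only [hMq]
      nlinarith
    · have h1 := (SE.const (1 / c) (le_refl (0 : ℝ))).mul hSEM (fun N => (hMpos N).le)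
      refine (h1.mono ?_).of_le (fun N => le_of_eq ?_)
      · nlinarith
      · simp only [hr]
        have := hMpos N
        field_simp
    · have h1 := hSEV.mul ((SE.const (m : ℝ) (le_refl (0 : ℝ))).mul
        (SE.natCast (by positivity : (0 : ℝ) < e0 / 4 * m)) (fun N => Nat.cast_nonneg N))
        (fun N => by positivity)
      refine h1.mono ?_
      nlinarith
    · exact SE.const ((2 : ℝ) ^ (k + 1) * CM) (by positivity)
    · have h1 := (SE.const 2 (le_refl (0 : ℝ))).mul (SE.exp (a' * m)) (fun N => (Real.exp_pos _).le)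
      refine (h1.mono (by linarith)).of_le (fun N => le_of_eq ?_)
      simp only [hρ]
      rw [Real.exp_neg]
      have := Real.exp_pos (a' * m * N)
      field_simp
  -- measure bound
  set ρp : ℕ → ℝ := fun N => ρ1 * Real.exp (-(bp * m * N)) with hρp
  have hρppos : ∀ N, 0 < ρp N := fun N => by
    simp only [hρp]
    positivity
  have hρple : ∀ N, ρp N ≤ ρ1 := fun N => by
    simp only [hρp]
    apply mul_le_of_le_one_right hρ1pos.le
    rw [Real.exp_le_one_iff]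
    have : 0 ≤ bp * m * N := by positivity
    linarith
  set η : ℕ → ℝ := fun N => Cp * (2 * ρ N) ^ p / ρp N ^ 4 with hη
  have hη0 : ∀ N, 0 ≤ η N := fun N => by
    have := hρppos N
    have := hρpos N
    simp only [hη]
    positivity
  have hηSE : SE (-(L * m)) η := by
    refine ⟨Cp / ρ1 ^ 4, by positivity, fun N => le_of_eq ?_⟩
    simp only [hη, hρ, hρp]
    rw [mul_div_cancel₀ _ (two_ne_zero), ← Real.exp_mul, mul_pow, ← Real.exp_nat_mul]
    have h1 : -(a' * m * N) * p = (-(L * m) * N) + ((4 : ℕ) : ℝ) * (-(bp * m * N)) := by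
      rw [ha']
      push_cast
      field_simp
      ring
    rw [h1, Real.exp_add]
    field_simp
  have hfin := hpar.final_SE CD Cl Cg CL k j hk hCl hCL η hηSE hη0
  have hfin' := hfin.mono hrate
  -- perturbation error
  have hdiff : SE (Λ * m) (fun N => 4 / r N * (2 * E) ^ (2 * N) * (2 * ρp N) * 1 +
      E ^ N * ρp N) := by
    have s1 : SE ((α + e0 / 4) * m) (fun N => 4 / r N) := by
      have h1 := (SE.const (4 / c) (le_refl (0 : ℝ))).mul hSEM (fun N => (hMpos N).le)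
      refine (h1.mono (by linarith)).of_le (fun N => le_of_eq ?_)
      simp only [hr]
      have := hMpos N
      field_simp
    have s2 : SE (2 * m + 2 * (L * m)) (fun N => (2 * E) ^ (2 * N)) := by
      refine ⟨1, one_pos, fun N => ?_⟩
      have h2 : (2 * E) ≤ Real.exp (m + L * m) := by
        rw [Real.exp_add]
        apply mul_le_mul_of_nonneg_right _ (Real.exp_pos _).le
        have := Real.add_one_le_exp (m : ℝ)
        linarith
      have hE0 : 0 < E := Real.exp_pos _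
      have h3 := pow_le_pow_left₀ (by positivity) h2 (2 * N)
      rw [← Real.exp_nat_mul] at h3
      rw [one_mul]
      refine h3.trans (le_of_eq ?_)
      congr 1
      push_cast
      ring
    have s3 : SE (-(bp * m)) ρp := by
      refine ⟨ρ1, hρ1pos, fun N => le_of_eq ?_⟩
      simp only [hρp]
      congr 2
      ring
    have s4 := hpar.EN
    have s5 : SE (0 + -(bp * m)) (fun N => 2 * ρp N) :=
      (SE.const 2 (le_refl (0 : ℝ))).mul s3 (fun N => (hρppos N).le)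
    have hE0 : 0 < E := Real.exp_pos _
    have t1 := (s1.mul s2 (fun N => by positivity)).mul s5 (fun N => by
      have := hρppos N
      positivity)
    have t2 := s4.mul s3 (fun N => (hρppos N).le)
    have hΛm : 0 < Λ * m := by positivity
    have hLm : 0 ≤ L * m := by positivity
    have t1' := t1.mono (show (α + e0 / 4) * m + (2 * m + 2 * (L * m)) + (0 + -(bp * m)) ≤
        Λ * m by
      rw [hbp]
      nlinarith)
    have t2' := t2.mono (show L * m + -(bp * m) ≤ Λ * m by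
      rw [hbp]
      nlinarith)
    refine (t1'.add t2').of_le (fun N => le_of_eq ?_)
    ring
  obtain ⟨C1, hC1, hall⟩ := hfin'.add hdiff
  refine ⟨m, C1, hm1, hC1, fun N => ?_⟩
  have hallN := hall N
  simp only at hallN
  -- choose the perturbation
  obtain ⟨aa, v, haa, hv, hvol⟩ := hpert (ρp N) (2 * ρ N) (hρppos N) ((hρple N).trans hρ1a)
    (by linarith [hρpos N]) (by
      have : 2 * ρ N = Real.exp (-(a' * m * N)) := by
        simp only [hρ]
        ring
      rw [this, Real.exp_le_one_iff]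
      have : 0 ≤ a' * m * N := by positivity
      linarith)
  have hBv : ‖B + v‖ ≤ 2 := by
    refine (norm_add_le _ _).trans ?_
    have := (hρple N).trans hρ1c
    linarith
  have hseg' : ∀ x ∈ Icc (0 : ℝ) 1, (A + aa) + x * (B + v) ∈ closure D := by
    intro x hx
    apply subset_closure
    have h1 : (A + aa) + x * (B + v) = A + x * B + (aa + x * v) := by ring
    rw [h1]
    apply hmargin x hx
    refine (norm_add_le _ _).trans ?_
    have h2 : ‖(x : ℂ) * v‖ ≤ ‖v‖ := by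
      rw [norm_mul, Complex.norm_real, Real.norm_eq_abs, abs_of_nonneg hx.1]
      exact mul_le_of_le_one_left (norm_nonneg _) hx.2
    have := hρple N
    linarith
  have hb := hbound D CD hDom u Φ L m N (V N) (M N) CM (hyp N) j (ρ N) (η N) (A + aa) (B + v)
    (hρpos N) (hρle N) hBv hseg' hvol
  have hpd := perturb_diff (mkSysQ (hyp N)) A B aa v
  have e1 : ∀ z, (mkSysQ (hyp N)).F 0 (mkSysQ (hyp N)).N z = Φ (N * m) 0 z := by
    intro z
    change Φ (((N : ℕ) : ℝ) * m) (((0 : ℕ) : ℝ) * m) z = _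
    simp
  simp only [e1] at hpd
  have e2 : (mkSysQ (hyp N)).E = E := rfl
  have e3 : (mkSysQ (hyp N)).r = r N := rfl
  have e4 : (mkSysQ (hyp N)).U = U N := rfl
  have e5 : (mkSysQ (hyp N)).N = N := rfl
  rw [e2, e3, e4] at hb
  rw [e2, e3, e5] at hpd
  have hE0 : 0 < E := Real.exp_pos _
  have hrN : 0 < r N := hpar.r0 N
  have hd1 : 4 / r N * (2 * E) ^ (2 * N) * (‖aa‖ + ‖v‖) * ‖B‖ + E ^ N * ‖v‖ ≤
      4 / r N * (2 * E) ^ (2 * N) * (2 * ρp N) * 1 + E ^ N * ρp N := by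
    have h1 : ‖aa‖ + ‖v‖ ≤ 2 * ρp N := by linarith
    have h2 := hρppos N
    gcongr
  have hlen : len Φ A B (N * m) = ∫ x in (0 : ℝ)..1,
      ‖deriv (fun x : ℝ => Φ (N * m) 0 (A + x * B)) x‖ := rfl
  rw [hlen]
  have hex : Real.exp (Λ * m * N) = Real.exp (Λ * (N * m)) := by
    congr 1
    ring
  rw [← hex]
  linarith

/-- Growth of the length at all times. -/
theorem main_allQ (D : Set ℂ) (u : ℝ → ℂ → ℂ) (Φ : ℝ → ℝ → ℂ → ℂ) (hS : SmoothFrontier D)
    (hE : IsEuler D u) (hF : IsFlow u Φ) (hD : ∀ s t, 0 ≤ s → 0 ≤ t → ∀ x ∈ D, Φ t s x ∈ D)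
    (L : ℝ) (hL : ∀ t, 0 ≤ t → ∀ x, ‖fderiv ℝ (u t) x‖ ≤ L) (α : ℝ) (hα : 0 ≤ α)
    (hder : ∀ a : ℕ, ∀ ε : ℝ, 0 < ε → ∃ C : ℝ, ∀ t, 0 ≤ t → ∀ x,
      ‖iteratedFDeriv ℝ a (u t) x‖ ≤ C * Real.exp ((α * ((a - 1 : ℕ) : ℝ) + ε) * t))
    (A B : ℂ) (hB : ‖B‖ ≤ 1) (hseg : ∀ x ∈ Icc (0 : ℝ) 1, A + x * B ∈ D)
    (hnf : ∀ x ∈ Icc (0 : ℝ) 1, NonFlat (curl (u 0)) (A + x * B)) (j : ℕ) (ε : ℝ) (hε : 0 < ε) :
    ∃ C : ℝ, ∀ t, 0 ≤ t → len Φ A B t ≤
      C * Real.exp ((13 * ((j : ℝ) + 1) * α + L / 2 ^ j + ε) * t) := by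
  have hL0 : (0 : ℝ) ≤ L := (norm_nonneg _).trans (hL 0 le_rfl 0)
  set Λ : ℝ := 13 * ((j : ℝ) + 1) * α + L / 2 ^ j + ε with hΛ
  have hΛ0 : 0 < Λ := by positivity
  obtain ⟨m, C, hm, hC, hall⟩ := main_blocksQ D u Φ hS hE hF hD L hL α hα hder A B hB hseg hnf
    j ε hε
  have hm0 : (1 : ℝ) ≤ m := by exact_mod_cast hm
  refine ⟨Real.exp (L * m) * C, fun t ht => ?_⟩
  set N := ⌊t / m⌋₊ with hN
  have h1 : (N : ℝ) * m ≤ t := by
    have : (N : ℝ) ≤ t / m := Nat.floor_le (by positivity)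
    rwa [le_div_iff₀ (by linarith)] at this
  have h2 : t < ((N : ℝ) + 1) * m := by
    have : t / m < N + 1 := Nat.lt_floor_add_one _
    rwa [div_lt_iff₀ (by linarith)] at this
  have h3 := len_step hF L hL A B (N * m) t (by positivity) h1
  have h4 := hall N
  have h5 : Real.exp (L * (t - N * m)) ≤ Real.exp (L * m) := by
    apply Real.exp_le_exp.mpr
    apply mul_le_mul_of_nonneg_left _ (by linarith)
    linarith
  have h6 : Real.exp (Λ * (N * m)) ≤ Real.exp (Λ * t) := by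
    apply Real.exp_le_exp.mpr
    exact mul_le_mul_of_nonneg_left h1 hΛ0.le
  have h7 : (0 : ℝ) ≤ len Φ A B (N * m) := by
    unfold len
    exact intervalIntegral.integral_nonneg zero_le_one (fun x _ => norm_nonneg _)
  calc len Φ A B t ≤ Real.exp (L * (t - N * m)) * len Φ A B (N * m) := h3
    _ ≤ Real.exp (L * m) * (C * Real.exp (Λ * (N * m))) :=
        mul_le_mul h5 h4 h7 (Real.exp_pos _).le
    _ ≤ Real.exp (L * m) * (C * Real.exp (Λ * t)) := by
        apply mul_le_mul_of_nonneg_left _ (Real.exp_pos _).le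
        exact mul_le_mul_of_nonneg_left h6 hC.le
    _ = Real.exp (L * m) * C * Real.exp (Λ * t) := by ring


theorem rate_le (Φ : ℝ → ℝ → ℂ → ℂ) (A B : ℂ) (Λ : ℝ)
    (h : ∀ ε : ℝ, 0 < ε → ∃ C : ℝ, ∀ t, 0 ≤ t → len Φ A B t ≤ C * Real.exp ((Λ + ε) * t))
    (c lam : ℝ) (hc : 0 < c) (hlow : ∀ t, 0 ≤ t → c * Real.exp (lam * t) ≤ len Φ A B t) :
    lam ≤ Λ := by
  by_contra hcon
  push Not at hcon
  set δ : ℝ := (lam - Λ) / 2 with hδ
  have hδ0 : 0 < δ := by
    rw [hδ]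
    linarith
  obtain ⟨C, hC⟩ := h δ hδ0
  have hkey : ∀ t, 0 ≤ t → c * Real.exp (δ * t) ≤ C := by
    intro t ht
    have h1 := (hlow t ht).trans (hC t ht)
    have h2 : lam * t = δ * t + (Λ + δ) * t := by
      rw [hδ]
      ring
    rw [h2, Real.exp_add] at h1
    have hpos := Real.exp_pos ((Λ + δ) * t)
    have h3 : (c * Real.exp (δ * t)) * Real.exp ((Λ + δ) * t) ≤ C * Real.exp ((Λ + δ) * t) := by
      linarith
    exact le_of_mul_le_mul_right h3 hpos
  obtain ⟨n, hn⟩ := exists_nat_gt (C / (c * δ))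
  have hn0 : (0 : ℝ) ≤ n := Nat.cast_nonneg n
  have h1 := hkey n hn0
  have h2 : δ * n + 1 ≤ Real.exp (δ * n) := Real.add_one_le_exp _
  have h3 : C < n * (c * δ) := by
    rwa [div_lt_iff₀ (by positivity)] at hn
  nlinarith

end Pool.Agent.ES38
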