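import Pool.Agent.ES38.Basic
import Pool.Agent.ES38.Defs
open Set Real
open scoped ContDiff
namespace Pool.Agent.ES38

variable {u : ℝ → ℂ → ℂ} {Φ : ℝ → ℝ → ℂ → ℂ}

private theorem smooth_slice (h : IsFlow u Φ) (t : ℝ) : ContDiff ℝ ∞ (u t) :=
  h.smooth_u.comp (contDiff_const.prodMk contDiff_id)

private theorem lip_slice (h : IsFlow u Φ) (L : ℝ)
    (hL : ∀ t, 0 ≤ t → ∀ x, ‖fderiv ℝ (u t) x‖ ≤ L) (t : ℝ) (ht : 0 ≤ t) :
    LipschitzWith L.toNNReal (u t) := by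
  refine lipschitzWith_of_nnnorm_fderiv_le
    ((smooth_slice h t).differentiable (by simp)) fun x => ?_
  have h1 := hL t ht x
  rw [← NNReal.coe_le_coe, coe_nnnorm]
  exact h1.trans (Real.le_coe_toNNReal L)

/-- Two trajectories: exponential bound for the distance, forward in time. -/
private theorem traj_fwd (L : ℝ) (hL0 : 0 ≤ L)
    (hlip : ∀ t, 0 ≤ t → LipschitzWith L.toNNReal (u t)) (f g : ℝ → ℂ)
    (hf : ∀ t, 0 ≤ t → HasDerivAt f (u t (f t)) t) (hg : ∀ t, 0 ≤ t → HasDerivAt g (u t (g t)) t)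
    (s t : ℝ) (hs : 0 ≤ s) (hst : s ≤ t) :
    ‖f t - g t‖ ≤ Real.exp (L * (t - s)) * ‖f s - g s‖ := by
  have h1 := dist_le_of_trajectories_ODE_of_mem (K := L.toNNReal) (v := u) (s := fun _ => univ)
    (f := f) (g := g) (a := s) (b := t) (δ := ‖f s - g s‖)
    (fun τ hτ => (hlip τ (hs.trans hτ.1)).lipschitzOnWith)
    (fun τ hτ => (hf τ (hs.trans hτ.1)).continuousAt.continuousWithinAt)
    (fun τ hτ => (hf τ (hs.trans hτ.1)).hasDerivWithinAt)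
    (fun _ _ => trivial)
    (fun τ hτ => (hg τ (hs.trans hτ.1)).continuousAt.continuousWithinAt)
    (fun τ hτ => (hg τ (hs.trans hτ.1)).hasDerivWithinAt)
    (fun _ _ => trivial) (by rw [dist_eq_norm]) t ⟨hst, le_refl _⟩
  rw [dist_eq_norm, Real.coe_toNNReal L hL0] at h1
  rw [mul_comm]
  exact h1

/-- Two trajectories: exponential bound for the distance, backward in time. -/
private theorem traj_bwd (L : ℝ) (hL0 : 0 ≤ L)
    (hlip : ∀ t, 0 ≤ t → LipschitzWith L.toNNReal (u t)) (f g : ℝ → ℂ)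
    (hf : ∀ t, 0 ≤ t → HasDerivAt f (u t (f t)) t) (hg : ∀ t, 0 ≤ t → HasDerivAt g (u t (g t)) t)
    (s t : ℝ) (ht : 0 ≤ t) (hst : t ≤ s) :
    ‖f t - g t‖ ≤ Real.exp (L * (s - t)) * ‖f s - g s‖ := by
  have key : ∀ φ : ℝ → ℂ, (∀ t, 0 ≤ t → HasDerivAt φ (u t (φ t)) t) → ∀ τ, 0 ≤ s - τ →
      HasDerivAt (fun τ => φ (s - τ)) (- u (s - τ) (φ (s - τ))) τ := by
    intro φ hφ τ hτ
    have h2 : HasDerivAt (fun τ : ℝ => s - τ) (-1) τ := by
      simpa using (hasDerivAt_id τ).const_sub s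
    have h3 := (hφ (s - τ) hτ).scomp τ h2
    simp only [neg_smul, one_smul] at h3
    exact h3
  have h1 := dist_le_of_trajectories_ODE_of_mem (K := L.toNNReal)
    (v := fun τ z => - u (s - τ) z) (s := fun _ => univ)
    (f := fun τ => f (s - τ)) (g := fun τ => g (s - τ)) (a := 0) (b := s - t) (δ := ‖f s - g s‖)
    (fun τ hτ => ((hlip (s - τ) (by linarith [hτ.2])).neg).lipschitzOnWith)
    (fun τ hτ => (key f hf τ (by linarith [hτ.2])).continuousAt.continuousWithinAt)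
    (fun τ hτ => (key f hf τ (by linarith [hτ.2])).hasDerivWithinAt)
    (fun _ _ => trivial)
    (fun τ hτ => (key g hg τ (by linarith [hτ.2])).continuousAt.continuousWithinAt)
    (fun τ hτ => (key g hg τ (by linarith [hτ.2])).hasDerivWithinAt)
    (fun _ _ => trivial) (by simp [dist_eq_norm]) (s - t) ⟨by linarith, le_refl _⟩
  rw [dist_eq_norm, Real.coe_toNNReal L hL0] at h1
  simp only [sub_sub_cancel, sub_zero] at h1
  rw [mul_comm]
  exact h1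

private theorem traj (L : ℝ) (hL0 : 0 ≤ L)
    (hlip : ∀ t, 0 ≤ t → LipschitzWith L.toNNReal (u t)) (f g : ℝ → ℂ)
    (hf : ∀ t, 0 ≤ t → HasDerivAt f (u t (f t)) t) (hg : ∀ t, 0 ≤ t → HasDerivAt g (u t (g t)) t)
    (s t : ℝ) (hs : 0 ≤ s) (ht : 0 ≤ t) :
    ‖f t - g t‖ ≤ Real.exp (L * |t - s|) * ‖f s - g s‖ := by
  rcases le_total s t with h | h
  · rw [abs_of_nonneg (by linarith)]
    exact traj_fwd L hL0 hlip f g hf hg s t hs h
  · rw [abs_of_nonpos (by linarith), neg_sub]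
    exact traj_bwd L hL0 hlip f g hf hg s t ht h

theorem IsFlow.group (h : IsFlow u Φ) (L : ℝ) (hL : ∀ t, 0 ≤ t → ∀ x, ‖fderiv ℝ (u t) x‖ ≤ L)
    (s t t' : ℝ) (hs : 0 ≤ s) (ht : 0 ≤ t) (ht' : 0 ≤ t') (x : ℂ) :
    Φ t' t (Φ t s x) = Φ t' s x := by
  have hL0 : 0 ≤ L := (norm_nonneg _).trans (hL 0 le_rfl 0)
  have h1 := traj L hL0 (lip_slice h L hL) (fun τ => Φ τ t (Φ t s x)) (fun τ => Φ τ s x)
    (fun τ hτ => h.ode t τ ht hτ _) (fun τ hτ => h.ode s τ hs hτ _) t t' ht ht'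
  simp only [h.init t ht, sub_self, norm_zero, mul_zero] at h1
  exact sub_eq_zero.1 (norm_le_zero_iff.1 h1)

theorem IsFlow.lip (h : IsFlow u Φ) (L : ℝ) (hL : ∀ t, 0 ≤ t → ∀ x, ‖fderiv ℝ (u t) x‖ ≤ L)
    (s t : ℝ) (hs : 0 ≤ s) (ht : 0 ≤ t) (x y : ℂ) :
    ‖Φ t s x - Φ t s y‖ ≤ Real.exp (L * |t - s|) * ‖x - y‖ := by
  have hL0 : 0 ≤ L := (norm_nonneg _).trans (hL 0 le_rfl 0)
  have h1 := traj L hL0 (lip_slice h L hL) (fun τ => Φ τ s x) (fun τ => Φ τ s y)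
    (fun τ hτ => h.ode s τ hs hτ _) (fun τ hτ => h.ode s τ hs hτ _) s t hs ht
  simpa only [h.init s hs] using h1

theorem IsFlow.disp (h : IsFlow u Φ) (T V : ℝ) (hV : ∀ t, 0 ≤ t → t ≤ T → ∀ x, ‖u t x‖ ≤ V)
    (s t : ℝ) (hs : 0 ≤ s) (hsT : s ≤ T) (ht : 0 ≤ t) (htT : t ≤ T) (x : ℂ) :
    ‖Φ t s x - x‖ ≤ V * |t - s| := by
  have h1 := (convex_Icc (0 : ℝ) T).norm_image_sub_le_of_norm_hasDerivWithin_le
    (f := fun τ => Φ τ s x) (f' := fun τ => u τ (Φ τ s x)) (C := V)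
    (fun τ hτ => (h.ode s τ hs hτ.1 x).hasDerivWithinAt) (fun τ hτ => hV τ hτ.1 hτ.2 _)
    (x := s) (y := t) ⟨hs, hsT⟩ ⟨ht, htT⟩
  simp only [h.init s hs, Real.norm_eq_abs] at h1
  exact h1

end Pool.Agent.ES38
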