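import Pool.Agent.ES38.FlowBasic

/-!
# T9: one block of the flow acts on normalised jets of curves
-/

open Set Real
open scoped ContDiff
namespace Pool.Agent.ES38

/-- Time derivative commutes with the iterated derivative in the curve parameter. -/
private theorem t9_mixed (a : ℕ) : ∀ (S : ℝ × ℝ → ℂ), ContDiff ℝ ∞ S → ∀ τ v : ℝ,
    HasDerivAt (fun t => iteratedDeriv a (fun w => S (t, w)) v)
      (iteratedDeriv a (fun w => fderiv ℝ S (τ, w) (1, 0)) v) τ := by
  induction a with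
  | zero =>
    intro S hS τ v
    simp only [iteratedDeriv_zero]
    have h1 : HasFDerivAt S (fderiv ℝ S (τ, v)) (τ, v) :=
      (hS.differentiable (by simp)).differentiableAt.hasFDerivAt
    have h2 : HasDerivAt (fun t : ℝ => (t, v)) ((1 : ℝ), (0 : ℝ)) τ :=
      (hasDerivAt_id τ).prodMk (hasDerivAt_const τ v)
    exact h1.comp_hasDerivAt τ h2
  | succ a ih =>
    intro S hS τ v
    have hfd : ContDiff ℝ ∞ (fderiv ℝ S) := hS.fderiv_right (by simp)
    have key : ∀ (T : ℝ × ℝ → ℂ), ContDiff ℝ ∞ T → ∀ t w : ℝ,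
        deriv (fun w' => T (t, w')) w = fderiv ℝ T (t, w) (0, 1) := by
      intro T hT t w
      have h1 : HasFDerivAt T (fderiv ℝ T (t, w)) (t, w) :=
        (hT.differentiable (by simp)).differentiableAt.hasFDerivAt
      have h2 : HasDerivAt (fun w' : ℝ => (t, w')) ((0 : ℝ), (1 : ℝ)) w :=
        (hasDerivAt_const w t).prodMk (hasDerivAt_id w)
      exact (h1.comp_hasDerivAt w h2).deriv
    have hSv : ContDiff ℝ ∞ (fun p : ℝ × ℝ => fderiv ℝ S p (0, 1)) :=
      hfd.clm_apply contDiff_const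
    have hSt : ContDiff ℝ ∞ (fun p : ℝ × ℝ => fderiv ℝ S p (1, 0)) :=
      hfd.clm_apply contDiff_const
    have h3 := ih (fun p => fderiv ℝ S p (0, 1)) hSv τ v
    have e1 : (fun t => iteratedDeriv (a + 1) (fun w => S (t, w)) v) =
        fun t => iteratedDeriv a (fun w => fderiv ℝ S (t, w) (0, 1)) v := by
      funext t
      rw [iteratedDeriv_succ']
      congr 1
      funext w
      exact key S hS t w
    have e2 : iteratedDeriv (a + 1) (fun w => fderiv ℝ S (τ, w) (1, 0)) v =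
        iteratedDeriv a (fun w => fderiv ℝ (fun p => fderiv ℝ S p (0, 1)) (τ, w) (1, 0)) v := by
      rw [iteratedDeriv_succ']
      congr 1
      funext w
      rw [key _ hSt τ w]
      have hd : DifferentiableAt ℝ (fderiv ℝ S) (τ, w) :=
        (hfd.differentiable (by simp)).differentiableAt
      have f1 : fderiv ℝ (fun p => fderiv ℝ S p (1, 0)) (τ, w) (0, 1) =
          fderiv ℝ (fderiv ℝ S) (τ, w) (0, 1) (1, 0) := by
        rw [fderiv_clm_apply hd (differentiableAt_const _)]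
        simp
      have f2 : fderiv ℝ (fun p => fderiv ℝ S p (0, 1)) (τ, w) (1, 0) =
          fderiv ℝ (fderiv ℝ S) (τ, w) (1, 0) (0, 1) := by
        rw [fderiv_clm_apply hd (differentiableAt_const _)]
        simp
      rw [f1, f2]
      have hsym : IsSymmSndFDerivAt ℝ S (τ, w) :=
        hS.contDiffAt.isSymmSndFDerivAt (by
          simp only [minSmoothness_of_isRCLikeNormedField]
          exact ENat.LEInfty.out)
      exact hsym.eq _ _
    rw [e1, e2]
    exact h3

/-- Derivatives at zero of the rescaled second order remainder. -/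
private theorem t9_rem (k : ℕ) (U : ℂ → ℂ) (hU : ContDiff ℝ ∞ U) (z0 : ℂ) (ρ M : ℝ)
    (hρ : 0 < ρ) (hρ1 : ρ ≤ 1) (hM : 0 ≤ M)
    (hb : ∀ i, 2 ≤ i → i ≤ k → ‖iteratedFDeriv ℝ i U z0‖ ≤ M) :
    ∀ i, i ≤ k → ‖iteratedFDeriv ℝ i
      (fun w : ℂ => U (z0 + ρ • w) - U z0 - fderiv ℝ U z0 (ρ • w)) 0‖ ≤ ρ ^ 2 * M := by
  intro i hi
  have hfh : ∀ w : ℂ, HasFDerivAt (fun w : ℂ => U (z0 + ρ • w))
      ((fderiv ℝ U (z0 + ρ • w)).comp (ρ • ContinuousLinearMap.id ℝ ℂ)) w := by
    intro w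
    have h1 : HasFDerivAt U (fderiv ℝ U (z0 + ρ • w)) (z0 + ρ • w) :=
      (hU.differentiable (by simp)).differentiableAt.hasFDerivAt
    have h2 : HasFDerivAt (fun w : ℂ => z0 + ρ • w) (ρ • ContinuousLinearMap.id ℝ ℂ) w :=
      ((hasFDerivAt_id w).const_smul ρ).const_add z0
    exact h1.comp w h2
  have hfg : ∀ w : ℂ, HasFDerivAt
      (fun w : ℂ => U (z0 + ρ • w) - U z0 - fderiv ℝ U z0 (ρ • w))
      ((fderiv ℝ U (z0 + ρ • w)).comp (ρ • ContinuousLinearMap.id ℝ ℂ) -
        (fderiv ℝ U z0).comp (ρ • ContinuousLinearMap.id ℝ ℂ)) w := by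
    intro w
    have h3 : HasFDerivAt (fun w : ℂ => fderiv ℝ U z0 (ρ • w))
        ((fderiv ℝ U z0).comp (ρ • ContinuousLinearMap.id ℝ ℂ)) w :=
      (fderiv ℝ U z0).hasFDerivAt.comp w ((hasFDerivAt_id w).const_smul ρ)
    exact ((hfh w).sub_const (U z0)).sub h3
  have hρM : 0 ≤ ρ ^ 2 * M := by positivity
  match i, hi with
  | 0, _ =>
    rw [norm_iteratedFDeriv_zero]
    simpa using hρM
  | 1, _ =>
    rw [norm_iteratedFDeriv_one, (hfg 0).fderiv]
    simpa using hρM
  | j + 2, hi =>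
    have e1 : fderiv ℝ (fun w : ℂ => U (z0 + ρ • w) - U z0 - fderiv ℝ U z0 (ρ • w)) =
        fderiv ℝ (fun w : ℂ => U (z0 + ρ • w)) -
          fun _ => (fderiv ℝ U z0).comp (ρ • ContinuousLinearMap.id ℝ ℂ) := by
      funext w
      rw [Pi.sub_apply, (hfg w).fderiv, (hfh w).fderiv]
    have hsm : ContDiff ℝ ∞ (fun w : ℂ => U (z0 + ρ • w)) :=
      hU.comp (contDiff_const.add (contDiff_id.const_smul ρ))
    have e2 : iteratedFDeriv ℝ (j + 1) (fderiv ℝ
        (fun w : ℂ => U (z0 + ρ • w) - U z0 - fderiv ℝ U z0 (ρ • w))) 0 =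
        iteratedFDeriv ℝ (j + 1) (fderiv ℝ (fun w : ℂ => U (z0 + ρ • w))) 0 := by
      rw [e1, iteratedFDeriv_sub_apply
        ((hsm.fderiv_right (m := ∞) (by simp)).contDiffAt.of_le (by exact_mod_cast le_top))
        contDiffAt_const]
      rw [iteratedFDeriv_const_of_ne (Nat.succ_ne_zero j)]
      simp
    rw [← norm_iteratedFDeriv_fderiv, e2, norm_iteratedFDeriv_fderiv]
    have e3 : (fun w : ℂ => U (z0 + ρ • w)) =
        (fun z => U (z0 + z)) ∘ (ρ • ContinuousLinearMap.id ℝ ℂ : ℂ →L[ℝ] ℂ) := by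
      funext w
      simp
    have hsm2 : ContDiff ℝ ∞ (fun z : ℂ => U (z0 + z)) :=
      hU.comp (contDiff_const.add contDiff_id)
    rw [e3, ContinuousLinearMap.iteratedFDeriv_comp_right (ρ • ContinuousLinearMap.id ℝ ℂ)
      hsm2 0 (i := j + 1 + 1) (by exact_mod_cast le_top)]
    refine (ContinuousMultilinearMap.norm_compContinuousLinearMap_le _ _).trans ?_
    rw [iteratedFDeriv_comp_add_left]
    have h5 : ‖(ρ • ContinuousLinearMap.id ℝ ℂ : ℂ →L[ℝ] ℂ)‖ ≤ ρ := by
      rw [norm_smul, Real.norm_eq_abs, abs_of_pos hρ]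
      exact mul_le_of_le_one_right hρ.le ContinuousLinearMap.norm_id_le
    have h6 : ∏ _i : Fin (j + 1 + 1), ‖(ρ • ContinuousLinearMap.id ℝ ℂ : ℂ →L[ℝ] ℂ)‖ ≤ ρ ^ 2 := by
      rw [Finset.prod_const, Finset.card_univ, Fintype.card_fin]
      calc _ ≤ ρ ^ (j + 1 + 1) := pow_le_pow_left₀ (norm_nonneg _) h5 _
        _ ≤ ρ ^ 2 := pow_le_pow_of_le_one hρ.le hρ1 (by omega)
    have h7 := hb (j + 1 + 1) (by omega) hi
    have h8 : z0 + (ρ • ContinuousLinearMap.id ℝ ℂ : ℂ →L[ℝ] ℂ) 0 = z0 := by simp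
    rw [h8, mul_comm]
    exact mul_le_mul h6 h7 (norm_nonneg _) (by positivity)

/-- The a-th derivative of a composition: linear part plus a small nonlinear part. -/
private theorem t9_comp (k : ℕ) (U : ℂ → ℂ) (hU : ContDiff ℝ ∞ U) (f : ℝ → ℂ)
    (hf : ContDiff ℝ ∞ f) (v ρ M D0 : ℝ) (hρ : 0 < ρ) (hρ1 : ρ ≤ 1) (hM : 0 ≤ M)
    (hD0 : 1 ≤ D0) (hb : ∀ i, 2 ≤ i → i ≤ k → ‖iteratedFDeriv ℝ i U (f v)‖ ≤ M)
    (a : ℕ) (ha : 1 ≤ a) (hak : a ≤ k)
    (hlow : ∀ j, 1 ≤ j → j < a → ‖iteratedDeriv j f v‖ ≤ D0 * ρ) :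
    ‖iteratedDeriv a (fun w => U (f w)) v‖ ≤
      (‖fderiv ℝ U (f v)‖ + a.factorial * ρ * M) * ‖iteratedDeriv a f v‖ +
        a.factorial * ρ ^ 2 * M * D0 ^ a := by
  set z0 := f v with hz0
  set A := fderiv ℝ U z0 with hA
  set g : ℂ → ℂ := fun w : ℂ => U (z0 + ρ • w) - U z0 - fderiv ℝ U z0 (ρ • w) with hg
  set ft : ℝ → ℂ := fun w => ρ⁻¹ • (f w - z0) with hft
  have hgs : ContDiff ℝ ∞ g := by
    refine ((hU.comp (contDiff_const.add (contDiff_id.const_smul ρ))).sub contDiff_const).sub ?_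
    exact (fderiv ℝ U z0).contDiff.comp (contDiff_id.const_smul ρ)
  have hfs : ContDiff ℝ ∞ ft := (hf.sub contDiff_const).const_smul ρ⁻¹
  have hfz : ContDiff ℝ ∞ (fun w => f w - z0) := hf.sub contDiff_const
  have hft0 : ft v = 0 := by simp [hft, hz0]
  have hdec : (fun w => U (f w)) = fun w => U z0 + ((A ∘ fun w => f w - z0) w + (g ∘ ft) w) := by
    funext w
    have e1 : ρ • ft w = f w - z0 := by
      simp only [hft]
      rw [smul_inv_smul₀ hρ.ne']
    simp only [Function.comp, hg, e1, hA]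
    have e2 : z0 + (f w - z0) = f w := by ring
    rw [e2]
    ring
  have hle : ((a : ℕ) : ℕ∞ω) ≤ ∞ := by exact_mod_cast le_top
  have hAf : ContDiff ℝ ∞ (A ∘ fun w => f w - z0) := A.contDiff.comp hfz
  have hgf : ContDiff ℝ ∞ (g ∘ ft) := hgs.comp hfs
  rw [hdec, iteratedDeriv_const_add (by omega)]
  have e3 : iteratedDeriv a (fun w => (A ∘ fun w => f w - z0) w + (g ∘ ft) w) v =
      iteratedDeriv a (A ∘ fun w => f w - z0) v + iteratedDeriv a (g ∘ ft) v :=
    iteratedDeriv_add (hAf.contDiffAt.of_le hle) (hgf.contDiffAt.of_le hle)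
  rw [e3]
  refine (norm_add_le _ _).trans ?_
  have hshift : ∀ j, 1 ≤ j → iteratedDeriv j (fun w => f w - z0) v = iteratedDeriv j f v := by
    intro j hj
    have e4 : (fun w => f w - z0) = fun w => -z0 + f w := by
      funext w; ring
    rw [e4, iteratedDeriv_const_add (by omega)]
  have hscale : ∀ j, 1 ≤ j → iteratedDeriv j ft v = ρ⁻¹ • iteratedDeriv j f v := by
    intro j hj
    rw [← hshift j hj]
    exact iteratedDeriv_const_smul_field ρ⁻¹ (fun w => f w - z0)
  have hnscale : ∀ j, 1 ≤ j → ‖iteratedDeriv j ft v‖ = ρ⁻¹ * ‖iteratedDeriv j f v‖ := by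
    intro j hj
    rw [hscale j hj, norm_smul, Real.norm_eq_abs, abs_of_pos (inv_pos.2 hρ)]
  have b1 : ‖iteratedDeriv a (A ∘ fun w => f w - z0) v‖ ≤ ‖A‖ * ‖iteratedDeriv a f v‖ := by
    rw [← norm_iteratedFDeriv_eq_norm_iteratedDeriv, ← hshift a ha,
      ← norm_iteratedFDeriv_eq_norm_iteratedDeriv]
    exact A.norm_iteratedFDeriv_comp_left (hfz.contDiffAt) hle
  set e := ‖iteratedDeriv a ft v‖ with he
  have he0 : 0 ≤ e := norm_nonneg _
  have b2 : ‖iteratedDeriv a (g ∘ ft) v‖ ≤ a.factorial * (ρ ^ 2 * M) * (D0 ^ a + e) := by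
    set X := e ^ ((a : ℝ)⁻¹) with hX
    have hXa : X ^ a = e := Real.rpow_inv_natCast_pow he0 (by omega)
    have hX0 : 0 ≤ X := Real.rpow_nonneg he0 _
    set D := max D0 X with hD
    have hD0D : D0 ≤ D := le_max_left _ _
    have hXD : X ≤ D := le_max_right _ _
    have hDa : D ^ a ≤ D0 ^ a + e := by
      rcases le_total D0 X with h | h
      · rw [hD, max_eq_right h, hXa]
        have : 0 ≤ D0 ^ a := by positivity
        linarith
      · rw [hD, max_eq_left h]
        linarith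
    rw [← norm_iteratedFDeriv_eq_norm_iteratedDeriv]
    refine (norm_iteratedFDeriv_comp_le hgs hfs hle v (C := ρ ^ 2 * M) (D := D) ?_ ?_).trans ?_
    · intro i hi
      rw [hft0]
      exact t9_rem k U hU z0 ρ M hρ hρ1 hM hb i (hi.trans hak)
    · intro i hi hia
      rw [norm_iteratedFDeriv_eq_norm_iteratedDeriv]
      rcases Nat.lt_or_ge i a with h | h
      · rw [hnscale i hi]
        have h1 := hlow i hi h
        calc ρ⁻¹ * ‖iteratedDeriv i f v‖ ≤ ρ⁻¹ * (D0 * ρ) :=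
              mul_le_mul_of_nonneg_left h1 (inv_nonneg.2 hρ.le)
          _ = D0 := by field_simp
          _ ≤ D0 ^ i := le_self_pow₀ hD0 (by omega)
          _ ≤ D ^ i := pow_le_pow_left₀ (by linarith) hD0D i
      · have hia' : i = a := le_antisymm hia h
        subst hia'
        calc e = X ^ i := hXa.symm
          _ ≤ D ^ i := pow_le_pow_left₀ hX0 hXD i
    · exact mul_le_mul_of_nonneg_left hDa (by positivity)
  have he' : e = ρ⁻¹ * ‖iteratedDeriv a f v‖ := hnscale a ha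
  calc ‖iteratedDeriv a (A ∘ fun w => f w - z0) v‖ + ‖iteratedDeriv a (g ∘ ft) v‖
      ≤ ‖A‖ * ‖iteratedDeriv a f v‖ + a.factorial * (ρ ^ 2 * M) * (D0 ^ a + e) :=
        add_le_add b1 b2
    _ = (‖A‖ + a.factorial * ρ * M) * ‖iteratedDeriv a f v‖ +
        a.factorial * ρ ^ 2 * M * D0 ^ a := by
        rw [he']
        field_simp
        ring

/-- Gronwall on an interval in either direction of time. -/
private theorem t9_gronwall (f f' : ℝ → ℂ) (s t K ε δ : ℝ)
    (hd : ∀ τ ∈ uIcc s t, HasDerivAt f (f' τ) τ) (h0 : ‖f s‖ ≤ δ)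
    (hb : ∀ τ ∈ uIcc s t, ‖f' τ‖ ≤ K * ‖f τ‖ + ε) :
    ‖f t‖ ≤ gronwallBound δ K ε |t - s| := by
  rcases le_total s t with h | h
  · rw [uIcc_of_le h] at hd hb
    rw [abs_of_nonneg (sub_nonneg.2 h)]
    exact norm_le_gronwallBound_of_norm_deriv_right_le
      (fun x hx => (hd x hx).continuousAt.continuousWithinAt)
      (fun x hx => (hd x (Ico_subset_Icc_self hx)).hasDerivWithinAt) h0
      (fun x hx => hb x (Ico_subset_Icc_self hx)) t ⟨h, le_rfl⟩
  · rw [uIcc_of_ge h] at hd hb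
    have h1 : |t - s| = -t - -s := by
      rw [abs_of_nonpos (sub_nonpos.2 h)]; ring
    have hmem : ∀ x ∈ Icc (-s) (-t), -x ∈ Icc t s := by
      intro x hx
      exact ⟨by linarith [hx.2], by linarith [hx.1]⟩
    have hd' : ∀ x ∈ Icc (-s) (-t), HasDerivAt (fun y => f (-y)) (-f' (-x)) x := by
      intro x hx
      have h2 : HasDerivAt (fun y => f (-y)) ((-1 : ℝ) • f' (-x)) x :=
        (hd (-x) (hmem x hx)).scomp x (hasDerivAt_neg x)
      rwa [neg_one_smul] at h2
    rw [h1]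
    have h3 := norm_le_gronwallBound_of_norm_deriv_right_le (f := fun y => f (-y))
      (f' := fun x => -f' (-x)) (δ := δ) (K := K) (ε := ε) (a := -s) (b := -t)
      (fun x hx => (hd' x hx).continuousAt.continuousWithinAt)
      (fun x hx => (hd' x (Ico_subset_Icc_self hx)).hasDerivWithinAt)
      (by simpa using h0)
      (fun x hx => by
        rw [norm_neg]
        exact hb (-x) (hmem x (Ico_subset_Icc_self hx)))
      (-t) ⟨by linarith, le_rfl⟩
    simpa using h3

private theorem t9_gb (δ K ε x : ℝ) (hK : 0 ≤ K) (hε : 0 ≤ ε) :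
    gronwallBound δ K ε x ≤ Real.exp (K * x) * (δ + ε * x) := by
  rcases eq_or_lt_of_le hK with h | h
  · rw [← h, gronwallBound_K0]
    simp
  · rw [gronwallBound_of_K_ne_0 h.ne']
    dsimp only
    have h1 := Real.add_one_le_exp (-(K * x))
    have h2 : Real.exp (K * x) - 1 ≤ K * x * Real.exp (K * x) := by
      have h3 : Real.exp (K * x) * Real.exp (-(K * x)) = 1 := by
        rw [← Real.exp_add]; simp
      have h4 := mul_le_mul_of_nonneg_left h1 (Real.exp_pos (K * x)).le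
      rw [h3] at h4
      nlinarith
    have h5 : ε / K * (Real.exp (K * x) - 1) ≤ ε / K * (K * x * Real.exp (K * x)) :=
      mul_le_mul_of_nonneg_left h2 (by positivity)
    have h6 : ε / K * (K * x * Real.exp (K * x)) = ε * x * Real.exp (K * x) := by
      field_simp
    rw [h6] at h5
    linarith

/-- T9. One block acts on normalised jets of curves. -/
theorem flow_step (k : ℕ) (m L : ℝ) (hm : 0 < m) (hL0 : 0 ≤ L) : ∃ c : ℝ, 0 < c ∧ c ≤ 1 ∧
    ∀ (u : ℝ → ℂ → ℂ) (Φ : ℝ → ℝ → ℂ → ℂ), IsFlow u Φ → ∀ T M : ℝ, 1 ≤ M →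
    (∀ t, 0 ≤ t → t ≤ T → ∀ x, ‖fderiv ℝ (u t) x‖ ≤ L) →
    (∀ t, 0 ≤ t → t ≤ T → ∀ x, ∀ a, 2 ≤ a → a ≤ k → ‖iteratedFDeriv ℝ a (u t) x‖ ≤ M) →
    ∀ s t, 0 ≤ s → s ≤ T → 0 ≤ t → t ≤ T → |t - s| ≤ m → ∀ σ : ℝ → ℂ, ContDiff ℝ ∞ σ →
    ∀ c0 l ρ : ℝ, 0 < l → 0 < ρ → ρ ≤ c / M →
    (∀ a, 1 ≤ a → a ≤ k → l ^ a * ‖iteratedDeriv a σ c0‖ ≤ ρ) →
    ∀ a, 1 ≤ a → a ≤ k →
      l ^ a * ‖iteratedDeriv a (fun x => Φ t s (σ x)) c0‖ ≤ 2 * Real.exp (L * m) * ρ := by
  set D0 : ℝ := 2 * Real.exp (L * m) with hD0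
  have hexp1 : 1 ≤ Real.exp (L * m) := Real.one_le_exp (by positivity)
  have hD01 : 1 ≤ D0 := by rw [hD0]; linarith
  have hden : 0 < 4 * (k.factorial : ℝ) * m * D0 ^ k := by positivity
  refine ⟨min 1 (1 / (4 * (k.factorial : ℝ) * m * D0 ^ k)), ?_, min_le_left _ _, ?_⟩
  · exact lt_min one_pos (by positivity)
  intro u Φ hΦ T M hM1 huL huM s t hs hsT ht htT hts σ hσ c0 l ρ hl hρ hρc hσb
  set c := min 1 (1 / (4 * (k.factorial : ℝ) * m * D0 ^ k)) with hc
  have hM0 : 0 < M := by linarith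
  have hρM : ρ * M ≤ c := by
    rw [le_div_iff₀ hM0] at hρc
    exact hρc
  have hρM1 : ρ * M ≤ 1 := hρM.trans (min_le_left _ _)
  have hρ1 : ρ ≤ 1 := by nlinarith
  have hsmall : (k.factorial : ℝ) * (ρ * M) * m * D0 ^ k ≤ 1 / 4 := by
    have h1 : ρ * M ≤ 1 / (4 * (k.factorial : ℝ) * m * D0 ^ k) := hρM.trans (min_le_right _ _)
    rw [le_div_iff₀ hden] at h1
    linarith
  -- the family of curves
  set S : ℝ × ℝ → ℂ := fun p => Φ p.1 s (σ (c0 + l * p.2)) with hS
  have hSs : ContDiff ℝ ∞ S := by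
    have h1 : ContDiff ℝ ∞ (fun p : ℝ × ℝ => (p.1, s, σ (c0 + l * p.2))) :=
      contDiff_fst.prodMk (contDiff_const.prodMk
        (hσ.comp (contDiff_const.add (contDiff_const.mul contDiff_snd))))
    exact hΦ.smooth.comp h1
  have hSv : ∀ τ, ContDiff ℝ ∞ (fun w => S (τ, w)) := fun τ =>
    hSs.comp (contDiff_const.prodMk contDiff_id)
  have hut : ∀ τ, ContDiff ℝ ∞ (u τ) := fun τ =>
    hΦ.smooth_u.comp (contDiff_const.prodMk contDiff_id)
  have htime : ∀ τ, 0 ≤ τ → ∀ w, fderiv ℝ S (τ, w) (1, 0) = u τ (S (τ, w)) := by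
    intro τ hτ w
    have h1 : HasFDerivAt S (fderiv ℝ S (τ, w)) (τ, w) :=
      (hSs.differentiable (by simp)).differentiableAt.hasFDerivAt
    have h2 : HasDerivAt (fun t : ℝ => (t, w)) ((1 : ℝ), (0 : ℝ)) τ :=
      (hasDerivAt_id τ).prodMk (hasDerivAt_const τ w)
    have h3 : HasDerivAt (S ∘ fun t : ℝ => (t, w)) (fderiv ℝ S (τ, w) (1, 0)) τ :=
      HasFDerivAt.comp_hasDerivAt (f := fun t : ℝ => (t, w)) τ h1 h2
    exact h3.unique (hΦ.ode s τ hs hτ (σ (c0 + l * w)))
  have hder : ∀ a τ, 0 ≤ τ → HasDerivAt (fun t => iteratedDeriv a (fun w => S (t, w)) 0)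
      (iteratedDeriv a (fun w => u τ (S (τ, w))) 0) τ := by
    intro a τ hτ
    have h1 := t9_mixed a S hSs τ 0
    have h2 : (fun w => fderiv ℝ S (τ, w) (1, 0)) = fun w => u τ (S (τ, w)) := by
      funext w
      exact htime τ hτ w
    rwa [h2] at h1
  have hpos : ∀ τ ∈ uIcc s t, 0 ≤ τ ∧ τ ≤ T := by
    intro τ hτ
    rw [mem_uIcc] at hτ
    rcases hτ with h | h
    · exact ⟨hs.trans h.1, h.2.trans htT⟩
    · exact ⟨ht.trans h.1, h.2.trans hsT⟩
  -- rescaling
  have hresc : ∀ (g : ℝ → ℂ), ContDiff ℝ ∞ g → ∀ a : ℕ,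
      ‖iteratedDeriv a (fun w => g (c0 + l * w)) 0‖ = l ^ a * ‖iteratedDeriv a g c0‖ := by
    intro g hg a
    have hle : ((a : ℕ) : ℕ∞ω) ≤ ∞ := by exact_mod_cast le_top
    have h1 : ContDiff ℝ a (fun z => g (c0 + z)) :=
      (hg.comp (contDiff_const.add contDiff_id)).of_le hle
    have h2 := congrFun (iteratedDeriv_comp_const_smul (n := a) h1 l) 0
    have h3 : iteratedDeriv a (fun z => g (c0 + z)) (l * 0) = iteratedDeriv a g c0 := by
      rw [iteratedDeriv_comp_const_add]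
      simp
    rw [h2, h3, norm_smul, norm_pow, Real.norm_eq_abs, abs_of_pos hl]
  have hstart : ∀ a, 1 ≤ a → a ≤ k → ‖iteratedDeriv a (fun w => S (s, w)) 0‖ ≤ ρ := by
    intro a ha hak
    have h1 : (fun w => S (s, w)) = fun w => σ (c0 + l * w) := by
      funext w
      exact hΦ.init s hs _
    rw [h1, hresc σ hσ a]
    exact hσb a ha hak
  have main : ∀ a, 1 ≤ a → a ≤ k → ∀ τ ∈ uIcc s t,
      ‖iteratedDeriv a (fun w => S (τ, w)) 0‖ ≤ D0 * ρ := by
    intro a
    induction a using Nat.strong_induction_on with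
    | _ a ih =>
      intro ha hak τ' hτ'
      have hsub : uIcc s τ' ⊆ uIcc s t := uIcc_subset_uIcc_left hτ'
      set K := L + a.factorial * ρ * M with hK
      set ε := a.factorial * ρ ^ 2 * M * D0 ^ a with hε
      have hK0 : 0 ≤ K := by positivity
      have hε0 : 0 ≤ ε := by positivity
      have h1 := t9_gronwall (fun τ => iteratedDeriv a (fun w => S (τ, w)) 0)
        (fun τ => iteratedDeriv a (fun w => u τ (S (τ, w))) 0) s τ' K ε ρ
        (fun τ hτ => hder a τ (hpos τ (hsub hτ)).1) (hstart a ha hak)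
        (fun τ hτ => by
          have hτt := hpos τ (hsub hτ)
          have h2 := t9_comp k (u τ) (hut τ) (fun w => S (τ, w)) (hSv τ) 0 ρ M D0 hρ hρ1 hM0.le
            hD01 (fun i hi hik => huM τ hτt.1 hτt.2 _ i hi hik) a ha hak
            (fun j hj hja => ih j hja hj (hja.le.trans hak) τ (hsub hτ))
          refine h2.trans ?_
          have h3 := huL τ hτt.1 hτt.2 (S (τ, 0))
          have h4 : (‖fderiv ℝ (u τ) (S (τ, 0))‖ + a.factorial * ρ * M) *
              ‖iteratedDeriv a (fun w => S (τ, w)) 0‖ ≤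
              K * ‖iteratedDeriv a (fun w => S (τ, w)) 0‖ :=
            mul_le_mul_of_nonneg_right (by rw [hK]; linarith) (norm_nonneg _)
          linarith)
      refine h1.trans ((t9_gb ρ K ε _ hK0 hε0).trans ?_)
      have hx : |τ' - s| ≤ m := by
        have : |τ' - s| ≤ |t - s| := by
          rw [mem_uIcc] at hτ'
          rcases hτ' with h | h
          · rw [abs_of_nonneg (by linarith [h.1]), abs_of_nonneg (by linarith [h.1, h.2])]
            linarith [h.2]
          · rw [abs_of_nonpos (by linarith [h.2]), abs_of_nonpos (by linarith [h.1, h.2])]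
            linarith [h.1]
        exact this.trans hts
      set x := |τ' - s| with hxdef
      have hx0 : 0 ≤ x := abs_nonneg _
      have hfac : (a.factorial : ℝ) ≤ k.factorial := by
        exact_mod_cast Nat.factorial_le hak
      have hDak : D0 ^ a ≤ D0 ^ k := pow_le_pow_right₀ hD01 hak
      have hDa1 : 1 ≤ D0 ^ a := one_le_pow₀ hD01
      have hρM0 : 0 ≤ ρ * M := by positivity
      have q1 : (a.factorial : ℝ) * (ρ * M) * x * D0 ^ a ≤ 1 / 4 := by
        refine le_trans ?_ hsmall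
        gcongr
      have q2 : (a.factorial : ℝ) * (ρ * M) * x ≤ 1 / 4 := by
        refine le_trans ?_ q1
        exact le_mul_of_one_le_right (by positivity) hDa1
      have q3 : K * x ≤ L * m + 1 / 4 := by
        have : L * x ≤ L * m := mul_le_mul_of_nonneg_left hx hL0
        rw [hK]
        linarith
      have q4 : Real.exp (K * x) ≤ Real.exp (L * m) * (4 / 3) := by
        calc Real.exp (K * x) ≤ Real.exp (L * m + 1 / 4) := Real.exp_le_exp.2 q3
          _ = Real.exp (L * m) * Real.exp (1 / 4) := Real.exp_add _ _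
          _ ≤ Real.exp (L * m) * (4 / 3) := by
              refine mul_le_mul_of_nonneg_left ?_ (Real.exp_pos _).le
              have h5 := Real.add_one_le_exp (-(1 / 4 : ℝ))
              have h6 : Real.exp (1 / 4) * Real.exp (-(1 / 4)) = 1 := by
                rw [← Real.exp_add]; simp
              have h7 := Real.exp_pos (1 / 4 : ℝ)
              nlinarith
      have q5 : ρ + ε * x ≤ ρ * (5 / 4) := by
        have : ε * x = ρ * ((a.factorial : ℝ) * (ρ * M) * x * D0 ^ a) := by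
          rw [hε]; ring
        rw [this]
        nlinarith
      calc Real.exp (K * x) * (ρ + ε * x)
          ≤ (Real.exp (L * m) * (4 / 3)) * (ρ * (5 / 4)) :=
            mul_le_mul q4 q5 (by positivity) (by positivity)
        _ ≤ D0 * ρ := by
            rw [hD0]
            have := mul_pos (Real.exp_pos (L * m)) hρ
            nlinarith
  intro a ha hak
  have h1 := main a ha hak t right_mem_uIcc
  have hg : ContDiff ℝ ∞ (fun x => Φ t s (σ x)) :=
    hΦ.smooth.comp (contDiff_const.prodMk (contDiff_const.prodMk hσ))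
  have h2 := hresc (fun x => Φ t s (σ x)) hg a
  rw [← h2]
  exact h1

end Pool.Agent.ES38
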