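import Pool.Agent.ES38.FlowStep
open Set Real
open scoped ContDiff
namespace Pool.Agent.ES38

/-- Rescaled field. -/
noncomputable def scU (M : ℝ) (u : ℝ → ℂ → ℂ) (t : ℝ) (y : ℂ) : ℂ := M • u t (M⁻¹ • y)

/-- Rescaled flow. -/
noncomputable def scF (M : ℝ) (Φ : ℝ → ℝ → ℂ → ℂ) (t s : ℝ) (y : ℂ) : ℂ := M • Φ t s (M⁻¹ • y)

theorem scale_isFlow {u : ℝ → ℂ → ℂ} {Φ : ℝ → ℝ → ℂ → ℂ} (h : IsFlow u Φ) (M : ℝ) (hM : 0 < M) :
    IsFlow (scU M u) (scF M Φ) := by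
  have hinv : ∀ y : ℂ, M⁻¹ • (M • y) = y := fun y => inv_smul_smul₀ hM.ne' y
  have hinv' : ∀ y : ℂ, M • (M⁻¹ • y) = y := fun y => smul_inv_smul₀ hM.ne' y
  refine ⟨?_, ?_, ?_, ?_⟩
  · have h1 : (fun p : ℝ × ℂ => scU M u p.1 p.2) =
        fun p : ℝ × ℂ => M • ((fun q : ℝ × ℂ => u q.1 q.2) (p.1, M⁻¹ • p.2)) := rfl
    rw [h1]
    have h2 : ContDiff ℝ ∞ (fun p : ℝ × ℂ => (p.1, M⁻¹ • p.2)) := by fun_prop
    exact (h.smooth_u.comp h2).const_smul M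
  · have h1 : (fun p : ℝ × ℝ × ℂ => scF M Φ p.1 p.2.1 p.2.2) =
        fun p : ℝ × ℝ × ℂ => M • ((fun q : ℝ × ℝ × ℂ => Φ q.1 q.2.1 q.2.2)
          (p.1, p.2.1, M⁻¹ • p.2.2)) := rfl
    rw [h1]
    have h2 : ContDiff ℝ ∞ (fun p : ℝ × ℝ × ℂ => (p.1, p.2.1, M⁻¹ • p.2.2)) := by fun_prop
    exact (h.smooth.comp h2).const_smul M
  · intro s hs x
    simp only [scF]
    rw [h.init s hs, hinv']
  · intro s t hs ht x
    have h1 := (h.ode s t hs ht (M⁻¹ • x)).const_smul M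
    simp only [scU, scF, hinv]
    exact h1

theorem iteratedFDeriv_scale (w : ℂ → ℂ) (hw : ContDiff ℝ ∞ w) (M : ℝ) (hM : 0 < M) (a : ℕ)
    (y : ℂ) : ‖iteratedFDeriv ℝ a (fun z : ℂ => M • w (M⁻¹ • z)) y‖ ≤
      M * (‖iteratedFDeriv ℝ a w (M⁻¹ • y)‖ * M⁻¹ ^ a) := by
  set ℓ : ℂ →L[ℝ] ℂ := M⁻¹ • ContinuousLinearMap.id ℝ ℂ with hℓ
  have hℓn : ‖ℓ‖ ≤ M⁻¹ := by
    refine ContinuousLinearMap.opNorm_le_bound _ (by positivity) fun x => ?_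
    rw [hℓ]
    change ‖M⁻¹ • x‖ ≤ M⁻¹ * ‖x‖
    rw [norm_smul, Real.norm_eq_abs, abs_of_pos (by positivity)]
  have hcomp : ContDiff ℝ ∞ (w ∘ ℓ) := hw.comp ℓ.contDiff
  have h0 : (fun z : ℂ => M • w (M⁻¹ • z)) = M • (w ∘ ℓ) := by
    funext z
    rfl
  rw [h0, iteratedFDeriv_const_smul_apply (hcomp.contDiffAt.of_le (by exact_mod_cast le_top)),
    norm_smul, Real.norm_eq_abs, abs_of_pos hM]
  apply mul_le_mul_of_nonneg_left _ hM.le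
  rw [ContinuousLinearMap.iteratedFDeriv_comp_right ℓ hw y (by exact_mod_cast le_top)]
  refine (ContinuousMultilinearMap.norm_compContinuousLinearMap_le _ _).trans ?_
  rw [Finset.prod_const, Finset.card_univ, Fintype.card_fin]
  exact mul_le_mul_of_nonneg_left (pow_le_pow_left₀ (norm_nonneg _) hℓn _) (norm_nonneg _)

/-- The local step with scaled derivative bounds. -/
theorem flow_step_scaled (k : ℕ) (m L : ℝ) (hm : 0 < m) (hL0 : 0 ≤ L) : ∃ c : ℝ, 0 < c ∧ c ≤ 1 ∧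
    ∀ (u : ℝ → ℂ → ℂ) (Φ : ℝ → ℝ → ℂ → ℂ), IsFlow u Φ → ∀ T M : ℝ, 1 ≤ M →
    (∀ t, 0 ≤ t → t ≤ T → ∀ x, ‖fderiv ℝ (u t) x‖ ≤ L) →
    (∀ t, 0 ≤ t → t ≤ T → ∀ x, ∀ a, 2 ≤ a → a ≤ k →
      ‖iteratedFDeriv ℝ a (u t) x‖ ≤ M ^ (a - 1)) →
    ∀ s t, 0 ≤ s → s ≤ T → 0 ≤ t → t ≤ T → |t - s| ≤ m → ∀ σ : ℝ → ℂ, ContDiff ℝ ∞ σ →
    ∀ c0 l ρ : ℝ, 0 < l → 0 < ρ → ρ ≤ c / M →
    (∀ a, 1 ≤ a → a ≤ k → l ^ a * ‖iteratedDeriv a σ c0‖ ≤ ρ) →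
    ∀ a, 1 ≤ a → a ≤ k →
      l ^ a * ‖iteratedDeriv a (fun x => Φ t s (σ x)) c0‖ ≤ 2 * Real.exp (L * m) * ρ := by
  obtain ⟨c, hc0, hc1, hc⟩ := flow_step k m L hm hL0
  refine ⟨c, hc0, hc1, ?_⟩
  intro u Φ hΦ T M hM1 huL huM s t hs hsT ht htT hts σ hσ c0 l ρ hl hρ hρc hσb a ha1 hak
  have hM0 : 0 < M := by linarith
  have hut : ∀ τ, ContDiff ℝ ∞ (u τ) := fun τ =>
    hΦ.smooth_u.comp (contDiff_const.prodMk contDiff_id)
  have hiter : ∀ (f : ℝ → ℂ), ContDiff ℝ ∞ f → ∀ (i : ℕ) (x : ℝ),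
      iteratedDeriv i (fun y => M • f y) x = M • iteratedDeriv i f x := by
    intro f hf i x
    exact iteratedDeriv_const_smul (hf.contDiffAt.of_le (by exact_mod_cast le_top)) M
  have hb := hc (scU M u) (scF M Φ) (scale_isFlow hΦ M hM0) T 1 le_rfl
    (by
      intro τ hτ hτT x
      have h1 := iteratedFDeriv_scale (u τ) (hut τ) M hM0 1 x
      rw [norm_iteratedFDeriv_one] at h1
      rw [norm_iteratedFDeriv_one] at h1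
      have h2 := huL τ hτ hτT (M⁻¹ • x)
      have h3 : ‖fderiv ℝ (scU M u τ) x‖ ≤ M * (‖fderiv ℝ (u τ) (M⁻¹ • x)‖ * M⁻¹ ^ 1) := h1
      refine h3.trans ?_
      have h4 : M * (‖fderiv ℝ (u τ) (M⁻¹ • x)‖ * M⁻¹ ^ 1) = ‖fderiv ℝ (u τ) (M⁻¹ • x)‖ := by
        field_simp
      rw [h4]
      exact h2)
    (by
      intro τ hτ hτT x i hi2 hik
      have h1 := iteratedFDeriv_scale (u τ) (hut τ) M hM0 i x
      have h2 := huM τ hτ hτT (M⁻¹ • x) i hi2 hik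
      have h3 : ‖iteratedFDeriv ℝ i (scU M u τ) x‖ ≤
        M * (‖iteratedFDeriv ℝ i (u τ) (M⁻¹ • x)‖ * M⁻¹ ^ i) := h1
      refine h3.trans ?_
      have h4 : M * (‖iteratedFDeriv ℝ i (u τ) (M⁻¹ • x)‖ * M⁻¹ ^ i) ≤
          M * (M ^ (i - 1) * M⁻¹ ^ i) := by gcongr
      refine h4.trans (le_of_eq ?_)
      obtain ⟨n, rfl⟩ : ∃ n, i = n + 1 := ⟨i - 1, by omega⟩
      rw [Nat.add_sub_cancel, inv_pow, pow_succ]
      field_simp)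
    s t hs hsT ht htT hts (fun y => M • σ y) (hσ.const_smul M) c0 l (M * ρ) hl
    (by positivity)
    (by
      rw [div_one]
      rw [le_div_iff₀ hM0] at hρc
      linarith)
    (by
      intro i hi1 hik
      rw [hiter σ hσ, norm_smul, Real.norm_eq_abs, abs_of_pos hM0]
      have := hσb i hi1 hik
      calc l ^ i * (M * ‖iteratedDeriv i σ c0‖) = M * (l ^ i * ‖iteratedDeriv i σ c0‖) := by ring
        _ ≤ M * ρ := mul_le_mul_of_nonneg_left this hM0.le)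
    a ha1 hak
  have hΨ : (fun x => scF M Φ t s (M • σ x)) = fun x => M • Φ t s (σ x) := by
    funext x
    simp only [scF]
    rw [inv_smul_smul₀ hM0.ne']
  have hΦσ : ContDiff ℝ ∞ (fun x => Φ t s (σ x)) := by
    have h1 : ContDiff ℝ ∞ (fun x : ℝ => (t, s, σ x)) :=
      contDiff_const.prodMk (contDiff_const.prodMk hσ)
    exact hΦ.smooth.comp h1
  rw [hΨ, hiter _ hΦσ, norm_smul, Real.norm_eq_abs, abs_of_pos hM0] at hb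
  have h5 : M * (l ^ a * ‖iteratedDeriv a (fun x => Φ t s (σ x)) c0‖) ≤
      M * (2 * Real.exp (L * m) * ρ) := by
    linarith
  exact le_of_mul_le_mul_left h5 hM0

end Pool.Agent.ES38
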