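import Pool.Agent.ES38.Defs

/-!
# Exponential stretching: inverse parametrisation (T4)
-/

open Set Real
open scoped ContDiff Nat

namespace Pool.Agent.ES38

/-- Recursive bound for the derivatives of an inverse function. -/
private noncomputable def ipD (K : ℝ) : ℕ → ℝ
  | 0 => 1
  | (j + 1) => (2 ^ j * (j.factorial : ℝ) * K) * ipD K j

private theorem ip_factor (K : ℝ) (hK : 1 ≤ K) (j : ℕ) : 1 ≤ 2 ^ j * (j.factorial : ℝ) * K := by
  have h1 : (1 : ℝ) ≤ 2 ^ j := one_le_pow₀ (by norm_num)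
  have h2 : (1 : ℝ) ≤ (j.factorial : ℝ) := by exact_mod_cast Nat.factorial_pos j
  have h3 : (1 : ℝ) ≤ 2 ^ j * (j.factorial : ℝ) := one_le_mul_of_one_le_of_one_le h1 h2
  exact one_le_mul_of_one_le_of_one_le h3 hK

private theorem ip_one_le (K : ℝ) (hK : 1 ≤ K) (j : ℕ) : 1 ≤ ipD K j := by
  induction j with
  | zero => simp [ipD]
  | succ j ih =>
    simp only [ipD]
    exact one_le_mul_of_one_le_of_one_le (ip_factor K hK j) ih

private theorem ip_succ (K : ℝ) (hK : 1 ≤ K) (j : ℕ) : ipD K j ≤ ipD K (j + 1) := by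
  simp only [ipD]
  exact le_mul_of_one_le_left (by linarith [ip_one_le K hK j]) (ip_factor K hK j)

/-- Pointwise bound for the derivatives of an inverse function, normalised. -/
private theorem ip_norm (K : ℝ) (hK : 1 ≤ K) (G S : ℝ → ℝ) (hG : ContDiff ℝ ∞ G)
    (hS : ContDiff ℝ ∞ S) (hGS : ∀ c, G (S c) = c) (c : ℝ) (k : ℕ)
    (h1 : 1 ≤ |deriv G (S c)|)
    (hb : ∀ j, j + 1 ≤ k → |iteratedDeriv (j + 1) G (S c)| ≤ K) :
    ∀ j, j ≤ k → ∀ i, 1 ≤ i → i ≤ j → |iteratedDeriv i S c| ≤ (ipD K j) ^ i := by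
  have hG' : ContDiff ℝ ∞ (deriv G) := (contDiff_infty_iff_deriv.mp hG).2
  have hS' : ContDiff ℝ ∞ (deriv S) := (contDiff_infty_iff_deriv.mp hS).2
  have hGd : Differentiable ℝ G := (contDiff_infty_iff_deriv.mp hG).1
  have hSd : Differentiable ℝ S := (contDiff_infty_iff_deriv.mp hS).1
  have hprod : (fun c => deriv G (S c)) * (deriv S) = fun _ => (1 : ℝ) := by
    funext u
    have ha : HasDerivAt (fun c => G (S c)) (deriv G (S u) * deriv S u) u :=
      (hGd (S u)).hasDerivAt.comp u (hSd u).hasDerivAt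
    have hb' : HasDerivAt (fun c => G (S c)) 1 u := by
      have : (fun c => G (S c)) = fun c => c := funext hGS
      rw [this]
      exact hasDerivAt_id' u
    exact ha.unique hb'
  intro j
  induction j with
  | zero => intro _ i h1 h2; omega
  | succ j ih =>
    intro hj i hi1 hi2
    have hDj := ip_one_le K hK j
    have hmono := ip_succ K hK j
    rcases Nat.lt_or_ge i (j + 1) with hlt | hge
    · exact (ih (by omega) i hi1 (by omega)).trans
        (pow_le_pow_left₀ (by linarith) hmono i)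
    · have hij : i = j + 1 := by omega
      subst hij
      have hcomp : ∀ m, m ≤ j →
          |iteratedDeriv m (fun c => deriv G (S c)) c| ≤ (m.factorial : ℝ) * K * (ipD K j) ^ m := by
        intro m hm
        have h := norm_iteratedFDeriv_comp_le (𝕜 := ℝ) (g := deriv G) (f := S) (n := m) (N := ∞)
          hG' hS (by exact_mod_cast le_top) c (C := K) (D := ipD K j) (fun i hi => by
            rw [norm_iteratedFDeriv_eq_norm_iteratedDeriv, Real.norm_eq_abs,
              ← iteratedDeriv_succ']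
            exact hb i (by omega)) (fun i hi1 hi2 => by
            rw [norm_iteratedFDeriv_eq_norm_iteratedDeriv, Real.norm_eq_abs]
            exact ih (by omega) i hi1 (by omega))
        rw [norm_iteratedFDeriv_eq_norm_iteratedDeriv, Real.norm_eq_abs] at h
        exact h
      have hleib : iteratedDeriv j ((fun c => deriv G (S c)) * (deriv S)) c =
          ∑ i ∈ Finset.range (j + 1), (j.choose i : ℝ) *
            iteratedDeriv i (fun c => deriv G (S c)) c * iteratedDeriv (j - i) (deriv S) c :=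
        iteratedDeriv_mul ((hG'.comp hS).contDiffAt.of_le (by exact_mod_cast le_top))
          (hS'.contDiffAt.of_le (by exact_mod_cast le_top))
      rw [hprod, Finset.sum_range_succ'] at hleib
      simp only [Nat.choose_zero_right, Nat.cast_one, one_mul, iteratedDeriv_zero, Nat.sub_zero,
        ← iteratedDeriv_succ'] at hleib
      have hconst : |iteratedDeriv j (fun _ : ℝ => (1 : ℝ)) c| ≤ if j = 0 then 1 else 0 := by
        rw [iteratedDeriv_const]
        split_ifs <;> simp
      have hsum : |∑ i ∈ Finset.range j, (j.choose (i + 1) : ℝ) *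
            iteratedDeriv (i + 1) (fun c => deriv G (S c)) c *
              iteratedDeriv (j - (i + 1) + 1) S c| ≤
          (∑ i ∈ Finset.range j, (j.choose (i + 1) : ℝ)) *
            ((j.factorial : ℝ) * K * (ipD K j) ^ (j + 1)) := by
        rw [Finset.sum_mul]
        refine (Finset.abs_sum_le_sum_abs _ _).trans (Finset.sum_le_sum fun i hi => ?_)
        have hi' := Finset.mem_range.mp hi
        rw [abs_mul, abs_mul, Nat.abs_cast, mul_assoc]
        refine mul_le_mul_of_nonneg_left ?_ (Nat.cast_nonneg _)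
        have hA := hcomp (i + 1) (by omega)
        have hB := ih (by omega) (j - (i + 1) + 1) (by omega) (by omega)
        have hf : ((i + 1).factorial : ℝ) ≤ (j.factorial : ℝ) := by
          exact_mod_cast Nat.factorial_le (by omega)
        calc |iteratedDeriv (i + 1) (fun c => deriv G (S c)) c| *
              |iteratedDeriv (j - (i + 1) + 1) S c|
            ≤ (((i + 1).factorial : ℝ) * K * (ipD K j) ^ (i + 1)) *
              (ipD K j) ^ (j - (i + 1) + 1) :=
              mul_le_mul hA hB (abs_nonneg _) (by positivity)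
          _ = ((i + 1).factorial : ℝ) * (K * (ipD K j) ^ (j + 1)) := by
              rw [mul_assoc, ← pow_add, mul_assoc]
              congr 3
              omega
          _ ≤ (j.factorial : ℝ) * (K * (ipD K j) ^ (j + 1)) :=
              mul_le_mul_of_nonneg_right hf (by positivity)
          _ = _ := by ring
      have hch : (∑ i ∈ Finset.range j, (j.choose (i + 1) : ℝ)) + 1 ≤ 2 ^ j := by
        have h := Nat.sum_range_choose j
        rw [Finset.sum_range_succ'] at h
        have h' : ((∑ i ∈ Finset.range j, j.choose (i + 1) + 1 : ℕ) : ℝ) = ((2 ^ j : ℕ) : ℝ) := by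
          rw [← h]
          simp
        push_cast at h'
        exact h'.le
      have hfin : |deriv G (S c)| * |iteratedDeriv (j + 1) S c| ≤
          2 ^ j * (j.factorial : ℝ) * K * (ipD K j) ^ (j + 1) := by
        rw [← abs_mul]
        have he : deriv G (S c) * iteratedDeriv (j + 1) S c =
            iteratedDeriv j (fun _ : ℝ => (1 : ℝ)) c - ∑ i ∈ Finset.range j,
              (j.choose (i + 1) : ℝ) * iteratedDeriv (i + 1) (fun c => deriv G (S c)) c *
              iteratedDeriv (j - (i + 1) + 1) S c := by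
          linarith
        rw [he]
        have hf1 : (1 : ℝ) ≤ (j.factorial : ℝ) := by
          exact_mod_cast Nat.factorial_pos j
        have hM : (1 : ℝ) ≤ (j.factorial : ℝ) * K * (ipD K j) ^ (j + 1) :=
          one_le_mul_of_one_le_of_one_le (one_le_mul_of_one_le_of_one_le hf1 hK)
            (one_le_pow₀ hDj)
        have hc1 : |iteratedDeriv j (fun _ : ℝ => (1 : ℝ)) c| ≤ 1 := by
          refine hconst.trans ?_
          split_ifs <;> norm_num
        calc _ ≤ |iteratedDeriv j (fun _ : ℝ => (1 : ℝ)) c| + _ := abs_sub _ _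
          _ ≤ 1 * ((j.factorial : ℝ) * K * (ipD K j) ^ (j + 1)) +
              (∑ i ∈ Finset.range j, (j.choose (i + 1) : ℝ)) *
            ((j.factorial : ℝ) * K * (ipD K j) ^ (j + 1)) := by
              refine add_le_add ?_ hsum
              linarith
          _ = ((∑ i ∈ Finset.range j, (j.choose (i + 1) : ℝ)) + 1) *
            ((j.factorial : ℝ) * K * (ipD K j) ^ (j + 1)) := by ring
          _ ≤ 2 ^ j * ((j.factorial : ℝ) * K * (ipD K j) ^ (j + 1)) :=
              mul_le_mul_of_nonneg_right hch (by linarith)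
          _ = _ := by ring
      have h2 : |iteratedDeriv (j + 1) S c| ≤ |deriv G (S c)| * |iteratedDeriv (j + 1) S c| :=
        le_mul_of_one_le_left (abs_nonneg _) h1
      refine (h2.trans hfin).trans ?_
      have h3 : (ipD K (j + 1)) ^ (j + 1) =
          (2 ^ j * (j.factorial : ℝ) * K) ^ (j + 1) * (ipD K j) ^ (j + 1) := by
        simp only [ipD]
        rw [mul_pow]
      rw [h3]
      refine mul_le_mul_of_nonneg_right ?_ (by positivity)
      exact le_self_pow₀ (ip_factor K hK j) (by omega)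

private theorem ip_mono (K : ℝ) (hK : 1 ≤ K) {i j : ℕ} (h : i ≤ j) : ipD K i ≤ ipD K j :=
  monotone_nat_of_le_succ (ip_succ K hK) h

/-- Scaled version of `ip_norm`. -/
private theorem ip_scaled (K : ℝ) (hK : 1 ≤ K) (G S : ℝ → ℝ) (hG : ContDiff ℝ ∞ G)
    (hS : ContDiff ℝ ∞ S) (hGS : ∀ c, G (S c) = c) (c : ℝ) (k : ℕ) (l κ : ℝ) (hl : 0 < l)
    (hκ : 0 < κ) (h1 : κ ≤ |deriv G (S c)|)
    (hb : ∀ j, j + 1 ≤ k → l ^ j * |iteratedDeriv (j + 1) G (S c)| ≤ K * κ) :
    ∀ j, 1 ≤ j → j ≤ k → (κ * l) ^ j * |iteratedDeriv j S c| ≤ (ipD K k) ^ k * l := by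
  have hGl : ContDiff ℝ ∞ (fun v => G (l * v)) := hG.comp (contDiff_const.mul contDiff_id)
  have hSl : ContDiff ℝ ∞ (fun w => S ((κ * l) * w)) := hS.comp (contDiff_const.mul contDiff_id)
  have hG1 : ContDiff ℝ ∞ (fun v => (κ * l)⁻¹ * G (l * v)) := contDiff_const.mul hGl
  have hS1 : ContDiff ℝ ∞ (fun w => l⁻¹ * S ((κ * l) * w)) := contDiff_const.mul hSl
  have hkl : 0 < κ * l := mul_pos hκ hl
  have hiG : ∀ n v, iteratedDeriv n (fun v => (κ * l)⁻¹ * G (l * v)) v =
      (κ * l)⁻¹ * (l ^ n * iteratedDeriv n G (l * v)) := by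
    intro n v
    rw [iteratedDeriv_const_mul_field,
      iteratedDeriv_comp_const_mul (hG.of_le (by exact_mod_cast le_top)) l]
  have hiS : ∀ n v, iteratedDeriv n (fun w => l⁻¹ * S ((κ * l) * w)) v =
      l⁻¹ * ((κ * l) ^ n * iteratedDeriv n S ((κ * l) * v)) := by
    intro n v
    rw [iteratedDeriv_const_mul_field,
      iteratedDeriv_comp_const_mul (hS.of_le (by exact_mod_cast le_top)) (κ * l)]
  have hc0 : (κ * l) * ((κ * l)⁻¹ * c) = c := by field_simp
  have hll : ∀ z : ℝ, l * (l⁻¹ * z) = z := fun z => by field_simp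
  have key := ip_norm K hK (fun v => (κ * l)⁻¹ * G (l * v)) (fun w => l⁻¹ * S ((κ * l) * w))
    hG1 hS1 (fun w => by
      show (κ * l)⁻¹ * G (l * (l⁻¹ * S ((κ * l) * w))) = w
      rw [hll, hGS]
      field_simp) ((κ * l)⁻¹ * c) k (by
      have h := hiG 1 (l⁻¹ * S ((κ * l) * ((κ * l)⁻¹ * c)))
      rw [iteratedDeriv_one, iteratedDeriv_one, hll, hc0] at h
      show 1 ≤ |deriv (fun v => (κ * l)⁻¹ * G (l * v)) (l⁻¹ * S ((κ * l) * ((κ * l)⁻¹ * c)))|
      rw [hc0, h, abs_mul, abs_mul, abs_of_pos (inv_pos.mpr hkl), pow_one, abs_of_pos hl]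
      have : (κ * l)⁻¹ * (l * κ) = 1 := by field_simp
      calc (1 : ℝ) = (κ * l)⁻¹ * (l * κ) := this.symm
        _ ≤ _ := by
          refine mul_le_mul_of_nonneg_left ?_ (inv_pos.mpr hkl).le
          exact mul_le_mul_of_nonneg_left h1 hl.le) (fun j hj => by
      show |iteratedDeriv (j + 1) (fun v => (κ * l)⁻¹ * G (l * v))
        (l⁻¹ * S ((κ * l) * ((κ * l)⁻¹ * c)))| ≤ K
      rw [hiG, hll, hc0, abs_mul, abs_mul, abs_of_pos (inv_pos.mpr hkl), abs_of_pos (pow_pos hl _)]
      have h := hb j hj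
      calc (κ * l)⁻¹ * (l ^ (j + 1) * |iteratedDeriv (j + 1) G (S c)|)
          = κ⁻¹ * (l ^ j * |iteratedDeriv (j + 1) G (S c)|) := by
            field_simp
            ring
        _ ≤ κ⁻¹ * (K * κ) := mul_le_mul_of_nonneg_left h (inv_pos.mpr hκ).le
        _ = K := by field_simp)
  intro j hj1 hjk
  have h := key k le_rfl j hj1 hjk
  rw [hiS, hc0, abs_mul, abs_mul, abs_of_pos (inv_pos.mpr hl), abs_of_pos (pow_pos hkl _)] at h
  have h2 : (κ * l) ^ j * |iteratedDeriv j S c| ≤ (ipD K k) ^ j * l := by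
    have := mul_le_mul_of_nonneg_left h hl.le
    rw [← mul_assoc, mul_inv_cancel₀ hl.ne', one_mul] at this
    linarith
  refine h2.trans (mul_le_mul_of_nonneg_right ?_ hl.le)
  exact pow_le_pow_right₀ (ip_one_le K hK k) hjk

/-- Global diffeomorphism extending an increasing piece. -/
private theorem ip_ext (g : ℝ → ℝ) (hg : ContDiff ℝ ∞ g) (x y κ : ℝ) (hxy : x < y) (hκ : 0 < κ)
    (h : ∀ t ∈ Icc x y, κ ≤ deriv g t) :
    ∃ G S : ℝ → ℝ, ContDiff ℝ ∞ G ∧ ContDiff ℝ ∞ S ∧ (∀ c, G (S c) = c) ∧ (∀ t, S (G t) = t) ∧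
      StrictMono G ∧ ∃ δ > 0, ∀ t ∈ Ioo (x - δ) (y + δ), G t = g t := by
  have hg' : ContDiff ℝ ∞ (deriv g) := (contDiff_infty_iff_deriv.mp hg).2
  have hgd : Differentiable ℝ g := (contDiff_infty_iff_deriv.mp hg).1
  have hgc : Continuous (deriv g) := hg'.continuous
  -- a neighbourhood on which the derivative is still large
  have hnx : ∃ δ > 0, ∀ t, |t - x| < δ → κ / 2 < deriv g t := by
    have hx0 : κ / 2 < deriv g x := by
      have := h x ⟨le_rfl, hxy.le⟩
      linarith
    have := (hgc.continuousAt (x := x)).eventually (lt_mem_nhds hx0)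
    rw [Metric.eventually_nhds_iff] at this
    obtain ⟨δ, hδ, hh⟩ := this
    exact ⟨δ, hδ, fun t ht => hh (by rwa [Real.dist_eq])⟩
  have hny : ∃ δ > 0, ∀ t, |t - y| < δ → κ / 2 < deriv g t := by
    have hy0 : κ / 2 < deriv g y := by
      have := h y ⟨hxy.le, le_rfl⟩
      linarith
    have := (hgc.continuousAt (x := y)).eventually (lt_mem_nhds hy0)
    rw [Metric.eventually_nhds_iff] at this
    obtain ⟨δ, hδ, hh⟩ := this
    exact ⟨δ, hδ, fun t ht => hh (by rwa [Real.dist_eq])⟩
  obtain ⟨δ₁, hδ₁, hx⟩ := hnx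
  obtain ⟨δ₂, hδ₂, hy⟩ := hny
  obtain ⟨δ, hδ, hd1, hd2⟩ : ∃ δ > 0, 2 * δ < δ₁ ∧ 2 * δ < δ₂ := by
    refine ⟨min δ₁ δ₂ / 3, by positivity, ?_, ?_⟩
    · have := min_le_left δ₁ δ₂
      linarith
    · have := min_le_right δ₁ δ₂
      linarith
  have hbig : ∀ t, x - 2 * δ ≤ t → t ≤ y + 2 * δ → κ / 2 ≤ deriv g t := by
    intro t ht1 ht2
    rcases lt_or_ge t x with hlt | hge
    · exact (hx t (by rw [abs_lt]; constructor <;> linarith)).le
    · rcases lt_or_ge y t with hlt' | hge'
      · exact (hy t (by rw [abs_lt]; constructor <;> linarith)).le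
      · have := h t ⟨hge, hge'⟩
        linarith
  -- cut-off
  let χ : ℝ → ℝ := fun t => Real.smoothTransition ((t - (x - 2 * δ)) / δ) *
    Real.smoothTransition (((y + 2 * δ) - t) / δ)
  have hχs : ContDiff ℝ ∞ χ := by
    refine ContDiff.mul ?_ ?_
    · exact Real.smoothTransition.contDiff.comp ((contDiff_id.sub contDiff_const).div_const δ)
    · exact Real.smoothTransition.contDiff.comp ((contDiff_const.sub contDiff_id).div_const δ)
  have hχ0 : ∀ t, 0 ≤ χ t := fun t =>
    mul_nonneg (Real.smoothTransition.nonneg _) (Real.smoothTransition.nonneg _)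
  have hχ1 : ∀ t, χ t ≤ 1 := fun t =>
    mul_le_one₀ (Real.smoothTransition.le_one _) (Real.smoothTransition.nonneg _)
      (Real.smoothTransition.le_one _)
  have hχone : ∀ t, x - δ ≤ t → t ≤ y + δ → χ t = 1 := by
    intro t ht1 ht2
    show Real.smoothTransition ((t - (x - 2 * δ)) / δ) *
      Real.smoothTransition (((y + 2 * δ) - t) / δ) = 1
    rw [Real.smoothTransition.one_of_one_le, Real.smoothTransition.one_of_one_le, mul_one]
    · rw [le_div_iff₀ hδ]
      linarith
    · rw [le_div_iff₀ hδ]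
      linarith
  have hχout : ∀ t, (t < x - 2 * δ ∨ y + 2 * δ < t) → χ t = 0 := by
    intro t ht
    show Real.smoothTransition ((t - (x - 2 * δ)) / δ) *
      Real.smoothTransition (((y + 2 * δ) - t) / δ) = 0
    rcases ht with ht | ht
    · rw [Real.smoothTransition.zero_of_nonpos, zero_mul]
      exact div_nonpos_of_nonpos_of_nonneg (by linarith) hδ.le
    · rw [Real.smoothTransition.zero_of_nonpos (x := ((y + 2 * δ) - t) / δ), mul_zero]
      exact div_nonpos_of_nonpos_of_nonneg (by linarith) hδ.le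
  let p : ℝ → ℝ := fun t => χ t * deriv g t + (1 - χ t) * κ
  have hps : ContDiff ℝ ∞ p := (hχs.mul hg').add ((contDiff_const.sub hχs).mul contDiff_const)
  have hpc : Continuous p := hps.continuous
  have hplow : ∀ t, κ / 2 ≤ p t := by
    intro t
    show κ / 2 ≤ χ t * deriv g t + (1 - χ t) * κ
    by_cases hin : x - 2 * δ ≤ t ∧ t ≤ y + 2 * δ
    · have h1 := hbig t hin.1 hin.2
      have h2 := mul_le_mul_of_nonneg_left h1 (hχ0 t)
      have h3 := mul_le_mul_of_nonneg_left (show κ / 2 ≤ κ by linarith)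
        (show (0 : ℝ) ≤ 1 - χ t by linarith [hχ1 t])
      nlinarith
    · have : χ t = 0 := by
        apply hχout
        by_contra hcon
        push Not at hcon
        exact hin hcon
      rw [this]
      linarith
  let G : ℝ → ℝ := fun t => g x + ∫ u in x..t, p u
  have hGd : ∀ t, HasDerivAt G (p t) t := by
    intro t
    have h1 : HasDerivAt (fun t => ∫ u in x..t, p u) (p t) t :=
      (hpc.integral_hasStrictDerivAt x t).hasDerivAt
    exact h1.const_add (g x)
  have hderiv : deriv G = p := funext fun t => (hGd t).deriv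
  have hGdiff : Differentiable ℝ G := fun t => (hGd t).differentiableAt
  have hGs : ContDiff ℝ ∞ G := contDiff_infty_iff_deriv.mpr ⟨hGdiff, by rw [hderiv]; exact hps⟩
  have hgrow : ∀ ⦃s t : ℝ⦄, s ≤ t → κ / 2 * (t - s) ≤ G t - G s :=
    mul_sub_le_image_sub_of_le_deriv hGdiff (fun t => by rw [hderiv]; exact hplow t)
  have hmono : StrictMono G := by
    intro s t hst
    have := hgrow hst.le
    have h2 : 0 < κ / 2 * (t - s) := mul_pos (by linarith) (by linarith)
    linarith
  have hsurj : Function.Surjective G := by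
    refine Continuous.surjective hGdiff.continuous ?_ ?_
    · refine Filter.tendsto_atTop_mono' Filter.atTop
        (f₁ := fun t => κ / 2 * (t - 0) + G 0) ?_ ?_
      · filter_upwards [Filter.eventually_ge_atTop (0 : ℝ)] with t ht
        have := hgrow ht
        linarith
      · refine Filter.tendsto_atTop_add_const_right _ _ ?_
        simp only [sub_zero]
        exact Filter.tendsto_id.const_mul_atTop (by linarith)
    · refine Filter.tendsto_atBot_mono' Filter.atBot
        (f₁ := fun t => κ / 2 * (t - 0) + G 0) ?_ ?_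
      · filter_upwards [Filter.eventually_le_atBot (0 : ℝ)] with t ht
        have := hgrow ht
        linarith
      · refine Filter.tendsto_atBot_add_const_right _ _ ?_
        simp only [sub_zero]
        exact Filter.tendsto_id.const_mul_atBot (by linarith)
  let e : ℝ ≃ₜ ℝ := (StrictMono.orderIsoOfSurjective G hmono hsurj).toHomeomorph
  have heG : ∀ t, e t = G t := fun t => rfl
  have heG' : (e : ℝ → ℝ) = G := rfl
  refine ⟨G, e.symm, hGs, ?_, ?_, ?_, hmono, δ, hδ, ?_⟩
  · exact e.contDiff_symm_deriv (f' := p) (fun t => by linarith [hplow t])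
      (fun t => by rw [heG']; exact hGd t) (by rw [heG']; exact hGs)
  · intro c
    rw [← heG]
    exact e.apply_symm_apply c
  · intro t
    rw [← heG]
    exact e.symm_apply_apply t
  · intro t ht
    show g x + ∫ u in x..t, p u = g t
    have h1 : ∫ u in x..t, p u = ∫ u in x..t, deriv g u := by
      refine intervalIntegral.integral_congr fun u hu => ?_
      have hu1 : x - δ ≤ u ∧ u ≤ y + δ := by
        rw [uIcc_eq_union] at hu
        rcases hu with hu | hu
        · exact ⟨by linarith [hu.1], by linarith [hu.2, ht.2]⟩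
        · exact ⟨by linarith [hu.1, ht.1], by linarith [hu.2]⟩
      show χ u * deriv g u + (1 - χ u) * κ = deriv g u
      rw [hχone u hu1.1 hu1.2]
      ring
    rw [h1, intervalIntegral.integral_deriv_eq_sub (fun u _ => hgd u)
      (hgc.intervalIntegrable _ _)]
    ring

/-- Increasing case of the inverse parametrisation. -/
private theorem ip_incr (k K : ℕ) (g : ℝ → ℝ) (hg : ContDiff ℝ ∞ g)
    (x y κ : ℝ) (hxy : x < y) (hκ : 0 < κ)
    (h : ∀ t ∈ Icc x y, κ ≤ deriv g t ∧ deriv g t ≤ 3 * κ)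
    (hb : ∀ t ∈ Icc x y, ∀ j, j ≤ k - 1 → (y - x) ^ j * |iteratedDeriv (j + 1) g t| ≤ K * κ) :
    ∃ (s : ℝ → ℝ) (a b : ℝ), ContDiff ℝ ∞ s ∧ κ * (y - x) ≤ b - a ∧ b - a ≤ 3 * κ * (y - x) ∧
      g '' Icc x y = Icc a b ∧ (∀ c ∈ Icc a b, s c ∈ Icc x y ∧ g (s c) = c) ∧
      (∀ t ∈ Icc x y, s (g t) = t) ∧
      ∀ j, 1 ≤ j → j ≤ k → ∀ c ∈ Icc a b, (b - a) ^ j * |iteratedDeriv j s c| ≤
        3 ^ k * (ipD (K + 1) k) ^ k * (y - x) := by
  obtain ⟨G, S, hG, hS, hGS, hSG, hmono, δ, hδ, hGg⟩ := ip_ext g hg x y κ hxy hκ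
    (fun t ht => (h t ht).1)
  have hgd : Differentiable ℝ g := (contDiff_infty_iff_deriv.mp hg).1
  have hmem : ∀ t ∈ Icc x y, t ∈ Ioo (x - δ) (y + δ) := fun t ht =>
    ⟨by linarith [ht.1], by linarith [ht.2]⟩
  have hEq : ∀ t ∈ Icc x y, G t = g t := fun t ht => hGg t (hmem t ht)
  have hloc : ∀ t ∈ Icc x y, G =ᶠ[nhds t] g := fun t ht =>
    Filter.eventually_of_mem (isOpen_Ioo.mem_nhds (hmem t ht)) hGg
  have hder : ∀ t ∈ Icc x y, deriv G t = deriv g t := fun t ht => (hloc t ht).deriv_eq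
  have hider : ∀ n, ∀ t ∈ Icc x y, iteratedDeriv n G t = iteratedDeriv n g t := fun n t ht =>
    (hloc t ht).iteratedDeriv_eq n
  have hSmono : ∀ c d, c ≤ d → S c ≤ S d := by
    intro c d hcd
    by_contra hcon
    push Not at hcon
    have := hmono hcon
    rw [hGS, hGS] at this
    linarith
  have hxI : x ∈ Icc x y := ⟨le_rfl, hxy.le⟩
  have hyI : y ∈ Icc x y := ⟨hxy.le, le_rfl⟩
  have hSmem : ∀ c ∈ Icc (g x) (g y), S c ∈ Icc x y := by
    intro c hc
    constructor
    · have := hSmono _ _ hc.1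
      rwa [← hEq x hxI, hSG] at this
    · have := hSmono _ _ hc.2
      rwa [← hEq y hyI, hSG] at this
  have hlow : κ * (y - x) ≤ g y - g x :=
    (convex_Icc x y).mul_sub_le_image_sub_of_le_deriv hgd.continuous.continuousOn
      hgd.differentiableOn (fun t ht => (h t (interior_subset ht)).1) x hxI y hyI hxy.le
  have hupp : g y - g x ≤ 3 * κ * (y - x) :=
    (convex_Icc x y).image_sub_le_mul_sub_of_deriv_le hgd.continuous.continuousOn
      hgd.differentiableOn (fun t ht => (h t (interior_subset ht)).2) x hxI y hyI hxy.le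
  refine ⟨S, g x, g y, hS, hlow, hupp, ?_, ?_, ?_, ?_⟩
  · ext c
    constructor
    · rintro ⟨t, ht, rfl⟩
      constructor
      · rw [← hEq x hxI, ← hEq t ht]
        exact hmono.monotone ht.1
      · rw [← hEq y hyI, ← hEq t ht]
        exact hmono.monotone ht.2
    · intro hc
      exact ⟨S c, hSmem c hc, by rw [← hEq _ (hSmem c hc), hGS]⟩
  · intro c hc
    exact ⟨hSmem c hc, by rw [← hEq _ (hSmem c hc), hGS]⟩
  · intro t ht
    rw [← hEq t ht, hSG]
  · intro j hj1 hjk c hc
    have hSc := hSmem c hc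
    have hl : 0 < y - x := by linarith
    have hK : (1 : ℝ) ≤ (K : ℝ) + 1 := by
      have : (0 : ℝ) ≤ (K : ℝ) := Nat.cast_nonneg K
      linarith
    have key := ip_scaled ((K : ℝ) + 1) hK G S hG hS hGS c k (y - x) κ hl hκ
      (by rw [hder _ hSc]; exact (h _ hSc).1.trans (le_abs_self _))
      (fun j hj => by
        rw [hider _ _ hSc]
        refine (hb _ hSc j (by omega)).trans ?_
        nlinarith) j hj1 hjk
    have hkl : 0 < κ * (y - x) := mul_pos hκ hl
    have h0 : 0 ≤ g y - g x := by linarith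
    calc (g y - g x) ^ j * |iteratedDeriv j S c|
        ≤ (3 * κ * (y - x)) ^ j * |iteratedDeriv j S c| :=
          mul_le_mul_of_nonneg_right (pow_le_pow_left₀ h0 hupp j) (abs_nonneg _)
      _ = 3 ^ j * ((κ * (y - x)) ^ j * |iteratedDeriv j S c|) := by
          rw [mul_assoc (3 : ℝ) κ (y - x), mul_pow, mul_assoc]
      _ ≤ 3 ^ j * ((ipD (K + 1) k) ^ k * (y - x)) :=
          mul_le_mul_of_nonneg_left key (by positivity)
      _ ≤ 3 ^ k * ((ipD (K + 1) k) ^ k * (y - x)) := by
          refine mul_le_mul_of_nonneg_right (pow_le_pow_right₀ (by norm_num) hjk) ?_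
          have := ip_one_le ((K : ℝ) + 1) hK k
          have h2 : 0 ≤ (ipD ((K : ℝ) + 1) k) ^ k := pow_nonneg (by linarith) _
          exact mul_nonneg h2 hl.le
      _ = _ := by ring

/-- T4. Inverse parametrisation. -/
theorem inverse_param (k K : ℕ) (hk : 1 ≤ k) : ∃ C : ℕ, 1 ≤ C ∧ ∀ g : ℝ → ℝ, ContDiff ℝ ∞ g →
    ∀ x y κ : ℝ, x < y → 0 < κ →
    (∀ t ∈ Icc x y, κ ≤ |deriv g t| ∧ |deriv g t| ≤ 3 * κ) →
    (∀ t ∈ Icc x y, ∀ j, j ≤ k - 1 → (y - x) ^ j * |iteratedDeriv (j + 1) g t| ≤ K * κ) →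
    ∃ (s : ℝ → ℝ) (a b : ℝ), ContDiff ℝ ∞ s ∧ κ * (y - x) ≤ b - a ∧ b - a ≤ 3 * κ * (y - x) ∧
      g '' Icc x y = Icc a b ∧ (∀ c ∈ Icc a b, s c ∈ Icc x y ∧ g (s c) = c) ∧
      (∀ t ∈ Icc x y, s (g t) = t) ∧
      ∀ j, 1 ≤ j → j ≤ k → ∀ c ∈ Icc a b, (b - a) ^ j * |iteratedDeriv j s c| ≤ C * (y - x) := by
  obtain ⟨C, hC⟩ := exists_nat_ge (3 ^ k * (ipD (K + 1) k) ^ k)
  refine ⟨C + 1, by omega, ?_⟩
  intro g hg x y κ hxy hκ h hb
  have hl : 0 < y - x := by linarith
  have hCC : 3 ^ k * (ipD (K + 1) k) ^ k * (y - x) ≤ ((C + 1 : ℕ) : ℝ) * (y - x) := by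
    refine mul_le_mul_of_nonneg_right ?_ hl.le
    push_cast
    linarith
  have hgc : Continuous (deriv g) := (contDiff_infty_iff_deriv.mp hg).2.continuous
  have hsign : (∀ t ∈ Icc x y, κ ≤ deriv g t) ∨ (∀ t ∈ Icc x y, deriv g t ≤ -κ) := by
    by_contra hcon
    push Not at hcon
    obtain ⟨⟨t1, ht1, h1⟩, ⟨t2, ht2, h2⟩⟩ := hcon
    have h1' : deriv g t1 ≤ -κ := by
      rcases le_or_gt 0 (deriv g t1) with h0 | h0
      · have := (h t1 ht1).1
        rw [abs_of_nonneg h0] at this
        linarith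
      · have := (h t1 ht1).1
        rw [abs_of_neg h0] at this
        linarith
    have h2' : κ ≤ deriv g t2 := by
      rcases le_or_gt 0 (deriv g t2) with h0 | h0
      · have := (h t2 ht2).1
        rwa [abs_of_nonneg h0] at this
      · have := (h t2 ht2).1
        rw [abs_of_neg h0] at this
        linarith
    have h3 : (0 : ℝ) ∈ uIcc (deriv g t1) (deriv g t2) := by
      rw [uIcc_of_le (by linarith)]
      exact ⟨by linarith, by linarith⟩
    obtain ⟨t, ht, ht0⟩ := intermediate_value_uIcc hgc.continuousOn h3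
    have htI : t ∈ Icc x y := by
      have : uIcc t1 t2 ⊆ Icc x y := uIcc_subset_Icc ht1 ht2
      exact this ht
    have := (h t htI).1
    rw [ht0, abs_zero] at this
    linarith
  rcases hsign with hpos | hneg
  · obtain ⟨s, a, b, hs, h1, h2, h3, h4, h5, h6⟩ := ip_incr k K g hg x y κ hxy hκ
      (fun t ht => ⟨hpos t ht, (le_abs_self _).trans (h t ht).2⟩) hb
    exact ⟨s, a, b, hs, h1, h2, h3, h4, h5, fun j hj1 hj2 c hc =>
      (h6 j hj1 hj2 c hc).trans hCC⟩
  · have hder : ∀ t, deriv (fun t => -g t) t = -deriv g t := fun t => deriv.fun_neg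
    have hider : ∀ n t, |iteratedDeriv n (fun t => -g t) t| = |iteratedDeriv n g t| := by
      intro n t
      have : iteratedDeriv n (fun t => -g t) t = -iteratedDeriv n g t := iteratedDeriv_fun_neg n g t
      rw [this, abs_neg]
    obtain ⟨s, a, b, hs, h1, h2, h3, h4, h5, h6⟩ := ip_incr k K (fun t => -g t) hg.neg x y κ hxy hκ
      (fun t ht => by
        rw [hder]
        refine ⟨by linarith [hneg t ht], ?_⟩
        have := (h t ht).2
        exact (neg_le_abs _).trans this)
      (fun t ht j hj => by rw [hider]; exact hb t ht j hj)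
    refine ⟨fun c => s (-c), -b, -a, hs.comp contDiff_neg, by linarith, by linarith, ?_, ?_, ?_, ?_⟩
    · ext c
      constructor
      · rintro ⟨t, ht, rfl⟩
        have : -g t ∈ Icc a b := by
          rw [← h3]
          exact ⟨t, ht, rfl⟩
        exact ⟨by linarith [this.2], by linarith [this.1]⟩
      · intro hc
        have hc' : -c ∈ Icc a b := ⟨by linarith [hc.2], by linarith [hc.1]⟩
        rw [← h3] at hc'
        obtain ⟨t, ht, htc⟩ := hc'
        exact ⟨t, ht, by simpa using htc⟩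
    · intro c hc
      have hc' : -c ∈ Icc a b := ⟨by linarith [hc.2], by linarith [hc.1]⟩
      obtain ⟨h7, h8⟩ := h4 _ hc'
      exact ⟨h7, by simpa using h8⟩
    · intro t ht
      exact h5 t ht
    · intro j hj1 hj2 c hc
      have hc' : -c ∈ Icc a b := ⟨by linarith [hc.2], by linarith [hc.1]⟩
      rw [iteratedDeriv_comp_neg, smul_eq_mul, abs_mul, abs_pow, abs_neg, abs_one, one_pow, one_mul]
      have h7 := h6 j hj1 hj2 _ hc'
      have h8 : -a - -b = b - a := by ring
      rw [h8]
      exact h7.trans hCC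

end Pool.Agent.ES38
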