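import Pool.Agent.ES38.Landau
import Pool.Agent.ES38.InvParam
open Set Real
open scoped ContDiff
namespace Pool.Agent.ES38

private theorem gf_sign (P : Polynomial ℝ) (c x y : ℝ)
    (h0 : ∀ t, x < t → t < y → P - Polynomial.C c ≠ 0 → P.eval t ≠ c) :
    (∀ t ∈ Icc x y, P.eval t ≤ c) ∨ (∀ t ∈ Icc x y, c ≤ P.eval t) := by
  by_cases hP : P - Polynomial.C c = 0
  · left
    intro t _
    have h1 : P = Polynomial.C c := sub_eq_zero.1 hP
    rw [h1, Polynomial.eval_C]
  by_contra hcon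
  push Not at hcon
  obtain ⟨⟨t1, ht1, h1⟩, t2, ht2, h2⟩ := hcon
  have hne : t1 ≠ t2 := by
    rintro rfl
    linarith
  have hcont : Continuous (fun t => P.eval t) := P.continuous
  rcases lt_or_gt_of_ne hne with h | h
  · obtain ⟨t, ht, hc⟩ := intermediate_value_Ioo' h.le hcont.continuousOn (a := t1) (b := t2)
      (show c ∈ Ioo (P.eval t2) (P.eval t1) from ⟨h2, h1⟩)
    exact h0 t (lt_of_le_of_lt ht1.1 ht.1) (lt_of_lt_of_le ht.2 ht2.2) hP hc
  · obtain ⟨t, ht, hc⟩ := intermediate_value_Ioo h.le hcont.continuousOn (a := t2) (b := t1)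
      (show c ∈ Ioo (P.eval t2) (P.eval t1) from ⟨h2, h1⟩)
    exact h0 t (lt_of_le_of_lt ht2.1 ht.1) (lt_of_lt_of_le ht.2 ht1.2) hP hc

private theorem gf_taylor (n : ℕ) (f : ℝ → ℝ) (hf : ContDiff ℝ ∞ f) (a b B : ℝ) (hab : a < b)
    (hB : ∀ y ∈ Icc a b, |iteratedDeriv (n + 1) f y| ≤ B) :
    ∃ P : Polynomial ℝ, P.natDegree ≤ n ∧ ∀ x ∈ Icc a b, |f x - P.eval x| ≤ B * (b - a) ^ (n + 1) := by
  have hB0 : 0 ≤ B := (abs_nonneg _).trans (hB a ⟨le_refl _, hab.le⟩)
  refine ⟨∑ i ∈ Finset.range (n + 1), Polynomial.C ((i.factorial : ℝ)⁻¹ *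
    iteratedDerivWithin i f (Icc a b) a) * (Polynomial.X - Polynomial.C a) ^ i, ?_, ?_⟩
  · refine Polynomial.natDegree_sum_le_of_forall_le _ _ ?_
    intro i hi
    rw [Finset.mem_range] at hi
    refine (Polynomial.natDegree_C_mul_le _ _).trans ?_
    refine Polynomial.natDegree_pow_le.trans ?_
    rw [Polynomial.natDegree_X_sub_C, mul_one]
    omega
  · intro x hx
    have h1 := taylor_mean_remainder_bound (n := n) (C := B) hab.le
      (hf.contDiffOn.of_le (by exact_mod_cast le_top)) hx (by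
        intro y hy
        rw [iteratedDerivWithin_eq_iteratedDeriv (uniqueDiffOn_Icc hab)
          (hf.contDiffAt.of_le (by exact_mod_cast le_top)) hy]
        exact hB y hy)
    rw [Real.norm_eq_abs] at h1
    have h2 : taylorWithinEval f n (Icc a b) a x = (∑ i ∈ Finset.range (n + 1),
        Polynomial.C ((i.factorial : ℝ)⁻¹ * iteratedDerivWithin i f (Icc a b) a) *
          (Polynomial.X - Polynomial.C a) ^ i).eval x := by
      rw [taylor_within_apply, Polynomial.eval_finsetSum]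
      refine Finset.sum_congr rfl fun i _ => ?_
      simp only [Polynomial.eval_mul, Polynomial.eval_pow, Polynomial.eval_sub,
        Polynomial.eval_X, Polynomial.eval_C, smul_eq_mul]
      ring
    rw [h2] at h1
    refine h1.trans ?_
    have hx0 : 0 ≤ x - a := by linarith [hx.1]
    have h3 : (x - a) ^ (n + 1) ≤ (b - a) ^ (n + 1) :=
      pow_le_pow_left₀ hx0 (by linarith [hx.2]) _
    have h4 : (1 : ℝ) ≤ (n.factorial : ℝ) := by
      exact_mod_cast Nat.one_le_iff_ne_zero.2 n.factorial_ne_zero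
    have h5 : 0 ≤ B * (b - a) ^ (n + 1) := mul_nonneg hB0 (pow_nonneg (by linarith) _)
    calc B * (x - a) ^ (n + 1) / (n.factorial : ℝ) ≤ B * (b - a) ^ (n + 1) / (n.factorial : ℝ) := by
          gcongr
      _ ≤ B * (b - a) ^ (n + 1) := div_le_self h5 h4

/-- The choice of the dyadic range. -/
private theorem gf_levels (q : ℝ) (hq : 1 ≤ q) : ∃ I : ℕ, 3 * q ≤ 2 ^ I ∧
    (I : ℝ) ≤ 5 + 2 * Real.log q := by
  have hq0 : 0 < q := by linarith
  have hl : 0 ≤ Real.log q := Real.log_nonneg hq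
  have hl3 : Real.log 3 ≤ 2 := by
    have := Real.log_le_sub_one_of_pos (show (0 : ℝ) < 3 by norm_num)
    linarith
  have hl3' : 0 ≤ Real.log 3 := Real.log_nonneg (by norm_num)
  have hlog : Real.log (3 * q) = Real.log 3 + Real.log q := Real.log_mul (by norm_num) hq0.ne'
  refine ⟨⌈2 * Real.log (3 * q)⌉₊, ?_, ?_⟩
  · have h1 : 2 * Real.log (3 * q) ≤ ⌈2 * Real.log (3 * q)⌉₊ := Nat.le_ceil _
    have h2 : (1 : ℝ) / 2 ≤ Real.log 2 := by
      have := Real.log_two_gt_d9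
      linarith
    have h3 : Real.log (3 * q) ≤ (⌈2 * Real.log (3 * q)⌉₊ : ℝ) * Real.log 2 := by
      have h4 : 0 ≤ Real.log (3 * q) := by rw [hlog]; linarith
      nlinarith
    have h5 : Real.log (3 * q) ≤ Real.log (2 ^ ⌈2 * Real.log (3 * q)⌉₊) := by
      rw [Real.log_pow]
      exact h3
    exact (Real.log_le_log_iff (by positivity) (by positivity)).1 h5
  · have h1 := Nat.ceil_lt_add_one (show 0 ≤ 2 * Real.log (3 * q) by rw [hlog]; linarith)
    rw [hlog] at h1 ⊢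
    linarith

/-- The choice of the number of windows. -/
private theorem gf_windows (k : ℕ) (hk : 2 ≤ k) (M ρ : ℝ) (hM : 1 ≤ M) (hρ : 0 < ρ) (hρ1 : ρ ≤ 1) :
    ∃ n : ℕ, 1 ≤ n ∧ (n : ℝ) ≤ 9 * (M / ρ) ^ ((1 : ℝ) / (k - 1)) ∧
      M * (1 / (n : ℝ)) ^ (k - 1) ≤ ρ / 8 := by
  have hk1 : (1 : ℝ) ≤ (k : ℝ) - 1 := by
    have : (2 : ℝ) ≤ k := by exact_mod_cast hk
    linarith
  have hq : 1 ≤ M / ρ := by
    rw [le_div_iff₀ hρ]
    linarith
  set e : ℝ := (1 : ℝ) / (k - 1) with he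
  have he0 : 0 ≤ e := by positivity
  have he1 : e ≤ 1 := by
    rw [he, div_le_one (by linarith)]
    exact hk1
  set s : ℝ := (M / ρ) ^ e with hs
  have hs1 : 1 ≤ s := Real.one_le_rpow hq he0
  have h8 : (8 : ℝ) ^ e ≤ 8 := by
    calc (8 : ℝ) ^ e ≤ (8 : ℝ) ^ (1 : ℝ) := Real.rpow_le_rpow_of_exponent_le (by norm_num) he1
      _ = 8 := Real.rpow_one _
  have hu : (8 * (M / ρ)) ^ e ≤ 8 * s := by
    rw [Real.mul_rpow (by norm_num) (by positivity)]
    exact mul_le_mul_of_nonneg_right h8 (by positivity)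
  have hu0 : 0 < (8 * (M / ρ)) ^ e := Real.rpow_pos_of_pos (by positivity) _
  refine ⟨⌈(8 * (M / ρ)) ^ e⌉₊, Nat.one_le_iff_ne_zero.2 (Nat.ceil_pos.2 hu0).ne', ?_, ?_⟩
  · have := Nat.ceil_lt_add_one hu0.le
    linarith
  · have h1 : (8 * (M / ρ)) ^ e ≤ ⌈(8 * (M / ρ)) ^ e⌉₊ := Nat.le_ceil _
    have h2 : 8 * (M / ρ) ≤ ((⌈(8 * (M / ρ)) ^ e⌉₊ : ℕ) : ℝ) ^ (k - 1) := by
      calc 8 * (M / ρ) = ((8 * (M / ρ)) ^ e) ^ (k - 1) := by
            rw [← Real.rpow_natCast, ← Real.rpow_mul (by positivity)]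
            have h3 : e * ((k - 1 : ℕ) : ℝ) = 1 := by
              rw [Nat.cast_sub (by omega), he, Nat.cast_one]
              field_simp
            rw [h3, Real.rpow_one]
        _ ≤ _ := pow_le_pow_left₀ hu0.le h1 _
    have hn0 : (0 : ℝ) < ((⌈(8 * (M / ρ)) ^ e⌉₊ : ℕ) : ℝ) ^ (k - 1) :=
      lt_of_lt_of_le (by positivity) h2
    rw [one_div, inv_pow, ← div_eq_mul_inv, div_le_iff₀ hn0]
    have h4 : M = ρ / 8 * (8 * (M / ρ)) := by
      field_simp
    calc M = ρ / 8 * (8 * (M / ρ)) := h4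
      _ ≤ _ := mul_le_mul_of_nonneg_left h2 (by positivity)

/-- The choice of the level. -/
private theorem gf_choose (I : ℕ) (τ : ℕ → ℝ) (x y : ℝ) (p : ℝ → ℝ)
    (h0 : ∀ t ∈ Icc x y, τ 0 ≤ p t) (hI : ¬ ∀ t ∈ Icc x y, τ I ≤ p t)
    (hd : ∀ l, l ≤ I → (∀ t ∈ Icc x y, p t ≤ τ l) ∨ (∀ t ∈ Icc x y, τ l ≤ p t)) :
    ∃ l, l < I ∧ (∀ t ∈ Icc x y, τ l ≤ p t) ∧ ∀ t ∈ Icc x y, p t ≤ τ (l + 1) := by
  by_contra hcon
  push Not at hcon
  have h1 : ∀ l, l ≤ I → ∀ t ∈ Icc x y, τ l ≤ p t := by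
    intro l
    induction l with
    | zero => exact fun _ => h0
    | succ l ih =>
      intro hl
      rcases hd (l + 1) hl with h | h
      · exfalso
        obtain ⟨t, ht, ht2⟩ := hcon l (by omega) (ih (by omega))
        exact absurd (h t ht) (not_le.2 ht2)
      · exact h
  exact hI (h1 I le_rfl)

/-- T3. Decomposition of `[0,1]` into flat and good intervals for a real function. -/
theorem good_flat (k : ℕ) (hk : 2 ≤ k) : ∃ C : ℕ, 1 ≤ C ∧ ∀ g : ℝ → ℝ, ContDiff ℝ ∞ g →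
    ∀ M ρ : ℝ, 1 ≤ M → 0 < ρ → ρ ≤ 1 →
    (∀ j, 1 ≤ j → j ≤ k → ∀ x ∈ Icc (0 : ℝ) 1, |iteratedDeriv j g x| ≤ M) →
    ∃ Z : Finset ℝ, (∀ z ∈ Z, z ∈ Icc (0 : ℝ) 1) ∧ 0 ∈ Z ∧ 1 ∈ Z ∧
      (Z.card : ℝ) ≤ C * (M / ρ) ^ ((1 : ℝ) / (k - 1)) * (1 + Real.log (M / ρ)) ∧
      ∀ x y, 0 ≤ x → x < y → y ≤ 1 → Free Z x y →
        (∀ t ∈ Icc x y, |deriv g t| ≤ 2 * ρ) ∨
        ∃ κ, ρ / 2 ≤ κ ∧ ∀ t ∈ Icc x y, κ ≤ |deriv g t| ∧ |deriv g t| ≤ 3 * κ ∧
          ∀ j, j ≤ k - 1 → (y - x) ^ j * |iteratedDeriv (j + 1) g t| ≤ C * κ := by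
  classical
  obtain ⟨CL, hCL1, hCL⟩ := landau_real (k - 1)
  refine ⟨126 * k + 3 * CL, by omega, ?_⟩
  intro g hg M ρ hM hρ hρ1 hder
  have hq : 1 ≤ M / ρ := by
    rw [le_div_iff₀ hρ]
    linarith
  obtain ⟨I, hI1, hI2⟩ := gf_levels (M / ρ) hq
  obtain ⟨n, hn1, hn2, hn3⟩ := gf_windows k hk M ρ hM hρ hρ1
  have hn0 : (0 : ℝ) < n := by exact_mod_cast hn1
  have hg' : ContDiff ℝ ∞ (deriv g) := ((contDiff_infty_iff_deriv).mp hg).2
  have hwin : ∀ i : ℕ, i < n → Icc ((i : ℝ) / n) (((i : ℝ) + 1) / n) ⊆ Icc 0 1 := by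
    intro i hi t ht
    have h1 : ((i : ℝ) + 1) ≤ n := by exact_mod_cast hi
    refine ⟨le_trans (by positivity) ht.1, ht.2.trans ?_⟩
    rw [div_le_one hn0]
    exact h1
  have hpoly : ∀ i : ℕ, ∃ P : Polynomial ℝ, i < n → P.natDegree ≤ k - 2 ∧
      ∀ x ∈ Icc ((i : ℝ) / n) (((i : ℝ) + 1) / n), |deriv g x - P.eval x| ≤ ρ / 8 := by
    intro i
    by_cases hi : i < n
    · obtain ⟨P, hP1, hP2⟩ := gf_taylor (k - 2) (deriv g) hg' ((i : ℝ) / n) (((i : ℝ) + 1) / n) M
        (by gcongr; linarith) (by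
          intro y hy
          have h1 : k - 2 + 1 + 1 = k := by omega
          rw [← iteratedDeriv_succ', h1]
          exact hder k (by omega) le_rfl y (hwin i hi hy))
      refine ⟨P, fun _ => ⟨hP1, fun x hx => (hP2 x hx).trans ?_⟩⟩
      have h2 : ((i : ℝ) + 1) / n - (i : ℝ) / n = 1 / n := by ring
      have h3 : k - 2 + 1 = k - 1 := by omega
      rw [h2, h3]
      exact hn3
    · exact ⟨0, fun h => absurd h hi⟩
  choose P hP using hpoly
  set τ : ℕ → ℝ := fun l => 2 ^ l * ρ with hτ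
  have hτ0 : τ 0 = ρ := by simp [hτ]
  have hτs : ∀ l, τ (l + 1) = 2 * τ l := by
    intro l
    simp only [hτ, pow_succ]
    ring
  have hτρ : ∀ l, ρ ≤ τ l := by
    intro l
    simp only [hτ]
    have : (1 : ℝ) ≤ 2 ^ l := one_le_pow₀ (by norm_num)
    nlinarith
  have hτI : 3 * M ≤ τ I := by
    simp only [hτ]
    have h1 : 3 * M = 3 * (M / ρ) * ρ := by field_simp
    rw [h1]
    exact mul_le_mul_of_nonneg_right hI1 hρ.le
  set R : ℕ → ℕ → Finset ℝ := fun i l =>
    if i < n then (P i - Polynomial.C (τ l)).roots.toFinset ∪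
      (P i - Polynomial.C (-τ l)).roots.toFinset else ∅ with hR
  have hRcard : ∀ i l, (R i l).card ≤ 2 * (k - 2) := by
    intro i l
    simp only [hR]
    split_ifs with hi
    · have h1 : ∀ c : ℝ, (P i - Polynomial.C c).roots.toFinset.card ≤ k - 2 := by
        intro c
        refine (Multiset.toFinset_card_le _).trans ((Polynomial.card_roots' _).trans ?_)
        rw [Polynomial.natDegree_sub_C]
        exact (hP i hi).1
      have h2 := Finset.card_union_le (P i - Polynomial.C (τ l)).roots.toFinset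
        (P i - Polynomial.C (-τ l)).roots.toFinset
      have h3 := h1 (τ l)
      have h4 := h1 (-τ l)
      omega
    · simp
  set Z0 : Finset ℝ := (Finset.range (n + 1)).image (fun i : ℕ => (i : ℝ) / n) ∪
    (Finset.range n).biUnion (fun i => (Finset.range (I + 1)).biUnion (R i)) with hZ0
  have hZcard : Z0.card ≤ (n + 1) + n * ((I + 1) * (2 * (k - 2))) := by
    refine (Finset.card_union_le _ _).trans (Nat.add_le_add ?_ ?_)
    · refine Finset.card_image_le.trans ?_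
      rw [Finset.card_range]
    · refine Finset.card_biUnion_le.trans ?_
      have h1 : ∀ i ∈ Finset.range n, ((Finset.range (I + 1)).biUnion (R i)).card ≤
          (I + 1) * (2 * (k - 2)) := by
        intro i _
        refine Finset.card_biUnion_le.trans ?_
        refine (Finset.sum_le_card_nsmul _ _ _ (fun l _ => hRcard i l)).trans ?_
        rw [Finset.card_range, smul_eq_mul]
      refine (Finset.sum_le_card_nsmul _ _ _ h1).trans ?_
      rw [Finset.card_range, smul_eq_mul]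
  refine ⟨Z0.filter (fun z => z ∈ Icc (0 : ℝ) 1), fun z hz => (Finset.mem_filter.1 hz).2,
    ?_, ?_, ?_, ?_⟩
  · refine Finset.mem_filter.2 ⟨Finset.mem_union_left _ (Finset.mem_image.2 ⟨0, ?_, ?_⟩), ?_⟩
    · rw [Finset.mem_range]; omega
    · simp
    · exact ⟨le_rfl, zero_le_one⟩
  · refine Finset.mem_filter.2 ⟨Finset.mem_union_left _ (Finset.mem_image.2 ⟨n, ?_, ?_⟩), ?_⟩
    · rw [Finset.mem_range]; omega
    · exact div_self hn0.ne'
    · exact ⟨zero_le_one, le_rfl⟩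
  · -- the number of cuts
    set s : ℝ := (M / ρ) ^ ((1 : ℝ) / (k - 1)) with hs
    set L : ℝ := Real.log (M / ρ) with hL
    have hL0 : 0 ≤ L := Real.log_nonneg hq
    have hs0 : 0 ≤ s := by positivity
    have h1 : ((Z0.filter (fun z => z ∈ Icc (0 : ℝ) 1)).card : ℝ) ≤
        (n + 1) + n * ((I + 1) * (2 * k)) := by
      have h2 : (Z0.filter (fun z => z ∈ Icc (0 : ℝ) 1)).card ≤
          (n + 1) + n * ((I + 1) * (2 * k)) := by
        refine (Finset.card_filter_le _ _).trans (hZcard.trans ?_)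
        gcongr
        omega
      exact_mod_cast h2
    have hk2 : (2 : ℝ) ≤ k := by exact_mod_cast hk
    have hn1' : (1 : ℝ) ≤ n := by exact_mod_cast hn1
    have h3 : (n : ℝ) + 1 + n * ((I + 1) * (2 * k)) ≤ n * (14 * k * (1 + L)) := by
      have h4 : (I : ℝ) + 1 ≤ 6 * (1 + L) := by linarith
      have h5 : ((I : ℝ) + 1) * (2 * k) ≤ 6 * (1 + L) * (2 * k) :=
        mul_le_mul_of_nonneg_right h4 (by linarith)
      have h6 : (2 : ℝ) ≤ 2 * k * (1 + L) := by nlinarith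
      have h7 : (n : ℝ) + 1 ≤ n * (2 * k * (1 + L)) := by nlinarith
      have h8 : (n : ℝ) * ((I + 1) * (2 * k)) ≤ n * (6 * (1 + L) * (2 * k)) :=
        mul_le_mul_of_nonneg_left h5 hn0.le
      calc (n : ℝ) + 1 + n * ((I + 1) * (2 * k)) ≤
          n * (2 * k * (1 + L)) + n * (6 * (1 + L) * (2 * k)) := add_le_add h7 h8
        _ = _ := by ring
    have h9 : (n : ℝ) * (14 * k * (1 + L)) ≤ 9 * s * (14 * k * (1 + L)) :=
      mul_le_mul_of_nonneg_right hn2 (by positivity)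
    refine h1.trans (h3.trans (h9.trans ?_))
    have h10 : (126 * k : ℝ) ≤ ((126 * k + 3 * CL : ℕ) : ℝ) := by
      push_cast
      have : (0 : ℝ) ≤ CL := Nat.cast_nonneg _
      linarith
    calc 9 * s * (14 * k * (1 + L)) = (126 * k) * s * (1 + L) := by ring
      _ ≤ _ := by gcongr
  · intro x y hx hxy hy hfree
    -- the window
    have hx1 : x < 1 := lt_of_lt_of_le hxy hy
    obtain ⟨i, hi, hxi, hxi'⟩ : ∃ i : ℕ, i < n ∧ (i : ℝ) / n ≤ x ∧ x < ((i : ℝ) + 1) / n := by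
      refine ⟨⌊n * x⌋₊, ?_, ?_, ?_⟩
      · rw [Nat.floor_lt (by positivity)]
        nlinarith
      · rw [div_le_iff₀ hn0]
        have := Nat.floor_le (show 0 ≤ n * x by positivity)
        linarith
      · rw [lt_div_iff₀ hn0]
        have := Nat.lt_floor_add_one ((n : ℝ) * x)
        linarith
    have hyi : y ≤ ((i : ℝ) + 1) / n := by
      by_contra hcon
      push Not at hcon
      refine hfree (((i : ℝ) + 1) / n) (Finset.mem_filter.2 ⟨Finset.mem_union_left _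
        (Finset.mem_image.2 ⟨i + 1, ?_, ?_⟩), ?_⟩) ⟨hxi', hcon⟩
      · rw [Finset.mem_range]; omega
      · push_cast
        rfl
      · exact ⟨hx.trans hxi'.le, hcon.le.trans hy⟩
    have hsub : Icc x y ⊆ Icc ((i : ℝ) / n) (((i : ℝ) + 1) / n) := Icc_subset_Icc hxi hyi
    have hsub1 : Icc x y ⊆ Icc (0 : ℝ) 1 := Icc_subset_Icc hx hy
    have herr : ∀ t ∈ Icc x y, |deriv g t - (P i).eval t| ≤ ρ / 8 :=
      fun t ht => (hP i hi).2 t (hsub ht)
    -- the signs
    have hroot : ∀ c : ℝ, (∀ t, t ∈ (P i - Polynomial.C c).roots.toFinset → t ∈ Icc (0 : ℝ) 1 →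
        t ∈ Z0.filter (fun z => z ∈ Icc (0 : ℝ) 1)) →
        (∀ t ∈ Icc x y, (P i).eval t ≤ c) ∨ (∀ t ∈ Icc x y, c ≤ (P i).eval t) := by
      intro c hc
      refine gf_sign (P i) c x y (fun t h1 h2 hne heq => ?_)
      refine hfree t (hc t ?_ ⟨hx.trans h1.le, h2.le.trans hy⟩) ⟨h1, h2⟩
      rw [Multiset.mem_toFinset, Polynomial.mem_roots hne, Polynomial.IsRoot.def]
      simp [heq]
    have hmem : ∀ l, l ≤ I → ∀ t, t ∈ R i l → t ∈ Icc (0 : ℝ) 1 →
        t ∈ Z0.filter (fun z => z ∈ Icc (0 : ℝ) 1) := by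
      intro l hl t ht ht1
      refine Finset.mem_filter.2 ⟨Finset.mem_union_right _ (Finset.mem_biUnion.2
        ⟨i, Finset.mem_range.2 hi, Finset.mem_biUnion.2 ⟨l, Finset.mem_range.2 (by omega), ht⟩⟩),
        ht1⟩
    have hpos : ∀ l, l ≤ I → (∀ t ∈ Icc x y, (P i).eval t ≤ τ l) ∨
        (∀ t ∈ Icc x y, τ l ≤ (P i).eval t) := by
      intro l hl
      refine hroot (τ l) (fun t ht ht1 => hmem l hl t ?_ ht1)
      simp only [hR, if_pos hi]
      exact Finset.mem_union_left _ ht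
    have hneg : ∀ l, l ≤ I → (∀ t ∈ Icc x y, -(P i).eval t ≤ τ l) ∨
        (∀ t ∈ Icc x y, τ l ≤ -(P i).eval t) := by
      intro l hl
      rcases hroot (-τ l) (fun t ht ht1 => hmem l hl t (by
        simp only [hR, if_pos hi]
        exact Finset.mem_union_right _ ht) ht1) with h | h
      · exact Or.inr fun t ht => by linarith [h t ht]
      · exact Or.inl fun t ht => by linarith [h t ht]
    have hgM : ∀ t ∈ Icc x y, |deriv g t| ≤ M := by
      intro t ht
      have := hder 1 le_rfl (by omega) t (hsub1 ht)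
      rwa [iteratedDeriv_one] at this
    have hPM : ∀ t ∈ Icc x y, |(P i).eval t| ≤ M + ρ / 8 := by
      intro t ht
      have h1 := herr t ht
      have h2 := hgM t ht
      rw [abs_le] at h1 h2 ⊢
      constructor <;> linarith
    have hx0 : x ∈ Icc x y := ⟨le_rfl, hxy.le⟩
    -- the final step
    have hfin : ∀ l, (∀ t ∈ Icc x y, τ l ≤ |(P i).eval t| ∧ |(P i).eval t| ≤ τ (l + 1)) →
        ∃ κ, ρ / 2 ≤ κ ∧ ∀ t ∈ Icc x y, κ ≤ |deriv g t| ∧ |deriv g t| ≤ 3 * κ ∧
          ∀ j, j ≤ k - 1 → (y - x) ^ j * |iteratedDeriv (j + 1) g t| ≤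
            ((126 * k + 3 * CL : ℕ) : ℝ) * κ := by
      intro l hl
      have hτl := hτρ l
      have hb : ∀ t ∈ Icc x y, 7 / 8 * τ l ≤ |deriv g t| ∧ |deriv g t| ≤ 3 * (7 / 8 * τ l) := by
        intro t ht
        have h1 := herr t ht
        have h2 := hl t ht
        rw [hτs] at h2
        have h3 : |(P i).eval t| - |deriv g t| ≤ |deriv g t - (P i).eval t| := by
          rw [abs_sub_comm]
          exact abs_sub_abs_le_abs_sub _ _
        have h4 : |deriv g t| - |(P i).eval t| ≤ |deriv g t - (P i).eval t| :=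
          abs_sub_abs_le_abs_sub _ _
        constructor <;> linarith
      refine ⟨7 / 8 * τ l, by linarith, fun t ht => ⟨(hb t ht).1, (hb t ht).2, ?_⟩⟩
      intro j hj
      have hw : y - x ≤ 1 / n := by
        have h1 : ((i : ℝ) + 1) / n - (i : ℝ) / n = 1 / n := by ring
        linarith
      have h1 := hCL (deriv g) hg' x y (3 * (7 / 8 * τ l)) hxy (fun t ht => (hb t ht).2) (by
        intro t ht
        have h2 : k - 1 + 1 = k := by omega
        rw [← iteratedDeriv_succ', h2]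
        have h3 := hder k (by omega) le_rfl t (hsub1 ht)
        have h4 : (y - x) ^ (k - 1) ≤ (1 / (n : ℝ)) ^ (k - 1) :=
          pow_le_pow_left₀ (by linarith) hw _
        calc (y - x) ^ (k - 1) * |iteratedDeriv k g t| ≤ (1 / (n : ℝ)) ^ (k - 1) * M :=
              mul_le_mul h4 h3 (abs_nonneg _) (by positivity)
          _ = M * (1 / (n : ℝ)) ^ (k - 1) := mul_comm _ _
          _ ≤ ρ / 8 := hn3
          _ ≤ _ := by linarith) j hj t ht
      rw [← iteratedDeriv_succ'] at h1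
      refine h1.trans ?_
      have h5 : (0 : ℝ) ≤ k := Nat.cast_nonneg _
      have h6 : 0 ≤ 7 / 8 * τ l := by linarith
      push_cast
      nlinarith
    by_cases hA : ∀ t ∈ Icc x y, ρ ≤ (P i).eval t
    · right
      obtain ⟨l, _, h1, h2⟩ := gf_choose I τ x y (fun t => (P i).eval t)
        (by rw [hτ0]; exact hA) (by
          intro h
          have h1 := h x hx0
          have h2 := (abs_le.1 (hPM x hx0)).2
          linarith) hpos
      refine hfin l (fun t ht => ?_)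
      have h3 : 0 ≤ (P i).eval t := hρ.le.trans (hA t ht)
      rw [abs_of_nonneg h3]
      exact ⟨h1 t ht, h2 t ht⟩
    by_cases hB : ∀ t ∈ Icc x y, ρ ≤ -(P i).eval t
    · right
      obtain ⟨l, _, h1, h2⟩ := gf_choose I τ x y (fun t => -(P i).eval t)
        (by rw [hτ0]; exact hB) (by
          intro h
          have h1 := h x hx0
          have h2 := (abs_le.1 (hPM x hx0)).1
          linarith) hneg
      refine hfin l (fun t ht => ?_)
      have h3 : (P i).eval t ≤ 0 := by linarith [hB t ht]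
      rw [abs_of_nonpos h3]
      exact ⟨h1 t ht, h2 t ht⟩
    left
    have hA' : ∀ t ∈ Icc x y, (P i).eval t ≤ ρ := by
      rcases hpos 0 (Nat.zero_le _) with h | h
      · rwa [hτ0] at h
      · rw [hτ0] at h
        exact absurd h hA
    have hB' : ∀ t ∈ Icc x y, -(P i).eval t ≤ ρ := by
      rcases hneg 0 (Nat.zero_le _) with h | h
      · rwa [hτ0] at h
      · rw [hτ0] at h
        exact absurd h hB
    intro t ht
    have h1 := herr t ht
    have h2 := hA' t ht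
    have h3 := hB' t ht
    rw [abs_le] at h1 ⊢
    constructor <;> linarith

end Pool.Agent.ES38
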