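import Pool.Agent.ES38.Defs
open Set Real
open scoped ContDiff
namespace Pool.Agent.ES38

private theorem deriv_re35 {f : ℝ → ℂ} (hf : Differentiable ℝ f) :
    deriv (fun x => (f x).re) = fun x => (deriv f x).re := by
  funext x
  exact (Complex.reCLM.hasFDerivAt.comp_hasDerivAt x (hf x).hasDerivAt).deriv

private theorem deriv_im35 {f : ℝ → ℂ} (hf : Differentiable ℝ f) :
    deriv (fun x => (f x).im) = fun x => (deriv f x).im := by
  funext x
  exact (Complex.imCLM.hasFDerivAt.comp_hasDerivAt x (hf x).hasDerivAt).deriv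

private theorem iter_re35 (n : ℕ) : ∀ f : ℝ → ℂ, ContDiff ℝ ∞ f →
    iteratedDeriv n (fun x => (f x).re) = fun x => (iteratedDeriv n f x).re := by
  induction n with
  | zero => intro f _; simp
  | succ n ih =>
    intro f hf
    rw [iteratedDeriv_succ', iteratedDeriv_succ', deriv_re35 (hf.differentiable (by simp)),
      ih (deriv f) (contDiff_infty_iff_deriv.mp hf).2]

private theorem iter_im35 (n : ℕ) : ∀ f : ℝ → ℂ, ContDiff ℝ ∞ f →
    iteratedDeriv n (fun x => (f x).im) = fun x => (iteratedDeriv n f x).im := by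
  induction n with
  | zero => intro f _; simp
  | succ n ih =>
    intro f hf
    rw [iteratedDeriv_succ', iteratedDeriv_succ', deriv_im35 (hf.differentiable (by simp)),
      ih (deriv f) (contDiff_infty_iff_deriv.mp hf).2]

private theorem iter_sub35 {n : ℕ} (hn : 1 ≤ n) (f : ℝ → ℂ) (z : ℂ) :
    iteratedDeriv n (fun x => f x - z) = iteratedDeriv n f := by
  obtain ⟨m, rfl⟩ := Nat.exists_eq_add_of_le hn
  rw [add_comm, iteratedDeriv_succ', iteratedDeriv_succ']
  congr 1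
  funext x
  simp

/-- The complex version of the Landau-Kolmogorov type inequality from the real one. -/
theorem landau_of_real (k : ℕ) (H : ∃ C : ℕ, 1 ≤ C ∧ ∀ f : ℝ → ℝ, ContDiff ℝ ∞ f →
    ∀ (a b r : ℝ), a < b → (∀ x ∈ Icc a b, |f x| ≤ r) →
    (∀ x ∈ Icc a b, (b - a) ^ k * |iteratedDeriv k f x| ≤ r) →
    ∀ j, j ≤ k → ∀ x ∈ Icc a b, (b - a) ^ j * |iteratedDeriv j f x| ≤ C * r) :
    ∃ C : ℕ, 1 ≤ C ∧ ∀ f : ℝ → ℂ, ContDiff ℝ ∞ f →
    ∀ (a b r : ℝ) (z : ℂ), a < b → (∀ x ∈ Icc a b, ‖f x - z‖ ≤ r) →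
    (∀ x ∈ Icc a b, (b - a) ^ k * ‖iteratedDeriv k f x‖ ≤ r) →
    ∀ j, 1 ≤ j → j ≤ k → ∀ x ∈ Icc a b, (b - a) ^ j * ‖iteratedDeriv j f x‖ ≤ C * r := by
  obtain ⟨C, hC, H⟩ := H
  refine ⟨2 * C, by omega, fun f hf a b r z hab h0 hk j hj hjk x hx => ?_⟩
  have hg : ContDiff ℝ ∞ (fun x => f x - z) := hf.sub contDiff_const
  have hre : ContDiff ℝ ∞ (fun x => (f x - z).re) :=
    Complex.reCLM.contDiff.comp hg
  have him : ContDiff ℝ ∞ (fun x => (f x - z).im) :=
    Complex.imCLM.contDiff.comp hg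
  have hk1 : 1 ≤ k := hj.trans hjk
  have hpos : ∀ m : ℕ, 0 ≤ (b - a) ^ m := fun m => pow_nonneg (by linarith) m
  have e1 : ∀ m, 1 ≤ m → ∀ y, iteratedDeriv m (fun x => (f x - z).re) y
      = (iteratedDeriv m f y).re := by
    intro m hm y
    rw [iter_re35 m _ hg, iter_sub35 hm]
  have e2 : ∀ m, 1 ≤ m → ∀ y, iteratedDeriv m (fun x => (f x - z).im) y
      = (iteratedDeriv m f y).im := by
    intro m hm y
    rw [iter_im35 m _ hg, iter_sub35 hm]
  have A := H _ hre a b r hab (fun y hy => (Complex.abs_re_le_norm _).trans (h0 y hy))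
    (fun y hy => by
      rw [e1 k hk1]
      exact (mul_le_mul_of_nonneg_left (Complex.abs_re_le_norm _) (hpos k)).trans (hk y hy))
    j hjk x hx
  have B := H _ him a b r hab (fun y hy => (Complex.abs_im_le_norm _).trans (h0 y hy))
    (fun y hy => by
      rw [e2 k hk1]
      exact (mul_le_mul_of_nonneg_left (Complex.abs_im_le_norm _) (hpos k)).trans (hk y hy))
    j hjk x hx
  rw [e1 j hj] at A
  rw [e2 j hj] at B
  have N := Complex.norm_le_abs_re_add_abs_im (iteratedDeriv j f x)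
  have := mul_le_mul_of_nonneg_left N (hpos j)
  push_cast
  nlinarith

end Pool.Agent.ES38
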