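import Pool.Agent.ES38.LineDecF
open Set Real
open scoped ContDiff NNReal
namespace Pool.Agent.ES38

/-- Iterating the step inequality. -/
private theorem fl_iter (S : DSys) (σ : ℝ → ℂ) (hσ : ContDiff ℝ ∞ σ) (c l ρ : ℝ) (hl : 0 < l)
    (hρ : 0 < ρ) (h0 : ∀ a, 1 ≤ a → a ≤ S.k → l ^ a * ‖iteratedDeriv a σ c‖ ≤ ρ)
    (hsm : (2 * S.E) ^ S.N * ρ ≤ S.r) :
    ∀ n, n ≤ S.N → ∀ a, 1 ≤ a → a ≤ S.k →
      l ^ a * ‖iteratedDeriv a (fun x => S.F 0 n (σ x)) c‖ ≤ (2 * S.E) ^ n * ρ := by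
  have h2E : 1 ≤ 2 * S.E := by linarith [S.hE]
  intro n
  induction n with
  | zero =>
    intro _ a ha hak
    have h1 : (fun x => S.F 0 0 (σ x)) = σ := by
      ext x
      exact S.F_self 0 (Nat.zero_le _) _
    rw [h1, pow_zero, one_mul]
    exact h0 a ha hak
  | succ n ih =>
    intro hn a ha hak
    have h1 : (fun x => S.F 0 (n + 1) (σ x)) = fun x => S.F n (n + 1) (S.F 0 n (σ x)) := by
      ext x
      exact (S.F_comp 0 n (n + 1) (Nat.zero_le _) (by omega) hn _).symm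
    rw [h1]
    have h2 := S.step n (n + 1) (by omega) hn (by simp [Nat.dist]) (fun x => S.F 0 n (σ x))
      ((S.smoothF 0 n (Nat.zero_le _) (by omega)).comp hσ) c l ((2 * S.E) ^ n * ρ) hl
      (by positivity) (le_trans (mul_le_mul_of_nonneg_right
        (pow_le_pow_right₀ h2E (by omega)) hρ.le) hsm) (ih (by omega)) a ha hak
    refine h2.trans (le_of_eq ?_)
    rw [pow_succ]
    ring

private theorem fl_line (f : ℂ → ℂ) (hf : ContDiff ℝ ∞ f) (z w : ℂ) (v : ℝ) :
    deriv (fun x : ℝ => f (z + x * w)) v = fderiv ℝ f (z + v * w) w := by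
  have h1 : HasDerivAt (fun x : ℝ => z + (x : ℂ) * w) w v := by
    have h2 : HasDerivAt (fun x : ℝ => (x : ℂ)) 1 v := Complex.ofRealCLM.hasDerivAt
    have h3 := (h2.mul_const w).const_add z
    rwa [one_mul] at h3
  have h4 := (hf.differentiable (by simp)).differentiableAt (x := z + v * w)
  exact (h4.hasFDerivAt.comp_hasDerivAt v h1).deriv

private theorem fl_second (f : ℂ → ℂ) (hf : ContDiff ℝ ∞ f) (z w : ℂ) :
    iteratedDeriv 2 (fun x : ℝ => f (z + x * w)) 0 = fderiv ℝ (fderiv ℝ f) z w w := by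
  rw [iteratedDeriv_succ, iteratedDeriv_one]
  have h1 : deriv (fun x : ℝ => f (z + x * w)) = fun v : ℝ => fderiv ℝ f (z + v * w) w := by
    ext v
    exact fl_line f hf z w v
  rw [h1]
  have h2 : HasDerivAt (fun x : ℝ => z + (x : ℂ) * w) w (0 : ℝ) := by
    have h2 : HasDerivAt (fun x : ℝ => (x : ℂ)) 1 (0 : ℝ) := Complex.ofRealCLM.hasDerivAt
    have h3 := (h2.mul_const w).const_add z
    rwa [one_mul] at h3
  have h3 : Differentiable ℝ (fderiv ℝ f) :=
    (hf.fderiv_right (m := ∞) (by simp)).differentiable (by simp)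
  have h4 : HasFDerivAt (fderiv ℝ f) (fderiv ℝ (fderiv ℝ f) z) (z + ((0 : ℝ) : ℂ) * w) := by
    have h5 : z + ((0 : ℝ) : ℂ) * w = z := by simp
    rw [h5]
    exact h3.differentiableAt.hasFDerivAt
  have h6 := h4.comp_hasDerivAt (0 : ℝ) h2
  have h7 : HasDerivAt (fun v : ℝ => fderiv ℝ f (z + v * w) w)
      ((fderiv ℝ (fderiv ℝ f) z w) w) 0 := by
    exact (h6.clm_apply (hasDerivAt_const (0 : ℝ) w)).congr_deriv (by simp)
  exact h7.deriv

private theorem fl_diag (S : DSys) (z w : ℂ) (hw : ‖w‖ = 1) :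
    ‖fderiv ℝ (fderiv ℝ (S.F 0 S.N)) z w w‖ ≤ (2 * S.E) ^ (2 * S.N) / S.r := by
  have hE : 0 < 2 * S.E := by linarith [S.hE]
  have hr := S.hr
  set Q : ℝ := (2 * S.E) ^ S.N with hQ
  have hQ0 : 0 < Q := by positivity
  set l : ℝ := S.r / Q with hl
  have hl0 : 0 < l := by positivity
  have h1 := fl_iter S (fun x : ℝ => z + x * w)
    (contDiff_const.add (Complex.ofRealCLM.contDiff.mul contDiff_const)) 0 l l hl0 hl0 (by
      intro a ha hak
      rcases Nat.lt_or_ge a 2 with h | h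
      · have h2 : a = 1 := by omega
        subst h2
        rw [iteratedDeriv_one, pow_one]
        have h3 : deriv (fun x : ℝ => z + (x : ℂ) * w) 0 = w := by
          have h4 : HasDerivAt (fun x : ℝ => (x : ℂ)) 1 (0 : ℝ) := Complex.ofRealCLM.hasDerivAt
          have h5 := (h4.mul_const w).const_add z
          rw [one_mul] at h5
          exact h5.deriv
        rw [h3, hw, mul_one]
      · obtain ⟨b, rfl⟩ := Nat.exists_eq_add_of_le h
        have h3 : iteratedDeriv (2 + b) (fun x : ℝ => z + (x : ℂ) * w) = fun _ => 0 := by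
          rw [show 2 + b = b + 1 + 1 by ring, iteratedDeriv_succ']
          have h4 : deriv (fun x : ℝ => z + (x : ℂ) * w) = fun _ => w := by
            ext v
            have h4 : HasDerivAt (fun x : ℝ => (x : ℂ)) 1 v := Complex.ofRealCLM.hasDerivAt
            have h5 := (h4.mul_const w).const_add z
            rw [one_mul] at h5
            exact h5.deriv
          rw [h4]
          ext v
          rw [iteratedDeriv_const]
          simp
        rw [h3]
        simp only [norm_zero, mul_zero]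
        exact hl0.le) (by
      rw [hl]
      exact le_of_eq (mul_div_cancel₀ _ hQ0.ne')) S.N le_rfl 2 (by norm_num) S.hk
  rw [fl_second _ (S.smoothF 0 S.N (Nat.zero_le _) le_rfl)] at h1
  have h2 : Q * l = S.r := by
    rw [hl]
    exact mul_div_cancel₀ _ hQ0.ne'
  rw [h2] at h1
  have h3 : l ^ 2 * ((2 * S.E) ^ (2 * S.N) / S.r) = S.r := by
    rw [Nat.mul_comm, pow_mul, ← hQ, hl]
    field_simp
  have h4 : l ^ 2 * ‖fderiv ℝ (fderiv ℝ (S.F 0 S.N)) z w w‖ ≤
      l ^ 2 * ((2 * S.E) ^ (2 * S.N) / S.r) := by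
    rw [h3]
    exact h1
  exact le_of_mul_le_mul_left h4 (by positivity)

/-- T13. Second derivative bound of the whole map. -/
theorem fderiv_lip (S : DSys) (z z' : ℂ) :
    ‖fderiv ℝ (S.F 0 S.N) z - fderiv ℝ (S.F 0 S.N) z'‖ ≤
      4 / S.r * (2 * S.E) ^ (2 * S.N) * ‖z - z'‖ := by
  have hE : 0 < 2 * S.E := by linarith [S.hE]
  have hr := S.hr
  have hf := S.smoothF 0 S.N (Nat.zero_le _) le_rfl
  set f := S.F 0 S.N with hfdef
  set Q : ℝ := (2 * S.E) ^ (2 * S.N) / S.r with hQ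
  have hQ0 : 0 ≤ Q := by positivity
  have hdiag : ∀ x w : ℂ, ‖fderiv ℝ (fderiv ℝ f) x w w‖ ≤ Q * ‖w‖ ^ 2 := by
    intro x w
    by_cases hw : w = 0
    · rw [hw]
      simp
    have hw0 : 0 < ‖w‖ := norm_pos_iff.2 hw
    set u : ℂ := (‖w‖⁻¹ : ℝ) • w with hu
    have hu1 : ‖u‖ = 1 := by
      rw [hu, norm_smul, Real.norm_eq_abs, abs_of_pos (inv_pos.2 hw0)]
      exact inv_mul_cancel₀ hw0.ne'
    have hwu : w = ‖w‖ • u := by
      rw [hu, smul_smul, mul_inv_cancel₀ hw0.ne', one_smul]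
    have h1 := fl_diag S x u hu1
    have h2 : fderiv ℝ (fderiv ℝ f) x w w = (‖w‖ * ‖w‖) • fderiv ℝ (fderiv ℝ f) x u u := by
      conv_lhs => rw [hwu]
      simp only [map_smul, smul_apply, smul_smul]
    rw [h2, norm_smul, Real.norm_eq_abs, abs_of_nonneg (by positivity)]
    calc ‖w‖ * ‖w‖ * ‖fderiv ℝ (fderiv ℝ f) x u u‖ ≤ ‖w‖ * ‖w‖ * Q := by
          apply mul_le_mul_of_nonneg_left h1 (by positivity)
      _ = _ := by ring
  have hsym : ∀ x u w : ℂ, fderiv ℝ (fderiv ℝ f) x u w = fderiv ℝ (fderiv ℝ f) x w u := by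
    intro x u w
    exact (hf.contDiffAt (x := x)).isSymmSndFDerivAt (by
      rw [minSmoothness_of_isRCLikeNormedField]
      exact WithTop.coe_le_coe.2 le_top) u w
  have hbil : ∀ x u w : ℂ, ‖fderiv ℝ (fderiv ℝ f) x u w‖ ≤ 4 * Q * ‖u‖ * ‖w‖ := by
    intro x u w
    by_cases hu : u = 0
    · rw [hu]; simp
    by_cases hw : w = 0
    · rw [hw]; simp
    have hu0 : 0 < ‖u‖ := norm_pos_iff.2 hu
    have hw0 : 0 < ‖w‖ := norm_pos_iff.2 hw
    -- scale to equal norms
    set a : ℂ := ‖w‖ • u with ha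
    set b : ℂ := ‖u‖ • w with hb
    have hna : ‖a‖ = ‖u‖ * ‖w‖ := by
      rw [ha, norm_smul, norm_norm, mul_comm]
    have hnb : ‖b‖ = ‖u‖ * ‖w‖ := by
      rw [hb, norm_smul, norm_norm]
    have h1 : (4 : ℝ) • fderiv ℝ (fderiv ℝ f) x a b =
        fderiv ℝ (fderiv ℝ f) x (a + b) (a + b) - fderiv ℝ (fderiv ℝ f) x (a - b) (a - b) := by
      simp only [map_add, map_sub, add_apply, sub_apply]
      rw [hsym x b a]
      module
    have h2 := hdiag x (a + b)
    have h3 := hdiag x (a - b)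
    have h4 : ‖a + b‖ ≤ 2 * (‖u‖ * ‖w‖) := by
      refine (norm_add_le _ _).trans ?_
      rw [hna, hnb]
      linarith
    have h5 : ‖a - b‖ ≤ 2 * (‖u‖ * ‖w‖) := by
      refine (norm_sub_le _ _).trans ?_
      rw [hna, hnb]
      linarith
    have h6 : ‖(4 : ℝ) • fderiv ℝ (fderiv ℝ f) x a b‖ ≤ 8 * Q * (‖u‖ * ‖w‖) ^ 2 := by
      rw [h1]
      refine (norm_sub_le _ _).trans ?_
      have h7 : Q * ‖a + b‖ ^ 2 ≤ Q * (2 * (‖u‖ * ‖w‖)) ^ 2 := by gcongr
      have h8 : Q * ‖a - b‖ ^ 2 ≤ Q * (2 * (‖u‖ * ‖w‖)) ^ 2 := by gcongr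
      nlinarith
    have h9 : fderiv ℝ (fderiv ℝ f) x a b = (‖w‖ * ‖u‖) • fderiv ℝ (fderiv ℝ f) x u w := by
      rw [ha, hb]
      simp only [map_smul, smul_apply, smul_smul]
      rw [mul_comm]
    rw [norm_smul, h9, norm_smul, Real.norm_eq_abs, Real.norm_eq_abs,
      abs_of_pos (show (0 : ℝ) < 4 by norm_num), abs_of_pos (show 0 < ‖w‖ * ‖u‖ by positivity)] at h6
    have h10 : (‖w‖ * ‖u‖) * ‖fderiv ℝ (fderiv ℝ f) x u w‖ ≤
        (‖w‖ * ‖u‖) * (2 * Q * ‖u‖ * ‖w‖) := by nlinarith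
    have h11 := le_of_mul_le_mul_left h10 (by positivity)
    have h12 : 0 ≤ Q * ‖u‖ * ‖w‖ := by positivity
    linarith
  have hop : ∀ x : ℂ, ‖fderiv ℝ (fderiv ℝ f) x‖ ≤ 4 * Q := by
    intro x
    refine ContinuousLinearMap.opNorm_le_bound _ (by positivity) fun u => ?_
    refine ContinuousLinearMap.opNorm_le_bound _ (by positivity) fun w => ?_
    exact hbil x u w
  have hd : Differentiable ℝ (fderiv ℝ f) :=
    (hf.fderiv_right (m := ∞) (by simp)).differentiable (by simp)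
  have h1 := convex_univ.norm_image_sub_le_of_norm_fderiv_le (𝕜 := ℝ) (f := fderiv ℝ f)
    (C := 4 * Q) (fun x _ => hd x) (fun x _ => hop x) (mem_univ z') (mem_univ z)
  refine h1.trans (le_of_eq ?_)
  rw [hQ]
  ring

theorem fderiv_le (S : DSys) (z : ℂ) : ‖fderiv ℝ (S.F 0 S.N) z‖ ≤ S.E ^ S.N := by
  have hE : 0 ≤ S.E ^ S.N := pow_nonneg (by linarith [S.hE]) _
  refine norm_fderiv_le_of_lip' ℝ hE ?_
  refine Filter.Eventually.of_forall fun w => ?_
  have h1 := S.lip 0 S.N (Nat.zero_le _) le_rfl w z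
  have h2 : Nat.dist 0 S.N = S.N := by simp [Nat.dist]
  rwa [h2] at h1


/-- Additivity over the gaps of a finite set. -/
private theorem ll_sum (Φ : ℝ → ℝ) (β : ℝ) (Z : Finset ℝ) (n : ℕ) : ∀ a b, a < b →
    (Z.filter (fun z => a < z ∧ z < b)).card = n →
    (∀ x y, a ≤ x → x < y → y ≤ b → Free Z x y → Φ y - Φ x ≤ β) →
    Φ b - Φ a ≤ (n + 1) * β := by
  induction n with
  | zero =>
    intro a b hab hn h
    have h1 := h a b le_rfl hab le_rfl (by
      intro z hz hzz
      have h2 : z ∈ Z.filter (fun z => a < z ∧ z < b) := Finset.mem_filter.2 ⟨hz, hzz⟩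
      rw [Finset.card_eq_zero.1 hn] at h2
      simp at h2)
    simpa using h1
  | succ n ih =>
    intro a b hab hn h
    have hne : (Z.filter (fun z => a < z ∧ z < b)).Nonempty := by
      rw [← Finset.card_pos, hn]
      omega
    obtain ⟨z0, hz0, hmin⟩ := (Z.filter (fun z => a < z ∧ z < b)).exists_min_image id hne
    obtain ⟨hz0Z, haz, hzb⟩ := Finset.mem_filter.1 hz0
    have h1 := h a z0 le_rfl haz hzb.le (by
      intro z hz hzz
      have h2 := hmin z (Finset.mem_filter.2 ⟨hz, hzz.1, hzz.2.trans hzb⟩)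
      simp only [id] at h2
      linarith [hzz.2])
    have h2 : (Z.filter (fun z => z0 < z ∧ z < b)).card = n := by
      have h3 : Z.filter (fun z => z0 < z ∧ z < b) =
          (Z.filter (fun z => a < z ∧ z < b)).erase z0 := by
        ext z
        simp only [Finset.mem_filter, Finset.mem_erase]
        constructor
        · rintro ⟨hz, hz1, hz2⟩
          exact ⟨hz1.ne', hz, haz.trans hz1, hz2⟩
        · rintro ⟨hz1, hz, hz2, hz3⟩
          have h4 := hmin z (Finset.mem_filter.2 ⟨hz, hz2, hz3⟩)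
          simp only [id] at h4
          exact ⟨hz, lt_of_le_of_ne h4 (Ne.symm hz1), hz3⟩
      rw [h3, Finset.card_erase_of_mem hz0, hn]
      rfl
    have h3 := ih z0 b hzb h2 (fun x y hx hxy hy hf => h x y (haz.le.trans hx) hxy hy hf)
    push_cast
    linarith

/-- Total variation of a monotone smooth function. -/
private theorem ll_var (g : ℝ → ℝ) (hg : ContDiff ℝ ∞ g) (x y : ℝ) (hxy : x < y)
    (hm : StrictMonoOn g (Icc x y) ∨ StrictAntiOn g (Icc x y)) :
    ∫ t in x..y, |deriv g t| = |g y - g x| := by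
  have hd : Differentiable ℝ g := hg.differentiable (by simp)
  have hc : Continuous (deriv g) := hg.continuous_deriv (by simp)
  have hint : ∫ t in x..y, deriv g t = g y - g x := by
    apply intervalIntegral.integral_deriv_eq_sub (fun t _ => hd t)
    exact hc.intervalIntegrable _ _
  rcases hm with hm | hm
  · have h1 : ∫ t in x..y, |deriv g t| = ∫ t in x..y, deriv g t := by
      apply intervalIntegral.integral_congr_ae
      have h2 : ∀ᵐ t : ℝ, t ≠ y := by
        simp [MeasureTheory.ae_iff]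
      filter_upwards [h2] with t hty ht
      rw [uIoc_of_le hxy.le] at ht
      have ht' : t ∈ Ioo x y := ⟨ht.1, lt_of_le_of_ne ht.2 hty⟩
      have h3 : deriv g t = derivWithin g (Icc x y) t :=
        (derivWithin_of_mem_nhds (Icc_mem_nhds ht'.1 ht'.2)).symm
      rw [abs_of_nonneg]
      rw [h3]
      exact hm.monotoneOn.derivWithin_nonneg
    rw [h1, hint, abs_of_nonneg]
    have h4 := hm (left_mem_Icc.2 hxy.le) (right_mem_Icc.2 hxy.le) hxy
    linarith
  · have h1 : ∫ t in x..y, |deriv g t| = ∫ t in x..y, - deriv g t := by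
      apply intervalIntegral.integral_congr_ae
      have h2 : ∀ᵐ t : ℝ, t ≠ y := by
        simp [MeasureTheory.ae_iff]
      filter_upwards [h2] with t hty ht
      rw [uIoc_of_le hxy.le] at ht
      have ht' : t ∈ Ioo x y := ⟨ht.1, lt_of_le_of_ne ht.2 hty⟩
      have h3 : deriv g t = derivWithin g (Icc x y) t :=
        (derivWithin_of_mem_nhds (Icc_mem_nhds ht'.1 ht'.2)).symm
      rw [abs_of_nonpos]
      rw [h3]
      exact hm.antitoneOn.derivWithin_nonpos
    rw [h1, intervalIntegral.integral_neg, hint, abs_of_nonpos]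
    have h4 := hm (left_mem_Icc.2 hxy.le) (right_mem_Icc.2 hxy.le) hxy
    linarith

/-- The image between two cut points of the parameter. -/
private theorem ll_piece (Γ : ℝ → ℂ) (hΓ : ContDiff ℝ ∞ Γ) (G : ℝ → ℂ) (hG : ContDiff ℝ ∞ G)
    (g : ℝ → ℝ) (hg : ContDiff ℝ ∞ g) (r : ℝ) (x y : ℝ) (hxy : x < y)
    (hm : StrictMonoOn g (Icc x y) ∨ StrictAntiOn g (Icc x y))
    (hGg : ∀ t ∈ Icc x y, G t = Γ (g t))
    (hn : ∀ c ∈ uIcc (g x) (g y), |g y - g x| * ‖deriv Γ c‖ ≤ r) :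
    ∫ t in x..y, ‖deriv G t‖ ≤ r := by
  have hcg : Continuous (deriv g) := hg.continuous_deriv (by simp)
  have hcG : Continuous (deriv G) := hG.continuous_deriv (by simp)
  have hd : Differentiable ℝ g := hg.differentiable (by simp)
  have hdΓ : Differentiable ℝ Γ := hΓ.differentiable (by simp)
  have hne : g y ≠ g x := by
    rcases hm with hm | hm
    · exact (hm (left_mem_Icc.2 hxy.le) (right_mem_Icc.2 hxy.le) hxy).ne'
    · exact (hm (left_mem_Icc.2 hxy.le) (right_mem_Icc.2 hxy.le) hxy).ne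
  have hpos : 0 < |g y - g x| := abs_pos.2 (sub_ne_zero.2 hne)
  have hmem : ∀ t ∈ Icc x y, g t ∈ uIcc (g x) (g y) := by
    intro t ht
    rcases hm with hm | hm
    · rw [uIcc_of_le (hm.monotoneOn (left_mem_Icc.2 hxy.le) (right_mem_Icc.2 hxy.le) hxy.le)]
      exact ⟨hm.monotoneOn (left_mem_Icc.2 hxy.le) ht ht.1,
        hm.monotoneOn ht (right_mem_Icc.2 hxy.le) ht.2⟩
    · rw [uIcc_of_ge (hm.antitoneOn (left_mem_Icc.2 hxy.le) (right_mem_Icc.2 hxy.le) hxy.le)]
      exact ⟨hm.antitoneOn ht (right_mem_Icc.2 hxy.le) ht.2,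
        hm.antitoneOn (left_mem_Icc.2 hxy.le) ht ht.1⟩
  have h1 : ∫ t in x..y, ‖deriv G t‖ ≤ ∫ t in x..y, r / |g y - g x| * |deriv g t| := by
    apply intervalIntegral.integral_mono_on_of_le_Ioo hxy.le
    · exact hcG.norm.intervalIntegrable _ _
    · exact (continuous_const.mul hcg.abs).intervalIntegrable _ _
    · intro t ht
      have h2 : G =ᶠ[nhds t] fun s => Γ (g s) := by
        filter_upwards [Icc_mem_nhds ht.1 ht.2] with s hs
        exact hGg s hs
      have h3 : deriv G t = deriv g t • deriv Γ (g t) := by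
        rw [h2.deriv_eq]
        exact ((hdΓ (g t)).hasDerivAt.scomp t (hd t).hasDerivAt).deriv
      rw [h3, norm_smul, Real.norm_eq_abs, mul_comm (|deriv g t|)]
      apply mul_le_mul_of_nonneg_right _ (abs_nonneg _)
      rw [le_div_iff₀ hpos, mul_comm]
      exact hn _ (hmem t (Ioo_subset_Icc_self ht))
  refine h1.trans ?_
  rw [intervalIntegral.integral_const_mul, ll_var g hg x y hxy hm, div_mul_cancel₀ _ hpos.ne']

/-- The good gap with a long parameter range. -/
private theorem ll_good (Γ : ℝ → ℂ) (hΓ : ContDiff ℝ ∞ Γ) (G : ℝ → ℂ) (hG : ContDiff ℝ ∞ G)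
    (g : ℝ → ℝ) (hg : ContDiff ℝ ∞ g) (k : ℕ) (hk : 1 ≤ k) (r : ℝ) (hr : 0 ≤ r)
    (x y a b : ℝ) (hxy : x < y)
    (hm : StrictMonoOn g (Icc x y) ∨ StrictAntiOn g (Icc x y))
    (hab : ∀ t ∈ Icc x y, g t ∈ Icc a b)
    (hGg : ∀ t ∈ Icc x y, G t = Γ (g t)) (Zc : Finset ℝ) (B : ℕ) (hB : Zc.card ≤ B)
    (hn : ∀ x y, a ≤ x → x < y → y ≤ b → Free Zc x y → Nice k r Γ x y) :
    ∫ t in x..y, ‖deriv G t‖ ≤ (B + 1) * r := by
  have hcG : Continuous (deriv G) := hG.continuous_deriv (by simp)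
  have hinj : InjOn g (Icc x y) := by
    rcases hm with hm | hm
    · exact hm.injOn
    · exact hm.injOn
  set Z : Finset ℝ := Zc.image (Function.invFunOn g (Icc x y)) with hZ
  have hii : ∀ p q : ℝ, IntervalIntegrable (fun t => ‖deriv G t‖) MeasureTheory.volume p q :=
    fun p q => hcG.norm.intervalIntegrable _ _
  have key := ll_sum (fun s => ∫ t in x..s, ‖deriv G t‖) r Z _ x y hxy rfl (by
    intro p q hp hpq hq hfree
    show (∫ t in x..q, ‖deriv G t‖) - (∫ t in x..p, ‖deriv G t‖) ≤ r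
    rw [intervalIntegral.integral_interval_sub_left (hii _ _) (hii _ _)]
    have hsub : Icc p q ⊆ Icc x y := Icc_subset_Icc hp hq
    have hpI : p ∈ Icc x y := ⟨hp, hpq.le.trans hq⟩
    have hqI : q ∈ Icc x y := ⟨hp.trans hpq.le, hq⟩
    have hm' : StrictMonoOn g (Icc p q) ∨ StrictAntiOn g (Icc p q) :=
      hm.imp (fun h => h.mono hsub) (fun h => h.mono hsub)
    -- no parameter cut point strictly between
    have hcut : ∀ c ∈ Zc, c ∈ g '' Ioo p q → False := by
      rintro c hc ⟨t, ht, rfl⟩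
      have htI : t ∈ Icc x y := hsub (Ioo_subset_Icc_self ht)
      have h1 : Function.invFunOn g (Icc x y) (g t) = t := by
        apply hinj (Function.invFunOn_mem ⟨t, htI, rfl⟩) htI
        exact Function.invFunOn_eq ⟨t, htI, rfl⟩
      exact hfree t (Finset.mem_image.2 ⟨g t, hc, h1⟩) ht
    have hcont : ContinuousOn g (Icc p q) := hg.continuous.continuousOn
    apply ll_piece Γ hΓ G hG g hg r p q hpq hm' (fun t ht => hGg t (hsub ht))
    intro c hc
    rcases hm' with hm' | hm'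
    · have hlt := hm' (left_mem_Icc.2 hpq.le) (right_mem_Icc.2 hpq.le) hpq
      have h1 : Free Zc (g p) (g q) := by
        intro z hz hzz
        obtain ⟨t, ht, rfl⟩ := intermediate_value_Ioo hpq.le hcont hzz
        exact hcut _ hz ⟨t, ht, rfl⟩
      have h2 := hn (g p) (g q) (hab p hpI).1 hlt (hab q hqI).2 h1 1 le_rfl hk c
        (by rwa [uIcc_of_le hlt.le] at hc)
      rw [pow_one, iteratedDeriv_one] at h2
      rwa [abs_of_pos (sub_pos.2 hlt)]
    · have hlt := hm' (left_mem_Icc.2 hpq.le) (right_mem_Icc.2 hpq.le) hpq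
      have h1 : Free Zc (g q) (g p) := by
        intro z hz hzz
        obtain ⟨t, ht, rfl⟩ := intermediate_value_Ioo' hpq.le hcont hzz
        exact hcut _ hz ⟨t, ht, rfl⟩
      have h2 := hn (g q) (g p) (hab q hqI).1 hlt (hab p hpI).2 h1 1 le_rfl hk c
        (by rwa [uIcc_of_ge hlt.le] at hc)
      rw [pow_one, iteratedDeriv_one] at h2
      rw [abs_sub_comm, abs_of_pos (sub_pos.2 hlt)]
      exact h2)
  simp only [intervalIntegral.integral_same, sub_zero] at key
  refine key.trans ?_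
  have h1 : ((Z.filter (fun z => x < z ∧ z < y)).card : ℝ) ≤ B := by
    have h2 : (Z.filter (fun z => x < z ∧ z < y)).card ≤ B :=
      (Finset.card_filter_le _ _).trans (Finset.card_image_le.trans hB)
    exact_mod_cast h2
  apply mul_le_mul_of_nonneg_right _ hr
  linarith

/-- T14. Length of the image of a segment. -/
theorem length_le (k : ℕ) (hk : 2 ≤ k) : ∃ C : ℕ, 1 ≤ C ∧ ∀ S : DSys, S.k = k →
    ∀ (M ρ ν η : ℝ) (b : ℕ) (A B : ℂ), QB S 0 2 M → 1 ≤ M → 0 < ρ → ρ ≤ 1 → 0 < ν → ‖B‖ ≤ 2 →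
    (∀ x ∈ Icc (0 : ℝ) 1, A + x * B ∈ S.D) → PNice S S.N ν b →
    (MeasureTheory.volume {x : ℝ | x ∈ Icc (0 : ℝ) 1 ∧
      |deriv (fun x : ℝ => S.q 0 (A + x * B)) x| ≤ 2 * ρ}).toReal ≤ η →
    ∫ x in (0 : ℝ)..1, ‖deriv (fun x : ℝ => S.F 0 S.N (A + x * B)) x‖ ≤
      2 * S.E ^ S.N * η + (cnt C k M ρ) * (⌈(C : ℝ) / S.r⌉₊ + 2) *
        ((b + 1) * S.r + 4 * S.E ^ S.N * ν / ρ) := by
  obtain ⟨C, hC1, hC⟩ := segDec k hk
  refine ⟨C, hC1, ?_⟩
  intro S hSk M ρ ν η b A B hQ hM hρ hρ1 hν hB hD hP hη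
  obtain ⟨Z, hZ01, hZ0, hZ1, hZc, hZg⟩ := hC S hSk M ρ A B hQ hM hρ hρ1 hB hD
  obtain ⟨hg, -⟩ := hQ A B hB hD
  set g : ℝ → ℝ := fun x : ℝ => S.q 0 (A + x * B) with hgdef
  set G : ℝ → ℂ := fun x : ℝ => S.F 0 S.N (A + x * B) with hGdef
  have hr := S.hr
  have hE : 0 ≤ S.E ^ S.N := pow_nonneg (by linarith [S.hE]) _
  have hF := S.smoothF 0 S.N (Nat.zero_le _) le_rfl
  have hline : ContDiff ℝ ∞ (fun x : ℝ => A + (x : ℂ) * B) :=
    contDiff_const.add (Complex.ofRealCLM.contDiff.mul contDiff_const)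
  have hG : ContDiff ℝ ∞ G := hF.comp hline
  have hcG : Continuous (deriv G) := hG.continuous_deriv (by simp)
  have hcg : Continuous (deriv g) := hg.continuous_deriv (by simp)
  have hGle : ∀ t, ‖deriv G t‖ ≤ 2 * S.E ^ S.N := by
    intro t
    have h1 : deriv G t = fderiv ℝ (S.F 0 S.N) (A + t * B) B := fl_line _ hF A B t
    rw [h1]
    calc ‖fderiv ℝ (S.F 0 S.N) (A + t * B) B‖ ≤ ‖fderiv ℝ (S.F 0 S.N) (A + t * B)‖ * ‖B‖ :=
          ContinuousLinearMap.le_opNorm _ _
      _ ≤ S.E ^ S.N * 2 := mul_le_mul (fderiv_le S _) hB (norm_nonneg _) hE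
      _ = _ := by ring
  set T : Set ℝ := {x : ℝ | x ∈ Icc (0 : ℝ) 1 ∧ |deriv g x| ≤ 2 * ρ} with hT
  have hTm : MeasurableSet T := by
    have h1 : IsClosed T := isClosed_Icc.inter (isClosed_le hcg.abs continuous_const)
    exact h1.measurableSet
  set ψ : ℝ → ℝ := T.indicator (fun _ => 2 * S.E ^ S.N) with hψ
  have hψ0 : ∀ t, 0 ≤ ψ t := fun t => indicator_nonneg (fun _ _ => by positivity) t
  have hψi : ∀ p q : ℝ, IntervalIntegrable ψ MeasureTheory.volume p q := by
    intro p q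
    have h1 : IntervalIntegrable (fun _ : ℝ => 2 * S.E ^ S.N) MeasureTheory.volume p q :=
      intervalIntegrable_const
    rw [intervalIntegrable_iff] at h1 ⊢
    exact h1.indicator hTm
  have hii : ∀ p q : ℝ, IntervalIntegrable (fun t => ‖deriv G t‖) MeasureTheory.volume p q :=
    fun p q => hcG.norm.intervalIntegrable _ _
  set β : ℝ := (b + 1) * S.r + 4 * S.E ^ S.N * ν / ρ with hβ
  have hβ0 : 0 ≤ β := by positivity
  -- one gap
  have hgap : ∀ x y, 0 ≤ x → x < y → y ≤ 1 → Free Z x y →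
      (∫ t in x..y, ‖deriv G t‖) - (∫ t in x..y, ψ t) ≤ β := by
    intro x y hx hxy hy hfree
    have hψpos : 0 ≤ ∫ t in x..y, ψ t :=
      intervalIntegral.integral_nonneg hxy.le (fun t _ => hψ0 t)
    rcases hZg x y hx hxy hy hfree with hfl | ⟨σ, a, b', hσ, hlen, hsig, hmon⟩
    · have h1 : ∫ t in x..y, ‖deriv G t‖ ≤ ∫ t in x..y, ψ t := by
        apply intervalIntegral.integral_mono_on hxy.le (hii _ _) (hψi _ _)
        intro t ht
        have h2 : t ∈ T := ⟨⟨hx.trans ht.1, ht.2.trans hy⟩, hfl t ht⟩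
        rw [hψ, indicator_of_mem h2]
        exact hGle t
      linarith
    · by_cases hlong : ν ≤ b' - a
      · obtain ⟨Zc, hZcc, hZcn⟩ := hP 0 S.N (Nat.zero_le _) le_rfl (by simp [Nat.dist]) σ a b' hσ
          hlong
        have h1 := ll_good (fun c => S.F 0 S.N (σ c)) (hF.comp hσ.1) G hG g hg S.k
          (by linarith [S.hk]) S.r hr.le x y a b' hxy hmon (fun t ht => (hsig t ht).1)
          (fun t ht => by
            show S.F 0 S.N (A + t * B) = S.F 0 S.N (σ (S.q 0 (A + t * B)))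
            rw [(hsig t ht).2]) Zc b hZcc hZcn
        have h2 : 0 ≤ 4 * S.E ^ S.N * ν / ρ := by positivity
        rw [hβ]
        linarith
      · rw [not_le] at hlong
        have h1 : ∫ t in x..y, ‖deriv G t‖ ≤ ∫ _t in x..y, 2 * S.E ^ S.N := by
          apply intervalIntegral.integral_mono_on hxy.le (hii _ _) intervalIntegrable_const
          intro t _
          exact hGle t
        rw [intervalIntegral.integral_const, smul_eq_mul] at h1
        have h2 : y - x ≤ 2 * ν / ρ := by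
          rw [le_div_iff₀ hρ]
          nlinarith
        have h3 : (y - x) * (2 * S.E ^ S.N) ≤ 2 * ν / ρ * (2 * S.E ^ S.N) :=
          mul_le_mul_of_nonneg_right h2 (by positivity)
        have h4 : 2 * ν / ρ * (2 * S.E ^ S.N) = 4 * S.E ^ S.N * ν / ρ := by ring
        have h5 : 0 ≤ ((b : ℝ) + 1) * S.r := by positivity
        rw [hβ]
        linarith
  have key := ll_sum (fun s => (∫ t in (0 : ℝ)..s, ‖deriv G t‖) - ∫ t in (0 : ℝ)..s, ψ t) β Z _ 0 1
    one_pos rfl (by
      intro x y hx hxy hy hfree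
      show ((∫ t in (0 : ℝ)..y, ‖deriv G t‖) - ∫ t in (0 : ℝ)..y, ψ t) -
        ((∫ t in (0 : ℝ)..x, ‖deriv G t‖) - ∫ t in (0 : ℝ)..x, ψ t) ≤ β
      have h1 := intervalIntegral.integral_interval_sub_left (hii 0 y) (hii 0 x)
      have h2 := intervalIntegral.integral_interval_sub_left (hψi 0 y) (hψi 0 x)
      have h3 := hgap x y hx hxy hy hfree
      linarith)
  simp only [intervalIntegral.integral_same, sub_zero] at key
  have hψT : ∫ t in (0 : ℝ)..1, ψ t ≤ 2 * S.E ^ S.N * η := by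
    rw [intervalIntegral.integral_of_le zero_le_one, hψ,
      MeasureTheory.integral_indicator hTm, MeasureTheory.setIntegral_const, smul_eq_mul,
      mul_comm]
    apply mul_le_mul_of_nonneg_left _ (by positivity)
    refine le_trans ?_ hη
    rw [MeasureTheory.measureReal_def]
    apply ENNReal.toReal_mono
    · have h1 : MeasureTheory.volume T ≤ MeasureTheory.volume (Icc (0 : ℝ) 1) :=
        MeasureTheory.measure_mono (fun t ht => ht.1)
      exact (lt_of_le_of_lt h1 (by simp)).ne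
    · exact MeasureTheory.Measure.restrict_apply_le _ _
  have hcard : ((Z.filter (fun z => (0 : ℝ) < z ∧ z < 1)).card : ℝ) + 1 ≤
      (cnt C k M ρ) * (⌈(C : ℝ) / S.r⌉₊ + 2) := by
    have h1 : (Z.filter (fun z => (0 : ℝ) < z ∧ z < 1)).card + 1 ≤ Z.card := by
      have h2 : Z.filter (fun z => (0 : ℝ) < z ∧ z < 1) ⊆ Z.erase 0 := by
        intro z hz
        obtain ⟨hz1, hz2⟩ := Finset.mem_filter.1 hz
        exact Finset.mem_erase.2 ⟨hz2.1.ne', hz1⟩
      have h3 := Finset.card_le_card h2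
      rw [Finset.card_erase_of_mem hZ0] at h3
      have h4 : 0 < Z.card := Finset.card_pos.2 ⟨0, hZ0⟩
      omega
    exact_mod_cast h1.trans hZc
  have h5 := mul_le_mul_of_nonneg_right hcard hβ0
  linarith

end Pool.Agent.ES38
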