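import Pool.Agent.ES38.Defs
open Set Real
open scoped ContDiff
namespace Pool.Agent.ES38

/-- T0. Subdivide every gap of `Z` into `K` equal parts. -/
theorem refine (Z : Finset ℝ) (K : ℕ) (hK : 1 ≤ K) (a b : ℝ) (hab : a < b) (ha : a ∈ Z)
    (hb : b ∈ Z) (hZ : ∀ z ∈ Z, a ≤ z ∧ z ≤ b) :
    ∃ Z' : Finset ℝ, Z ⊆ Z' ∧ Z'.card ≤ Z.card * (K + 1) ∧
      ∀ x y, a ≤ x → x < y → y ≤ b → Free Z' x y →
        ∃ x' y', x' ∈ Z ∧ y' ∈ Z ∧ a ≤ x' ∧ x' ≤ x ∧ y ≤ y' ∧ y' ≤ b ∧ Free Z x' y' ∧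
          (K : ℝ) * (y - x) ≤ y' - x' := by
  classical
  have hK0 : (0 : ℝ) < K := by exact_mod_cast hK
  -- the next point
  have hex : ∀ u : ℝ, ∃ v : ℝ, ∀ v' ∈ Z, u < v' → Free Z u v' → v' = v := by
    intro u
    by_cases h : ∃ v ∈ Z, u < v ∧ Free Z u v
    · obtain ⟨v, hv, huv, hf⟩ := h
      refine ⟨v, fun v' hv' huv' hf' => ?_⟩
      rcases lt_trichotomy v v' with h1 | h1 | h1
      · exact absurd ⟨huv, h1⟩ (hf' v hv)
      · exact h1.symm
      · exact absurd ⟨huv', h1⟩ (hf v' hv')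
    · exact ⟨u, fun v' hv' huv' hf' => absurd ⟨v', hv', huv', hf'⟩ h⟩
  choose nx hnx using hex
  refine ⟨Z ∪ Z.biUnion (fun u => (Finset.range K).image
    (fun t : ℕ => u + t * ((nx u - u) / K))), Finset.subset_union_left, ?_, ?_⟩
  · refine (Finset.card_union_le _ _).trans ?_
    have h1 : (Z.biUnion (fun u => (Finset.range K).image
        (fun t : ℕ => u + t * ((nx u - u) / K)))).card ≤ Z.card * K := by
      refine Finset.card_biUnion_le.trans ?_
      refine (Finset.sum_le_card_nsmul _ _ K (fun u _ => ?_)).trans ?_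
      · refine Finset.card_image_le.trans ?_
        rw [Finset.card_range]
      · rw [smul_eq_mul]
    calc _ ≤ Z.card + Z.card * K := by omega
      _ = _ := by ring
  intro x y hax hxy hyb hfree
  have hfZ : Free Z x y := fun z hz => hfree z (Finset.mem_union_left _ hz)
  obtain ⟨u, hu, hu2⟩ := Finset.exists_max_image (Z.filter (fun z => z ≤ x)) id
    ⟨a, Finset.mem_filter.2 ⟨ha, hax⟩⟩
  obtain ⟨v, hv, hv2⟩ := Finset.exists_min_image (Z.filter (fun z => y ≤ z)) id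
    ⟨b, Finset.mem_filter.2 ⟨hb, hyb⟩⟩
  rw [Finset.mem_filter] at hu hv
  have huv : u < v := lt_of_le_of_lt hu.2 (lt_of_lt_of_le hxy hv.2)
  have hf : Free Z u v := by
    rintro z hz ⟨h1, h2⟩
    rcases le_or_gt z x with h | h
    · exact absurd (hu2 z (Finset.mem_filter.2 ⟨hz, h⟩)) (not_le.2 h1)
    rcases le_or_gt y z with h' | h'
    · exact absurd (hv2 z (Finset.mem_filter.2 ⟨hz, h'⟩)) (not_le.2 h2)
    exact hfZ z hz ⟨h, h'⟩
  refine ⟨u, v, hu.1, hv.1, (hZ u hu.1).1, hu.2, hv.2, (hZ v hv.1).2, hf, ?_⟩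
  have hnu : v = nx u := hnx u v hv.1 huv hf
  have hd : 0 < (v - u) / K := by
    apply div_pos _ hK0
    linarith
  -- the small window
  set t : ℕ := ⌊(x - u) / ((v - u) / K)⌋₊ with ht
  have h1 : (t : ℝ) * ((v - u) / K) ≤ x - u := by
    have h2 := Nat.floor_le (show 0 ≤ (x - u) / ((v - u) / K) by
      apply div_nonneg _ hd.le; linarith [hu.2])
    rwa [← ht, le_div_iff₀ hd] at h2
  have h2 : x - u < (t + 1) * ((v - u) / K) := by
    have h3 := Nat.lt_floor_add_one ((x - u) / ((v - u) / K))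
    rwa [← ht, div_lt_iff₀ hd] at h3
  have h3 : y ≤ u + (t + 1) * ((v - u) / K) := by
    by_contra hcon
    push Not at hcon
    by_cases htm : t + 1 < K
    · refine hfree (u + ((t + 1 : ℕ) : ℝ) * ((nx u - u) / K)) (Finset.mem_union_right _
        (Finset.mem_biUnion.2 ⟨u, hu.1, Finset.mem_image.2
          ⟨t + 1, Finset.mem_range.2 htm, rfl⟩⟩)) ⟨?_, ?_⟩
      · rw [← hnu]
        push_cast
        linarith
      · rw [← hnu]
        push_cast
        exact hcon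
    · have h4 : (K : ℝ) ≤ t + 1 := by
        push Not at htm
        exact_mod_cast htm
      have h5 : (K : ℝ) * ((v - u) / K) = v - u := mul_div_cancel₀ _ hK0.ne'
      have h6 : (K : ℝ) * ((v - u) / K) ≤ (t + 1) * ((v - u) / K) :=
        mul_le_mul_of_nonneg_right h4 hd.le
      linarith [hv.2]
  have h4 : y - x ≤ (v - u) / K := by linarith
  calc (K : ℝ) * (y - x) ≤ K * ((v - u) / K) := mul_le_mul_of_nonneg_left h4 hK0.le
    _ = v - u := mul_div_cancel₀ _ hK0.ne'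

end Pool.Agent.ES38
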