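import Pool.Agent.ES38.GoodFlat
import Pool.Agent.ES38.Refine
open Set Real
open scoped ContDiff
namespace Pool.Agent.ES38

/-- The part of every grid line inside `D` (near `z0`) is covered by at most `B` segments
contained in `D`, of length at most `ls`. -/
def LineCover (S : DSys) (o : Bool → ℝ) (ls : ℝ) (B : ℕ) : Prop :=
  ∀ p l, ∀ z0 : ℂ, ∃ n : ℕ, n ≤ B ∧ ∃ P V : ℕ → ℂ,
    (∀ m, m < n → ‖V m‖ ≤ ls ∧ ∀ x ∈ Icc (0 : ℝ) 1, P m + x * V m ∈ S.D ∧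
      coord p (P m + x * V m) = lev S o p l) ∧
    (∀ z ∈ S.D, coord p z = lev S o p l → ‖z - z0‖ ≤ S.U + 1 →
      ∃ m, m < n ∧ ∃ x ∈ Icc (0 : ℝ) 1, z = P m + x * V m)

/-- Derivative bounds of the scalar along segments in `D`. -/
def QBound (S : DSys) (M : ℝ) : Prop :=
  ∀ j, j ≤ S.N → ∀ P V : ℂ, ‖V‖ ≤ 2 → (∀ x ∈ Icc (0 : ℝ) 1, P + x * V ∈ S.D) →
    ContDiff ℝ ∞ (fun x : ℝ => S.q j (P + x * V)) ∧
    ∀ a, 1 ≤ a → a ≤ S.k → ∀ x ∈ Icc (0 : ℝ) 1,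
      |iteratedDeriv a (fun x : ℝ => S.q j (P + x * V)) x| ≤ M

/-- Derivative bounds of the scalar at time `j` along segments of length at most `ℓ` in `D`. -/
def QB (S : DSys) (j : ℕ) (ℓ M : ℝ) : Prop :=
  ∀ P V : ℂ, ‖V‖ ≤ ℓ → (∀ x ∈ Icc (0 : ℝ) 1, P + x * V ∈ S.D) →
    ContDiff ℝ ∞ (fun x : ℝ => S.q j (P + x * V)) ∧
    ∀ a, 1 ≤ a → a ≤ S.k → ∀ x ∈ Icc (0 : ℝ) 1,
      |iteratedDeriv a (fun x : ℝ => S.q j (P + x * V)) x| ≤ M

theorem QBound.qb {S : DSys} {M : ℝ} (h : QBound S M) {j : ℕ} (hj : j ≤ S.N) {ℓ : ℝ}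
    (hℓ : ℓ ≤ 2) : QB S j ℓ M :=
  fun P V hV hD => h j hj P V (hV.trans hℓ) hD

/-- Counting function. -/
noncomputable def cnt (C k : ℕ) (M ν : ℝ) : ℕ :=
  ⌈(C : ℝ) * (M / ν) ^ ((1 : ℝ) / (k - 1)) * (1 + Real.log (M / ν))⌉₊

private theorem iter_lin (V : ℂ) (s : ℝ → ℝ) (hs : ContDiff ℝ ∞ s) (n : ℕ) :
    iteratedDeriv n (fun c : ℝ => (s c : ℂ) * V) = fun c => ((iteratedDeriv n s c : ℝ) : ℂ) * V := by
  induction n with
  | zero => simp [iteratedDeriv_zero]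
  | succ n ih =>
    rw [iteratedDeriv_succ, ih]
    funext c
    have hd : DifferentiableAt ℝ (iteratedDeriv n s) c :=
      (hs.differentiable_iteratedDeriv n (by exact_mod_cast WithTop.coe_lt_top n)) c
    have h2 := (hd.hasDerivAt.ofReal_comp).mul_const V
    rw [h2.deriv, iteratedDeriv_succ]

private theorem iter_line (P V : ℂ) (s : ℝ → ℝ) (hs : ContDiff ℝ ∞ s) (n : ℕ) (hn : 1 ≤ n) :
    iteratedDeriv n (fun c : ℝ => P + (s c : ℂ) * V)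
      = fun c => ((iteratedDeriv n s c : ℝ) : ℂ) * V := by
  obtain ⟨m, rfl⟩ : ∃ m, n = m + 1 := ⟨n - 1, by omega⟩
  rw [← iter_lin V s hs (m + 1), iteratedDeriv_succ', iteratedDeriv_succ']
  congr 1
  funext c
  rw [deriv_const_add]

private theorem contDiff_line (P V : ℂ) (s : ℝ → ℝ) (hs : ContDiff ℝ ∞ s) :
    ContDiff ℝ ∞ (fun c : ℝ => P + (s c : ℂ) * V) := by
  have h1 : ContDiff ℝ ∞ (fun c : ℝ => (s c : ℂ)) := Complex.ofRealCLM.contDiff.comp hs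
  exact contDiff_const.add (h1.mul contDiff_const)

/-- A `CSeg` from an inverse parametrisation of a good interval. -/
private theorem cseg_of_inv (S : DSys) (j : ℕ) (P V : ℂ) (C4 : ℕ) (x y a b w : ℝ) (s : ℝ → ℝ)
    (hs : ContDiff ℝ ∞ s) (hab : a < b) (hw : (C4 : ℝ) * (y - x) * w ≤ S.r) (hV : ‖V‖ ≤ w)
    (hx0 : 0 ≤ x) (hy1 : y ≤ 1) (hxy : x ≤ y)
    (hD : ∀ t ∈ Icc (0 : ℝ) 1, P + t * V ∈ S.D)
    (hsi : ∀ c ∈ Icc a b, s c ∈ Icc x y ∧ S.q j (P + (s c : ℝ) * V) = c)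
    (hb : ∀ i, 1 ≤ i → i ≤ S.k → ∀ c ∈ Icc a b,
      (b - a) ^ i * |iteratedDeriv i s c| ≤ C4 * (y - x)) :
    CSeg S j (fun c : ℝ => P + (s c : ℂ) * V) a b := by
  refine ⟨contDiff_line P V s hs, hab, ?_, ?_⟩
  · intro i hi1 hik c hc
    rw [iter_line P V s hs i hi1]
    have h1 := hb i hi1 hik c hc
    have h0 : 0 ≤ (C4 : ℝ) * (y - x) := mul_nonneg (Nat.cast_nonneg _) (by linarith)
    calc (b - a) ^ i * ‖((iteratedDeriv i s c : ℝ) : ℂ) * V‖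
        = ((b - a) ^ i * |iteratedDeriv i s c|) * ‖V‖ := by
          rw [norm_mul, Complex.norm_real, Real.norm_eq_abs]; ring
      _ ≤ (C4 * (y - x)) * w := by
          apply mul_le_mul h1 hV (norm_nonneg _) h0
      _ ≤ S.r := hw
  · intro c hc
    obtain ⟨h1, h2⟩ := hsi c hc
    refine ⟨hD (s c) ⟨le_trans hx0 h1.1, le_trans h1.2 hy1⟩, h2⟩

/-- A piece of a decomposition. -/
structure LPiece where
  σ : ℝ → ℂ
  a : ℝ
  b : ℝ
  good : Prop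

instance : Inhabited LPiece := ⟨⟨fun _ => 0, 0, 0, False⟩⟩

/-- The properties of a piece covering the parameter set `T` of the segment `P + x V`. -/
private def PieceOK (S : DSys) (j : ℕ) (P V : ℂ) (ν : ℝ) (T : Set ℝ) (p : LPiece) : Prop :=
  p.a ≤ p.b ∧ (¬ p.good → p.b - p.a ≤ ν) ∧
  (p.good → CSeg S j p.σ p.a p.b ∧ ν ≤ p.b - p.a ∧
    ∀ c ∈ Icc p.a p.b, ∃ x ∈ Icc (0 : ℝ) 1, p.σ c = P + x * V) ∧
  (∀ x ∈ T, S.q j (P + x * V) ∈ Icc p.a p.b ∧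
    (p.good → p.σ (S.q j (P + x * V)) = P + x * V))

private theorem gap_flat (S : DSys) (j : ℕ) (P V : ℂ) (ν : ℝ) (x y : ℝ) (hν : 0 < ν)
    (hg : ContDiff ℝ ∞ (fun x : ℝ => S.q j (P + x * V))) (hx0 : 0 ≤ x) (hxy : x < y) (hy1 : y ≤ 1)
    (hfl : ∀ t ∈ Icc x y, |deriv (fun x : ℝ => S.q j (P + x * V)) t| ≤ ν) :
    ∃ p : LPiece, PieceOK S j P V ν (Icc x y) p := by
  set g : ℝ → ℝ := fun x : ℝ => S.q j (P + x * V) with hgdef
  have hne : (Icc x y).Nonempty := nonempty_Icc.2 hxy.le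
  have hcont : ContinuousOn g (Icc x y) := hg.continuous.continuousOn
  obtain ⟨t1, ht1, h1⟩ := isCompact_Icc.exists_isMinOn hne hcont
  obtain ⟨t2, ht2, h2⟩ := isCompact_Icc.exists_isMaxOn hne hcont
  refine ⟨⟨fun _ => 0, g t1, g t2, False⟩, h1 ht2, ?_, fun h => h.elim, ?_⟩
  · intro _
    have hd : ∀ t ∈ Icc x y, DifferentiableAt ℝ g t := fun t _ =>
      (hg.differentiable (by simp)) t
    have h3 := Convex.norm_image_sub_le_of_norm_deriv_le (f := g) (C := ν) hd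
      (fun t ht => by rw [Real.norm_eq_abs]; exact hfl t ht) (convex_Icc x y) ht1 ht2
    have h4 : ‖t2 - t1‖ ≤ 1 := by
      rw [Real.norm_eq_abs, abs_le]
      constructor <;> linarith [ht1.1, ht1.2, ht2.1, ht2.2]
    have h5 : g t2 - g t1 ≤ ‖g t2 - g t1‖ := by rw [Real.norm_eq_abs]; exact le_abs_self _
    have h6 : ν * ‖t2 - t1‖ ≤ ν * 1 := mul_le_mul_of_nonneg_left h4 hν.le
    show g t2 - g t1 ≤ ν
    linarith
  · intro t ht
    exact ⟨⟨h1 ht, h2 ht⟩, fun h => h.elim⟩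

private theorem gap_good (k : ℕ) (S : DSys) (hSk : S.k = k) (j : ℕ) (P V : ℂ)
    (ν ls κ : ℝ) (C4 : ℕ) (x y a b : ℝ) (s : ℝ → ℝ) (hκ : 0 < κ)
    (hx0 : 0 ≤ x) (hxy : x < y) (hy1 : y ≤ 1) (hls : (C4 : ℝ) * ls ≤ S.r) (hV : ‖V‖ ≤ ls)
    (hls0 : 0 ≤ ls) (hD : ∀ t ∈ Icc (0 : ℝ) 1, P + t * V ∈ S.D)
    (hs : ContDiff ℝ ∞ s) (hab : κ * (y - x) ≤ b - a)
    (him : (fun x : ℝ => S.q j (P + x * V)) '' Icc x y = Icc a b)
    (hsi : ∀ c ∈ Icc a b, s c ∈ Icc x y ∧ S.q j (P + (s c : ℝ) * V) = c)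
    (hsg : ∀ t ∈ Icc x y, s (S.q j (P + t * V)) = t)
    (hb : ∀ i, 1 ≤ i → i ≤ k → ∀ c ∈ Icc a b,
      (b - a) ^ i * |iteratedDeriv i s c| ≤ C4 * (y - x)) :
    ∃ p : LPiece, PieceOK S j P V ν (Icc x y) p := by
  have hab' : a < b := by
    have : 0 < κ * (y - x) := mul_pos hκ (by linarith)
    linarith
  have hw : (C4 : ℝ) * (y - x) * ls ≤ S.r := by
    have h1 : (C4 : ℝ) * (y - x) * ls ≤ (C4 : ℝ) * 1 * ls := by
      apply mul_le_mul_of_nonneg_right _ hls0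
      apply mul_le_mul_of_nonneg_left _ (Nat.cast_nonneg _)
      linarith
    linarith
  have hC : CSeg S j (fun c : ℝ => P + (s c : ℂ) * V) a b :=
    cseg_of_inv S j P V C4 x y a b ls s hs hab' hw hV hx0 hy1 hxy.le hD hsi
      (fun i hi1 hi2 => hb i hi1 (hSk ▸ hi2))
  have hmem : ∀ t ∈ Icc x y, S.q j (P + t * V) ∈ Icc a b := by
    intro t ht
    rw [← him]
    exact ⟨t, ht, rfl⟩
  by_cases hlen : b - a < ν
  · refine ⟨⟨fun c : ℝ => P + (s c : ℂ) * V, a, b, False⟩, hab'.le, fun _ => hlen.le,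
      fun h => h.elim, fun t ht => ⟨hmem t ht, fun h => h.elim⟩⟩
  · refine ⟨⟨fun c : ℝ => P + (s c : ℂ) * V, a, b, True⟩, hab'.le, fun h => (h trivial).elim,
      fun _ => ⟨hC, not_lt.1 hlen, ?_⟩, fun t ht => ⟨hmem t ht, fun _ => ?_⟩⟩
    · intro c hc
      obtain ⟨h1, _⟩ := hsi c hc
      exact ⟨s c, ⟨le_trans hx0 h1.1, le_trans h1.2 hy1⟩, rfl⟩
    · show P + ((s (S.q j (P + t * V)) : ℝ) : ℂ) * V = P + t * V
      rw [hsg t ht]

private theorem cnt_aux (C : ℕ) (k : ℕ) (hk : 2 ≤ k) (M ν : ℝ) (hM : 1 ≤ M) (hν : 0 < ν)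
    (hν1 : ν ≤ 1) :
    (C : ℝ) * (M / (ν / 2)) ^ ((1 : ℝ) / (k - 1)) * (1 + Real.log (M / (ν / 2))) ≤
      ((4 * C : ℕ) : ℝ) * (M / ν) ^ ((1 : ℝ) / (k - 1)) * (1 + Real.log (M / ν)) := by
  have hX : 1 ≤ M / ν := by rw [le_div_iff₀ hν]; linarith
  have hX0 : 0 < M / ν := by linarith
  have hk1 : (1 : ℝ) ≤ (k : ℝ) - 1 := by
    have : (2 : ℝ) ≤ (k : ℝ) := by exact_mod_cast hk
    linarith
  have he0 : 0 ≤ (1 : ℝ) / ((k : ℝ) - 1) := by positivity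
  have he1 : (1 : ℝ) / ((k : ℝ) - 1) ≤ 1 := by
    rw [div_le_one (by linarith)]; exact hk1
  have e1 : M / (ν / 2) = 2 * (M / ν) := by field_simp
  rw [e1, Real.mul_rpow (by norm_num) hX0.le, Real.log_mul (by norm_num) hX0.ne']
  have h2 : (2 : ℝ) ^ ((1 : ℝ) / ((k : ℝ) - 1)) ≤ 2 := by
    calc (2 : ℝ) ^ ((1 : ℝ) / ((k : ℝ) - 1)) ≤ (2 : ℝ) ^ (1 : ℝ) :=
          Real.rpow_le_rpow_of_exponent_le (by norm_num) he1
      _ = 2 := Real.rpow_one 2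
  have h20 : 0 ≤ (2 : ℝ) ^ ((1 : ℝ) / ((k : ℝ) - 1)) := by positivity
  have hl2 : Real.log 2 ≤ 1 := by
    have := Real.log_two_lt_d9
    linarith
  have hl20 : 0 ≤ Real.log 2 := Real.log_nonneg (by norm_num)
  have hl : 0 ≤ Real.log (M / ν) := Real.log_nonneg hX
  have hp : 0 ≤ (M / ν) ^ ((1 : ℝ) / ((k : ℝ) - 1)) := by positivity
  have hC0 : (0 : ℝ) ≤ C := Nat.cast_nonneg _
  push_cast
  have h3 : (1 + (Real.log 2 + Real.log (M / ν))) ≤ 2 * (1 + Real.log (M / ν)) := by linarith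
  calc (C : ℝ) * ((2 : ℝ) ^ ((1 : ℝ) / ((k : ℝ) - 1)) * (M / ν) ^ ((1 : ℝ) / ((k : ℝ) - 1))) *
        (1 + (Real.log 2 + Real.log (M / ν)))
      ≤ (C : ℝ) * (2 * (M / ν) ^ ((1 : ℝ) / ((k : ℝ) - 1))) * (2 * (1 + Real.log (M / ν))) := by
        apply mul_le_mul _ h3 (by linarith) (by positivity)
        apply mul_le_mul_of_nonneg_left _ hC0
        exact mul_le_mul_of_nonneg_right h2 hp
    _ = 4 * (C : ℝ) * (M / ν) ^ ((1 : ℝ) / ((k : ℝ) - 1)) * (1 + Real.log (M / ν)) := by ring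

private theorem cnt_mono (C C' k : ℕ) (hC : C ≤ C') (M ν : ℝ) (hM : 1 ≤ M) (hν : 0 < ν)
    (hν1 : ν ≤ 1) :
    (C : ℝ) * (M / ν) ^ ((1 : ℝ) / (k - 1)) * (1 + Real.log (M / ν)) ≤
      (C' : ℝ) * (M / ν) ^ ((1 : ℝ) / (k - 1)) * (1 + Real.log (M / ν)) := by
  have hX : 1 ≤ M / ν := by rw [le_div_iff₀ hν]; linarith
  have hl : 0 ≤ Real.log (M / ν) := Real.log_nonneg hX
  have hp : 0 ≤ (M / ν) ^ ((1 : ℝ) / ((k : ℝ) - 1)) := by positivity
  have hC' : (C : ℝ) ≤ C' := by exact_mod_cast hC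
  apply mul_le_mul_of_nonneg_right _ (by linarith)
  exact mul_le_mul_of_nonneg_right hC' hp

/-- All pieces for one segment. -/
private theorem seg_pieces (k : ℕ) (hk : 2 ≤ k) : ∃ C : ℕ, 1 ≤ C ∧ ∀ S : DSys, S.k = k →
    ∀ (ls M ν : ℝ) (j : ℕ) (P V : ℂ), j ≤ S.N → QB S j ls M → 1 ≤ M → 0 < ν → ν ≤ 1 →
    (C : ℝ) * ls ≤ S.r → ls ≤ 1 → 0 < ls → ‖V‖ ≤ ls →
    (∀ x ∈ Icc (0 : ℝ) 1, P + x * V ∈ S.D) →
    ∃ L : List LPiece, L.length ≤ cnt C k M ν ∧ (∀ p ∈ L, PieceOK S j P V ν ∅ p) ∧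
      ∀ x ∈ Icc (0 : ℝ) 1, ∃ p ∈ L, S.q j (P + x * V) ∈ Icc p.a p.b ∧
        (p.good → p.σ (S.q j (P + x * V)) = P + x * V) := by
  obtain ⟨C3, hC31, hC3⟩ := good_flat k hk
  obtain ⟨C4, hC41, hC4⟩ := inverse_param k C3 (by omega)
  refine ⟨4 * C3 + C4, by omega, ?_⟩
  intro S hSk ls M ν j P V hj hQ hM hν hν1 hls hls1 hls0 hV hD
  obtain ⟨hg, hgb⟩ := hQ P V hV hD
  obtain ⟨Z, hZ01, hZ0, hZ1, hZc, hZg⟩ := hC3 (fun x : ℝ => S.q j (P + x * V)) hg M (ν / 2) hM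
    (by linarith) (by linarith) (fun i hi1 hi2 => hgb i hi1 (hSk ▸ hi2))
  have hls' : (C4 : ℝ) * ls ≤ S.r := by
    have : (C4 : ℝ) * ls ≤ ((4 * C3 + C4 : ℕ) : ℝ) * ls := by
      apply mul_le_mul_of_nonneg_right _ hls0.le
      push_cast
      have : (0 : ℝ) ≤ C3 := Nat.cast_nonneg _
      linarith
    linarith
  have key : ∀ z, z ∈ Z.filter (· < 1) →
      ∃ p : LPiece, PieceOK S j P V ν {x | z ≤ x ∧ x ≤ 1 ∧ Free Z z x} p := by
    intro z hz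
    rw [Finset.mem_filter] at hz
    obtain ⟨hzZ, hz1⟩ := hz
    obtain ⟨y, hy, hymin⟩ := Finset.exists_min_image (Z.filter (fun w => z < w)) id
      ⟨1, Finset.mem_filter.2 ⟨hZ1, hz1⟩⟩
    rw [Finset.mem_filter] at hy
    obtain ⟨hyZ, hzy⟩ := hy
    have hfree : Free Z z y := by
      intro w hw hzw
      have := hymin w (Finset.mem_filter.2 ⟨hw, hzw.1⟩)
      simp only [id] at this
      linarith [hzw.2]
    have hz0 : 0 ≤ z := (hZ01 z hzZ).1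
    have hy1 : y ≤ 1 := (hZ01 y hyZ).2
    have hsub : {x | z ≤ x ∧ x ≤ 1 ∧ Free Z z x} ⊆ Icc z y := by
      rintro x ⟨h1, h2, h3⟩
      refine ⟨h1, ?_⟩
      by_contra hlt
      exact h3 y hyZ ⟨hzy, not_le.1 hlt⟩
    have hmain : ∃ p : LPiece, PieceOK S j P V ν (Icc z y) p := by
      rcases hZg z y hz0 hzy hy1 hfree with hfl | ⟨κ, hκ, hgood⟩
      · exact gap_flat S j P V ν z y hν hg hz0 hzy hy1
          (fun t ht => by have := hfl t ht; linarith)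
      · have hκ0 : 0 < κ := by linarith
        obtain ⟨s, a, b, hs, hab, _, him, hsi, hsg, hb⟩ := hC4 (fun x : ℝ => S.q j (P + x * V)) hg
          z y κ hzy hκ0 (fun t ht => ⟨(hgood t ht).1, (hgood t ht).2.1⟩)
          (fun t ht => (hgood t ht).2.2)
        exact gap_good k S hSk j P V ν ls κ C4 z y a b s hκ0 hz0 hzy hy1 hls' hV hls0.le hD hs hab
          him hsi hsg hb
    obtain ⟨p, h1, h2, h3, h4⟩ := hmain
    exact ⟨p, h1, h2, h3, fun x hx => h4 x (hsub hx)⟩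
  choose! F hF using key
  refine ⟨(Z.filter (· < 1)).toList.map F, ?_, ?_, ?_⟩
  · rw [List.length_map, Finset.length_toList]
    have h1 : ((Z.filter (· < 1)).card : ℝ) ≤ Z.card := by
      exact_mod_cast Finset.card_filter_le _ _
    have h2 := cnt_aux C3 k hk M ν hM hν hν1
    have h3 := cnt_mono (4 * C3) (4 * C3 + C4) k (by omega) M ν hM hν hν1
    have h4 := Nat.le_ceil (((4 * C3 + C4 : ℕ) : ℝ) * (M / ν) ^ ((1 : ℝ) / (k - 1)) *
      (1 + Real.log (M / ν)))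
    have h5 : ((Z.filter (· < 1)).card : ℝ) ≤ ((cnt (4 * C3 + C4) k M ν : ℕ) : ℝ) := by
      unfold cnt
      linarith
    exact_mod_cast h5
  · intro p hp
    rw [List.mem_map] at hp
    obtain ⟨z, hz, rfl⟩ := hp
    rw [Finset.mem_toList] at hz
    obtain ⟨h1, h2, h3, _⟩ := hF z hz
    exact ⟨h1, h2, h3, fun x hx => hx.elim⟩
  · intro x hx
    obtain ⟨z, hz, hzmax⟩ := Finset.exists_max_image (Z.filter (fun w => w ≤ x ∧ w < 1)) id
      ⟨0, Finset.mem_filter.2 ⟨hZ0, hx.1, by norm_num⟩⟩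
    rw [Finset.mem_filter] at hz
    obtain ⟨hzZ, hzx, hz1⟩ := hz
    have hzmem : z ∈ Z.filter (· < 1) := Finset.mem_filter.2 ⟨hzZ, hz1⟩
    have hfree : Free Z z x := by
      intro w hw hzw
      have := hzmax w (Finset.mem_filter.2 ⟨hw, hzw.2.le, by linarith [hzw.2, hx.2]⟩)
      simp only [id] at this
      linarith [hzw.1]
    obtain ⟨_, _, _, h4⟩ := hF z hzmem
    exact ⟨F z, List.mem_map.2 ⟨z, Finset.mem_toList.2 hzmem, rfl⟩, h4 x ⟨hzx, hx.2, hfree⟩⟩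

/-- T5. Grid lines decompose. -/
theorem lineDec (k : ℕ) (hk : 2 ≤ k) : ∃ C : ℕ, 1 ≤ C ∧ ∀ S : DSys, S.k = k →
    ∀ (o : Bool → ℝ) (ls : ℝ) (B : ℕ) (M ν : ℝ), LineCover S o ls B →
    (∀ j, j ≤ S.N → QB S j ls M) → 1 ≤ M →
    0 < ν → ν ≤ 1 → (C : ℝ) * ls ≤ S.r → ls ≤ 1 → 0 < ls →
    LineDec S o ν (B * cnt C k M ν) := by
  obtain ⟨C, hC1, hC⟩ := seg_pieces k hk
  refine ⟨C, hC1, ?_⟩
  intro S hSk o ls B M ν hcov hQ hM hν hν1 hls hls1 hls0 j hj p l z0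
  obtain ⟨n, hnB, P, V, hPV, hcover⟩ := hcov p l z0
  have key : ∀ m, m < n → ∃ L : List LPiece, L.length ≤ cnt C k M ν ∧
      (∀ q ∈ L, PieceOK S j (P m) (V m) ν ∅ q) ∧
      ∀ x ∈ Icc (0 : ℝ) 1, ∃ q ∈ L, S.q j (P m + x * V m) ∈ Icc q.a q.b ∧
        (q.good → q.σ (S.q j (P m + x * V m)) = P m + x * V m) := fun m hm =>
    hC S hSk ls M ν j (P m) (V m) hj (hQ j hj) hM hν hν1 hls hls1 hls0 (hPV m hm).1
      (fun x hx => ((hPV m hm).2 x hx).1)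
  choose! Lf hLf using key
  set L : List LPiece := (List.range n).flatMap Lf with hL
  have hlen : L.length ≤ B * cnt C k M ν := by
    rw [hL, List.length_flatMap]
    have h1 := List.sum_le_card_nsmul ((List.range n).map fun a => (Lf a).length)
      (cnt C k M ν) (by
        intro x hx
        rw [List.mem_map] at hx
        obtain ⟨m, hm, rfl⟩ := hx
        exact (hLf m (List.mem_range.1 hm)).1)
    rw [List.length_map, List.length_range, smul_eq_mul] at h1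
    exact le_trans h1 (Nat.mul_le_mul_right _ hnB)
  have hall : ∀ q ∈ L, ∃ m, m < n ∧ PieceOK S j (P m) (V m) ν ∅ q := by
    intro q hq
    rw [hL, List.mem_flatMap] at hq
    obtain ⟨m, hm, hqm⟩ := hq
    exact ⟨m, List.mem_range.1 hm, (hLf m (List.mem_range.1 hm)).2.1 q hqm⟩
  have hmem : ∀ i, i < L.length → L.getD i default ∈ L := by
    intro i hi
    rw [List.getD_eq_getElem _ _ hi]
    exact List.getElem_mem hi
  refine ⟨L.length, hlen, fun i => (L.getD i default).σ, fun i => (L.getD i default).a,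
    fun i => (L.getD i default).b, fun i => (L.getD i default).good, ?_, ?_, ?_, ?_⟩
  · intro i hi
    obtain ⟨m, _, h⟩ := hall _ (hmem i hi)
    exact h.1
  · intro i hi
    obtain ⟨m, _, h⟩ := hall _ (hmem i hi)
    exact h.2.1
  · intro i hi hgood
    obtain ⟨m, hm, h⟩ := hall _ (hmem i hi)
    obtain ⟨h1, h2, h3⟩ := h.2.2.1 hgood
    refine ⟨h1, h2, ?_⟩
    intro c hc
    obtain ⟨x, hx, hxe⟩ := h3 c hc
    show coord p ((L.getD i default).σ c) = lev S o p l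
    rw [hxe]
    exact ((hPV m hm).2 x hx).2
  · intro z hz hcz hzz
    obtain ⟨m, hm, x, hx, rfl⟩ := hcover z hz hcz hzz
    obtain ⟨q, hq, h1, h2⟩ := (hLf m hm).2.2 x hx
    have hqL : q ∈ L := by
      rw [hL, List.mem_flatMap]
      exact ⟨m, List.mem_range.2 hm, hq⟩
    obtain ⟨i, hi, hie⟩ := List.mem_iff_getElem.1 hqL
    refine ⟨i, hi, ?_⟩
    have e : L.getD i default = q := by rw [List.getD_eq_getElem _ _ hi, hie]
    simp only [e]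
    exact ⟨h1, h2⟩

/-- T5'. Decomposition of a straight segment in `D` at time `0` for the final estimate: cut
points `Z` of `[0,1]` such that on every gap either the derivative of `q` along the segment is
at most `2ρ`, or there is a `q`-parametrisation by a `CSeg`. -/
theorem segDec (k : ℕ) (hk : 2 ≤ k) : ∃ C : ℕ, 1 ≤ C ∧ ∀ S : DSys, S.k = k →
    ∀ (M ρ : ℝ) (A B : ℂ), QB S 0 2 M → 1 ≤ M → 0 < ρ → ρ ≤ 1 → ‖B‖ ≤ 2 →
    (∀ x ∈ Icc (0 : ℝ) 1, A + x * B ∈ S.D) →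
    ∃ Z : Finset ℝ, (∀ z ∈ Z, z ∈ Icc (0 : ℝ) 1) ∧ 0 ∈ Z ∧ 1 ∈ Z ∧
      Z.card ≤ (cnt C k M ρ) * (⌈(C : ℝ) / S.r⌉₊ + 2) ∧
      ∀ x y, 0 ≤ x → x < y → y ≤ 1 → Free Z x y →
        (∀ t ∈ Icc x y, |deriv (fun x : ℝ => S.q 0 (A + x * B)) t| ≤ 2 * ρ) ∨
        ∃ (σ : ℝ → ℂ) (a b : ℝ), CSeg S 0 σ a b ∧ ρ / 2 * (y - x) ≤ b - a ∧
          (∀ t ∈ Icc x y, S.q 0 (A + t * B) ∈ Icc a b ∧ σ (S.q 0 (A + t * B)) = A + t * B) ∧
          (StrictMonoOn (fun x : ℝ => S.q 0 (A + x * B)) (Icc x y) ∨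
            StrictAntiOn (fun x : ℝ => S.q 0 (A + x * B)) (Icc x y)) := by
  obtain ⟨C3, hC31, hC3⟩ := good_flat k hk
  obtain ⟨C4, hC41, hC4⟩ := inverse_param k C3 (by omega)
  refine ⟨C3 + 2 * C4, by omega, ?_⟩
  intro S hSk M ρ A B hQ hM hρ hρ1 hB hD
  obtain ⟨hg, hgb⟩ := hQ A B hB hD
  obtain ⟨Z0, hZ01, hZ0, hZ1, hZc, hZg⟩ := hC3 (fun x : ℝ => S.q 0 (A + x * B)) hg M ρ hM hρ hρ1
    (fun i hi1 hi2 => hgb i hi1 (hSk ▸ hi2))
  set K : ℕ := ⌈((C3 + 2 * C4 : ℕ) : ℝ) / S.r⌉₊ + 1 with hK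
  obtain ⟨Z', hsub, hcard, hZ'⟩ := refine Z0 K (by omega) 0 1 (by norm_num) hZ0 hZ1
    (fun z hz => hZ01 z hz)
  have hr := S.hr
  refine ⟨Z'.filter (fun z => z ∈ Icc (0 : ℝ) 1), ?_, ?_, ?_, ?_, ?_⟩
  · intro z hz
    exact (Finset.mem_filter.1 hz).2
  · exact Finset.mem_filter.2 ⟨hsub hZ0, by norm_num⟩
  · exact Finset.mem_filter.2 ⟨hsub hZ1, by norm_num⟩
  · have h1 : (Z0.card : ℝ) ≤ ((cnt (C3 + 2 * C4) k M ρ : ℕ) : ℝ) := by
      have h3 := cnt_mono C3 (C3 + 2 * C4) k (by omega) M ρ hM hρ hρ1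
      have h4 := Nat.le_ceil (((C3 + 2 * C4 : ℕ) : ℝ) * (M / ρ) ^ ((1 : ℝ) / (k - 1)) *
        (1 + Real.log (M / ρ)))
      unfold cnt
      linarith
    have h1' : Z0.card ≤ cnt (C3 + 2 * C4) k M ρ := by exact_mod_cast h1
    calc (Z'.filter (fun z => z ∈ Icc (0 : ℝ) 1)).card ≤ Z'.card := Finset.card_filter_le _ _
      _ ≤ Z0.card * (K + 1) := hcard
      _ ≤ cnt (C3 + 2 * C4) k M ρ * (K + 1) := Nat.mul_le_mul_right _ h1'
      _ = _ := by rw [hK]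
  · intro x y hx0 hxy hy1 hfree
    have hfree' : Free Z' x y := by
      intro w hw hwxy
      exact hfree w (Finset.mem_filter.2 ⟨hw, by linarith [hwxy.1], by linarith [hwxy.2]⟩) hwxy
    have hfree0 : Free Z0 x y := fun w hw => hfree' w (hsub hw)
    obtain ⟨x', y', hx'Z, hy'Z, hx'0, hx'x, hyy', hy'1, _, hKl⟩ := hZ' x y hx0 hxy hy1 hfree'
    rcases hZg x y hx0 hxy hy1 hfree0 with hfl | ⟨κ, hκ, hgood⟩
    · exact Or.inl hfl
    · right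
      have hκ0 : 0 < κ := by linarith
      obtain ⟨s, a, b, hs, hab, _, him, hsi, hsg, hb⟩ := hC4 (fun x : ℝ => S.q 0 (A + x * B)) hg
        x y κ hxy hκ0 (fun t ht => ⟨(hgood t ht).1, (hgood t ht).2.1⟩)
        (fun t ht => (hgood t ht).2.2)
      have hab' : a < b := by
        have : 0 < κ * (y - x) := mul_pos hκ0 (by linarith)
        linarith
      have hKr : ((C3 + 2 * C4 : ℕ) : ℝ) / S.r ≤ (K : ℝ) := by
        rw [hK]
        push_cast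
        have := Nat.le_ceil (((C3 + 2 * C4 : ℕ) : ℝ) / S.r)
        push_cast at this
        linarith
      have hw : (C4 : ℝ) * (y - x) * 2 ≤ S.r := by
        have h1 : ((C3 + 2 * C4 : ℕ) : ℝ) / S.r * (y - x) ≤ 1 := by
          calc ((C3 + 2 * C4 : ℕ) : ℝ) / S.r * (y - x) ≤ (K : ℝ) * (y - x) :=
                mul_le_mul_of_nonneg_right hKr (by linarith)
            _ ≤ y' - x' := hKl
            _ ≤ 1 := by linarith
        have h2 : ((C3 + 2 * C4 : ℕ) : ℝ) * (y - x) ≤ S.r := by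
          have e : ((C3 + 2 * C4 : ℕ) : ℝ) / S.r * (y - x)
              = ((C3 + 2 * C4 : ℕ) : ℝ) * (y - x) / S.r := by ring
          rw [e, div_le_one hr] at h1
          exact h1
        push_cast at h2
        have h3 : (0 : ℝ) ≤ (C3 : ℝ) * (y - x) := mul_nonneg (Nat.cast_nonneg _) (by linarith)
        nlinarith
      refine ⟨fun c : ℝ => A + (s c : ℂ) * B, a, b, ?_, ?_, ?_, ?_⟩
      · exact cseg_of_inv S 0 A B C4 x y a b 2 s hs hab' hw hB hx0 hy1 hxy.le hD hsi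
          (fun i hi1 hi2 => hb i hi1 (hSk ▸ hi2))
      · have : ρ / 2 * (y - x) ≤ κ * (y - x) := mul_le_mul_of_nonneg_right hκ (by linarith)
        linarith
      · intro t ht
        refine ⟨?_, ?_⟩
        · rw [← him]
          exact ⟨t, ht, rfl⟩
        · show A + ((s (S.q 0 (A + t * B)) : ℝ) : ℂ) * B = A + t * B
          rw [hsg t ht]
      · apply ContinuousOn.strictMonoOn_of_injOn_Icc' hxy.le hg.continuous.continuousOn
        intro t1 ht1 t2 ht2 he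
        have h1 := hsg t1 ht1
        have h2 := hsg t2 ht2
        simp only at he h1 h2
        rw [← h1, ← h2, he]

end Pool.Agent.ES38
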