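import Pool.Agent.ES38.LinearA
open Set Real
open scoped ContDiff
namespace Pool.Agent.ES38

private theorem lin_cross (A : ℂ →L[ℝ] ℂ) (hA : (starRingEnd ℂ (A 1) * A Complex.I).im = 1)
    (a b : ℂ) : (starRingEnd ℂ (A a) * A b).im = (starRingEnd ℂ a * b).im := by
  have lin : ∀ w : ℂ, A w = (w.re : ℂ) * A 1 + (w.im : ℂ) * A Complex.I := by
    intro w
    have e1 : w = w.re • (1 : ℂ) + w.im • Complex.I := by
      rw [Complex.real_smul, Complex.real_smul, mul_one]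
      exact (Complex.re_add_im w).symm
    conv_lhs => rw [e1]
    rw [map_add, map_smul, map_smul, Complex.real_smul, Complex.real_smul]
  rw [lin a, lin b]
  simp only [map_add, map_mul, Complex.conj_ofReal, Complex.add_im, Complex.add_re,
    Complex.mul_im, Complex.mul_re, Complex.ofReal_re, Complex.ofReal_im, Complex.conj_re,
    Complex.conj_im] at hA ⊢
  linear_combination (a.re * b.im - a.im * b.re) * hA

private theorem lin_apply_mul (H : ℂ →L[ℝ] ℂ) (ρ w : ℂ) :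
    H (ρ * w) = (ρ.re : ℂ) * H w + (ρ.im : ℂ) * H (Complex.I * w) := by
  have e1 : ρ * w = ρ.re • w + ρ.im • (Complex.I * w) := by
    rw [Complex.real_smul, Complex.real_smul]
    conv_lhs => rw [← Complex.re_add_im ρ]
    ring
  rw [e1, map_add, map_smul, map_smul, Complex.real_smul, Complex.real_smul]

/-- L3. Pointwise bound of the stretching (sharper form). -/
theorem linear_point_sharp {D : Set ℂ} {u : ℝ → ℂ → ℂ} {Φ : ℝ → ℝ → ℂ → ℂ} (hE : IsEuler D u)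
    (hF : IsFlow u Φ) (hD : ∀ s t, 0 ≤ s → 0 ≤ t → ∀ x ∈ D, Φ t s x ∈ D)
    (T K M m : ℝ) (hT : 0 ≤ T) (hm : 0 < m) (z B : ℂ) (hz : z ∈ D)
    (hgrad : ∀ t, 0 ≤ t → t ≤ T → ‖fderiv ℝ (u t) (Φ t 0 z)‖ ≤ K)
    (hup : ∀ t, 0 ≤ t → t ≤ T → ‖grad (curl (u t)) (Φ t 0 z)‖ ≤ M)
    (hlow : ∀ t, 0 ≤ t → t ≤ T → m ≤ ‖grad (curl (u t)) (Φ t 0 z)‖) :
    ‖fderiv ℝ (Φ T 0) z B‖ ≤ ‖B‖ * (M / m + 2 * K * M ^ 2 * T / m ^ 2) := by
  have hK : 0 ≤ K := (norm_nonneg _).trans (hgrad 0 le_rfl hT)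
  have hmM : m ≤ M := (hlow 0 le_rfl hT).trans (hup 0 le_rfl hT)
  have hM : 0 < M := hm.trans_le hmM
  set G0 : ℂ := grad (curl (u 0)) z with hG0
  set N : ℝ → ℂ := fun t => fderiv ℝ (Φ t 0) z (Complex.I * G0) with hN
  set V : ℝ → ℂ := fun t => fderiv ℝ (Φ t 0) z B with hV
  have hN1 : ∀ t, 0 ≤ t → N t = Complex.I * grad (curl (u t)) (Φ t 0 z) := fun t ht =>
    linear_transport hE hF hD t ht z hz
  have hNn : ∀ t, 0 ≤ t → ‖N t‖ = ‖grad (curl (u t)) (Φ t 0 z)‖ := by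
    intro t ht
    rw [hN1 t ht, norm_mul, Complex.norm_I, one_mul]
  have hNlow : ∀ t, 0 ≤ t → t ≤ T → m ≤ ‖N t‖ := fun t ht htT => by
    rw [hNn t ht]
    exact hlow t ht htT
  have hNup : ∀ t, 0 ≤ t → t ≤ T → ‖N t‖ ≤ M := fun t ht htT => by
    rw [hNn t ht]
    exact hup t ht htT
  have hN0 : ∀ t, 0 ≤ t → t ≤ T → N t ≠ 0 := fun t ht htT => by
    rw [← norm_pos_iff]
    exact hm.trans_le (hNlow t ht htT)
  have hid : fderiv ℝ (Φ 0 0) z = ContinuousLinearMap.id ℝ ℂ := by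
    have : Φ 0 0 = id := by
      funext y
      exact hF.init 0 le_rfl y
    rw [this, fderiv_id]
  have hV0 : V 0 = B := by
    simp only [hV, hid]
    rfl
  have hG0M : ‖G0‖ ≤ M := by
    have := hup 0 le_rfl hT
    rwa [hF.init 0 le_rfl z] at this
  -- the conserved quantity
  have hcons : ∀ t, 0 ≤ t → |(starRingEnd ℂ (V t) * N t).im| ≤ ‖B‖ * M := by
    intro t ht
    have h1 := lin_cross (fderiv ℝ (Φ t 0) z) (linear_det hE hF hD t ht z hz) B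
      (Complex.I * G0)
    have h2 : (starRingEnd ℂ (V t) * N t).im = (starRingEnd ℂ B * (Complex.I * G0)).im := h1
    rw [h2]
    refine (Complex.abs_im_le_norm _).trans ?_
    rw [norm_mul, norm_mul, Complex.norm_I, one_mul, Complex.norm_conj]
    exact mul_le_mul_of_nonneg_left hG0M (norm_nonneg _)
  -- the ratio
  set r : ℝ → ℂ := fun t => V t / N t with hr
  have hder : ∀ t, 0 ≤ t → t ≤ T → HasDerivAt r
      ((fderiv ℝ (u t) (Φ t 0 z) (V t) * N t - V t * fderiv ℝ (u t) (Φ t 0 z) (N t)) /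
        N t ^ 2) t := fun t ht htT =>
    (linear_var hF t ht z B).div (linear_var hF t ht z (Complex.I * G0)) (hN0 t ht htT)
  have hbd : ∀ t, 0 ≤ t → t ≤ T →
      ‖(fderiv ℝ (u t) (Φ t 0 z) (V t) * N t - V t * fderiv ℝ (u t) (Φ t 0 z) (N t)) /
        N t ^ 2‖ ≤ 2 * K * (‖B‖ * M / m ^ 2) := by
    intro t ht htT
    have hn0 := hN0 t ht htT
    set H := fderiv ℝ (u t) (Φ t 0 z) with hH
    have hVr : V t = r t * N t := by
      simp only [hr]
      field_simp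
    have h1 : (H (V t) * N t - V t * H (N t)) / N t ^ 2 =
        ((r t).im : ℂ) * ((H (Complex.I * N t) - Complex.I * H (N t)) / N t) := by
      have h2 : H (V t) = ((r t).re : ℂ) * H (N t) + ((r t).im : ℂ) * H (Complex.I * N t) := by
        conv_lhs => rw [hVr]
        exact lin_apply_mul H (r t) (N t)
      rw [h2]
      have h3 : V t = (((r t).re : ℂ) + ((r t).im : ℂ) * Complex.I) * N t := by
        rw [Complex.re_add_im]
        exact hVr
      rw [h3]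
      field_simp
      ring
    have h4 : ‖(H (Complex.I * N t) - Complex.I * H (N t)) / N t‖ ≤ 2 * K := by
      rw [norm_div, div_le_iff₀ (norm_pos_iff.2 hn0)]
      refine (norm_sub_le _ _).trans ?_
      have e1 : ‖H (Complex.I * N t)‖ ≤ K * ‖N t‖ := by
        refine (H.le_opNorm _).trans ?_
        rw [norm_mul, Complex.norm_I, one_mul]
        exact mul_le_mul_of_nonneg_right (hgrad t ht htT) (norm_nonneg _)
      have e2 : ‖Complex.I * H (N t)‖ ≤ K * ‖N t‖ := by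
        rw [norm_mul, Complex.norm_I, one_mul]
        refine (H.le_opNorm _).trans ?_
        exact mul_le_mul_of_nonneg_right (hgrad t ht htT) (norm_nonneg _)
      linarith
    have h5 : |(r t).im| ≤ ‖B‖ * M / m ^ 2 := by
      have h6 : (r t).im = -(starRingEnd ℂ (V t) * N t).im / ‖N t‖ ^ 2 := by
        simp only [hr]
        rw [Complex.div_im, ← Complex.normSq_eq_norm_sq]
        simp only [Complex.mul_im, Complex.conj_re, Complex.conj_im]
        ring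
      rw [h6, abs_div, abs_neg, abs_of_nonneg (by positivity : (0 : ℝ) ≤ ‖N t‖ ^ 2)]
      have h7 : m ^ 2 ≤ ‖N t‖ ^ 2 := by
        exact pow_le_pow_left₀ hm.le (hNlow t ht htT) 2
      exact div_le_div₀ (by positivity) (hcons t ht) (by positivity) h7
    rw [h1, norm_mul, Complex.norm_real, Real.norm_eq_abs]
    calc |(r t).im| * ‖(H (Complex.I * N t) - Complex.I * H (N t)) / N t‖
        ≤ (‖B‖ * M / m ^ 2) * (2 * K) := by
          apply mul_le_mul h5 h4 (norm_nonneg _) (by positivity)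
      _ = 2 * K * (‖B‖ * M / m ^ 2) := by ring
  have hmv := (convex_Icc (0 : ℝ) T).norm_image_sub_le_of_norm_hasDerivWithin_le
    (f := r) (f' := fun t => (fderiv ℝ (u t) (Φ t 0 z) (V t) * N t -
      V t * fderiv ℝ (u t) (Φ t 0 z) (N t)) / N t ^ 2) (C := 2 * K * (‖B‖ * M / m ^ 2))
    (fun t ht => (hder t ht.1 ht.2).hasDerivWithinAt) (fun t ht => hbd t ht.1 ht.2)
    (x := 0) (y := T) ⟨le_rfl, hT⟩ ⟨hT, le_rfl⟩
  rw [sub_zero, Real.norm_eq_abs, abs_of_nonneg hT] at hmv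
  have hr0 : ‖r 0‖ ≤ ‖B‖ / m := by
    simp only [hr]
    rw [norm_div, hV0]
    exact div_le_div_of_nonneg_left (norm_nonneg _) hm (hNlow 0 le_rfl hT)
  have hrT : ‖r T‖ ≤ ‖B‖ / m + 2 * K * (‖B‖ * M / m ^ 2) * T := by
    have := norm_sub_norm_le (r T) (r 0)
    linarith
  have hfin : ‖V T‖ = ‖r T‖ * ‖N T‖ := by
    rw [← norm_mul]
    congr 1
    simp only [hr]
    have := hN0 T hT le_rfl
    field_simp
  have hgoal : ‖V T‖ ≤ (‖B‖ / m + 2 * K * (‖B‖ * M / m ^ 2) * T) * M := by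
    rw [hfin]
    exact mul_le_mul hrT (hNup T hT le_rfl) (norm_nonneg _) (by positivity)
  refine hgoal.trans ?_
  have e1 : (‖B‖ / m + 2 * K * (‖B‖ * M / m ^ 2) * T) * M =
      ‖B‖ * (M / m + 2 * K * M ^ 2 * T / m ^ 2) := by
    field_simp
  rw [e1]

/-- L3. Pointwise bound of the stretching. -/
theorem linear_point {D : Set ℂ} {u : ℝ → ℂ → ℂ} {Φ : ℝ → ℝ → ℂ → ℂ} (hE : IsEuler D u)
    (hF : IsFlow u Φ) (hD : ∀ s t, 0 ≤ s → 0 ≤ t → ∀ x ∈ D, Φ t s x ∈ D)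
    (T K M m : ℝ) (hT : 0 ≤ T) (hm : 0 < m) (z B : ℂ) (hz : z ∈ D)
    (hgrad : ∀ t, 0 ≤ t → t ≤ T → ‖fderiv ℝ (u t) (Φ t 0 z)‖ ≤ K)
    (hup : ∀ t, 0 ≤ t → t ≤ T → ‖grad (curl (u t)) (Φ t 0 z)‖ ≤ M)
    (hlow : ∀ t, 0 ≤ t → t ≤ T → m ≤ ‖grad (curl (u t)) (Φ t 0 z)‖) :
    ‖fderiv ℝ (Φ T 0) z B‖ ≤ ‖B‖ * (2 * M / m + 2 * K * M ^ 2 * T / m ^ 2) := by
  have hM : 0 ≤ M := hm.le.trans ((hlow 0 le_rfl hT).trans (hup 0 le_rfl hT))
  refine (linear_point_sharp hE hF hD T K M m hT hm z B hz hgrad hup hlow).trans ?_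
  apply mul_le_mul_of_nonneg_left _ (norm_nonneg _)
  have e2 : M / m ≤ 2 * M / m := by
    apply div_le_div_of_nonneg_right _ hm.le
    linarith
  linarith

/-- L4. Length bound: at most linear growth where the vorticity gradient is bounded above and
below; and exponential stretching forces exponential degeneration of the vorticity gradient. -/
theorem linear_main (D : Set ℂ) (u : ℝ → ℂ → ℂ) (Φ : ℝ → ℝ → ℂ → ℂ)
    (hE : IsEuler D u) (hF : IsFlow u Φ) (hD : ∀ s t, 0 ≤ s → 0 ≤ t → ∀ x ∈ D, Φ t s x ∈ D)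
    (K M : ℝ) (A B : ℂ) (hseg : ∀ x ∈ Icc (0 : ℝ) 1, A + x * B ∈ D)
    (hgrad : ∀ t, 0 ≤ t → ∀ x ∈ Icc (0 : ℝ) 1, ‖fderiv ℝ (u t) (Φ t 0 (A + x * B))‖ ≤ K)
    (hup : ∀ t, 0 ≤ t → ∀ x ∈ Icc (0 : ℝ) 1,
      ‖grad (curl (u t)) (Φ t 0 (A + x * B))‖ ≤ M) :
    (∀ T m : ℝ, 0 ≤ T → 0 < m → (∀ t, 0 ≤ t → t ≤ T → ∀ x ∈ Icc (0 : ℝ) 1,
        m ≤ ‖grad (curl (u t)) (Φ t 0 (A + x * B))‖) →
      ∫ x in (0 : ℝ)..1, ‖deriv (fun x : ℝ => Φ T 0 (A + x * B)) x‖ ≤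
        ‖B‖ * (2 * M / m + 2 * K * M ^ 2 * T / m ^ 2)) ∧
    (∀ c lam : ℝ, 0 < c → 0 < lam →
      (∀ T, 0 ≤ T → c * Real.exp (lam * T) ≤
        ∫ x in (0 : ℝ)..1, ‖deriv (fun x : ℝ => Φ T 0 (A + x * B)) x‖) →
      ∃ C : ℝ, ∀ T, 0 ≤ T → ∃ t, 0 ≤ t ∧ t ≤ T ∧ ∃ x ∈ Icc (0 : ℝ) 1,
        ‖grad (curl (u t)) (Φ t 0 (A + x * B))‖ ≤
          C * Real.sqrt (1 + T) * Real.exp (-(lam / 2) * T)) := by
  have part1 : ∀ T m : ℝ, 0 ≤ T → 0 < m → (∀ t, 0 ≤ t → t ≤ T → ∀ x ∈ Icc (0 : ℝ) 1,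
        m ≤ ‖grad (curl (u t)) (Φ t 0 (A + x * B))‖) →
      ∫ x in (0 : ℝ)..1, ‖deriv (fun x : ℝ => Φ T 0 (A + x * B)) x‖ ≤
        ‖B‖ * (2 * M / m + 2 * K * M ^ 2 * T / m ^ 2) := by
    intro T m hT hm hlow
    have hPt : Differentiable ℝ (Φ T 0) := by
      have : ContDiff ℝ ∞ (Φ T 0) :=
        hF.smooth.comp (contDiff_const.prodMk (contDiff_const.prodMk contDiff_id))
      exact this.differentiable (by simp)
    have hd : ∀ x : ℝ, deriv (fun x : ℝ => Φ T 0 (A + x * B)) x =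
        fderiv ℝ (Φ T 0) (A + x * B) B := by
      intro x
      have h1 : HasDerivAt (fun x : ℝ => A + (x : ℂ) * B) B x := by
        have h2 : HasDerivAt (fun x : ℝ => (x : ℂ)) 1 x := Complex.ofRealCLM.hasDerivAt
        have h3 := (h2.mul_const B).const_add A
        rwa [one_mul] at h3
      exact ((hPt _).hasFDerivAt.comp_hasDerivAt x h1).deriv
    have hb : ∀ x ∈ Set.uIoc (0 : ℝ) 1, ‖‖deriv (fun x : ℝ => Φ T 0 (A + x * B)) x‖‖ ≤
        ‖B‖ * (2 * M / m + 2 * K * M ^ 2 * T / m ^ 2) := by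
      intro x hx
      rw [Set.uIoc_of_le zero_le_one] at hx
      have hx' : x ∈ Icc (0 : ℝ) 1 := ⟨hx.1.le, hx.2⟩
      rw [norm_norm, hd x]
      exact linear_point hE hF hD T K M m hT hm (A + x * B) B (hseg x hx')
        (fun t ht _ => hgrad t ht x hx') (fun t ht _ => hup t ht x hx')
        (fun t ht htT => hlow t ht htT x hx')
    have h := intervalIntegral.norm_integral_le_of_norm_le_const hb
    rw [sub_zero, abs_one, mul_one] at h
    exact (le_abs_self _).trans h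
  refine ⟨part1, ?_⟩
  intro c lam hc hlam hexp
  have h01 : (0 : ℝ) ∈ Icc (0 : ℝ) 1 := ⟨le_rfl, zero_le_one⟩
  have hK : 0 ≤ K := (norm_nonneg _).trans (hgrad 0 le_rfl 0 h01)
  have hM : 0 ≤ M := (norm_nonneg _).trans (hup 0 le_rfl 0 h01)
  set Q : ℝ := 2 * ‖B‖ * M ^ 2 * (1 + K) / c with hQ
  have hQ0 : 0 ≤ Q := by positivity
  set C : ℝ := Real.sqrt (Q + 1) with hC
  have hC0 : 0 < C := Real.sqrt_pos.2 (by linarith)
  have hC2 : C ^ 2 = Q + 1 := Real.sq_sqrt (by linarith)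
  refine ⟨C, ?_⟩
  intro T hT
  by_contra hcon
  push Not at hcon
  set δ : ℝ := C * Real.sqrt (1 + T) * Real.exp (-(lam / 2) * T) with hδ
  have hδ0 : 0 < δ := by
    have : 0 < Real.sqrt (1 + T) := Real.sqrt_pos.2 (by linarith)
    positivity
  have h1 := part1 T δ hT hδ0 (fun t ht htT x hx => (hcon t ht htT x hx).le)
  have h2 := (hexp T hT).trans h1
  have hδM : δ ≤ M := (hcon 0 le_rfl hT 0 h01).le.trans (hup 0 le_rfl 0 h01)
  have hδ2 : δ ^ 2 = (Q + 1) * (1 + T) * Real.exp (-(lam * T)) := by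
    rw [hδ, mul_pow, mul_pow, hC2, Real.sq_sqrt (by linarith), ← Real.exp_nat_mul]
    congr 2
    push_cast
    ring
  have h3 : 2 * M / δ ≤ 2 * M ^ 2 / δ ^ 2 := by
    rw [div_le_div_iff₀ hδ0 (by positivity)]
    nlinarith [mul_nonneg hM hδ0.le]
  have h4 : ‖B‖ * (2 * M / δ + 2 * K * M ^ 2 * T / δ ^ 2) ≤
      2 * ‖B‖ * M ^ 2 * (1 + K) * (1 + T) / δ ^ 2 := by
    have h5 : 2 * M ^ 2 / δ ^ 2 + 2 * K * M ^ 2 * T / δ ^ 2 ≤
        2 * M ^ 2 * (1 + K) * (1 + T) / δ ^ 2 := by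
      rw [← add_div]
      apply div_le_div_of_nonneg_right _ (by positivity)
      nlinarith [mul_nonneg (sq_nonneg M) hK, mul_nonneg (sq_nonneg M) hT,
        mul_nonneg (mul_nonneg (sq_nonneg M) hK) hT]
    calc ‖B‖ * (2 * M / δ + 2 * K * M ^ 2 * T / δ ^ 2)
        ≤ ‖B‖ * (2 * M ^ 2 * (1 + K) * (1 + T) / δ ^ 2) := by
          apply mul_le_mul_of_nonneg_left _ (norm_nonneg _)
          linarith
      _ = 2 * ‖B‖ * M ^ 2 * (1 + K) * (1 + T) / δ ^ 2 := by ring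
  have h6 := h2.trans h4
  rw [le_div_iff₀ (by positivity), hδ2] at h6
  have h7 : c * Real.exp (lam * T) * ((Q + 1) * (1 + T) * Real.exp (-(lam * T))) =
      c * (Q + 1) * (1 + T) := by
    rw [Real.exp_neg]
    field_simp
  rw [h7] at h6
  have h8 : c * Q = 2 * ‖B‖ * M ^ 2 * (1 + K) := by
    rw [hQ]
    field_simp
  have h9 : c * (Q + 1) * (1 + T) = 2 * ‖B‖ * M ^ 2 * (1 + K) * (1 + T) + c * (1 + T) := by
    linear_combination (1 + T) * h8
  rw [h9] at h6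
  have : 0 < c * (1 + T) := by positivity
  linarith

end Pool.Agent.ES38
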