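import Pool.Agent.ES38.EulerCurl

open Set Real
open scoped ContDiff

namespace Pool.Agent.ES38

/-- The derivative of the flow map solves the linearised equation. -/
theorem linear_var {u : ℝ → ℂ → ℂ} {Φ : ℝ → ℝ → ℂ → ℂ} (hF : IsFlow u Φ) (t : ℝ) (ht : 0 ≤ t)
    (x v : ℂ) : HasDerivAt (fun τ => fderiv ℝ (Φ τ 0) x v)
      (fderiv ℝ (u t) (Φ t 0 x) (fderiv ℝ (Φ t 0) x v)) t := by
  set g : ℝ × ℂ → ℂ := fun q => Φ q.1 0 q.2 with hg
  have hgc : ContDiff ℝ ∞ g :=
    hF.smooth.comp (contDiff_fst.prodMk (contDiff_const.prodMk contDiff_snd))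
  have hgd : Differentiable ℝ g := hgc.differentiable (by simp)
  set G : ℝ × ℂ → (ℝ × ℂ →L[ℝ] ℂ) := fderiv ℝ g with hG
  have hGc : ContDiff ℝ ∞ G := hgc.fderiv_right (m := ∞) (by simp)
  have hGd : Differentiable ℝ G := hGc.differentiable (by simp)
  have e1 : ∀ τ y w, fderiv ℝ (Φ τ 0) y w = G (τ, y) (0, w) := fun τ y w =>
    ec_fderiv_slice (f := g) hgd τ y w
  have sym : ∀ a b, (fderiv ℝ G (t, x) a) b = (fderiv ℝ G (t, x) b) a := by
    intro a b
    have h1 : IsSymmSndFDerivAt ℝ g (t, x) := by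
      refine hgc.contDiffAt.isSymmSndFDerivAt ?_
      rw [minSmoothness_of_isRCLikeNormedField]
      exact ENat.LEInfty.out
    exact h1 a b
  have h1 : HasDerivAt (fun τ => G (τ, x) (0, v)) ((fderiv ℝ G (t, x)) (1, 0) (0, v)) t := by
    have c1 : HasDerivAt (fun τ : ℝ => (τ, x)) ((1 : ℝ), (0 : ℂ)) t :=
      (hasDerivAt_id t).prodMk (hasDerivAt_const t x)
    have c2 : HasDerivAt (fun τ : ℝ => G (τ, x)) ((fderiv ℝ G (t, x)) (1, 0)) t :=
      (hGd (t, x)).hasFDerivAt.comp_hasDerivAt t c1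
    exact (ContinuousLinearMap.apply ℝ ℂ ((0 : ℝ), v)).hasFDerivAt.comp_hasDerivAt t c2
  have h2 : ∀ y, G (t, y) (1, 0) = u t (Φ t 0 y) := by
    intro y
    rw [hG, ← ec_deriv_slice hgd t y]
    exact (hF.ode 0 t le_rfl ht y).deriv
  have hu : Differentiable ℝ (u t) := by
    have : ContDiff ℝ ∞ (u t) := hF.smooth_u.comp (contDiff_const.prodMk contDiff_id)
    exact this.differentiable (by simp)
  have hΦ : Differentiable ℝ (Φ t 0) := by
    have : ContDiff ℝ ∞ (Φ t 0) :=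
      hF.smooth.comp (contDiff_const.prodMk (contDiff_const.prodMk contDiff_id))
    exact this.differentiable (by simp)
  have h3 : (fderiv ℝ G (t, x)) (0, v) (1, 0) =
      fderiv ℝ (u t) (Φ t 0 x) (fderiv ℝ (Φ t 0) x v) := by
    have d1 : HasFDerivAt (fun y : ℂ => G (t, y) (1, 0))
        (((ContinuousLinearMap.apply ℝ ℂ ((1 : ℝ), (0 : ℂ))).comp (fderiv ℝ G (t, x))).comp
          (ContinuousLinearMap.inr ℝ ℝ ℂ)) x :=
      ((ContinuousLinearMap.apply ℝ ℂ ((1 : ℝ), (0 : ℂ))).hasFDerivAt.comp (t, x)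
        (hGd (t, x)).hasFDerivAt).comp x (hasFDerivAt_prodMk_right t x)
    have d2 : HasFDerivAt (fun y : ℂ => u t (Φ t 0 y))
        ((fderiv ℝ (u t) (Φ t 0 x)).comp (fderiv ℝ (Φ t 0) x)) x :=
      (hu _).hasFDerivAt.comp x (hΦ x).hasFDerivAt
    have d3 : (fun y : ℂ => G (t, y) (1, 0)) = fun y => u t (Φ t 0 y) := funext h2
    rw [d3] at d1
    have d4 := congrArg (fun A : ℂ →L[ℝ] ℂ => A v) (d1.unique d2)
    simpa using d4
  have h4 : (fun τ => fderiv ℝ (Φ τ 0) x v) = fun τ => G (τ, x) (0, v) := funext fun τ => e1 τ x v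
  rw [h4, ← h3, sym]
  exact h1

/-- A real-linear map of the plane in coordinates. -/
theorem linear_coord (A : ℂ →L[ℝ] ℂ) (w : ℂ) :
    A w = (w.re : ℂ) * A 1 + (w.im : ℂ) * A Complex.I := by
  have e1 : w = w.re • (1 : ℂ) + w.im • Complex.I := by
    apply Complex.ext <;> simp
  conv_lhs => rw [e1]
  rw [map_add, map_smul, map_smul, Complex.real_smul, Complex.real_smul]

/-- L1. Liouville: the flow map of a divergence-free field preserves area (at points of `D`).
`det A = Im (conj (A 1) * A I)`. -/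
theorem linear_det {D : Set ℂ} {u : ℝ → ℂ → ℂ} {Φ : ℝ → ℝ → ℂ → ℂ} (hE : IsEuler D u)
    (hF : IsFlow u Φ) (hD : ∀ s t, 0 ≤ s → 0 ≤ t → ∀ x ∈ D, Φ t s x ∈ D)
    (t : ℝ) (ht : 0 ≤ t) (x : ℂ) (hx : x ∈ D) :
    (starRingEnd ℂ (fderiv ℝ (Φ t 0) x 1) * fderiv ℝ (Φ t 0) x Complex.I).im = 1 := by
  set J : ℝ → ℝ := fun τ =>
    (starRingEnd ℂ (fderiv ℝ (Φ τ 0) x 1) * fderiv ℝ (Φ τ 0) x Complex.I).im with hJ
  have hder : ∀ τ, 0 ≤ τ → HasDerivAt J 0 τ := by
    intro τ hτ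
    have h1 := linear_var hF τ hτ x 1
    have h2 := linear_var hF τ hτ x Complex.I
    have hdiv := hE.div_free τ hτ _ (hD 0 τ le_rfl hτ x hx)
    unfold div2 at hdiv
    have h3 : HasDerivAt (fun τ => starRingEnd ℂ (fderiv ℝ (Φ τ 0) x 1))
        (starRingEnd ℂ (fderiv ℝ (u τ) (Φ τ 0 x) (fderiv ℝ (Φ τ 0) x 1))) τ := by
      have h5 := (Complex.conjCLE.toContinuousLinearMap.hasFDerivAt
        (x := fderiv ℝ (Φ τ 0) x 1)).comp_hasDerivAt τ h1
      exact h5
    have h4 := (Complex.imCLM.hasFDerivAt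
      (x := starRingEnd ℂ (fderiv ℝ (Φ τ 0) x 1) * fderiv ℝ (Φ τ 0) x Complex.I)).comp_hasDerivAt τ
        (h3.mul h2)
    refine h4.congr_deriv ?_
    set H := fderiv ℝ (u τ) (Φ τ 0 x) with hH
    set w1 := fderiv ℝ (Φ τ 0) x 1 with hw1
    set w2 := fderiv ℝ (Φ τ 0) x Complex.I with hw2
    rw [linear_coord H w1, linear_coord H w2]
    simp only [Complex.imCLM_apply, Complex.add_im, Complex.add_re, Complex.mul_im, Complex.mul_re,
      Complex.conj_re, Complex.conj_im, Complex.ofReal_re, Complex.ofReal_im]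
    linear_combination (w1.re * w2.im - w1.im * w2.re) * hdiv
  have hconst : J t = J 0 := by
    have hconv : Convex ℝ (Set.Ici (0 : ℝ)) := convex_Ici 0
    exact hconv.is_const_of_fderivWithin_eq_zero (𝕜 := ℝ) (f := J)
      (fun τ hτ => ((hder τ hτ).differentiableAt).differentiableWithinAt)
      (fun τ hτ => by
        have h1 := (hder τ hτ).hasFDerivAt.hasFDerivWithinAt (s := Set.Ici (0 : ℝ))
        have h2 := h1.fderivWithin (uniqueDiffOn_Ici 0 τ hτ)
        rw [h2]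
        ext
        simp)
      ht (Set.mem_Ici.mpr (le_refl 0))
  have h0 : J 0 = 1 := by
    have e1 : Φ 0 0 = fun y => y := funext fun y => hF.init 0 le_rfl y
    simp only [hJ, e1]
    rw [fderiv_fun_id]
    simp
  have : J t = 1 := hconst.trans h0
  exact this

/-- L2. The rotated vorticity gradient is transported as a vector. -/
theorem linear_transport {D : Set ℂ} {u : ℝ → ℂ → ℂ} {Φ : ℝ → ℝ → ℂ → ℂ} (hE : IsEuler D u)
    (hF : IsFlow u Φ) (hD : ∀ s t, 0 ≤ s → 0 ≤ t → ∀ x ∈ D, Φ t s x ∈ D)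
    (t : ℝ) (ht : 0 ≤ t) (x : ℂ) (hx : x ∈ D) :
    fderiv ℝ (Φ t 0) x (Complex.I * grad (curl (u 0)) x) =
      Complex.I * grad (curl (u t)) (Φ t 0 x) := by
  have hdet := linear_det hE hF hD t ht x hx
  have hcd : ∀ τ, Differentiable ℝ (curl (u τ)) := by
    intro τ
    have h1 : ContDiff ℝ ∞ (u τ) := hF.smooth_u.comp (contDiff_const.prodMk contDiff_id)
    have h2 : ContDiff ℝ ∞ (fderiv ℝ (u τ)) := h1.fderiv_right (m := ∞) (by simp)
    have h3 : curl (u τ) = fun z => curlFun (fderiv ℝ (u τ) z) := funext fun z => curl_eq _ _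
    rw [h3]
    exact (curlFun.contDiff.comp h2).differentiable (by simp)
  have hΦ : Differentiable ℝ (Φ t 0) := by
    have : ContDiff ℝ ∞ (Φ t 0) :=
      hF.smooth.comp (contDiff_const.prodMk (contDiff_const.prodMk contDiff_id))
    exact this.differentiable (by simp)
  have heq : (fun y => curl (u t) (Φ t 0 y)) =ᶠ[nhds x] curl (u 0) := by
    filter_upwards [hE.isOpen.mem_nhds hx] with y hy
    exact curl_conserved hE hF hD 0 t le_rfl ht y (subset_closure hy)
  have hd1 : HasFDerivAt (fun y => curl (u t) (Φ t 0 y))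
      ((fderiv ℝ (curl (u t)) (Φ t 0 x)).comp (fderiv ℝ (Φ t 0) x)) x :=
    ((hcd t) _).hasFDerivAt.comp x (hΦ x).hasFDerivAt
  have hd2 : (fderiv ℝ (curl (u t)) (Φ t 0 x)).comp (fderiv ℝ (Φ t 0) x) =
      fderiv ℝ (curl (u 0)) x := by
    rw [← hd1.fderiv, heq.fderiv_eq]
  have hv : ∀ v, fderiv ℝ (curl (u t)) (Φ t 0 x) (fderiv ℝ (Φ t 0) x v) =
      fderiv ℝ (curl (u 0)) x v := fun v => by rw [← hd2]; rfl
  have h1 := hv 1
  have h2 := hv Complex.I
  set C := fderiv ℝ (curl (u t)) (Φ t 0 x) with hC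
  set w1 := fderiv ℝ (Φ t 0) x 1 with hw1
  set w2 := fderiv ℝ (Φ t 0) x Complex.I with hw2
  have lin : ∀ w : ℂ, C w = w.re * C 1 + w.im * C Complex.I := by
    intro w
    have e1 : w = w.re • (1 : ℂ) + w.im • Complex.I := by
      apply Complex.ext <;> simp
    conv_lhs => rw [e1]
    rw [map_add, map_smul, map_smul, smul_eq_mul, smul_eq_mul]
  rw [lin] at h1 h2
  have hdet' : w1.re * w2.im - w1.im * w2.re = 1 := by
    rw [← hdet]
    simp only [Complex.mul_im, Complex.conj_re, Complex.conj_im]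
    ring
  rw [linear_coord (fderiv ℝ (Φ t 0) x) (Complex.I * grad (curl (u 0)) x), ← hw1, ← hw2]
  unfold grad
  rw [← h1, ← h2, ← hC]
  apply Complex.ext
  · simp only [Complex.add_re, Complex.add_im, Complex.mul_re, Complex.mul_im, Complex.ofReal_re,
      Complex.ofReal_im, Complex.I_re, Complex.I_im]
    linear_combination (-(C Complex.I)) * hdet'
  · simp only [Complex.add_re, Complex.add_im, Complex.mul_re, Complex.mul_im, Complex.ofReal_re,
      Complex.ofReal_im, Complex.I_re, Complex.I_im]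
    linear_combination (C 1) * hdet'

end Pool.Agent.ES38
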