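import Pool.Agent.ES38.Linear
open Set Real
open scoped ContDiff
namespace Pool.Agent.ES38

/-- Quadratic form of the length bound. -/
theorem linear_sq {D : Set ℂ} {u : ℝ → ℂ → ℂ} {Φ : ℝ → ℝ → ℂ → ℂ}
    (hE : IsEuler D u) (hF : IsFlow u Φ) (hD : ∀ s t, 0 ≤ s → 0 ≤ t → ∀ x ∈ D, Φ t s x ∈ D)
    (A B : ℂ) (hseg : ∀ x ∈ Icc (0 : ℝ) 1, A + x * B ∈ D) (T K M m : ℝ) (hT : 0 ≤ T)
    (hm : 0 ≤ m)
    (hb : ∀ t, 0 ≤ t → t ≤ T → ∀ x ∈ Icc (0 : ℝ) 1,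
      ‖fderiv ℝ (u t) (Φ t 0 (A + x * B))‖ ≤ K ∧
      m ≤ ‖grad (curl (u t)) (Φ t 0 (A + x * B))‖ ∧
      ‖grad (curl (u t)) (Φ t 0 (A + x * B))‖ ≤ M) :
    m ^ 2 * ∫ x in (0 : ℝ)..1, ‖deriv (fun x : ℝ => Φ T 0 (A + x * B)) x‖ ≤
      ‖B‖ * M ^ 2 * (1 + 2 * K * T) := by
  have h0 := hb 0 le_rfl hT 0 ⟨le_rfl, zero_le_one⟩
  have hK : 0 ≤ K := (norm_nonneg _).trans h0.1
  have hmM : m ≤ M := h0.2.1.trans h0.2.2
  have hM : 0 ≤ M := hm.trans hmM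
  have hR : 0 ≤ ‖B‖ * M ^ 2 * (1 + 2 * K * T) := by positivity
  rcases hm.eq_or_lt with hm0 | hm0
  · rw [← hm0]
    simpa using hR
  have hsm : ContDiff ℝ ∞ (Φ T 0) := by
    have h1 : Φ T 0 = (fun p : ℝ × ℝ × ℂ => Φ p.1 p.2.1 p.2.2) ∘ (fun x : ℂ => (T, 0, x)) := rfl
    rw [h1]
    exact hF.smooth.comp (by fun_prop)
  have hline : ∀ x : ℝ, HasDerivAt (fun x : ℝ => A + x * B) B x := by
    intro x
    have h1 : HasDerivAt (fun x : ℝ => (x : ℂ)) 1 x := Complex.ofRealCLM.hasDerivAt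
    simpa using (h1.mul_const B).const_add A
  have hd : ∀ x : ℝ, deriv (fun x : ℝ => Φ T 0 (A + x * B)) x =
      fderiv ℝ (Φ T 0) (A + x * B) B := by
    intro x
    have h1 : HasFDerivAt (Φ T 0) (fderiv ℝ (Φ T 0) (A + x * B)) (A + x * B) :=
      (hsm.differentiable (by simp) _).hasFDerivAt
    exact (h1.comp_hasDerivAt x (hline x)).deriv
  have hcl : ContDiff ℝ ∞ (fun x : ℝ => A + x * B) := by
    have : ContDiff ℝ ∞ (fun x : ℝ => (x : ℂ)) := Complex.ofRealCLM.contDiff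
    fun_prop
  have hcont : Continuous (fun x : ℝ => ‖deriv (fun x : ℝ => Φ T 0 (A + x * B)) x‖) := by
    have h1 : ContDiff ℝ ∞ (fun x : ℝ => Φ T 0 (A + x * B)) := hsm.comp hcl
    exact (h1.continuous_deriv (by simp)).norm
  have hp : ∀ x ∈ Icc (0 : ℝ) 1, ‖deriv (fun x : ℝ => Φ T 0 (A + x * B)) x‖ ≤
      ‖B‖ * (M / m + 2 * K * M ^ 2 * T / m ^ 2) := by
    intro x hx
    rw [hd x]
    exact linear_point_sharp hE hF hD T K M m hT hm0 (A + x * B) B (hseg x hx)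
      (fun t h1 h2 => (hb t h1 h2 x hx).1) (fun t h1 h2 => (hb t h1 h2 x hx).2.2)
      (fun t h1 h2 => (hb t h1 h2 x hx).2.1)
  have hI : ∫ x in (0 : ℝ)..1, ‖deriv (fun x : ℝ => Φ T 0 (A + x * B)) x‖ ≤
      ‖B‖ * (M / m + 2 * K * M ^ 2 * T / m ^ 2) := by
    have h1 := intervalIntegral.integral_mono_on (μ := MeasureTheory.volume) zero_le_one
      (hcont.intervalIntegrable 0 1)
      (intervalIntegrable_const (c := ‖B‖ * (M / m + 2 * K * M ^ 2 * T / m ^ 2))) hp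
    simpa using h1
  have h2 := mul_le_mul_of_nonneg_left hI (by positivity : (0 : ℝ) ≤ m ^ 2)
  refine h2.trans ?_
  have h3 : m ^ 2 * (‖B‖ * (M / m + 2 * K * M ^ 2 * T / m ^ 2)) =
      ‖B‖ * (M * m + 2 * K * M ^ 2 * T) := by
    field_simp
  rw [h3]
  have h4 : M * m ≤ M ^ 2 := by nlinarith
  have h5 : 0 ≤ ‖B‖ := norm_nonneg _
  nlinarith

theorem linear_cont {u : ℝ → ℂ → ℂ} (hu : ContDiff ℝ ∞ (fun p : ℝ × ℂ => u p.1 p.2)) :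
    Continuous (fun q : ℝ × ℂ => grad (curl (u q.1)) q.2) := by
  have h1 : ContDiff ℝ ∞ (fun q : ℝ × ℂ => fderiv ℝ (u q.1) q.2) := by
    have hg : ContDiff ℝ ∞ (fun q : ℝ × ℂ => q.2) := contDiff_snd
    refine ContDiff.fderiv (f := fun q : ℝ × ℂ => u q.1) (g := fun q : ℝ × ℂ => q.2) (m := ∞)
      ?_ hg (by simp)
    have : Function.uncurry (fun q : ℝ × ℂ => u q.1) =
        (fun p : ℝ × ℂ => u p.1 p.2) ∘ (fun q : (ℝ × ℂ) × ℂ => (q.1.1, q.2)) := rfl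
    rw [this]
    exact hu.comp (by fun_prop)
  have h2 : ContDiff ℝ ∞ (fun q : ℝ × ℂ => curl (u q.1) q.2) := by
    have : (fun q : ℝ × ℂ => curl (u q.1) q.2) =
        (fun q : ℝ × ℂ => curlFun (fderiv ℝ (u q.1) q.2)) := rfl
    rw [this]
    exact curlFun.contDiff.comp h1
  have h3 : ContDiff ℝ ∞ (fun q : ℝ × ℂ => fderiv ℝ (curl (u q.1)) q.2) := by
    have hg : ContDiff ℝ ∞ (fun q : ℝ × ℂ => q.2) := contDiff_snd
    refine ContDiff.fderiv (f := fun q : ℝ × ℂ => curl (u q.1)) (g := fun q : ℝ × ℂ => q.2)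
      (m := ∞) ?_ hg (by simp)
    have : Function.uncurry (fun q : ℝ × ℂ => curl (u q.1)) =
        (fun p : ℝ × ℂ => curl (u p.1) p.2) ∘ (fun q : (ℝ × ℂ) × ℂ => (q.1.1, q.2)) := rfl
    rw [this]
    exact h2.comp (by fun_prop)
  have h4 := h3.continuous
  have e : (fun q : ℝ × ℂ => grad (curl (u q.1)) q.2) = fun q : ℝ × ℂ =>
      ((fderiv ℝ (curl (u q.1)) q.2 1 : ℝ) : ℂ) +
        ((fderiv ℝ (curl (u q.1)) q.2 Complex.I : ℝ) : ℂ) * Complex.I := rfl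
  rw [e]
  have h5 : Continuous (fun q : ℝ × ℂ => fderiv ℝ (curl (u q.1)) q.2 1) :=
    h4.clm_apply continuous_const
  have h6 : Continuous (fun q : ℝ × ℂ => fderiv ℝ (curl (u q.1)) q.2 Complex.I) :=
    h4.clm_apply continuous_const
  exact (Complex.continuous_ofReal.comp h5).add
    ((Complex.continuous_ofReal.comp h6).mul continuous_const)

/-- Exponential stretching forces exponential degeneration of the vorticity gradient. -/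
theorem linear_degen {D : Set ℂ} {u : ℝ → ℂ → ℂ} {Φ : ℝ → ℝ → ℂ → ℂ}
    (hE : IsEuler D u) (hF : IsFlow u Φ) (hD : ∀ s t, 0 ≤ s → 0 ≤ t → ∀ x ∈ D, Φ t s x ∈ D)
    (A B : ℂ) (hseg : ∀ x ∈ Icc (0 : ℝ) 1, A + x * B ∈ D) (T K M ℓ : ℝ) (hT : 0 ≤ T)
    (hℓ : 0 < ℓ)
    (hb : ∀ t, 0 ≤ t → t ≤ T → ∀ x ∈ Icc (0 : ℝ) 1,
      ‖fderiv ℝ (u t) (Φ t 0 (A + x * B))‖ ≤ K ∧
      ‖grad (curl (u t)) (Φ t 0 (A + x * B))‖ ≤ M)
    (hlen : ℓ ≤ ∫ x in (0 : ℝ)..1, ‖deriv (fun x : ℝ => Φ T 0 (A + x * B)) x‖) :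
    ∃ t, 0 ≤ t ∧ t ≤ T ∧ ∃ x ∈ Icc (0 : ℝ) 1,
      ‖grad (curl (u t)) (Φ t 0 (A + x * B))‖ ≤
        M * Real.sqrt (‖B‖ * (1 + 2 * K * T) / ℓ) := by
  have hc : Continuous (fun q : ℝ × ℝ =>
      ‖grad (curl (u q.1)) (Φ q.1 0 (A + q.2 * B))‖) := by
    have h1 := linear_cont hF.smooth_u
    have h2 : Continuous (fun q : ℝ × ℝ => (q.1, Φ q.1 0 (A + q.2 * B))) := by
      refine continuous_fst.prodMk ?_
      have h3 : (fun q : ℝ × ℝ => Φ q.1 0 (A + q.2 * B)) =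
          (fun p : ℝ × ℝ × ℂ => Φ p.1 p.2.1 p.2.2) ∘
            (fun q : ℝ × ℝ => (q.1, (0 : ℝ), A + q.2 * B)) := rfl
      rw [h3]
      refine hF.smooth.continuous.comp ?_
      fun_prop
    exact (h1.comp h2).norm
  obtain ⟨q, hq, hmin⟩ := (isCompact_Icc.prod isCompact_Icc :
    IsCompact (Icc (0 : ℝ) T ×ˢ Icc (0 : ℝ) 1)).exists_isMinOn
      ⟨(0, 0), ⟨le_rfl, hT⟩, le_rfl, zero_le_one⟩ hc.continuousOn
  refine ⟨q.1, hq.1.1, hq.1.2, q.2, hq.2, ?_⟩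
  set m := ‖grad (curl (u q.1)) (Φ q.1 0 (A + q.2 * B))‖ with hm
  have h1 := linear_sq hE hF hD A B hseg T K M m hT (norm_nonneg _) (fun t h1 h2 x hx =>
    ⟨(hb t h1 h2 x hx).1, hmin (⟨⟨h1, h2⟩, hx⟩ : (t, x) ∈ Icc (0 : ℝ) T ×ˢ Icc (0 : ℝ) 1),
      (hb t h1 h2 x hx).2⟩)
  have h0 := hb 0 le_rfl hT 0 ⟨le_rfl, zero_le_one⟩
  have hK : 0 ≤ K := (norm_nonneg _).trans h0.1
  have hM : 0 ≤ M := (norm_nonneg _).trans h0.2
  have h2 : m ^ 2 * ℓ ≤ ‖B‖ * M ^ 2 * (1 + 2 * K * T) :=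
    (mul_le_mul_of_nonneg_left hlen (by positivity)).trans h1
  have h3 : m ^ 2 ≤ M ^ 2 * (‖B‖ * (1 + 2 * K * T) / ℓ) := by
    rw [← mul_div_assoc, le_div_iff₀ hℓ]
    refine h2.trans (le_of_eq ?_)
    ring
  have h4 : m = Real.sqrt (m ^ 2) := (Real.sqrt_sq (norm_nonneg _)).symm
  rw [h4]
  refine (Real.sqrt_le_sqrt h3).trans (le_of_eq ?_)
  rw [Real.sqrt_mul (by positivity), Real.sqrt_sq hM]

end Pool.Agent.ES38
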