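import Pool.Agent.ES38.Landau
import Pool.Agent.ES38.Refine
open Set Real
open scoped ContDiff
namespace Pool.Agent.ES38

private theorem ts_coord (p : Bool) (z w : ℂ) : |coord p z - coord p w| ≤ ‖z - w‖ := by
  unfold coord
  split_ifs
  · rw [← Complex.sub_im]
    exact Complex.abs_im_le_norm _
  · rw [← Complex.sub_re]
    exact Complex.abs_re_le_norm _

private theorem ts_cont (p : Bool) : Continuous (coord p) := by
  unfold coord
  split_ifs
  · exact Complex.continuous_im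
  · exact Complex.continuous_re

/-- The Lipschitz bound for a nice curve. -/
private theorem ts_lip (S : DSys) (σ : ℝ → ℂ) (hσ : ContDiff ℝ ∞ σ) (a a' : ℝ) (haa : a < a')
    (hN : Nice S.k S.r σ a a') (c c' : ℝ) (hc : c ∈ Icc a a') (hc' : c' ∈ Icc a a') :
    ‖σ c - σ c'‖ ≤ S.r / (a' - a) * |c - c'| := by
  have h0 : 0 < a' - a := by linarith
  have h1 := (convex_Icc a a').norm_image_sub_le_of_norm_deriv_le (f := σ)
    (C := S.r / (a' - a)) (fun y _ => (hσ.differentiable (by simp)) y) (fun y hy => by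
      have h2 := hN 1 le_rfl (by have := S.hk; omega) y hy
      rw [iteratedDeriv_one, pow_one] at h2
      rw [le_div_iff₀ h0, mul_comm]
      exact h2) hc' hc
  rwa [Real.norm_eq_abs] at h1

/-- The middle time. -/
private theorem mt_mid (i j N n n' : ℕ) (hi : i ≤ N) (hj : j ≤ N) (hij : Nat.dist i j ≤ n)
    (hn : n ≤ 2 * n') : ∃ m, m ≤ N ∧ Nat.dist i m ≤ n' ∧ Nat.dist j m ≤ n' ∧
      Nat.dist m j ≤ N := by
  simp only [Nat.dist] at *
  rcases Nat.le_total i j with h | h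
  · exact ⟨i + (j - i) / 2, by omega, by omega, by omega, by omega⟩
  · exact ⟨j + (i - j) / 2, by omega, by omega, by omega, by omega⟩

/-- The gap of a finite set containing a free interval. -/
private theorem mt_gap (Z : Finset ℝ) (a b x y : ℝ) (ha : a ∈ Z) (hb : b ∈ Z) (hax : a ≤ x)
    (hxy : x < y) (hyb : y ≤ b) (hf : Free Z x y) :
    ∃ u ∈ Z, ∃ v ∈ Z, a ≤ u ∧ u ≤ x ∧ y ≤ v ∧ v ≤ b ∧ Free Z u v := by
  classical
  obtain ⟨u, hu, hu2⟩ := Finset.exists_max_image (Z.filter (fun z => z ≤ x)) id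
    ⟨a, Finset.mem_filter.2 ⟨ha, hax⟩⟩
  obtain ⟨v, hv, hv2⟩ := Finset.exists_min_image (Z.filter (fun z => y ≤ z)) id
    ⟨b, Finset.mem_filter.2 ⟨hb, hyb⟩⟩
  rw [Finset.mem_filter] at hu hv
  refine ⟨u, hu.1, v, hv.1, hu2 a (Finset.mem_filter.2 ⟨ha, hax⟩), hu.2, hv.2,
    hv2 b (Finset.mem_filter.2 ⟨hb, hyb⟩), ?_⟩
  rintro z hz ⟨h1, h2⟩
  rcases le_or_gt z x with h | h
  · exact absurd (hu2 z (Finset.mem_filter.2 ⟨hz, h⟩)) (not_le.2 h1)
  rcases le_or_gt y z with h' | h'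
  · exact absurd (hv2 z (Finset.mem_filter.2 ⟨hz, h'⟩)) (not_le.2 h2)
  exact hf z hz ⟨h, h'⟩

/-- The right end of a gap is determined by the left end. -/
private theorem mt_succ (Z : Finset ℝ) (u v v' : ℝ) (hv : v ∈ Z) (hv' : v' ∈ Z) (h : u < v)
    (h' : u < v') (hf : Free Z u v) (hf' : Free Z u v') : v' = v := by
  rcases lt_trichotomy v v' with h1 | h1 | h1
  · exact absurd ⟨h, h1⟩ (hf' v hv)
  · exact h1.symm
  · exact absurd ⟨h', h1⟩ (hf v' hv')

/-- A set which is not inside a small finite set has many elements. -/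
private theorem mt_many (A : Set ℝ) (k : ℕ) (h : ¬ ∃ W : Finset ℝ, W.card ≤ k ∧ ∀ c ∈ A, c ∈ W) :
    ∃ W : Finset ℝ, k ≤ W.card ∧ ∀ c ∈ W, c ∈ A := by
  classical
  rcases A.finite_or_infinite with hA | hA
  · by_contra hcon
    push Not at hcon
    apply h
    refine ⟨hA.toFinset, ?_, fun c hc => hA.mem_toFinset.2 hc⟩
    by_contra hc
    push Not at hc
    obtain ⟨c, hc1, hc2⟩ := hcon hA.toFinset hc.le
    exact hc2 (hA.mem_toFinset.1 hc1)
  · obtain ⟨W, hW, hWk⟩ := hA.exists_subset_card_eq k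
    exact ⟨W, hWk.ge, fun c hc => hW hc⟩

/-- The analytic heart: near a coincidence with many others the image stays close to the line. -/
private theorem mt_close (S : DSys) (i m j : ℕ) (hi : i ≤ S.N) (hm : m ≤ S.N) (hj : j ≤ S.N)
    (hmj : Nat.dist m j ≤ S.N) (σ τ : ℝ → ℂ) (hσ : ContDiff ℝ ∞ σ) (hτ : ContDiff ℝ ∞ τ)
    (x' y' u v : ℝ) (Nw : ℕ) (hxu : x' ≤ u) (huv : u < v) (hvy : v ≤ y')
    (hNw1 : 1 ≤ Nw) (hw : (Nw : ℝ) * (v - u) ≤ y' - x')
    (hNw : 32 * S.E ^ S.N < (Nw : ℝ) ^ S.k)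
    (h1 : Nice S.k S.r (fun c => S.F i m (σ c)) x' y')
    (h2 : Nice S.k S.r (fun c => S.F j m (τ c)) x' y')
    (W : Finset ℝ) (hW : S.k ≤ W.card)
    (hW0 : ∀ c ∈ W, c ∈ Icc u v ∧ S.F i m (σ c) - S.F j m (τ c) = 0) :
    ∀ c ∈ Icc u v, ‖S.F i j (σ c) - τ c‖ < S.r / 8 := by
  intro c hc
  have hr := S.hr
  have hk := S.hk
  have hE := S.hE
  have hd : 0 < y' - x' := by linarith
  have hΓ : ContDiff ℝ ∞ (fun c => S.F i m (σ c)) := (S.smoothF i m hi hm).comp hσ
  have hB : ContDiff ℝ ∞ (fun c => S.F j m (τ c)) := (S.smoothF j m hj hm).comp hτ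
  have hD : ContDiff ℝ ∞ (fun c => S.F i m (σ c) - S.F j m (τ c)) := hΓ.sub hB
  have hsub : Icc u v ⊆ Icc x' y' := Icc_subset_Icc hxu hvy
  have hder : ∀ t ∈ Icc u v, ‖iteratedDeriv S.k (fun c => S.F i m (σ c) - S.F j m (τ c)) t‖ ≤
      2 * S.r / (y' - x') ^ S.k := by
    intro t ht
    have h3 := h1 S.k (by omega) le_rfl t (hsub ht)
    have h4 := h2 S.k (by omega) le_rfl t (hsub ht)
    rw [iteratedDeriv_fun_sub (hΓ.contDiffAt.of_le (by exact_mod_cast le_top))
      (hB.contDiffAt.of_le (by exact_mod_cast le_top))]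
    rw [le_div_iff₀ (by positivity)]
    have h5 := norm_sub_le (iteratedDeriv S.k (fun c => S.F i m (σ c)) t)
      (iteratedDeriv S.k (fun c => S.F j m (τ c)) t)
    have h6 : 0 < (y' - x') ^ S.k := by positivity
    nlinarith
  have h3 := many_zeros S.k (by omega) _ hD u v huv W hW hW0 _ hder c hc
  have hN0 : (0 : ℝ) < Nw := by exact_mod_cast hNw1
  have h4 : (v - u) ^ S.k * (Nw : ℝ) ^ S.k ≤ (y' - x') ^ S.k := by
    rw [← mul_pow]
    apply pow_le_pow_left₀ (by nlinarith)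
    linarith
  have h5 : ‖S.F i m (σ c) - S.F j m (τ c)‖ * (Nw : ℝ) ^ S.k ≤ 4 * S.r := by
    have h6 : 0 < (y' - x') ^ S.k := by positivity
    calc ‖S.F i m (σ c) - S.F j m (τ c)‖ * (Nw : ℝ) ^ S.k ≤
        2 * (v - u) ^ S.k * (2 * S.r / (y' - x') ^ S.k) * (Nw : ℝ) ^ S.k := by
          apply mul_le_mul_of_nonneg_right h3 (by positivity)
      _ = 4 * S.r * ((v - u) ^ S.k * (Nw : ℝ) ^ S.k / (y' - x') ^ S.k) := by ring
      _ ≤ 4 * S.r * 1 := by
          apply mul_le_mul_of_nonneg_left _ (by positivity)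
          rw [div_le_one h6]
          exact h4
      _ = _ := mul_one _
  have h6 : ‖S.F i j (σ c) - τ c‖ ≤ S.E ^ S.N * ‖S.F i m (σ c) - S.F j m (τ c)‖ := by
    have h7 := S.lip m j hm hj (S.F i m (σ c)) (S.F j m (τ c))
    rw [S.F_comp i m j hi hm hj, S.F_comp j m j hj hm hj, S.F_self j hj] at h7
    refine h7.trans ?_
    apply mul_le_mul_of_nonneg_right (pow_le_pow_right₀ hE hmj) (norm_nonneg _)
  have hEN : 0 < S.E ^ S.N := by positivity
  have hNk : 0 < (Nw : ℝ) ^ S.k := by positivity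
  have h8 : ‖S.F i m (σ c) - S.F j m (τ c)‖ ≤ 4 * S.r / (Nw : ℝ) ^ S.k := by
    rw [le_div_iff₀ hNk]
    exact h5
  calc ‖S.F i j (σ c) - τ c‖ ≤ S.E ^ S.N * (4 * S.r / (Nw : ℝ) ^ S.k) :=
        h6.trans (mul_le_mul_of_nonneg_left h8 hEN.le)
    _ = 4 * S.r * (S.E ^ S.N / (Nw : ℝ) ^ S.k) := by ring
    _ < 4 * S.r * (1 / 32) := by
        apply mul_lt_mul_of_pos_left _ (by positivity)
        rw [div_lt_div_iff₀ hNk (by norm_num)]
        linarith
    _ = S.r / 8 := by ring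

/-- T7. Separation cut sets from niceness on windows of half length. -/
theorem pSep_of_pNice (S : DSys) (o : Bool → ℝ) (n n' b s Nw : ℕ) (ν ν' : ℝ) (hν : 0 < ν)
    (hν' : 0 < ν') (hN : PNice S n' ν b) (hN' : PNice S n' ν' b) (hL : LineDec S o ν' s)
    (hsm : S.E ^ S.N * (S.r / ν) * ν' < S.r / 4) (hNw : 32 * S.E ^ S.N < (Nw : ℝ) ^ S.k)
    (hn : n ≤ 2 * n') :
    PSep S o n ν ((b + s * (b + 2) + 2) * (Nw + 1) * (1 + S.k * s)) := by
  classical
  intro i j hi hj hij σ a a' hC hνa p l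
  have hr := S.hr
  have hr1 := S.hr1
  have hk := S.hk
  have hE := S.hE
  have hNw1 : 1 ≤ Nw := by
    rcases Nat.eq_zero_or_pos Nw with h | h
    · exfalso
      rw [h, Nat.cast_zero, zero_pow (by omega)] at hNw
      have : 0 < S.E ^ S.N := by positivity
      linarith
    · exact h
  obtain ⟨m, hm, him, hjm, hmj⟩ := mt_mid i j S.N n n' hi hj hij hn
  obtain ⟨Z1, hZ1c, hZ1⟩ := hN i m hi hm him σ a a' hC hνa
  obtain ⟨hσ, haa, hNice, hq⟩ := hC
  obtain ⟨n0, hn0, σm, am, bm, good, hab, hbad, hgood, hcov⟩ := hL j hj p l (σ a)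
  have hex2 : ∀ t : ℕ, ∃ W : Finset ℝ, W.card ≤ b ∧ (t < n0 → good t →
      ∀ x y, am t ≤ x → x < y → y ≤ bm t → Free W x y →
        Nice S.k S.r (fun c => S.F j m (σm t c)) x y) := by
    intro t
    by_cases ht : t < n0 ∧ good t
    · obtain ⟨W, hW1, hW2⟩ := hN' j m hj hm hjm (σm t) (am t) (bm t) (hgood t ht.1 ht.2).1
        (hgood t ht.1 ht.2).2.1
      exact ⟨W, hW1, fun _ _ => hW2⟩
    · exact ⟨∅, by simp, fun h1 h2 => absurd ⟨h1, h2⟩ ht⟩
  choose Z2 hZ2c hZ2 using hex2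
  set ZA : Finset ℝ := (insert a (insert a' (Z1 ∪ (Finset.range n0).biUnion
    (fun t => insert (am t) (insert (bm t) (Z2 t)))))).filter (fun z => z ∈ Icc a a') with hZA
  have haA : a ∈ ZA := Finset.mem_filter.2 ⟨Finset.mem_insert_self _ _, le_rfl, haa.le⟩
  have haA' : a' ∈ ZA := Finset.mem_filter.2
    ⟨Finset.mem_insert_of_mem (Finset.mem_insert_self _ _), haa.le, le_rfl⟩
  have hA1 : ∀ z ∈ Z1, z ∈ Icc a a' → z ∈ ZA := fun z hz h =>
    Finset.mem_filter.2 ⟨Finset.mem_insert_of_mem (Finset.mem_insert_of_mem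
      (Finset.mem_union_left _ hz)), h⟩
  have hA2 : ∀ t, t < n0 → ∀ z, z ∈ insert (am t) (insert (bm t) (Z2 t)) → z ∈ Icc a a' →
      z ∈ ZA := fun t ht z hz h =>
    Finset.mem_filter.2 ⟨Finset.mem_insert_of_mem (Finset.mem_insert_of_mem
      (Finset.mem_union_right _ (Finset.mem_biUnion.2 ⟨t, Finset.mem_range.2 ht, hz⟩))), h⟩
  have hAc : ZA.card ≤ b + s * (b + 2) + 2 := by
    refine (Finset.card_filter_le _ _).trans ?_
    refine (Finset.card_insert_le _ _).trans ?_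
    have h1 := Finset.card_insert_le a' (Z1 ∪ (Finset.range n0).biUnion
      (fun t => insert (am t) (insert (bm t) (Z2 t))))
    have h2 := Finset.card_union_le Z1 ((Finset.range n0).biUnion
      (fun t => insert (am t) (insert (bm t) (Z2 t))))
    have h3 : ((Finset.range n0).biUnion
      (fun t => insert (am t) (insert (bm t) (Z2 t)))).card ≤ n0 * (b + 2) := by
      refine Finset.card_biUnion_le.trans ?_
      refine (Finset.sum_le_card_nsmul _ _ (b + 2) (fun t _ => ?_)).trans ?_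
      · have h4 := Finset.card_insert_le (am t) (insert (bm t) (Z2 t))
        have h5 := Finset.card_insert_le (bm t) (Z2 t)
        have h6 := hZ2c t
        omega
      · rw [Finset.card_range, smul_eq_mul]
    have h4 : n0 * (b + 2) ≤ s * (b + 2) := Nat.mul_le_mul_right _ hn0
    omega
  obtain ⟨ZB, hAB, hBc, hB⟩ := refine ZA Nw hNw1 a a' haa haA haA'
    (fun z hz => (Finset.mem_filter.1 hz).2)
  -- the zeros
  have hexW : ∀ (u : ℝ) (t : ℕ), ∃ W : Finset ℝ, W.card ≤ S.k ∧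
      ((∃ W' : Finset ℝ, W'.card ≤ S.k ∧ ∀ v ∈ ZB, u < v → Free ZB u v → ∀ c ∈ Icc u v,
        S.F i m (σ c) - S.F j m (σm t c) = 0 → c ∈ W') →
      ∀ v ∈ ZB, u < v → Free ZB u v → ∀ c ∈ Icc u v,
        S.F i m (σ c) - S.F j m (σm t c) = 0 → c ∈ W) := by
    intro u t
    by_cases h : ∃ W' : Finset ℝ, W'.card ≤ S.k ∧ ∀ v ∈ ZB, u < v → Free ZB u v → ∀ c ∈ Icc u v,
        S.F i m (σ c) - S.F j m (σm t c) = 0 → c ∈ W'
    · obtain ⟨W', h1, h2⟩ := h
      exact ⟨W', h1, fun _ => h2⟩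
    · exact ⟨∅, by simp, fun h' => absurd h' h⟩
  choose W hWc hW using hexW
  refine ⟨ZB ∪ ZB.biUnion (fun u => (Finset.range n0).biUnion (W u)), ?_, ?_⟩
  · -- the number of cuts
    have h1 := Finset.card_union_le ZB (ZB.biUnion (fun u => (Finset.range n0).biUnion (W u)))
    have h2 : (ZB.biUnion (fun u => (Finset.range n0).biUnion (W u))).card ≤
        ZB.card * (n0 * S.k) := by
      refine Finset.card_biUnion_le.trans ?_
      refine (Finset.sum_le_card_nsmul _ _ (n0 * S.k) (fun u _ => ?_)).trans ?_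
      · refine Finset.card_biUnion_le.trans ?_
        refine (Finset.sum_le_card_nsmul _ _ S.k (fun t _ => hWc u t)).trans ?_
        rw [Finset.card_range, smul_eq_mul]
      · rw [smul_eq_mul]
    have h3 : ZB.card * (n0 * S.k) ≤ ZB.card * (S.k * s) := by
      apply Nat.mul_le_mul_left
      rw [Nat.mul_comm]
      exact Nat.mul_le_mul_left _ hn0
    have h4 : ZB.card ≤ (b + s * (b + 2) + 2) * (Nw + 1) :=
      hBc.trans (Nat.mul_le_mul_right _ hAc)
    calc _ ≤ ZB.card + ZB.card * (S.k * s) := by omega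
      _ = ZB.card * (1 + S.k * s) := by ring
      _ ≤ _ := Nat.mul_le_mul_right _ h4
  intro x y hx hxy hy hfree
  have hfB : Free ZB x y := fun z hz => hfree z (Finset.mem_union_left _ hz)
  have hfA : Free ZA x y := fun z hz => hfB z (hAB hz)
  by_contra hcon
  push Not at hcon
  obtain ⟨⟨c1, hc1, h1⟩, c2, hc2, h2⟩ := hcon
  have hsub : Icc x y ⊆ Icc a a' := Icc_subset_Icc hx hy
  have hcont : Continuous (fun c => coord p (S.F i j (σ c))) :=
    (ts_cont p).comp ((S.smoothF i j hi hj).continuous.comp hσ.continuous)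
  obtain ⟨c0, hx0, hy0, hc0⟩ : ∃ c0, x < c0 ∧ c0 < y ∧
      coord p (S.F i j (σ c0)) = lev S o p l := by
    have hne : c1 ≠ c2 := by
      rintro rfl
      linarith
    rcases lt_or_gt_of_ne hne with h | h
    · obtain ⟨t, ht, hc⟩ := intermediate_value_Ioo' h.le hcont.continuousOn (a := c1) (b := c2)
        (show lev S o p l ∈ Ioo (coord p (S.F i j (σ c2))) (coord p (S.F i j (σ c1))) from
          ⟨by linarith, by linarith⟩)
      exact ⟨t, lt_of_le_of_lt hc1.1 ht.1, lt_of_lt_of_le ht.2 hc2.2, hc⟩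
    · obtain ⟨t, ht, hc⟩ := intermediate_value_Ioo h.le hcont.continuousOn (a := c2) (b := c1)
        (show lev S o p l ∈ Ioo (coord p (S.F i j (σ c2))) (coord p (S.F i j (σ c1))) from
          ⟨by linarith, by linarith⟩)
      exact ⟨t, lt_of_le_of_lt hc2.1 ht.1, lt_of_lt_of_le ht.2 hc1.2, hc⟩
  have hc0m : c0 ∈ Icc x y := ⟨hx0.le, hy0.le⟩
  have hc0a : c0 ∈ Icc a a' := hsub hc0m
  have hz1D : S.F i j (σ c0) ∈ S.D := S.D_inv i j hi hj _ (hq c0 hc0a).1
  have hz1q : S.q j (S.F i j (σ c0)) = c0 := by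
    rw [S.q_cons i j hi hj _ (hq c0 hc0a).1]
    exact (hq c0 hc0a).2
  have hLip : ∀ c c', c ∈ Icc a a' → c' ∈ Icc a a' → ‖σ c - σ c'‖ ≤ S.r / (a' - a) * |c - c'| :=
    fun c c' hc hc' => ts_lip S σ hσ a a' haa hNice c c' hc hc'
  have hda : 0 < a' - a := by linarith
  have hz1n : ‖S.F i j (σ c0) - σ a‖ ≤ S.U + 1 := by
    have h3 := S.disp i j hi hj (σ c0)
    have h4 := hLip c0 a hc0a ⟨le_rfl, haa.le⟩
    have h5 : S.r / (a' - a) * |c0 - a| ≤ 1 := by
      have h6 : |c0 - a| ≤ a' - a := by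
        rw [abs_of_nonneg (by linarith [hc0a.1])]
        linarith [hc0a.2]
      calc S.r / (a' - a) * |c0 - a| ≤ S.r / (a' - a) * (a' - a) := by gcongr
        _ = S.r := div_mul_cancel₀ _ hda.ne'
        _ ≤ 1 := hr1
    calc ‖S.F i j (σ c0) - σ a‖ = ‖(S.F i j (σ c0) - σ c0) + (σ c0 - σ a)‖ := by
          congr 1
          ring
      _ ≤ _ := (norm_add_le _ _).trans (by linarith)
  obtain ⟨t, ht, hct, hgt⟩ := hcov _ hz1D hc0 hz1n
  rw [hz1q] at hct hgt
  -- a free interval around `c0` is inside the piece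
  have hin : ∀ u v, a ≤ u → v ≤ a' → u < c0 → c0 < v → Free ZA u v →
      am t ≤ u ∧ v ≤ bm t := by
    intro u v hau hva huc hcv hf
    constructor
    · by_contra hc
      push Not at hc
      exact hf (am t) (hA2 t ht _ (Finset.mem_insert_self _ _)
        ⟨hau.trans hc.le, hct.1.trans hc0a.2⟩) ⟨hc, lt_of_le_of_lt hct.1 hcv⟩
    · by_contra hc
      push Not at hc
      exact hf (bm t) (hA2 t ht _ (Finset.mem_insert_of_mem (Finset.mem_insert_self _ _))
        ⟨hc0a.1.trans hct.2, hc.le.trans hva⟩) ⟨lt_of_lt_of_le huc hct.2, hc⟩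
  by_cases hg : good t
  · -- a good piece
    obtain ⟨u, hu, v, hv, hau, hux, hyv, hva, hfuv⟩ := mt_gap ZB a a' x y (hAB haA) (hAB haA')
      hx hxy hy hfB
    have huv : u < v := lt_of_le_of_lt hux (lt_of_lt_of_le hxy hyv)
    obtain ⟨x', y', hx'A, hy'A, hax', hxu', hvy', hya', hfxy, hw⟩ := hB u v hau huv hva hfuv
    have huc : u < c0 := lt_of_le_of_lt hux hx0
    have hcv : c0 < v := lt_of_lt_of_le hy0 hyv
    have hin' := hin x' y' hax' hya' (lt_of_le_of_lt hxu' huc) (lt_of_lt_of_le hcv hvy') hfxy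
    have hgd := hgood t ht hg
    have hxy' : x' < y' := lt_of_le_of_lt hxu' (lt_of_lt_of_le huv hvy')
    have hD0 : S.F i m (σ c0) - S.F j m (σm t c0) = 0 := by
      rw [hgt hg, S.F_comp i j m hi hj hm, sub_self]
    -- many zeros
    have hno : ¬ ∃ W' : Finset ℝ, W'.card ≤ S.k ∧ ∀ v ∈ ZB, u < v → Free ZB u v →
        ∀ c ∈ Icc u v, S.F i m (σ c) - S.F j m (σm t c) = 0 → c ∈ W' := by
      intro h
      have h3 := hW u t h v hv huv hfuv c0 ⟨huc.le, hcv.le⟩ hD0
      exact hfree c0 (Finset.mem_union_right _ (Finset.mem_biUnion.2 ⟨u, hu,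
        Finset.mem_biUnion.2 ⟨t, Finset.mem_range.2 ht, h3⟩⟩)) ⟨hx0, hy0⟩
    obtain ⟨W', hW'c, hW'⟩ := mt_many {c | c ∈ Icc u v ∧
        S.F i m (σ c) - S.F j m (σm t c) = 0} S.k (by
      rintro ⟨W', h3, h4⟩
      refine hno ⟨W', h3, ?_⟩
      intro v' hv' huv' hf' c hc hc0'
      have h5 := mt_succ ZB u v v' hv hv' huv huv' hfuv hf'
      subst h5
      exact h4 c ⟨hc, hc0'⟩)
    have hclose := mt_close S i m j hi hm hj hmj σ (σm t) hσ hgd.1.1 x' y' u v Nw hxu' huv hvy'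
      hNw1 hw hNw
      (hZ1 x' y' hax' hxy' hya' (fun z hz hz2 => hfxy z (hA1 z hz
        ⟨hax'.trans hz2.1.le, hz2.2.le.trans hya'⟩) hz2))
      (hZ2 t ht hg x' y' hin'.1 hxy' hin'.2 (fun z hz hz2 => hfxy z (hA2 t ht z
        (Finset.mem_insert_of_mem (Finset.mem_insert_of_mem hz))
        ⟨hax'.trans hz2.1.le, hz2.2.le.trans hya'⟩) hz2))
      W' hW'c hW' c1 ⟨hux.trans hc1.1, hc1.2.trans hyv⟩
    have h3 := ts_coord p (S.F i j (σ c1)) (σm t c1)
    have h4 : coord p (σm t c1) = lev S o p l := hgd.2.2 c1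
      ⟨hin'.1.trans (hxu'.trans (hux.trans hc1.1)), (hc1.2.trans hyv).trans (hvy'.trans hin'.2)⟩
    rw [h4] at h3
    have h5 := lt_of_le_of_lt h3 hclose
    rw [abs_lt] at h5
    linarith
  · -- a piece with a short range
    have h3 := hin x y hx hy hx0 hy0 hfA
    have h4 := hbad t ht hg
    have h5 : |c1 - c2| ≤ ν' := by
      rw [abs_le]
      constructor <;> linarith [hc1.1, hc1.2, hc2.1, hc2.2, h3.1, h3.2]
    have h6 := hLip c1 c2 (hsub hc1) (hsub hc2)
    have h7 := S.lip i j hi hj (σ c1) (σ c2)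
    have h8 := ts_coord p (S.F i j (σ c1)) (S.F i j (σ c2))
    have h9 : S.r / (a' - a) ≤ S.r / ν := by gcongr
    have hdN : Nat.dist i j ≤ S.N := by
      simp only [Nat.dist]
      omega
    have h10 : ‖S.F i j (σ c1) - S.F i j (σ c2)‖ ≤ S.E ^ S.N * (S.r / ν) * ν' := by
      calc ‖S.F i j (σ c1) - S.F i j (σ c2)‖ ≤ S.E ^ (Nat.dist i j) * ‖σ c1 - σ c2‖ := h7
        _ ≤ S.E ^ S.N * (S.r / ν * ν') := by
            apply mul_le_mul (pow_le_pow_right₀ hE hdN) _ (norm_nonneg _) (by positivity)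
            exact h6.trans (mul_le_mul h9 h5 (abs_nonneg _) (by positivity))
        _ = _ := by ring
    have h11 := lt_of_le_of_lt (h8.trans h10) hsm
    rw [abs_lt] at h11
    linarith

/-- T8a. Trivial bound. -/
theorem pSep_trivial (S : DSys) (o : Bool → ℝ) (n : ℕ) (ν : ℝ) (hν : 0 < ν) :
    PSep S o n ν (⌈4 * S.E ^ n⌉₊ + 1) := by
  classical
  intro i j hi hj hij σ a a' hC hνa p l
  obtain ⟨hσ, haa, hN, -⟩ := hC
  have hr := S.hr
  have hE := S.hE
  set m : ℕ := ⌈4 * S.E ^ n⌉₊ + 1 with hm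
  have hm1 : 1 ≤ m := by omega
  have hm0 : (0 : ℝ) < m := by exact_mod_cast hm1
  have hmE : 4 * S.E ^ n < m := by
    have h1 := Nat.le_ceil (4 * S.E ^ n)
    rw [hm]
    push_cast
    linarith
  have hd : 0 < a' - a := by linarith
  refine ⟨(Finset.range m).image (fun t : ℕ => a + t * ((a' - a) / m)), ?_, ?_⟩
  · refine Finset.card_image_le.trans ?_
    rw [Finset.card_range]
  intro x y hx hxy hy hfree
  -- the interval is short
  have hlen : y - x ≤ (a' - a) / m := by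
    set t : ℕ := ⌊(x - a) / ((a' - a) / m)⌋₊ with ht
    have hw : 0 < (a' - a) / m := by positivity
    have h1 : (t : ℝ) * ((a' - a) / m) ≤ x - a := by
      have h2 := Nat.floor_le (show 0 ≤ (x - a) / ((a' - a) / m) by
        apply div_nonneg _ hw.le; linarith)
      rwa [← ht, le_div_iff₀ hw] at h2
    have h2 : x - a < (t + 1) * ((a' - a) / m) := by
      have h3 := Nat.lt_floor_add_one ((x - a) / ((a' - a) / m))
      rwa [← ht, div_lt_iff₀ hw] at h3
    have h3 : y ≤ a + (t + 1) * ((a' - a) / m) := by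
      by_contra hcon
      push Not at hcon
      by_cases htm : t + 1 < m
      · refine hfree (a + ((t + 1 : ℕ) : ℝ) * ((a' - a) / m)) (Finset.mem_image.2
          ⟨t + 1, Finset.mem_range.2 htm, rfl⟩) ⟨?_, ?_⟩
        · push_cast
          linarith
        · push_cast
          exact hcon
      · have h4 : (m : ℝ) ≤ t + 1 := by
          push Not at htm
          exact_mod_cast htm
        have h5 : (m : ℝ) * ((a' - a) / m) = a' - a := mul_div_cancel₀ _ hm0.ne'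
        have h6 : (m : ℝ) * ((a' - a) / m) ≤ (t + 1) * ((a' - a) / m) :=
          mul_le_mul_of_nonneg_right h4 hw.le
        linarith
    linarith
  by_contra hcon
  push Not at hcon
  obtain ⟨⟨c1, hc1, h1⟩, c2, hc2, h2⟩ := hcon
  have hsub : Icc x y ⊆ Icc a a' := Icc_subset_Icc hx hy
  have h3 := ts_lip S σ hσ a a' haa hN c1 c2 (hsub hc1) (hsub hc2)
  have h4 := S.lip i j hi hj (σ c1) (σ c2)
  have h5 := ts_coord p (S.F i j (σ c1)) (S.F i j (σ c2))
  have h6 : |c1 - c2| ≤ y - x := by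
    rw [abs_le]
    constructor <;> linarith [hc1.1, hc1.2, hc2.1, hc2.2]
  have h7 : ‖σ c1 - σ c2‖ ≤ S.r / m := by
    refine h3.trans ?_
    calc S.r / (a' - a) * |c1 - c2| ≤ S.r / (a' - a) * ((a' - a) / m) := by
          apply mul_le_mul_of_nonneg_left (h6.trans hlen) (by positivity)
      _ = S.r / m := by field_simp
  have h8 : S.E ^ (Nat.dist i j) ≤ S.E ^ n := pow_le_pow_right₀ hE hij
  have h9 : ‖S.F i j (σ c1) - S.F i j (σ c2)‖ < S.r / 4 := by
    calc ‖S.F i j (σ c1) - S.F i j (σ c2)‖ ≤ S.E ^ (Nat.dist i j) * ‖σ c1 - σ c2‖ := h4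
      _ ≤ S.E ^ n * (S.r / m) := by gcongr
      _ = S.E ^ n * S.r / m := by ring
      _ < S.r / 4 := by
        rw [div_lt_div_iff₀ hm0 (by norm_num)]
        nlinarith
  have h10 := (abs_le.1 (h5.trans h9.le)).2
  have h11 : |coord p (S.F i j (σ c1)) - coord p (S.F i j (σ c2))| < S.r / 4 :=
    lt_of_le_of_lt h5 h9
  rw [abs_lt] at h11
  linarith

end Pool.Agent.ES38
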