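import Pool.Agent.ES38.NiceOfSep
import Pool.Agent.ES38.MidTime
open Set Real
open scoped ContDiff
namespace Pool.Agent.ES38

/-- The recursion factor. -/
noncomputable def Rfac (N nl CL c0 s Nw k : ℕ) : ℝ :=
  2 * (N + 1) * (nl + 1) * (((CL * c0) ^ N + 1 : ℕ) : ℝ) * (s + 1) * (Nw + 1) * (1 + k * s)

private lemma rec_nat_bound (N n nl A B : ℕ) (hn : n ≤ N) (hA : 1 ≤ A) (hB : 1 ≤ B) :
    ((n + 1) * (2 * nl) * B + 2) * (A ^ n + 1) ≤ 2 * (N + 1) * (nl + 1) * (A ^ N + 1) * B := by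
  have h1 : A ^ n + 1 ≤ A ^ N + 1 := by
    have := Nat.pow_le_pow_right hA hn
    omega
  have h2 : (n + 1) * (2 * nl) * B + 2 ≤ 2 * (N + 1) * (nl + 1) * B := by
    have h3 : (n + 1) * (2 * nl) * B ≤ (N + 1) * (2 * nl) * B := by gcongr
    have h4 : 2 ≤ 2 * (N + 1) * B := by nlinarith [Nat.zero_le N, Nat.zero_le B]
    calc (n + 1) * (2 * nl) * B + 2 ≤ (N + 1) * (2 * nl) * B + 2 * (N + 1) * B := by omega
      _ = 2 * (N + 1) * (nl + 1) * B := by ring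
  calc ((n + 1) * (2 * nl) * B + 2) * (A ^ n + 1)
      ≤ (2 * (N + 1) * (nl + 1) * B) * (A ^ N + 1) := Nat.mul_le_mul h2 h1
    _ = 2 * (N + 1) * (nl + 1) * (A ^ N + 1) * B := by ring

private lemma rec_pNice_mono (S : DSys) (n b : ℕ) (ν ν' : ℝ) (h : ν' ≤ ν) (hP : PNice S n ν' b) :
    PNice S n ν b := by
  intro i j hi hj hd σ a a' hσ hl
  exact hP i j hi hj hd σ a a' hσ (h.trans hl)

private lemma rec_aux (k CL : ℕ) (hCL : 1 ≤ CL)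
    (hT6 : ∀ S : DSys, S.k = k → ∀ (o : Bool → ℝ) (n b nl c0 : ℕ) (ν : ℝ), 0 < ν → n ≤ S.N →
      2 * S.U / S.r + 7 ≤ nl → 2 * S.E ≤ (c0 : ℝ) ^ k → PSep S o n ν b →
      PNice S n ν (((n + 1) * (2 * nl) * b + 2) * ((CL * c0) ^ n + 1)))
    (S : DSys) (hSk : S.k = k) (o : Bool → ℝ) (nl c0 s Nw : ℕ)
    (hnl : 2 * S.U / S.r + 7 ≤ nl) (hc0 : 1 ≤ c0) (hc : 2 * S.E ≤ (c0 : ℝ) ^ k)
    (hNw : 32 * S.E ^ S.N < (Nw : ℝ) ^ S.k) :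
    ∀ (l0 n m : ℕ) (ν : ℕ → ℝ), n ≤ S.N → n ≤ 2 ^ l0 * m → (∀ d, 0 < ν d) →
      (∀ d, ν (d + 1) ≤ ν d) →
      (∀ d, d < l0 → LineDec S o (ν (d + 1)) s) →
      (∀ d, d < l0 → S.E ^ S.N * (S.r / ν d) * ν (d + 1) < S.r / 4) →
      ∃ b : ℕ, (b : ℝ) + 2 ≤ 7 * (Rfac S.N nl CL c0 s Nw k + 1) ^ (l0 + 1) * S.E ^ m ∧
        PNice S n (ν 0) b := by
  have hE := S.hE
  have hA : 1 ≤ CL * c0 := Nat.mul_pos hCL hc0
  have hks : (0 : ℝ) ≤ (k : ℝ) * s := by positivity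
  set R : ℝ := Rfac S.N nl CL c0 s Nw k with hR
  set C0 : ℝ := 2 * ((S.N : ℝ) + 1) * (nl + 1) * ((((CL * c0) ^ S.N + 1 : ℕ)) : ℝ) with hC0
  have hC0pos : 1 ≤ C0 := by
    have e1 : (1 : ℝ) ≤ 2 * ((S.N : ℝ) + 1) := by
      have : (0 : ℝ) ≤ S.N := Nat.cast_nonneg _
      linarith
    have e2 : (1 : ℝ) ≤ (nl : ℝ) + 1 := by
      have : (0 : ℝ) ≤ nl := Nat.cast_nonneg _
      linarith
    have e3 : (1 : ℝ) ≤ ((((CL * c0) ^ S.N + 1 : ℕ)) : ℝ) := by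
      exact_mod_cast Nat.le_add_left 1 _
    exact one_le_mul_of_one_le_of_one_le (one_le_mul_of_one_le_of_one_le e1 e2) e3
  have hRC : R = C0 * ((s + 1) * (Nw + 1) * (1 + k * s)) := by
    rw [hR, hC0, Rfac]; ring
  have hQ : (1 : ℝ) ≤ ((s : ℝ) + 1) * (Nw + 1) * (1 + k * s) := by
    have e1 : (1 : ℝ) ≤ (s : ℝ) + 1 := by
      have : (0 : ℝ) ≤ s := Nat.cast_nonneg _
      linarith
    have e2 : (1 : ℝ) ≤ (Nw : ℝ) + 1 := by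
      have : (0 : ℝ) ≤ Nw := Nat.cast_nonneg _
      linarith
    have e3 : (1 : ℝ) ≤ 1 + (k : ℝ) * s := by linarith
    exact one_le_mul_of_one_le_of_one_le (one_le_mul_of_one_le_of_one_le e1 e2) e3
  have hR1 : 1 ≤ R := by
    rw [hRC]
    exact one_le_mul_of_one_le_of_one_le hC0pos hQ
  have hCR : C0 ≤ R := by
    rw [hRC]
    nlinarith
  intro l0
  induction l0 with
  | zero =>
    intro n m ν hn hnm hν _ _ _
    have hnm' : n ≤ m := by simpa using hnm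
    have h1 := hT6 S hSk o n (⌈4 * S.E ^ n⌉₊ + 1) nl c0 (ν 0) (hν 0) hn hnl hc
      (pSep_trivial S o n (ν 0) (hν 0))
    refine ⟨_, ?_, h1⟩
    have h2 := rec_nat_bound S.N n nl (CL * c0) (⌈4 * S.E ^ n⌉₊ + 1) hn hA (by omega)
    have h3 : ((((n + 1) * (2 * nl) * (⌈4 * S.E ^ n⌉₊ + 1) + 2) * ((CL * c0) ^ n + 1) : ℕ) : ℝ) ≤
        C0 * ((⌈4 * S.E ^ n⌉₊ : ℝ) + 1) := by
      have h4 : ((((n + 1) * (2 * nl) * (⌈4 * S.E ^ n⌉₊ + 1) + 2) * ((CL * c0) ^ n + 1) : ℕ) : ℝ) ≤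
        ((2 * (S.N + 1) * (nl + 1) * ((CL * c0) ^ S.N + 1) * (⌈4 * S.E ^ n⌉₊ + 1) : ℕ) : ℝ) := by
        exact_mod_cast h2
      refine h4.trans (le_of_eq ?_)
      rw [hC0]
      push_cast
      ring
    have hEn : (1 : ℝ) ≤ S.E ^ n := one_le_pow₀ hE
    have hEm : S.E ^ n ≤ S.E ^ m := pow_le_pow_right₀ hE hnm'
    have h5 : (⌈4 * S.E ^ n⌉₊ : ℝ) < 4 * S.E ^ n + 1 := Nat.ceil_lt_add_one (by positivity)
    have h6 : C0 * ((⌈4 * S.E ^ n⌉₊ : ℝ) + 1) ≤ R * (6 * S.E ^ m) := by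
      apply mul_le_mul hCR _ (by positivity) (by linarith)
      linarith
    have h7 : (2 : ℝ) ≤ 7 * S.E ^ m := by linarith
    have h8 : (0 : ℝ) ≤ R * S.E ^ m := by positivity
    calc _ ≤ R * (6 * S.E ^ m) + 2 := by linarith [h3.trans h6]
      _ ≤ 7 * (R + 1) ^ (0 + 1) * S.E ^ m := by
        rw [zero_add, pow_one]
        nlinarith
  | succ l0 ih =>
    intro n m ν hn hnm hν hmono hLD hsm
    obtain ⟨b, hb, hPb⟩ := ih ((n + 1) / 2) m (fun d => ν (d + 1)) (by omega)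
      (by
        rw [pow_succ] at hnm
        have : 2 ^ l0 * 2 * m = 2 * (2 ^ l0 * m) := by ring
        omega)
      (fun d => hν (d + 1)) (fun d => hmono (d + 1))
      (fun d hd => hLD (d + 1) (by omega)) (fun d hd => hsm (d + 1) (by omega))
    have hPb1 : PNice S ((n + 1) / 2) (ν (0 + 1)) b := hPb
    have hPb0 : PNice S ((n + 1) / 2) (ν 0) b := rec_pNice_mono S _ b _ _ (hmono 0) hPb1
    have hsep := pSep_of_pNice S o n ((n + 1) / 2) b s Nw (ν 0) (ν (0 + 1)) (hν 0) (hν (0 + 1))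
      hPb0 hPb1 (hLD 0 (by omega)) (hsm 0 (by omega)) hNw (by omega)
    set B : ℕ := (b + s * (b + 2) + 2) * (Nw + 1) * (1 + S.k * s) with hB
    have hB1 : 1 ≤ B := by
      rw [hB]
      have : 0 < (b + s * (b + 2) + 2) * (Nw + 1) * (1 + S.k * s) := by positivity
      exact this
    have h1 := hT6 S hSk o n B nl c0 (ν 0) (hν 0) hn hnl hc hsep
    refine ⟨_, ?_, h1⟩
    have h2 := rec_nat_bound S.N n nl (CL * c0) B hn hA hB1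
    have h3 : ((((n + 1) * (2 * nl) * B + 2) * ((CL * c0) ^ n + 1) : ℕ) : ℝ) ≤ C0 * (B : ℝ) := by
      have h4 : ((((n + 1) * (2 * nl) * B + 2) * ((CL * c0) ^ n + 1) : ℕ) : ℝ) ≤
        ((2 * (S.N + 1) * (nl + 1) * ((CL * c0) ^ S.N + 1) * B : ℕ) : ℝ) := by
        exact_mod_cast h2
      refine h4.trans (le_of_eq ?_)
      rw [hC0]
      push_cast
      ring
    have h5 : C0 * (B : ℝ) = R * ((b : ℝ) + 2) := by
      rw [hRC, hB, hSk]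
      push_cast
      ring
    have hEm : (1 : ℝ) ≤ S.E ^ m := one_le_pow₀ hE
    have hpow : (1 : ℝ) ≤ (R + 1) ^ (l0 + 1) := one_le_pow₀ (by linarith)
    have h6 : (2 : ℝ) ≤ 7 * (R + 1) ^ (l0 + 1) * S.E ^ m := by
      have : (1 : ℝ) ≤ (R + 1) ^ (l0 + 1) * S.E ^ m := one_le_mul_of_one_le_of_one_le hpow hEm
      nlinarith
    calc _ ≤ R * ((b : ℝ) + 2) + 2 := by linarith [h3.trans (le_of_eq h5)]
      _ ≤ R * (7 * (R + 1) ^ (l0 + 1) * S.E ^ m) + 7 * (R + 1) ^ (l0 + 1) * S.E ^ m := by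
        have := mul_le_mul_of_nonneg_left hb (by linarith : (0 : ℝ) ≤ R)
        linarith
      _ = 7 * (R + 1) ^ (l0 + 1 + 1) * S.E ^ m := by ring

/-- T8. Recursion over `l0` halvings. -/
theorem recursion (k : ℕ) (hk : 2 ≤ k) : ∃ CL : ℕ, 1 ≤ CL ∧ ∀ S : DSys, S.k = k →
    ∀ (o : Bool → ℝ) (l0 nl c0 s Nw : ℕ) (ν : ℕ → ℝ), (∀ d, 0 < ν d) →
    (∀ d, ν (d + 1) ≤ ν d) →
    2 * S.U / S.r + 7 ≤ nl → 1 ≤ c0 → 2 * S.E ≤ (c0 : ℝ) ^ k →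
    (∀ d, d < l0 → LineDec S o (ν (d + 1)) s) →
    (∀ d, d < l0 → S.E ^ S.N * (S.r / ν d) * ν (d + 1) < S.r / 4) →
    32 * S.E ^ S.N < (Nw : ℝ) ^ S.k →
    ∃ b : ℕ, (b : ℝ) ≤ 7 * (Rfac S.N nl CL c0 s Nw k + 1) ^ (l0 + 1) * S.E ^ (S.N / 2 ^ l0 + 1) ∧
      PNice S S.N (ν 0) b := by
  obtain ⟨CL, hCL, hT6⟩ := pNice_of_pSep k hk
  refine ⟨CL, hCL, ?_⟩
  intro S hSk o l0 nl c0 s Nw ν hν hmono hnl hc0 hc hLD hsm hNw
  obtain ⟨b, hb, hP⟩ := rec_aux k CL hCL hT6 S hSk o nl c0 s Nw hnl hc0 hc hNw l0 S.N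
    (S.N / 2 ^ l0 + 1) ν le_rfl
    (Nat.le_of_lt (by
      have := Nat.lt_mul_div_succ S.N (Nat.pos_of_ne_zero (pow_ne_zero l0 (two_ne_zero)) : 0 < 2 ^ l0)
      exact this)) hν hmono hLD hsm
  exact ⟨b, by linarith, hP⟩

end Pool.Agent.ES38
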