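import Pool.Agent.ES38.MainSys
import Pool.Agent.ES38.Recursion
import Pool.Agent.ES38.LengthLe
open Set Real
open scoped ContDiff
namespace Pool.Agent.ES38

theorem LineDec.mono {S : DSys} {o : Bool → ℝ} {ν : ℝ} {s s' : ℕ} (h : LineDec S o ν s)
    (hs : s ≤ s') : LineDec S o ν s' := by
  intro j hj p l z0
  obtain ⟨n, hn, rest⟩ := h j hj p l z0
  exact ⟨n, hn.trans hs, rest⟩

theorem cnt_anti (C k : ℕ) (hk : 2 ≤ k) (M ν ν' : ℝ) (hM : 1 ≤ M) (hν' : 0 < ν')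
    (h : ν' ≤ ν) (h1 : ν ≤ 1) : cnt C k M ν ≤ cnt C k M ν' := by
  unfold cnt
  apply Nat.ceil_mono
  have hν : 0 < ν := lt_of_lt_of_le hν' h
  have h2 : M / ν ≤ M / ν' := div_le_div_of_nonneg_left (by linarith) hν' h
  have h3 : 1 ≤ M / ν := by
    rw [le_div_iff₀ hν]
    linarith
  have h4 : 0 ≤ Real.log (M / ν) := Real.log_nonneg h3
  have h5 : Real.log (M / ν) ≤ Real.log (M / ν') := Real.log_le_log (by linarith) h2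
  have hk' : (0 : ℝ) ≤ 1 / ((k : ℝ) - 1) := by
    have : (2 : ℝ) ≤ k := by exact_mod_cast hk
    apply div_nonneg zero_le_one
    linarith
  have h6 : (M / ν) ^ ((1 : ℝ) / (k - 1)) ≤ (M / ν') ^ ((1 : ℝ) / (k - 1)) :=
    Real.rpow_le_rpow (by linarith) h2 hk'
  have h7 : 0 ≤ (M / ν) ^ ((1 : ℝ) / (k - 1)) := Real.rpow_nonneg (by linarith) _
  gcongr

theorem ceil_rpow_pow (x : ℝ) (hx : 0 ≤ x) (k : ℕ) (hk : k ≠ 0) :
    x ≤ (⌈x ^ ((1 : ℝ) / k)⌉₊ : ℝ) ^ k := by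
  have h1 : x ^ ((1 : ℝ) / k) ≤ (⌈x ^ ((1 : ℝ) / k)⌉₊ : ℝ) := Nat.le_ceil _
  have h2 : x = (x ^ ((1 : ℝ) / k)) ^ k := by
    rw [one_div, Real.rpow_inv_natCast_pow hx hk]
  calc x = (x ^ ((1 : ℝ) / k)) ^ k := h2
    _ ≤ _ := pow_le_pow_left₀ (Real.rpow_nonneg hx _) h1 k

/-- The number of pieces of a grid line. -/
noncomputable def sNum (CD Cl k l0 N : ℕ) (E r U Mq ρ : ℝ) : ℕ :=
  ⌊CD * (U + 1) / (r * (r / Cl))⌋₊ * cnt Cl k Mq (ρ / E ^ N / (5 * E ^ N) ^ l0)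

/-- The final bound of the number of cuts. -/
noncomputable def bNum (CD Cl CL k l0 N : ℕ) (E r U Mq ρ : ℝ) : ℝ :=
  7 * (Rfac N ⌈2 * U / r + 7⌉₊ CL ⌈(2 * E) ^ ((1 : ℝ) / k)⌉₊ (sNum CD Cl k l0 N E r U Mq ρ)
    ⌈(33 * E ^ N) ^ ((1 : ℝ) / k)⌉₊ k + 1) ^ (l0 + 1) * E ^ (N / 2 ^ l0 + 1)

theorem bound_N (k : ℕ) (hk : 2 ≤ k) : ∃ Cl Cg CL : ℕ, 1 ≤ Cl ∧ 1 ≤ Cg ∧ 1 ≤ CL ∧
    ∀ (D : Set ℂ) (CD : ℕ), (∀ r : ℝ, 0 < r → r ≤ 1 → ∃ o : Bool → ℝ,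
      ∀ (p : Bool) (l : ℤ) (z0 : ℂ) (R ls : ℝ), 1 ≤ R → 0 < ls → ls ≤ 1 →
      ∃ n : ℕ, (n : ℝ) ≤ CD * R / (r * ls) ∧ ∃ P V : ℕ → ℂ,
        (∀ m, m < n → ‖V m‖ ≤ ls ∧ ∀ x ∈ Icc (0 : ℝ) 1, P m + x * V m ∈ closure D ∧
          coord p (P m + x * V m) = o p + l * r) ∧
        (∀ z ∈ closure D, coord p z = o p + l * r → ‖z - z0‖ ≤ R →
          ∃ m, m < n ∧ ∃ x ∈ Icc (0 : ℝ) 1, z = P m + x * V m)) →
    ∀ (u : ℝ → ℂ → ℂ) (Φ : ℝ → ℝ → ℂ → ℂ) (L : ℝ) (m N : ℕ) (M : ℝ)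
      (h : Hyp D u Φ L k m N M) (l0 : ℕ) (ρ η : ℝ) (A B : ℂ), 0 < ρ → ρ ≤ 1 → ‖B‖ ≤ 2 →
      (∀ x ∈ Icc (0 : ℝ) 1, A + x * B ∈ closure D) →
      (MeasureTheory.volume {x : ℝ | x ∈ Icc (0 : ℝ) 1 ∧
        |deriv (fun x : ℝ => curl (u 0) (A + x * B)) x| ≤ 2 * ρ}).toReal ≤ η →
      ∫ x in (0 : ℝ)..1, ‖deriv (fun x : ℝ => Φ (N * m) 0 (A + x * B)) x‖ ≤
        2 * (mkSys h).E ^ N * η + (cnt Cg k (2 ^ (k + 1) * M) ρ) *
          (⌈(Cg : ℝ) / (mkSys h).r⌉₊ + 2) *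
          (bNum CD Cl CL k l0 N (mkSys h).E (mkSys h).r (mkSys h).U (2 ^ (k + 1) * M) ρ + 5) := by
  obtain ⟨Cl, hCl1, hCl⟩ := lineDec k hk
  obtain ⟨Cg, hCg1, hCg⟩ := length_le k hk
  obtain ⟨CL, hCL1, hCL⟩ := recursion k hk
  refine ⟨Cl, Cg, CL, hCl1, hCg1, hCL1, ?_⟩
  intro D CD hDom u Φ L m N M h l0 ρ η A B hρ hρ1 hB hseg hvol
  set S := mkSys h with hS
  have hSk : S.k = k := rfl
  have hSN : S.N = N := rfl
  have hr := S.hr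
  have hr1 := S.hr1
  have hE := S.hE
  have hEN : 1 ≤ S.E ^ N := one_le_pow₀ hE
  have hCl' : (1 : ℝ) ≤ Cl := by exact_mod_cast hCl1
  have hM := h.hM
  have hMq : 1 ≤ 2 ^ (k + 1) * M := by
    have : (1 : ℝ) ≤ 2 ^ (k + 1) := one_le_pow₀ (by norm_num)
    nlinarith
  have hls : 0 < S.r / Cl := by positivity
  have hls1 : S.r / Cl ≤ 1 := by
    rw [div_le_one (by linarith)]
    linarith
  obtain ⟨o, ho⟩ := mkSys_lineCover CD hDom h (S.r / Cl) hls hls1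
  -- thresholds
  set ν : ℕ → ℝ := fun d => ρ / S.E ^ N / (5 * S.E ^ N) ^ d with hν
  have hνpos : ∀ d, 0 < ν d := fun d => by positivity
  have hνmono : ∀ d, ν (d + 1) ≤ ν d := by
    intro d
    simp only [hν]
    apply div_le_div_of_nonneg_left (by positivity) (by positivity)
    apply pow_le_pow_right₀ _ (Nat.le_succ d)
    linarith
  have hνanti : Antitone ν := antitone_nat_of_succ_le hνmono
  have hν1 : ∀ d, ν d ≤ 1 := by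
    intro d
    refine (hνanti (Nat.zero_le d)).trans ?_
    simp only [hν, pow_zero, div_one]
    rw [div_le_one (by linarith)]
    linarith
  have hQ := mkSys_qBound h
  have hLD : ∀ d, d < l0 → LineDec S o (ν (d + 1)) (sNum CD Cl k l0 N S.E S.r S.U
      (2 ^ (k + 1) * M) ρ) := by
    intro d hd
    have h1 := hCl S hSk o (S.r / Cl) _ (2 ^ (k + 1) * M) (ν (d + 1)) ho
      (fun j hj => hQ.qb hj (by linarith)) hMq
      (hνpos _) (hν1 _) (by rw [mul_div_cancel₀]; linarith) hls1 hls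
    refine h1.mono ?_
    unfold sNum
    exact Nat.mul_le_mul_left _ (cnt_anti Cl k hk _ _ _ hMq (hνpos _)
      (hνanti (by omega : d + 1 ≤ l0)) (hν1 _))
  have hk0 : k ≠ 0 := by omega
  have hc0 : 2 * S.E ≤ (⌈(2 * S.E) ^ ((1 : ℝ) / k)⌉₊ : ℝ) ^ k :=
    ceil_rpow_pow _ (by linarith) k hk0
  have hc01 : 1 ≤ ⌈(2 * S.E) ^ ((1 : ℝ) / k)⌉₊ := by
    apply Nat.one_le_iff_ne_zero.mpr
    intro h0
    rw [h0] at hc0
    simp [hk0] at hc0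
    linarith
  have hNw : 32 * S.E ^ S.N < (⌈(33 * S.E ^ N) ^ ((1 : ℝ) / k)⌉₊ : ℝ) ^ S.k := by
    have h1 := ceil_rpow_pow (33 * S.E ^ N) (by linarith) k hk0
    rw [hSk, hSN]
    linarith
  obtain ⟨b, hb, hPN⟩ := hCL S hSk o l0 ⌈2 * S.U / S.r + 7⌉₊
    ⌈(2 * S.E) ^ ((1 : ℝ) / k)⌉₊ (sNum CD Cl k l0 N S.E S.r S.U (2 ^ (k + 1) * M) ρ)
    ⌈(33 * S.E ^ N) ^ ((1 : ℝ) / k)⌉₊ ν hνpos hνmono (Nat.le_ceil _) hc01 hc0 hLD (by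
      intro d _
      simp only [hν]
      rw [hSN, pow_succ]
      have : S.E ^ N * (S.r / (ρ / S.E ^ N / (5 * S.E ^ N) ^ d)) *
          (ρ / S.E ^ N / ((5 * S.E ^ N) ^ d * (5 * S.E ^ N))) = S.r / 5 := by
        field_simp
      rw [this]
      linarith) hNw
  have hfin := hCg S hSk (2 ^ (k + 1) * M) ρ (ν 0) η b A B (hQ.qb (Nat.zero_le _) le_rfl) hMq hρ hρ1 (hνpos 0) hB hseg hPN
    (by
      have : S.q 0 = curl (u 0) := by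
        funext z
        change curl (u (((0 : ℕ) : ℝ) * m)) z = _
        simp
      rw [this]
      exact hvol)
  have e1 : ∀ z, S.F 0 S.N z = Φ (N * m) 0 z := by
    intro z
    change Φ (((N : ℕ) : ℝ) * m) (((0 : ℕ) : ℝ) * m) z = _
    simp
  simp only [e1] at hfin
  rw [hSN] at hfin hb
  refine hfin.trans ?_
  have e2 : 4 * S.E ^ N * ν 0 / ρ = 4 := by
    simp only [hν, pow_zero, div_one]
    field_simp
  rw [e2]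
  have e3 : ((b : ℝ) + 1) * S.r + 4 ≤
      bNum CD Cl CL k l0 N S.E S.r S.U (2 ^ (k + 1) * M) ρ + 5 := by
    have : (b : ℝ) ≤ bNum CD Cl CL k l0 N S.E S.r S.U (2 ^ (k + 1) * M) ρ := hb
    have hb0 : (0 : ℝ) ≤ b := Nat.cast_nonneg b
    nlinarith
  have e4 : (0 : ℝ) ≤ (cnt Cg k (2 ^ (k + 1) * M) ρ : ℝ) * (⌈(Cg : ℝ) / S.r⌉₊ + 2) := by
    positivity
  have := mul_le_mul_of_nonneg_left e3 e4
  linarith

end Pool.Agent.ES38
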