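import Pool.Agent.ES38.EulerCurl
import Pool.Agent.ES38.FlowStep
import Pool.Agent.ES38.LineDecF
import Pool.Agent.ES38.DomainLines
open Set Real
open scoped ContDiff
namespace Pool.Agent.ES38

/-- All hypotheses on the flow, up to the horizon `m * N`. -/
structure Hyp (D : Set ℂ) (u : ℝ → ℂ → ℂ) (Φ : ℝ → ℝ → ℂ → ℂ) (L : ℝ) (k m N : ℕ) (M : ℝ) :
    Prop where
  euler : IsEuler D u
  flow : IsFlow u Φ
  inv : ∀ s t, 0 ≤ s → 0 ≤ t → ∀ x ∈ D, Φ t s x ∈ D
  hL : ∀ t, 0 ≤ t → ∀ x, ‖fderiv ℝ (u t) x‖ ≤ L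
  hL1 : 1 ≤ L
  hk : 2 ≤ k
  hm : 1 ≤ m
  hM : 1 ≤ M
  bd : ∀ t, 0 ≤ t → t ≤ (m * N : ℝ) → ∀ x, ∀ a, a ≤ k + 1 → ‖iteratedFDeriv ℝ a (u t) x‖ ≤ M

/-- The constant of `flow_step`. -/
noncomputable def cstep (k m : ℕ) (L : ℝ) (hm : (0 : ℝ) < m) (hL : 0 ≤ L) : ℝ :=
  (flow_step k m L hm hL).choose

variable {D : Set ℂ} {u : ℝ → ℂ → ℂ} {Φ : ℝ → ℝ → ℂ → ℂ} {L : ℝ} {k m N : ℕ} {M : ℝ}

theorem contDiff_slice (hu : ContDiff ℝ ∞ (fun p : ℝ × ℂ => u p.1 p.2)) (t : ℝ) :
    ContDiff ℝ ∞ (u t) := by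
  have : u t = (fun p : ℝ × ℂ => u p.1 p.2) ∘ (fun x : ℂ => (t, x)) := rfl
  rw [this]
  exact hu.comp (by fun_prop)

theorem IsFlow.contDiff_map (h : IsFlow u Φ) (t s : ℝ) : ContDiff ℝ ∞ (Φ t s) := by
  have : Φ t s = (fun p : ℝ × ℝ × ℂ => Φ p.1 p.2.1 p.2.2) ∘ (fun x : ℂ => (t, s, x)) := rfl
  rw [this]
  exact h.smooth.comp (by fun_prop)

theorem mapsTo_closure (h : Hyp D u Φ L k m N M) {s t : ℝ} (hs : 0 ≤ s) (ht : 0 ≤ t) {x : ℂ}
    (hx : x ∈ closure D) : Φ t s x ∈ closure D := by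
  have hc : Continuous (Φ t s) := (h.flow.contDiff_map t s).continuous
  exact map_mem_closure hc hx (fun y hy => h.inv s t hs ht y hy)

/-- The discrete system of a flow. -/
noncomputable def mkSys (h : Hyp D u Φ L k m N M) : DSys where
  k := k
  N := N
  E := Real.exp (L * m)
  r := cstep k m L (by exact_mod_cast h.hm) (by linarith [h.hL1]) / M
  U := M * (m * N)
  F := fun i j z => Φ (j * m) (i * m) z
  q := fun j z => curl (u (j * m)) z
  D := closure D
  hk := h.hk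
  hE := by
    have h1 : 0 ≤ L * m := mul_nonneg (by linarith [h.hL1]) (Nat.cast_nonneg _)
    exact Real.one_le_exp h1
  hr := div_pos (flow_step k m L (by exact_mod_cast h.hm)
    (by linarith [h.hL1])).choose_spec.1 (by linarith [h.hM])
  hr1 := by
    have h1 := (flow_step k m L (by exact_mod_cast h.hm) (by linarith [h.hL1])).choose_spec.2.1
    rw [div_le_one (by linarith [h.hM])]
    exact h1.trans h.hM
  hU := by
    have := h.hM
    positivity
  smoothF := fun i j _ _ => h.flow.contDiff_map _ _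
  F_self := fun i _ z => h.flow.init _ (by positivity) z
  F_comp := fun i j l _ _ _ z =>
    h.flow.group L h.hL _ _ _ (by positivity) (by positivity) (by positivity) z
  lip := by
    intro i j hi hj z w
    have h1 := h.flow.lip L h.hL (i * m) (j * m) (by positivity) (by positivity) z w
    refine h1.trans (le_of_eq ?_)
    congr 1
    rw [← Real.exp_nat_mul]
    congr 1
    have h2 : |(j * m : ℝ) - i * m| = (Nat.dist i j : ℝ) * m := by
      rw [← sub_mul, abs_mul, Nat.abs_cast]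
      congr 1
      rcases le_total i j with hij | hij
      · rw [Nat.dist_eq_sub_of_le hij, Nat.cast_sub hij, abs_of_nonneg]
        have : (i : ℝ) ≤ j := by exact_mod_cast hij
        linarith
      · rw [Nat.dist_eq_sub_of_le_right hij, Nat.cast_sub hij, abs_of_nonpos]
        · ring
        · have : (j : ℝ) ≤ i := by exact_mod_cast hij
          linarith
    rw [h2]
    ring
  disp := by
    intro i j hi hj z
    have hi' : (i : ℝ) ≤ N := by exact_mod_cast hi
    have hj' : (j : ℝ) ≤ N := by exact_mod_cast hj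
    have hm0 : (0 : ℝ) ≤ m := Nat.cast_nonneg _
    have hi0 : (0 : ℝ) ≤ i := Nat.cast_nonneg _
    have hj0 : (0 : ℝ) ≤ j := Nat.cast_nonneg _
    have a1 : (i : ℝ) * m ≤ m * N := by nlinarith
    have a2 : (j : ℝ) * m ≤ m * N := by nlinarith
    have a3 : (0 : ℝ) ≤ i * m := by positivity
    have a4 : (0 : ℝ) ≤ j * m := by positivity
    have h1 := h.flow.disp (m * N) M (by
      intro t ht htT x
      have := h.bd t ht htT x 0 (by omega)
      simpa using this) (i * m) (j * m) a3 a1 a4 a2 z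
    refine h1.trans (mul_le_mul_of_nonneg_left ?_ (by linarith [h.hM]))
    rw [abs_le]
    constructor <;> linarith
  step := by
    intro i j hi hj hd σ hσ c l ρ hl hρ hρr hh a ha1 ha2
    have hi' : (i : ℝ) ≤ N := by exact_mod_cast hi
    have hj' : (j : ℝ) ≤ N := by exact_mod_cast hj
    have hm0 : (0 : ℝ) ≤ m := Nat.cast_nonneg _
    have hi0 : (0 : ℝ) ≤ i := Nat.cast_nonneg _
    have hj0 : (0 : ℝ) ≤ j := Nat.cast_nonneg _
    have a1 : (i : ℝ) * m ≤ m * N := by nlinarith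
    have a2 : (j : ℝ) * m ≤ m * N := by nlinarith
    have a3 : (0 : ℝ) ≤ i * m := by positivity
    have a4 : (0 : ℝ) ≤ j * m := by positivity
    have h2 : |(j * m : ℝ) - i * m| = m := by
      rcases le_total i j with hij | hij
      · rw [Nat.dist_eq_sub_of_le hij] at hd
        have : j = i + 1 := by omega
        subst this
        push_cast
        rw [show ((i : ℝ) + 1) * m - i * m = m by ring, Nat.abs_cast]
      · rw [Nat.dist_eq_sub_of_le_right hij] at hd
        have : i = j + 1 := by omega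
        subst this
        push_cast
        rw [show (j : ℝ) * m - (j + 1) * m = -m by ring, abs_neg, Nat.abs_cast]
    exact (flow_step k m L (by exact_mod_cast h.hm) (by linarith [h.hL1])).choose_spec.2.2
      u Φ h.flow (m * N) M h.hM (fun t ht _ x => h.hL t ht x)
      (fun t ht htT x a _ ha => h.bd t ht htT x a (by omega))
      (i * m) (j * m) a3 a1 a4 a2 h2.le σ hσ c l ρ hl hρ hρr hh a ha1 ha2
  D_inv := fun i j _ _ z hz => mapsTo_closure h (by positivity) (by positivity) hz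
  q_cons := fun i j _ _ z hz =>
    curl_conserved h.euler h.flow h.inv _ _ (by positivity) (by positivity) z hz

theorem mkSys_qBound (h : Hyp D u Φ L k m N M) : QBound (mkSys h) (2 ^ (k + 1) * M) := by
  intro j hj P V hV _
  have hj' : (j : ℝ) ≤ N := by exact_mod_cast (show j ≤ N from hj)
  have hm0 : (0 : ℝ) ≤ m := Nat.cast_nonneg _
  have hj0 : (0 : ℝ) ≤ j := Nat.cast_nonneg _
  have a2 : (j : ℝ) * m ≤ m * N := by nlinarith
  have h1 := curl_line_bound k (u (j * m)) (contDiff_slice h.flow.smooth_u _) M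
    (fun a ha x => h.bd _ (by positivity) a2 x a ha) P V hV
  exact ⟨h1.1, fun a ha1 ha2 x _ => h1.2 a ha1 ha2 x⟩

theorem mkSys_lineCover (C : ℕ) (hS : ∀ r : ℝ, 0 < r → r ≤ 1 → ∃ o : Bool → ℝ,
      ∀ (p : Bool) (l : ℤ) (z0 : ℂ) (R ls : ℝ), 1 ≤ R → 0 < ls → ls ≤ 1 →
      ∃ n : ℕ, (n : ℝ) ≤ C * R / (r * ls) ∧ ∃ P V : ℕ → ℂ,
        (∀ m, m < n → ‖V m‖ ≤ ls ∧ ∀ x ∈ Icc (0 : ℝ) 1, P m + x * V m ∈ closure D ∧
          coord p (P m + x * V m) = o p + l * r) ∧
        (∀ z ∈ closure D, coord p z = o p + l * r → ‖z - z0‖ ≤ R →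
          ∃ m, m < n ∧ ∃ x ∈ Icc (0 : ℝ) 1, z = P m + x * V m))
    (h : Hyp D u Φ L k m N M) (ls : ℝ) (hls : 0 < ls) (hls1 : ls ≤ 1) :
    ∃ o, LineCover (mkSys h) o ls ⌊C * ((mkSys h).U + 1) / ((mkSys h).r * ls)⌋₊ := by
  obtain ⟨o, ho⟩ := hS (mkSys h).r (mkSys h).hr (mkSys h).hr1
  refine ⟨o, fun p l z0 => ?_⟩
  obtain ⟨n, hn, P, V, h1, h2⟩ := ho p l z0 ((mkSys h).U + 1) ls (by linarith [(mkSys h).hU])
    hls hls1
  exact ⟨n, Nat.le_floor hn, P, V, h1, h2⟩

end Pool.Agent.ES38
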