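import Pool.Agent.ES38.EulerCurl
import Pool.Agent.ES38.FlowStepQ
import Pool.Agent.ES38.LineDecF
import Pool.Agent.ES38.DomainLines
import Pool.Agent.ES38.MainSys
open Set Real
open scoped ContDiff
namespace Pool.Agent.ES38

/-- Scaled derivative bounds of the vorticity along short straight lines. -/
theorem curl_line_scaled (k : ℕ) (v : ℂ → ℂ) (hv : ContDiff ℝ ∞ v) (M : ℝ) (hM1 : 1 ≤ M)
    (hM : ∀ a, 2 ≤ a → a ≤ k + 1 → ∀ x, ‖iteratedFDeriv ℝ a v x‖ ≤ M ^ (a - 1)) (P V : ℂ)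
    (hV : ‖V‖ ≤ M⁻¹) :
    ContDiff ℝ ∞ (fun x : ℝ => curl v (P + x * V)) ∧
    ∀ a, 1 ≤ a → a ≤ k → ∀ x : ℝ,
      |iteratedDeriv a (fun x : ℝ => curl v (P + x * V)) x| ≤ 2 := by
  have hM0 : 0 < M := by linarith
  have hdv : ContDiff ℝ ∞ (fderiv ℝ v) := hv.fderiv_right (m := ∞) (by simp)
  let ℓ : ℝ →L[ℝ] ℂ := (ContinuousLinearMap.id ℝ ℝ).smulRight V
  have hℓ : ‖ℓ‖ ≤ M⁻¹ := by
    refine ContinuousLinearMap.opNorm_le_bound _ (by positivity) fun x => ?_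
    change ‖x • V‖ ≤ M⁻¹ * ‖x‖
    rw [norm_smul, mul_comm]
    exact mul_le_mul_of_nonneg_right hV (norm_nonneg _)
  -- the field along the line
  set w : ℂ → (ℂ →L[ℝ] ℂ) := fun z => fderiv ℝ v (P + z) with hw
  have hwc : ContDiff ℝ ∞ w := hdv.comp (contDiff_const.add contDiff_id)
  have hfun : (fun x : ℝ => curl v (P + x * V)) = fun x => curlFun ((w ∘ ℓ) x) := by
    ext x
    rw [curl_eq]
    rfl
  have hwl : ContDiff ℝ ∞ (w ∘ ℓ) := hwc.comp ℓ.contDiff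
  refine ⟨?_, ?_⟩
  · rw [hfun]
    exact curlFun.contDiff.comp hwl
  · intro a ha1 hak x
    rw [← Real.norm_eq_abs, ← norm_iteratedFDeriv_eq_norm_iteratedDeriv, hfun]
    have h1 : ‖iteratedFDeriv ℝ a (fun x => curlFun ((w ∘ ℓ) x)) x‖ ≤
        ‖curlFun‖ * ‖iteratedFDeriv ℝ a (w ∘ ℓ) x‖ := by
      exact curlFun.norm_iteratedFDeriv_comp_left (hwl.contDiffAt.of_le (by exact_mod_cast le_top)) le_rfl
    have h2 : ‖iteratedFDeriv ℝ a (w ∘ ℓ) x‖ ≤ ‖iteratedFDeriv ℝ a w (ℓ x)‖ * ‖ℓ‖ ^ a := by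
      rw [ContinuousLinearMap.iteratedFDeriv_comp_right ℓ hwc x (by exact_mod_cast le_top)]
      refine (ContinuousMultilinearMap.norm_compContinuousLinearMap_le _ _).trans ?_
      rw [Finset.prod_const, Finset.card_univ, Fintype.card_fin]
    have h3 : ‖iteratedFDeriv ℝ a w (ℓ x)‖ ≤ M ^ a := by
      rw [hw, iteratedFDeriv_comp_add_left, norm_iteratedFDeriv_fderiv]
      have := hM (a + 1) (by omega) (by omega) (P + ℓ x)
      rwa [Nat.add_sub_cancel] at this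
    have h4 : ‖ℓ‖ ^ a ≤ M⁻¹ ^ a := pow_le_pow_left₀ (norm_nonneg _) hℓ _
    calc _ ≤ ‖curlFun‖ * ‖iteratedFDeriv ℝ a (w ∘ ℓ) x‖ := h1
      _ ≤ 2 * (M ^ a * M⁻¹ ^ a) := by
        refine mul_le_mul norm_curlFun ?_ (norm_nonneg _) (by norm_num)
        refine h2.trans (mul_le_mul h3 h4 (by positivity) (by positivity))
      _ = 2 := by
        rw [← mul_pow, mul_inv_cancel₀ hM0.ne', one_pow, mul_one]

/-- All hypotheses on the flow, up to the horizon `m * N`, with scaled derivative bounds. -/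
structure HypQ (D : Set ℂ) (u : ℝ → ℂ → ℂ) (Φ : ℝ → ℝ → ℂ → ℂ) (L : ℝ) (k m N : ℕ) (V M M0 : ℝ) :
    Prop where
  euler : IsEuler D u
  flow : IsFlow u Φ
  inv : ∀ s t, 0 ≤ s → 0 ≤ t → ∀ x ∈ D, Φ t s x ∈ D
  hL : ∀ t, 0 ≤ t → ∀ x, ‖fderiv ℝ (u t) x‖ ≤ L
  hL0 : 0 ≤ L
  hk : 2 ≤ k
  hm : 1 ≤ m
  hM : 1 ≤ M
  hM0 : 1 ≤ M0
  hV : 0 ≤ V
  bv : ∀ t, 0 ≤ t → t ≤ (m * N : ℝ) → ∀ x, ‖u t x‖ ≤ V
  bd : ∀ t, 0 ≤ t → t ≤ (m * N : ℝ) → ∀ x, ∀ a, 2 ≤ a → a ≤ k + 1 →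
    ‖iteratedFDeriv ℝ a (u t) x‖ ≤ M ^ (a - 1)
  b0 : ∀ x, ∀ a, a ≤ k + 1 → ‖iteratedFDeriv ℝ a (u 0) x‖ ≤ M0

/-- The constant of `flow_step_scaled`. -/
noncomputable def cstepQ (k m : ℕ) (L : ℝ) (hm : (0 : ℝ) < m) (hL : 0 ≤ L) : ℝ :=
  (flow_step_scaled k m L hm hL).choose

variable {D : Set ℂ} {u : ℝ → ℂ → ℂ} {Φ : ℝ → ℝ → ℂ → ℂ} {L : ℝ} {k m N : ℕ} {V M M0 : ℝ}

theorem mapsTo_closureQ (h : HypQ D u Φ L k m N V M M0) {s t : ℝ} (hs : 0 ≤ s) (ht : 0 ≤ t)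
    {x : ℂ} (hx : x ∈ closure D) : Φ t s x ∈ closure D := by
  have hc : Continuous (Φ t s) := (h.flow.contDiff_map t s).continuous
  exact map_mem_closure hc hx (fun y hy => h.inv s t hs ht y hy)

/-- The discrete system of a flow. -/
noncomputable def mkSysQ (h : HypQ D u Φ L k m N V M M0) : DSys where
  k := k
  N := N
  E := Real.exp (L * m)
  r := cstepQ k m L (by exact_mod_cast h.hm) h.hL0 / M
  U := V * (m * N)
  F := fun i j z => Φ (j * m) (i * m) z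
  q := fun j z => curl (u (j * m)) z
  D := closure D
  hk := h.hk
  hE := by
    have h1 : 0 ≤ L * m := mul_nonneg h.hL0 (Nat.cast_nonneg _)
    exact Real.one_le_exp h1
  hr := div_pos (flow_step_scaled k m L (by exact_mod_cast h.hm)
    h.hL0).choose_spec.1 (by linarith [h.hM])
  hr1 := by
    have h1 := (flow_step_scaled k m L (by exact_mod_cast h.hm) h.hL0).choose_spec.2.1
    rw [div_le_one (by linarith [h.hM])]
    exact h1.trans h.hM
  hU := by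
    have := h.hV
    positivity
  smoothF := fun i j _ _ => h.flow.contDiff_map _ _
  F_self := fun i _ z => h.flow.init _ (by positivity) z
  F_comp := fun i j l _ _ _ z =>
    h.flow.group L h.hL _ _ _ (by positivity) (by positivity) (by positivity) z
  lip := by
    intro i j hi hj z w
    have h1 := h.flow.lip L h.hL (i * m) (j * m) (by positivity) (by positivity) z w
    refine h1.trans (le_of_eq ?_)
    congr 1
    rw [← Real.exp_nat_mul]
    congr 1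
    have h2 : |(j * m : ℝ) - i * m| = (Nat.dist i j : ℝ) * m := by
      rw [← sub_mul, abs_mul, Nat.abs_cast]
      congr 1
      rcases le_total i j with hij | hij
      · rw [Nat.dist_eq_sub_of_le hij, Nat.cast_sub hij, abs_of_nonneg]
        have : (i : ℝ) ≤ j := by exact_mod_cast hij
        linarith
      · rw [Nat.dist_eq_sub_of_le_right hij, Nat.cast_sub hij, abs_of_nonpos]
        · ring
        · have : (j : ℝ) ≤ i := by exact_mod_cast hij
          linarith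
    rw [h2]
    ring
  disp := by
    intro i j hi hj z
    have hi' : (i : ℝ) ≤ N := by exact_mod_cast hi
    have hj' : (j : ℝ) ≤ N := by exact_mod_cast hj
    have hm0 : (0 : ℝ) ≤ m := Nat.cast_nonneg _
    have hi0 : (0 : ℝ) ≤ i := Nat.cast_nonneg _
    have hj0 : (0 : ℝ) ≤ j := Nat.cast_nonneg _
    have a1 : (i : ℝ) * m ≤ m * N := by nlinarith
    have a2 : (j : ℝ) * m ≤ m * N := by nlinarith
    have a3 : (0 : ℝ) ≤ i * m := by positivity
    have a4 : (0 : ℝ) ≤ j * m := by positivity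
    have h1 := h.flow.disp (m * N) V (by
      intro t ht htT x
      exact h.bv t ht htT x) (i * m) (j * m) a3 a1 a4 a2 z
    refine h1.trans (mul_le_mul_of_nonneg_left ?_ h.hV)
    rw [abs_le]
    constructor <;> linarith
  step := by
    intro i j hi hj hd σ hσ c l ρ hl hρ hρr hh a ha1 ha2
    have hi' : (i : ℝ) ≤ N := by exact_mod_cast hi
    have hj' : (j : ℝ) ≤ N := by exact_mod_cast hj
    have hm0 : (0 : ℝ) ≤ m := Nat.cast_nonneg _
    have hi0 : (0 : ℝ) ≤ i := Nat.cast_nonneg _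
    have hj0 : (0 : ℝ) ≤ j := Nat.cast_nonneg _
    have a1 : (i : ℝ) * m ≤ m * N := by nlinarith
    have a2 : (j : ℝ) * m ≤ m * N := by nlinarith
    have a3 : (0 : ℝ) ≤ i * m := by positivity
    have a4 : (0 : ℝ) ≤ j * m := by positivity
    have h2 : |(j * m : ℝ) - i * m| = m := by
      rcases le_total i j with hij | hij
      · rw [Nat.dist_eq_sub_of_le hij] at hd
        have : j = i + 1 := by omega
        subst this
        push_cast
        rw [show ((i : ℝ) + 1) * m - i * m = m by ring, Nat.abs_cast]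
      · rw [Nat.dist_eq_sub_of_le_right hij] at hd
        have : i = j + 1 := by omega
        subst this
        push_cast
        rw [show (j : ℝ) * m - (j + 1) * m = -m by ring, abs_neg, Nat.abs_cast]
    exact (flow_step_scaled k m L (by exact_mod_cast h.hm) h.hL0).choose_spec.2.2
      u Φ h.flow (m * N) M h.hM (fun t ht _ x => h.hL t ht x)
      (fun t ht htT x a ha2 ha => h.bd t ht htT x a ha2 (by omega))
      (i * m) (j * m) a3 a1 a4 a2 h2.le σ hσ c l ρ hl hρ hρr hh a ha1 ha2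
  D_inv := fun i j _ _ z hz => mapsTo_closureQ h (by positivity) (by positivity) hz
  q_cons := fun i j _ _ z hz =>
    curl_conserved h.euler h.flow h.inv _ _ (by positivity) (by positivity) z hz

theorem mkSysQ_qb (h : HypQ D u Φ L k m N V M M0) (j : ℕ) (hj : j ≤ N) :
    QB (mkSysQ h) j M⁻¹ 2 := by
  intro P W hW _
  have hj' : (j : ℝ) ≤ N := by exact_mod_cast hj
  have hm0 : (0 : ℝ) ≤ m := Nat.cast_nonneg _
  have hj0 : (0 : ℝ) ≤ j := Nat.cast_nonneg _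
  have a2 : (j : ℝ) * m ≤ m * N := by nlinarith
  have h1 := curl_line_scaled k (u (j * m)) (contDiff_slice h.flow.smooth_u _) M h.hM
    (fun a ha ha2 x => h.bd _ (by positivity) a2 x a ha ha2) P W hW
  exact ⟨h1.1, fun a ha1 ha2 x _ => h1.2 a ha1 ha2 x⟩

theorem mkSysQ_qb0 (h : HypQ D u Φ L k m N V M M0) : QB (mkSysQ h) 0 2 (2 ^ (k + 1) * M0) := by
  intro P W hW _
  have h0 : (mkSysQ h).q 0 = curl (u 0) := by
    funext z
    change curl (u (((0 : ℕ) : ℝ) * m)) z = _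
    simp
  rw [h0]
  have h1 := curl_line_bound k (u 0) (contDiff_slice h.flow.smooth_u _) M0
    (fun a ha x => h.b0 x a ha) P W hW
  exact ⟨h1.1, fun a ha1 ha2 x _ => h1.2 a ha1 ha2 x⟩

theorem mkSysQ_lineCover (C : ℕ) (hS : ∀ r : ℝ, 0 < r → r ≤ 1 → ∃ o : Bool → ℝ,
      ∀ (p : Bool) (l : ℤ) (z0 : ℂ) (R ls : ℝ), 1 ≤ R → 0 < ls → ls ≤ 1 →
      ∃ n : ℕ, (n : ℝ) ≤ C * R / (r * ls) ∧ ∃ P V : ℕ → ℂ,
        (∀ m, m < n → ‖V m‖ ≤ ls ∧ ∀ x ∈ Icc (0 : ℝ) 1, P m + x * V m ∈ closure D ∧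
          coord p (P m + x * V m) = o p + l * r) ∧
        (∀ z ∈ closure D, coord p z = o p + l * r → ‖z - z0‖ ≤ R →
          ∃ m, m < n ∧ ∃ x ∈ Icc (0 : ℝ) 1, z = P m + x * V m))
    (h : HypQ D u Φ L k m N V M M0) (ls : ℝ) (hls : 0 < ls) (hls1 : ls ≤ 1) :
    ∃ o, LineCover (mkSysQ h) o ls ⌊C * ((mkSysQ h).U + 1) / ((mkSysQ h).r * ls)⌋₊ := by
  obtain ⟨o, ho⟩ := hS (mkSysQ h).r (mkSysQ h).hr (mkSysQ h).hr1
  refine ⟨o, fun p l z0 => ?_⟩
  obtain ⟨n, hn, P, W, h1, h2⟩ := ho p l z0 ((mkSysQ h).U + 1) ls (by linarith [(mkSysQ h).hU])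
    hls hls1
  exact ⟨n, Nat.le_floor hn, P, W, h1, h2⟩

end Pool.Agent.ES38
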