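import Pool.Agent.ES38.Landau
import Pool.Agent.ES38.Refine
open Set Real
open scoped ContDiff
namespace Pool.Agent.ES38

/-- A subinterval of prescribed length. -/
private lemma nos_sub_interval {x' x y y' L : ℝ} (h1 : x' ≤ x) (h2 : y ≤ y') (h3 : y - x ≤ L)
    (h4 : L ≤ y' - x') : ∃ X, x' ≤ X ∧ X ≤ x ∧ y ≤ X + L ∧ X + L ≤ y' := by
  refine ⟨max x' (y - L), le_max_left _ _, max_le h1 (by linarith), ?_, ?_⟩
  · have := le_max_right x' (y - L)
    linarith
  · rcases max_cases x' (y - L) with h | h <;> linarith [h.1]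

private lemma nos_sub {k : ℕ} {r : ℝ} {σ : ℝ → ℂ} {a b x y : ℝ} (h : Nice k r σ a b)
    (h1 : a ≤ x) (h2 : x ≤ y) (h3 : y ≤ b) : Nice k r σ x y := by
  intro j hj1 hj2 c hc
  have hc' : c ∈ Icc a b := ⟨h1.trans hc.1, hc.2.trans h3⟩
  refine le_trans ?_ (h j hj1 hj2 c hc')
  have h4 : (y - x) ^ j ≤ (b - a) ^ j := pow_le_pow_left₀ (by linarith) (by linarith) j
  exact mul_le_mul_of_nonneg_right h4 (norm_nonneg _)

/-- The local Yomdin step. -/
private lemma nos_step (S : DSys) {CL c0 : ℕ} (hCL : 1 ≤ CL) (hc0 : 1 ≤ c0)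
    (hL : ∀ f : ℝ → ℂ, ContDiff ℝ ∞ f → ∀ (a b r : ℝ) (z : ℂ), a < b →
      (∀ x ∈ Icc a b, ‖f x - z‖ ≤ r) →
      (∀ x ∈ Icc a b, (b - a) ^ S.k * ‖iteratedDeriv S.k f x‖ ≤ r) →
      ∀ j, 1 ≤ j → j ≤ S.k → ∀ x ∈ Icc a b, (b - a) ^ j * ‖iteratedDeriv j f x‖ ≤ CL * r)
    (hE : 2 * S.E ≤ (c0 : ℝ) ^ S.k) {i j : ℕ} (hi : i ≤ S.N) (hj : j ≤ S.N)
    (hd : Nat.dist i j = 1) {τ : ℝ → ℂ} (hτ : ContDiff ℝ ∞ τ) {x y X Y : ℝ} (z : ℂ)
    (hxy : x < y) (h1 : X ≤ x) (h2 : y ≤ Y) (hlen : Y - X = (CL : ℝ) * c0 * (y - x))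
    (hN : Nice S.k S.r τ X Y) (hz : ∀ c ∈ Icc X Y, ‖S.F i j (τ c) - z‖ ≤ S.r) :
    Nice S.k S.r (fun c => S.F i j (τ c)) x y := by
  have hyx : 0 < y - x := by linarith
  have hCL' : (1 : ℝ) ≤ CL := by exact_mod_cast hCL
  have hc0' : (1 : ℝ) ≤ c0 := by exact_mod_cast hc0
  set L : ℝ := CL * (y - x) with hLdef
  have hLpos : 0 < L := by positivity
  have hlen' : Y - X = c0 * L := by rw [hlen, hLdef]; ring
  obtain ⟨X', hX1, hX2, hX3, hX4⟩ := nos_sub_interval (L := L) h1 h2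
    (by rw [hLdef]; nlinarith) (by rw [hlen']; nlinarith)
  have hG : ContDiff ℝ ∞ (fun c => S.F i j (τ c)) := (S.smoothF i j hi hj).comp hτ
  have hYX : 0 < Y - X := by linarith
  have hst : ∀ c ∈ Icc X Y, ∀ a, 1 ≤ a → a ≤ S.k →
      (Y - X) ^ a * ‖iteratedDeriv a (fun c => S.F i j (τ c)) c‖ ≤ 2 * S.E * S.r := by
    intro c hc a ha1 ha2
    exact S.step i j hi hj hd τ hτ c (Y - X) S.r hYX S.hr le_rfl
      (fun a ha1 ha2 => hN a ha1 ha2 c hc) a ha1 ha2
  have hk0 : (0 : ℝ) < (c0 : ℝ) ^ S.k := by positivity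
  have hk1 : 1 ≤ S.k := le_trans (by norm_num) S.hk
  have key := hL (fun c => S.F i j (τ c)) hG X' (X' + L) S.r z (by linarith)
    (fun c hc => hz c ⟨hX1.trans hc.1, hc.2.trans hX4⟩)
    (by
      intro c hc
      have h3 := hst c ⟨hX1.trans hc.1, hc.2.trans hX4⟩ S.k hk1 le_rfl
      rw [hlen', mul_pow] at h3
      have h4 : 2 * S.E * S.r ≤ (c0 : ℝ) ^ S.k * S.r :=
        mul_le_mul_of_nonneg_right hE S.hr.le
      have h5 : (c0 : ℝ) ^ S.k * (L ^ S.k * ‖iteratedDeriv S.k (fun c => S.F i j (τ c)) c‖) ≤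
          (c0 : ℝ) ^ S.k * S.r := by
        rw [← mul_assoc]; exact h3.trans h4
      have h6 := le_of_mul_le_mul_left h5 hk0
      have h7 : X' + L - X' = L := by ring
      rw [h7]; exact h6)
  intro a ha1 ha2 c hc
  have h3 := key a ha1 ha2 c ⟨hX2.trans hc.1, hc.2.trans hX3⟩
  have h7 : X' + L - X' = L := by ring
  rw [h7, hLdef, mul_pow] at h3
  have h8 : (CL : ℝ) ≤ (CL : ℝ) ^ a := by
    calc (CL : ℝ) = (CL : ℝ) ^ 1 := (pow_one _).symm
      _ ≤ (CL : ℝ) ^ a := pow_le_pow_right₀ hCL' ha1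
  have h9 : 0 ≤ (y - x) ^ a * ‖iteratedDeriv a (fun c => S.F i j (τ c)) c‖ := by positivity
  have h10 : (CL : ℝ) * ((y - x) ^ a * ‖iteratedDeriv a (fun c => S.F i j (τ c)) c‖) ≤
      CL * S.r := by
    refine le_trans (mul_le_mul_of_nonneg_right h8 h9) ?_
    rw [← mul_assoc]; exact h3
  exact le_of_mul_le_mul_left h10 (by linarith)

/-- Confinement of one coordinate. -/
private lemma nos_confine {φ : ℝ → ℝ} {x y r o0 : ℝ} (hr : 0 < r) (hxy : x ≤ y) (l : ℤ)
    (hl1 : o0 + l * r ≤ φ x) (hl2 : φ x < o0 + (l + 1) * r)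
    (hs : ∀ l' : ℤ, l - 1 ≤ l' → l' ≤ l + 2 → (∀ c ∈ Icc x y, φ c < o0 + l' * r + r / 8) ∨
      (∀ c ∈ Icc x y, o0 + l' * r - r / 8 < φ c)) :
    ∃ m, ∀ c ∈ Icc x y, |φ c - m| ≤ 5 * r / 8 := by
  have hx : x ∈ Icc x y := ⟨le_rfl, hxy⟩
  have e2 : ∀ c ∈ Icc x y, φ c < o0 + (l + 2) * r + r / 8 := by
    rcases hs (l + 2) (by omega) le_rfl with h | h
    · intro c hc
      have := h c hc
      push_cast at this
      exact this
    · have := h x hx
      push_cast at this
      nlinarith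
  have e1 : ∀ c ∈ Icc x y, o0 + (l - 1) * r - r / 8 < φ c := by
    rcases hs (l - 1) le_rfl (by omega) with h | h
    · have := h x hx
      push_cast at this
      nlinarith
    · intro c hc
      have := h c hc
      push_cast at this
      exact this
  rcases hs l (by omega) (by omega) with h | h
  · refine ⟨o0 + (l - 1) * r + r / 2, fun c hc => ?_⟩
    have h3 := h c hc
    have h4 := e1 c hc
    rw [abs_le]
    constructor <;> nlinarith
  · rcases hs (l + 1) (by omega) (by omega) with h' | h'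
    · refine ⟨o0 + l * r + r / 2, fun c hc => ?_⟩
      have h3 := h' c hc
      have h4 := h c hc
      push_cast at h3
      rw [abs_le]
      constructor <;> nlinarith
    · refine ⟨o0 + (l + 1) * r + r / 2, fun c hc => ?_⟩
      have h3 := h' c hc
      have h4 := e2 c hc
      push_cast at h3
      rw [abs_le]
      constructor <;> nlinarith

private lemma nos_coord_sub (p : Bool) (z w : ℂ) : |coord p z - coord p w| ≤ ‖z - w‖ := by
  cases p
  · simpa [coord] using Complex.abs_re_le_norm (z - w)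
  · simpa [coord] using Complex.abs_im_le_norm (z - w)

private lemma nos_norm_le {z : ℂ} {r m m' : ℝ} (hr : 0 < r) (h1 : |z.re - m| ≤ 5 * r / 8)
    (h2 : |z.im - m'| ≤ 5 * r / 8) : ‖z - ⟨m, m'⟩‖ ≤ r := by
  have h3 : ‖z - ⟨m, m'⟩‖ ^ 2 ≤ r ^ 2 := by
    rw [Complex.sq_norm, Complex.normSq_apply]
    simp only [Complex.sub_re, Complex.sub_im]
    have h4 : (z.re - m) * (z.re - m) ≤ (5 * r / 8) * (5 * r / 8) := by
      rw [← abs_mul_abs_self (z.re - m)]
      exact mul_le_mul h1 h1 (abs_nonneg _) (by positivity)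
    have h5 : (z.im - m') * (z.im - m') ≤ (5 * r / 8) * (5 * r / 8) := by
      rw [← abs_mul_abs_self (z.im - m')]
      exact mul_le_mul h2 h2 (abs_nonneg _) (by positivity)
    nlinarith
  exact (pow_le_pow_iff_left₀ (norm_nonneg _) hr.le (by norm_num)).1 h3

private def nosPath (i j t : ℕ) : ℕ := if i ≤ j then i + t else i - t

private lemma nosPath_le {i j t N : ℕ} (hi : i ≤ N) (hj : j ≤ N) (ht : t ≤ Nat.dist i j) :
    nosPath i j t ≤ N := by
  unfold nosPath Nat.dist at *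
  split_ifs <;> omega

private lemma nosPath_dist {i j t : ℕ} (ht : t ≤ Nat.dist i j) :
    Nat.dist i (nosPath i j t) = t := by
  unfold nosPath Nat.dist at *
  split_ifs <;> omega

private lemma nosPath_step {i j t : ℕ} (ht : t + 1 ≤ Nat.dist i j) :
    Nat.dist (nosPath i j t) (nosPath i j (t + 1)) = 1 := by
  unfold nosPath Nat.dist at *
  split_ifs <;> omega

private lemma nosPath_zero (i j : ℕ) : nosPath i j 0 = i := by
  unfold nosPath
  split_ifs <;> omega

private lemma nosPath_end (i j : ℕ) : nosPath i j (Nat.dist i j) = j := by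
  unfold nosPath Nat.dist
  split_ifs <;> omega

/-- The levels near a value. -/
private noncomputable def nosLev (o0 r s w : ℝ) : Finset ℤ :=
  Finset.Icc ⌈(s - w - o0) / r⌉ ⌊(s + w - o0) / r⌋

private lemma nosLev_card {o0 r s w : ℝ} {nl : ℕ}
    (h : 2 * w / r + 1 ≤ nl) : (nosLev o0 r s w).card ≤ nl := by
  unfold nosLev
  rw [Int.card_Icc]
  have h1 := Int.floor_le ((s + w - o0) / r)
  have h2 := Int.le_ceil ((s - w - o0) / r)
  have h3 : (s + w - o0) / r - (s - w - o0) / r = 2 * w / r := by ring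
  have h4 : ((⌊(s + w - o0) / r⌋ + 1 - ⌈(s - w - o0) / r⌉ : ℤ) : ℝ) ≤ (nl : ℤ) := by
    push_cast
    linarith
  have h5 : ⌊(s + w - o0) / r⌋ + 1 - ⌈(s - w - o0) / r⌉ ≤ (nl : ℤ) := by exact_mod_cast h4
  omega

private lemma mem_nosLev {o0 r s w : ℝ} (hr : 0 < r) {l : ℤ} (h1 : s - w - o0 ≤ l * r)
    (h2 : l * r ≤ s + w - o0) : l ∈ nosLev o0 r s w := by
  unfold nosLev
  rw [Finset.mem_Icc, Int.ceil_le, Int.le_floor, div_le_iff₀ hr, le_div_iff₀ hr]
  exact ⟨h1, h2⟩

/-- T6. From separation cut sets at all intermediate times to niceness (local Yomdin step). -/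
theorem pNice_of_pSep (k : ℕ) (hk : 2 ≤ k) : ∃ CL : ℕ, 1 ≤ CL ∧ ∀ S : DSys, S.k = k →
    ∀ (o : Bool → ℝ) (n b nl c0 : ℕ) (ν : ℝ), 0 < ν → n ≤ S.N → 2 * S.U / S.r + 7 ≤ nl →
    2 * S.E ≤ (c0 : ℝ) ^ k → PSep S o n ν b →
    PNice S n ν (((n + 1) * (2 * nl) * b + 2) * ((CL * c0) ^ n + 1)) := by
  obtain ⟨CL, hCL, hL⟩ := landau k
  refine ⟨CL, hCL, ?_⟩
  intro S hSk o n b nl c0 ν hν hn hnl hE hP i j hi hj hd σ a a' hσ hνa
  subst hSk
  obtain ⟨hσs, haa', hσN, hσD⟩ := hσ
  have hc0 : 1 ≤ c0 := by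
    rcases Nat.eq_zero_or_pos c0 with h | h
    · subst h
      have h1 := S.hE
      have h2 : ((0 : ℕ) : ℝ) ^ S.k = 0 := by
        rw [Nat.cast_zero]
        exact zero_pow (by have := S.hk; omega)
      rw [h2] at hE
      linarith
    · exact h
  have hCL' : (1 : ℝ) ≤ CL := by exact_mod_cast hCL
  have hc0' : (1 : ℝ) ≤ c0 := by exact_mod_cast hc0
  have hNY : (1 : ℝ) ≤ (CL : ℝ) * c0 := by nlinarith
  set d := Nat.dist i j with hddef
  have hr := S.hr
  -- the separation cut sets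
  have hPex : ∀ (t : ℕ) (p : Bool) (l : ℤ), ∃ Z : Finset ℝ, Z.card ≤ b ∧ (t ≤ d →
      ∀ x y, a ≤ x → x < y → y ≤ a' → Free Z x y →
      (∀ c ∈ Icc x y, coord p (S.F i (nosPath i j t) (σ c)) < lev S o p l + S.r / 8) ∨
      (∀ c ∈ Icc x y, lev S o p l - S.r / 8 < coord p (S.F i (nosPath i j t) (σ c)))) := by
    intro t p l
    by_cases ht : t ≤ d
    · obtain ⟨Z, hZ1, hZ2⟩ := hP i (nosPath i j t) hi (nosPath_le hi hj ht)
        (by rw [nosPath_dist ht]; omega) σ a a' ⟨hσs, haa', hσN, hσD⟩ hνa p l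
      exact ⟨Z, hZ1, fun _ => hZ2⟩
    · exact ⟨∅, by simp, fun h => absurd h ht⟩
  choose Zf hZc hZs using hPex
  set w : ℝ := S.U + 3 * S.r with hw
  have hw0 : 0 ≤ w := by
    have := S.hU
    rw [hw]; positivity
  have hwnl : 2 * w / S.r + 1 ≤ nl := by
    have h1 : 2 * w / S.r + 1 = 2 * S.U / S.r + 7 := by
      rw [hw]
      field_simp
      ring
    rw [h1]; exact hnl
  let Lv : Bool → Finset ℤ := fun p => nosLev (o p) S.r (coord p (σ a)) w
  have hLv : ∀ p, (Lv p).card ≤ nl := fun p => nosLev_card hwnl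
  set Z0 : Finset ℝ := (Finset.range (n + 1)).biUnion fun t =>
    (Finset.univ : Finset Bool).biUnion fun p => (Lv p).biUnion fun l => Zf t p l with hZ0
  have hZ0c : Z0.card ≤ (n + 1) * (2 * nl) * b := by
    have h1 : Z0.card ≤ (Finset.range (n + 1)).card * (2 * (nl * b)) := by
      rw [hZ0]
      refine Finset.card_biUnion_le_card_mul _ _ _ fun t _ => ?_
      have h2 : ((Finset.univ : Finset Bool).biUnion fun p =>
          (Lv p).biUnion fun l => Zf t p l).card ≤ (Finset.univ : Finset Bool).card * (nl * b) := by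
        refine Finset.card_biUnion_le_card_mul _ _ _ fun p _ => ?_
        have h3 : ((Lv p).biUnion fun l => Zf t p l).card ≤ (Lv p).card * b :=
          Finset.card_biUnion_le_card_mul _ _ _ fun l _ => hZc t p l
        exact h3.trans (Nat.mul_le_mul_right b (hLv p))
      simpa using h2
    rw [Finset.card_range] at h1
    calc Z0.card ≤ (n + 1) * (2 * (nl * b)) := h1
      _ = (n + 1) * (2 * nl) * b := by ring
  set ZS : Finset ℝ := (insert a (insert a' Z0)).filter (fun z => a ≤ z ∧ z ≤ a') with hZS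
  have hZSc : ZS.card ≤ (n + 1) * (2 * nl) * b + 2 := by
    have h1 : ZS.card ≤ (insert a (insert a' Z0)).card := Finset.card_filter_le _ _
    have h2 := Finset.card_insert_le a (insert a' Z0)
    have h3 := Finset.card_insert_le a' Z0
    omega
  have hK : 1 ≤ (CL * c0) ^ n := Nat.one_le_pow _ _ (Nat.mul_pos hCL hc0)
  obtain ⟨Z', hZ'1, hZ'2, hZ'3⟩ := refine ZS ((CL * c0) ^ n) hK a a' haa'
    (by rw [hZS, Finset.mem_filter]; exact ⟨by simp, le_rfl, haa'.le⟩)
    (by rw [hZS, Finset.mem_filter]; exact ⟨by simp, haa'.le, le_rfl⟩)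
    (fun z hz => by rw [hZS, Finset.mem_filter] at hz; exact hz.2)
  refine ⟨Z', hZ'2.trans (Nat.mul_le_mul_right _ hZSc), ?_⟩
  intro x y hax hxy hya hfree
  obtain ⟨x', y', hx'Z, hy'Z, hax', hx'x, hyy', hy'a, hfr, hlen⟩ := hZ'3 x y hax hxy hya hfree
  have hx'y' : x' < y' := by linarith
  -- the images stay in small balls
  have hsa : ∀ c ∈ Icc a a', ‖σ c - σ a‖ ≤ S.r := by
    intro c hc
    have h1 : ∀ x ∈ Icc a a', ‖deriv σ x‖ ≤ S.r / (a' - a) := by
      intro x hx
      have h2 := hσN 1 le_rfl (le_trans (by norm_num) S.hk) x hx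
      rw [pow_one, iteratedDeriv_one] at h2
      rw [le_div_iff₀ (by linarith), mul_comm]
      exact h2
    have h2 := Convex.norm_image_sub_le_of_norm_deriv_le (𝕜 := ℝ) (f := σ) (s := Icc a a')
      (x := a) (y := c) (fun x _ => (hσs.differentiable (by simp)).differentiableAt) h1
      (convex_Icc a a') ⟨le_rfl, haa'.le⟩ hc
    refine h2.trans ?_
    rw [Real.norm_eq_abs, abs_of_nonneg (by linarith [hc.1])]
    have h3 : c - a ≤ a' - a := by linarith [hc.2]
    calc S.r / (a' - a) * (c - a) ≤ S.r / (a' - a) * (a' - a) :=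
          mul_le_mul_of_nonneg_left h3 (div_nonneg hr.le (by linarith))
      _ = S.r := div_mul_cancel₀ _ (by linarith)
  have hball : ∀ t, t ≤ d → ∃ z : ℂ, ∀ c ∈ Icc x' y',
      ‖S.F i (nosPath i j t) (σ c) - z‖ ≤ S.r := by
    intro t ht
    have hcoord : ∀ p : Bool, ∃ m : ℝ, ∀ c ∈ Icc x' y',
        |coord p (S.F i (nosPath i j t) (σ c)) - m| ≤ 5 * S.r / 8 := by
      intro p
      set φ : ℝ → ℝ := fun c => coord p (S.F i (nosPath i j t) (σ c)) with hφ
      have hx'mem : x' ∈ Icc a a' := ⟨hax', by linarith⟩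
      have h1 : |φ x' - coord p (σ a)| ≤ S.U + S.r := by
        have h2 := nos_coord_sub p (S.F i (nosPath i j t) (σ x')) (σ a)
        have h3 : ‖S.F i (nosPath i j t) (σ x') - σ a‖ ≤ S.U + S.r := by
          calc ‖S.F i (nosPath i j t) (σ x') - σ a‖
              = ‖(S.F i (nosPath i j t) (σ x') - σ x') + (σ x' - σ a)‖ := by ring_nf
            _ ≤ ‖S.F i (nosPath i j t) (σ x') - σ x'‖ + ‖σ x' - σ a‖ := norm_add_le _ _
            _ ≤ S.U + S.r := add_le_add (S.disp i _ hi (nosPath_le hi hj ht) _) (hsa x' hx'mem)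
        exact h2.trans h3
      rw [abs_le] at h1
      set l : ℤ := ⌊(φ x' - o p) / S.r⌋ with hl
      have hl1 : (l : ℝ) * S.r ≤ φ x' - o p := by
        have := Int.floor_le ((φ x' - o p) / S.r)
        rw [← hl] at this
        rwa [le_div_iff₀ hr] at this
      have hl2 : φ x' - o p < ((l : ℝ) + 1) * S.r := by
        have := Int.lt_floor_add_one ((φ x' - o p) / S.r)
        rw [← hl] at this
        rwa [div_lt_iff₀ hr] at this
      refine nos_confine (φ := φ) (o0 := o p) hr hx'y'.le l (by linarith) (by linarith) ?_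
      intro l' hl'1 hl'2
      have hl'1' : (l : ℝ) - 1 ≤ l' := by exact_mod_cast hl'1
      have hl'2' : (l' : ℝ) ≤ l + 2 := by exact_mod_cast hl'2
      have hmem : l' ∈ Lv p := by
        refine mem_nosLev hr ?_ ?_
        · have h5 : ((l : ℝ) - 1) * S.r ≤ l' * S.r := mul_le_mul_of_nonneg_right hl'1' hr.le
          rw [hw]
          nlinarith [h1.1, h1.2]
        · have h5 : (l' : ℝ) * S.r ≤ (l + 2) * S.r := mul_le_mul_of_nonneg_right hl'2' hr.le
          rw [hw]
          nlinarith [h1.1, h1.2]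
      have hfr' : Free (Zf t p l') x' y' := by
        intro z hz hzz
        refine hfr z ?_ hzz
        rw [hZS, Finset.mem_filter]
        refine ⟨?_, by linarith [hzz.1], by linarith [hzz.2]⟩
        refine Finset.mem_insert_of_mem (Finset.mem_insert_of_mem ?_)
        rw [hZ0]
        simp only [Finset.mem_biUnion, Finset.mem_range, Finset.mem_univ, true_and]
        exact ⟨t, by omega, p, l', hmem, hz⟩
      exact hZs t p l' ht x' y' hax' hx'y' hy'a hfr'
    obtain ⟨m, hm⟩ := hcoord false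
    obtain ⟨m', hm'⟩ := hcoord true
    refine ⟨⟨m, m'⟩, fun c hc => nos_norm_le hr ?_ ?_⟩
    · simpa [coord] using hm c hc
    · simpa [coord] using hm' c hc
  -- induction along the path
  have hind : ∀ t, t ≤ d → ∀ X Y, x' ≤ X → X < Y → Y ≤ y' →
      ((CL : ℝ) * c0) ^ t * (Y - X) ≤ y' - x' →
      Nice S.k S.r (fun c => S.F i (nosPath i j t) (σ c)) X Y := by
    intro t
    induction t with
    | zero =>
      intro _ X Y h1 h2 h3 _
      have h4 : (fun c => S.F i (nosPath i j 0) (σ c)) = σ := by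
        funext c
        rw [nosPath_zero, S.F_self i hi]
      rw [h4]
      exact nos_sub hσN (hax'.trans h1) h2.le (h3.trans hy'a)
    | succ t ih =>
      intro ht X Y h1 h2 h3 h4
      have hYX : 0 < Y - X := by linarith
      have hp1 : (1 : ℝ) ≤ ((CL : ℝ) * c0) ^ t := one_le_pow₀ hNY
      have h5 : (CL : ℝ) * c0 * (Y - X) ≤ y' - x' := by
        refine le_trans ?_ h4
        rw [pow_succ]
        have : 0 ≤ (CL : ℝ) * c0 * (Y - X) := by positivity
        nlinarith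
      obtain ⟨X1, hX1, hX2, hX3, hX4⟩ := nos_sub_interval (x' := x') (x := X) (y := Y) (y' := y')
        (L := (CL : ℝ) * c0 * (Y - X)) h1 h3 (by nlinarith) h5
      have hN1 := ih (by omega) X1 (X1 + (CL : ℝ) * c0 * (Y - X)) hX1
        (by have : 0 < (CL : ℝ) * c0 * (Y - X) := by positivity
            linarith) hX4
        (by
          have e : X1 + (CL : ℝ) * c0 * (Y - X) - X1 = (CL : ℝ) * c0 * (Y - X) := by ring
          rw [e]
          calc ((CL : ℝ) * c0) ^ t * ((CL : ℝ) * c0 * (Y - X))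
              = ((CL : ℝ) * c0) ^ (t + 1) * (Y - X) := by rw [pow_succ]; ring
            _ ≤ y' - x' := h4)
      obtain ⟨z, hz⟩ := hball (t + 1) ht
      have hpt : nosPath i j t ≤ S.N := nosPath_le hi hj (by omega)
      have hpt1 : nosPath i j (t + 1) ≤ S.N := nosPath_le hi hj ht
      have hcomp : ∀ c, S.F (nosPath i j t) (nosPath i j (t + 1)) (S.F i (nosPath i j t) (σ c)) =
          S.F i (nosPath i j (t + 1)) (σ c) := fun c => S.F_comp i _ _ hi hpt hpt1 _
      have h6 := nos_step S hCL hc0 hL hE hpt hpt1 (nosPath_step ht)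
        (τ := fun c => S.F i (nosPath i j t) (σ c)) ((S.smoothF i _ hi hpt).comp hσs) z h2 hX2 hX3
        (by ring) hN1
        (by
          intro c hc
          rw [hcomp]
          exact hz c ⟨hX1.trans hc.1, hc.2.trans hX4⟩)
      simp only [hcomp] at h6
      exact h6
  have hfin := hind d le_rfl x y hx'x hxy hyy' (by
    have h1 : ((CL : ℝ) * c0) ^ d ≤ ((CL : ℝ) * c0) ^ n := pow_le_pow_right₀ hNY hd
    have h2 : (((CL * c0) ^ n : ℕ) : ℝ) = ((CL : ℝ) * c0) ^ n := by push_cast; ring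
    rw [h2] at hlen
    refine le_trans ?_ hlen
    exact mul_le_mul_of_nonneg_right h1 (by linarith))
  rw [hddef, nosPath_end] at hfin
  exact hfin

end Pool.Agent.ES38
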