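import Pool.Agent.ES38.MainBound
open Set Real
open scoped ContDiff
namespace Pool.Agent.ES38

/-- `f N ≤ C exp (x N)` for some constant. -/
def SE (x : ℝ) (f : ℕ → ℝ) : Prop := ∃ C : ℝ, 0 < C ∧ ∀ N : ℕ, f N ≤ C * Real.exp (x * N)

theorem SE.of_le {x : ℝ} {f g : ℕ → ℝ} (h : SE x g) (hfg : ∀ N, f N ≤ g N) : SE x f := by
  obtain ⟨C, hC, h⟩ := h
  exact ⟨C, hC, fun N => (hfg N).trans (h N)⟩

theorem SE.mono {x y : ℝ} {f : ℕ → ℝ} (h : SE x f) (hxy : x ≤ y) : SE y f := by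
  obtain ⟨C, hC, h⟩ := h
  refine ⟨C, hC, fun N => (h N).trans ?_⟩
  have : x * N ≤ y * N := mul_le_mul_of_nonneg_right hxy (Nat.cast_nonneg N)
  have := Real.exp_le_exp.mpr this
  nlinarith

theorem SE.add {x : ℝ} {f g : ℕ → ℝ} (hf : SE x f) (hg : SE x g) :
    SE x (fun N => f N + g N) := by
  obtain ⟨C, hC, hf⟩ := hf
  obtain ⟨C', hC', hg⟩ := hg
  refine ⟨C + C', by linarith, fun N => ?_⟩
  have := hf N
  have := hg N
  simp only
  linarith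

theorem SE.mul {x y : ℝ} {f g : ℕ → ℝ} (hf : SE x f) (hg : SE y g) (g0 : ∀ N, 0 ≤ g N) :
    SE (x + y) (fun N => f N * g N) := by
  obtain ⟨C, hC, hf⟩ := hf
  obtain ⟨C', hC', hg⟩ := hg
  refine ⟨C * C', by positivity, fun N => ?_⟩
  have h1 := mul_le_mul_of_nonneg_right (hf N) (g0 N)
  have h2 : C * Real.exp (x * N) * g N ≤ C * Real.exp (x * N) * (C' * Real.exp (y * N)) :=
    mul_le_mul_of_nonneg_left (hg N) (by positivity)
  refine (h1.trans h2).trans (le_of_eq ?_)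
  rw [add_mul, Real.exp_add]
  ring

theorem SE.const (c : ℝ) {x : ℝ} (hx : 0 ≤ x) : SE x (fun _ => c) := by
  refine ⟨|c| + 1, by positivity, fun N => ?_⟩
  have h1 : 1 ≤ Real.exp (x * N) := Real.one_le_exp (by positivity)
  have h2 := le_abs_self c
  have h3 := abs_nonneg c
  simp only
  nlinarith

theorem SE.exp (x : ℝ) : SE x (fun N : ℕ => Real.exp (x * N)) :=
  ⟨1, one_pos, fun N => by simp⟩

theorem SE.pow {x : ℝ} {f : ℕ → ℝ} (hf : SE x f) (f0 : ∀ N, 0 ≤ f N) (n : ℕ) :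
    SE (n * x) (fun N => f N ^ n) := by
  obtain ⟨C, hC, hf⟩ := hf
  refine ⟨C ^ n, by positivity, fun N => ?_⟩
  have h1 := pow_le_pow_left₀ (f0 N) (hf N) n
  refine h1.trans (le_of_eq ?_)
  rw [mul_pow, ← Real.exp_nat_mul]
  congr 2
  ring

theorem SE.natCast {x : ℝ} (hx : 0 < x) : SE x (fun N : ℕ => (N : ℝ)) := by
  refine ⟨1 / x, by positivity, fun N => ?_⟩
  have h1 : x * N + 1 ≤ Real.exp (x * N) := Real.add_one_le_exp _
  have h2 : (N : ℝ) = 1 / x * (x * N) := by field_simp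
  have h3 : 1 / x * (x * N) ≤ 1 / x * Real.exp (x * N) :=
    mul_le_mul_of_nonneg_left (by linarith) (by positivity)
  simp only
  linarith

theorem SE.rpow {x : ℝ} {f : ℕ → ℝ} (hf : SE x f) (f0 : ∀ N, 0 ≤ f N) {θ : ℝ} (hθ : 0 ≤ θ) :
    SE (θ * x) (fun N => f N ^ θ) := by
  obtain ⟨C, hC, hf⟩ := hf
  refine ⟨C ^ θ, by positivity, fun N => ?_⟩
  have h1 := Real.rpow_le_rpow (f0 N) (hf N) hθ
  refine h1.trans (le_of_eq ?_)
  rw [Real.mul_rpow hC.le (Real.exp_pos _).le, ← Real.exp_mul]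
  congr 2
  ring

theorem SE.log {x y : ℝ} {f : ℕ → ℝ} (hf : SE x f) (f0 : ∀ N, 0 < f N) (hy : 0 < y) :
    SE y (fun N => 1 + Real.log (f N)) := by
  obtain ⟨C, hC, hf⟩ := hf
  have h1 : SE y (fun N : ℕ => 1 + |Real.log C|) := SE.const _ hy.le
  have h2 : SE y (fun N : ℕ => |x| * N) := by
    have := (SE.const |x| le_rfl).mul (SE.natCast hy) (fun N => Nat.cast_nonneg N)
    simpa using this
  refine (h1.add h2).of_le fun N => ?_
  have h3 := Real.log_le_log (f0 N) (hf N)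
  rw [Real.log_mul hC.ne' (Real.exp_pos _).ne', Real.log_exp] at h3
  have h4 := le_abs_self (Real.log C)
  have h5 : x * N ≤ |x| * N := mul_le_mul_of_nonneg_right (le_abs_self x) (Nat.cast_nonneg N)
  linarith

theorem SE.ceil {x : ℝ} {f : ℕ → ℝ} (hf : SE x f) (f0 : ∀ N, 0 ≤ f N) (hx : 0 ≤ x) :
    SE x (fun N => (⌈f N⌉₊ : ℝ)) :=
  (hf.add (SE.const 1 hx)).of_le fun N => (Nat.ceil_lt_add_one (f0 N)).le

theorem SE.floor {x : ℝ} {f : ℕ → ℝ} (hf : SE x f) (f0 : ∀ N, 0 ≤ f N) :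
    SE x (fun N => (⌊f N⌋₊ : ℝ)) :=
  hf.of_le fun N => Nat.floor_le (f0 N)

end Pool.Agent.ES38
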